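import Pool.Agent.Lib.MP_7e112f_co.CoreB

/-!
# MP_7e112f_co, EG module Ach: composition of guarded trees
-/

open Set

namespace MP7e112f

open BT

/-- The vertex `k` is guarded by the edges of `E`. -/
theorem good_vertex {p : ℕ → ℂ} {S : Set ℂ} {E : Finset ℕ} {k : ℕ} {y : ℂ}
    (hk : k ∈ E ∨ (0 < k ∧ k - 1 ∈ E)) (h : segment ℝ (p k) y ⊆ S) :
    ∃ j ∈ E, ∃ x ∈ segment ℝ (p j) (p (j + 1)), segment ℝ x y ⊆ S := by
  rcases hk with hk | ⟨h0, hk⟩
  · exact ⟨k, hk, p k, left_mem_segment ℝ _ _, h⟩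
  · refine ⟨k - 1, hk, p k, ?_, h⟩
    have : k - 1 + 1 = k := by omega
    rw [this]
    exact right_mem_segment ℝ _ _

theorem Ach.mono {p : ℕ → ℂ} {t : BT} {o m m' : ℕ} {a b : Fin 3} (h : Ach p t o a b m)
    (hm : m ≤ m') : Ach p t o a b m' := by
  obtain ⟨E, h1, h2, h3⟩ := h
  exact ⟨E, h1, h2.trans hm, h3⟩

/-- A guard at the first leaf may be forgotten. -/
theorem Ach.a10 {p : ℕ → ℂ} {t : BT} {o m : ℕ} {b : Fin 3} (h : Ach p t o 1 b m) :
    Ach p t o 0 b m := by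
  obtain ⟨E, h1, h2, h3, h4, h5⟩ := h
  refine ⟨E, h1, h2, fun h => absurd h (by decide), h4, fun y hy => ?_⟩
  rcases h5 y hy with h6 | h6 | h6
  · exact Or.inl h6
  · exact absurd h6.1 (by decide)
  · exact Or.inr (Or.inr h6)

theorem Ach.b10 {p : ℕ → ℂ} {t : BT} {o m : ℕ} {a : Fin 3} (h : Ach p t o a 1 m) :
    Ach p t o a 0 m := by
  obtain ⟨E, h1, h2, h3, h4, h5⟩ := h
  refine ⟨E, h1, h2, h3, fun h => absurd h (by decide), fun y hy => ?_⟩
  rcases h5 y hy with h6 | h6 | h6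
  · exact Or.inl h6
  · exact Or.inr (Or.inl h6)
  · exact absurd h6.1 (by decide)

theorem Ach.a02 {p : ℕ → ℂ} {t : BT} {o m : ℕ} {b : Fin 3} (h : Ach p t o 0 b m) :
    Ach p t o 2 b m := by
  obtain ⟨E, h1, h2, h3, h4, h5⟩ := h
  refine ⟨E, h1, h2, fun h => absurd h (by decide), h4, fun y hy => ?_⟩
  rcases h5 y hy with h6 | h6 | h6
  · exact Or.inl h6
  · exact absurd h6.1 (by decide)
  · exact Or.inr (Or.inr h6)

theorem Ach.b02 {p : ℕ → ℂ} {t : BT} {o m : ℕ} {a : Fin 3} (h : Ach p t o a 0 m) :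
    Ach p t o a 2 m := by
  obtain ⟨E, h1, h2, h3, h4, h5⟩ := h
  refine ⟨E, h1, h2, h3, fun h => absurd h (by decide), fun y hy => ?_⟩
  rcases h5 y hy with h6 | h6 | h6
  · exact Or.inl h6
  · exact Or.inr (Or.inl h6)
  · exact absurd h6.1 (by decide)

/-- Add the first leaf to the guards. -/
theorem Ach.a01 {p : ℕ → ℂ} {t : BT} {o m : ℕ} {b : Fin 3} (h : Ach p t o 0 b m) :
    Ach p t o 1 b (m + 1) := by
  obtain ⟨E, h1, h2, h3, h4, h5⟩ := h
  have := t.sz_pos
  refine ⟨insert o E, ?_, (Finset.card_insert_le _ _).trans (by omega),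
    fun _ => Finset.mem_insert_self _ _, fun h => Finset.mem_insert_of_mem (h4 h), fun y hy => ?_⟩
  · intro x hx
    rcases Finset.mem_insert.1 hx with rfl | hx
    · exact Finset.mem_Ico.2 ⟨le_rfl, by omega⟩
    · exact h1 hx
  · rcases h5 y hy with ⟨j, hj, h6⟩ | h6 | h6
    · exact Or.inl ⟨j, Finset.mem_insert_of_mem hj, h6⟩
    · exact absurd h6.1 (by decide)
    · exact Or.inr (Or.inr h6)

theorem Ach.b01 {p : ℕ → ℂ} {t : BT} {o m : ℕ} {a : Fin 3} (h : Ach p t o a 0 m) :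
    Ach p t o a 1 (m + 1) := by
  obtain ⟨E, h1, h2, h3, h4, h5⟩ := h
  have := t.sz_pos
  refine ⟨insert (o + t.sz - 1) E, ?_, (Finset.card_insert_le _ _).trans (by omega),
    fun h => Finset.mem_insert_of_mem (h3 h), fun _ => Finset.mem_insert_self _ _, fun y hy => ?_⟩
  · intro x hx
    rcases Finset.mem_insert.1 hx with rfl | hx
    · exact Finset.mem_Ico.2 ⟨by omega, by omega⟩
    · exact h1 hx
  · rcases h5 y hy with ⟨j, hj, h6⟩ | h6 | h6
    · exact Or.inl ⟨j, Finset.mem_insert_of_mem hj, h6⟩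
    · exact Or.inr (Or.inl h6)
    · exact absurd h6.1 (by decide)

/-- Leaves need no guards. -/
theorem Ach.leaf0 (p : ℕ → ℂ) (o : ℕ) : Ach p leaf o 0 0 0 :=
  ⟨∅, by simp, by simp, fun h => absurd h (by decide), fun h => absurd h (by decide),
    fun y hy => absurd hy (by simp [reg])⟩

theorem Ach.leaf1 (p : ℕ → ℂ) (o : ℕ) (a b : Fin 3) : Ach p leaf o a b 1 :=
  ⟨{o}, by simp [sz], by simp, fun _ => by simp, fun _ => by simp [sz],
    fun y hy => absurd hy (by simp [reg])⟩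

/-- Composition of two trees. The pair of the states of the common vertex is `(0, 0)`, `(1, 2)`,
`(2, 1)` or `(1, 1)`. -/
theorem Ach.comp {p : ℕ → ℂ} {l r : BT} {o m₁ m₂ : ℕ} {a b s₁ s₂ : Fin 3}
    (hpos : Pos p (node l r) o) (h₁ : Ach p l o a s₁ m₁) (h₂ : Ach p r (o + l.sz) s₂ b m₂)
    (hs : (s₁ = 0 ∧ s₂ = 0 ∧ (a ≠ 0 ∨ b ≠ 0)) ∨ (s₁ = 1 ∧ s₂ = 2) ∨ (s₁ = 2 ∧ s₂ = 1) ∨
      (s₁ = 1 ∧ s₂ = 1)) : Ach p (node l r) o a b (m₁ + m₂) := by
  obtain ⟨E, a1, a2, a3, a4, a5⟩ := h₁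
  obtain ⟨F, b1, b2, b3, b4, b5⟩ := h₂
  have hl := l.sz_pos
  have hr := r.sz_pos
  have hszr : (node l r).sz = l.sz + r.sz := rfl
  -- the common vertex is guarded unless the states are `0`
  have hmid : ¬ (s₁ = 0 ∧ s₂ = 0) →
      (o + l.sz ∈ E ∪ F ∨ (0 < o + l.sz ∧ o + l.sz - 1 ∈ E ∪ F)) := by
    intro h0
    rcases hs with hs | hs | hs | hs
    · exact absurd ⟨hs.1, hs.2.1⟩ h0
    · exact Or.inr ⟨by omega, Finset.mem_union_left _ (a4 hs.1)⟩
    · exact Or.inl (Finset.mem_union_right _ (b3 hs.2))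
    · exact Or.inr ⟨by omega, Finset.mem_union_left _ (a4 hs.1)⟩
  have hsub1 : reg p l o ⊆ reg p (node l r) o := fun y hy => Or.inl (Or.inr hy)
  have hsub2 : reg p r (o + l.sz) ⊆ reg p (node l r) o := fun y hy => Or.inr hy
  have hsub0 : Tri (p o) (p (o + l.sz)) (p (o + l.sz + r.sz)) ⊆ reg p (node l r) o :=
    fun y hy => Or.inl (Or.inl hy)
  have e1 : o + (node l r).sz = o + l.sz + r.sz := by rw [hszr]; omega
  refine ⟨E ∪ F, ?_, (Finset.card_union_le _ _).trans (by omega),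
    fun h => Finset.mem_union_left _ (a3 h), ?_, ?_⟩
  · intro x hx
    rcases Finset.mem_union.1 hx with hx | hx
    · have := Finset.mem_Ico.1 (a1 hx)
      exact Finset.mem_Ico.2 ⟨this.1, by omega⟩
    · have := Finset.mem_Ico.1 (b1 hx)
      exact Finset.mem_Ico.2 ⟨by omega, by omega⟩
  · intro h
    have := b4 h
    rw [e1]
    exact Finset.mem_union_right _ this
  · rintro y ((hy | hy) | hy)
    · -- the root triangle
      have hp := hpos.1
      by_cases h0 : s₁ = 0 ∧ s₂ = 0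
      · have hab : a ≠ 0 ∨ b ≠ 0 := by
          rcases hs with hs | hs | hs | hs
          · exact hs.2.2
          · rw [hs.1] at h0; exact absurd h0.1 (by decide)
          · rw [hs.1] at h0; exact absurd h0.1 (by decide)
          · rw [hs.1] at h0; exact absurd h0.1 (by decide)
        rcases hab with ha | hb
        · have hseg := (tri_seg (tri_mem₁ hp) hy).trans hsub0
          have ha' : a = 1 ∨ a = 2 := by
            revert ha; fin_cases a <;> simp
          rcases ha' with ha' | ha'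
          · exact Or.inl (good_vertex (Or.inl (Finset.mem_union_left _ (a3 ha'))) hseg)
          · exact Or.inr (Or.inl ⟨ha', hseg⟩)
        · have hseg := (tri_seg (tri_mem₃ hp) hy).trans hsub0
          have hb' : b = 1 ∨ b = 2 := by
            revert hb; fin_cases b <;> simp
          rcases hb' with hb' | hb'
          · refine Or.inl (good_vertex (Or.inr ⟨by omega, Finset.mem_union_right _ ?_⟩) hseg)
            exact b4 hb'
          · refine Or.inr (Or.inr ⟨hb', ?_⟩)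
            rw [e1]
            exact hseg
      · exact Or.inl (good_vertex (hmid h0) ((tri_seg (tri_mem₂ hp) hy).trans hsub0))
    · rcases a5 y hy with ⟨j, hj, x, hx, h6⟩ | ⟨h6, h7⟩ | ⟨h6, h7⟩
      · exact Or.inl ⟨j, Finset.mem_union_left _ hj, x, hx, h6.trans hsub1⟩
      · exact Or.inr (Or.inl ⟨h6, h7.trans hsub1⟩)
      · have h0 : ¬ (s₁ = 0 ∧ s₂ = 0) := by
          rintro ⟨h8, _⟩
          rw [h8] at h6
          exact absurd h6 (by decide)
        exact Or.inl (good_vertex (hmid h0) (h7.trans hsub1))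
    · rcases b5 y hy with ⟨j, hj, x, hx, h6⟩ | ⟨h6, h7⟩ | ⟨h6, h7⟩
      · exact Or.inl ⟨j, Finset.mem_union_right _ hj, x, hx, h6.trans hsub2⟩
      · have h0 : ¬ (s₁ = 0 ∧ s₂ = 0) := by
          rintro ⟨_, h8⟩
          rw [h8] at h6
          exact absurd h6 (by decide)
        exact Or.inl (good_vertex (hmid h0) (h7.trans hsub2))
      · refine Or.inr (Or.inr ⟨h6, ?_⟩)
        rw [e1]
        exact h7.trans hsub2

/-- The triangle with two leaves, the pentagon, and the 9-gon. -/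
def EE : BT := node leaf leaf

def WW : BT := node EE EE

def D8 : BT := node WW WW

theorem reg_D8 (p : ℕ → ℂ) (o : ℕ) : reg p D8 o = U9 (fun k => p (o + k)) := by
  simp only [D8, WW, EE, reg, sz, U9, union_empty]
  norm_num [Nat.add_assoc]

/-- The 9-gon needs two edges only. -/
theorem Ach.d8 {p : ℕ → ℂ} {o : ℕ} (hp : Pos p D8 o) (he : Emb p D8 o) : Ach p D8 o 0 0 2 := by
  have h9 : H9 (fun k => p (o + k)) := by
    simp only [D8, WW, EE, Pos, sz, and_true] at hp
    norm_num [Nat.add_assoc] at hp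
    obtain ⟨h1, ⟨h2, h3, h4⟩, h5, h6, h7⟩ := hp
    exact ⟨h1, h2, h3, h4, h5, h6, h7⟩
  have hd : Disjoint (oTri (p (o + 0)) (p (o + 2)) (p (o + 4)))
      (oTri (p (o + 4)) (p (o + 6)) (p (o + 8))) := by
    have h1 := he.1
    simp only [WW, EE, ireg, sz, union_empty] at h1
    norm_num [Nat.add_assoc] at h1
    exact h1.1.1.1.1
  obtain ⟨i, j, hi, hj, H⟩ := core h9 hd
  refine ⟨{o + i, o + j}, ?_, ?_, fun h => absurd h (by decide), fun h => absurd h (by decide),
    fun y hy => ?_⟩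
  · intro x hx
    have h8 : D8.sz = 8 := rfl
    rw [h8]
    rcases Finset.mem_insert.1 hx with rfl | hx
    · exact Finset.mem_Ico.2 ⟨by omega, by omega⟩
    · rw [Finset.mem_singleton.1 hx]
      exact Finset.mem_Ico.2 ⟨by omega, by omega⟩
  · exact Finset.card_le_two
  · rw [reg_D8] at hy ⊢
    left
    rcases H y hy with ⟨x, hx, hseg⟩ | ⟨x, hx, hseg⟩
    · exact ⟨o + i, by simp, x, hx, hseg⟩
    · exact ⟨o + j, by simp, x, hx, hseg⟩

end MP7e112f
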