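import Pool.Agent.Lib.MP_7e112f_co.Triv

/-!
# MP_7e112f_co, EG module TriB: basic facts on triangles and on the regions of trees
-/

open Set

namespace MP7e112f

open BT

private theorem TriB_aff (a b x y : ℂ) {s t : ℝ} (h : s + t = 1) :
    cr a b (s • x + t • y) = s * cr a b x + t * cr a b y := by
  have hs : s = 1 - t := by linarith
  subst hs
  simp only [cr, cs, Complex.sub_re, Complex.sub_im, Complex.add_re, Complex.add_im,
    Complex.real_smul, Complex.mul_re, Complex.mul_im, Complex.ofReal_re, Complex.ofReal_im]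
  ring

private theorem TriB_cont (a b : ℂ) : Continuous fun x => cr a b x := by
  unfold cr cs
  fun_prop

/-- Barycentric coordinates: `α = cr b c x / cr a b c`, `β = cr c a x / cr a b c`,
`γ = cr a b x / cr a b c`; `cr_sum` gives `α + β + γ = 1`, and `x = α a + β b + γ c` is a polynomial
identity after multiplication with `cr a b c` (compare real and imaginary parts: `Complex.ext`,
`field_simp`, `ring`). -/
theorem tri_bary {a b c x : ℂ} (h : 0 < cr a b c) (hx : x ∈ Tri a b c) :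
    ∃ α β γ : ℝ, 0 ≤ α ∧ 0 ≤ β ∧ 0 ≤ γ ∧ α + β + γ = 1 ∧ x = α • a + β • b + γ • c := by
  obtain ⟨h1, h2, h3⟩ := hx
  refine ⟨cr b c x / cr a b c, cr c a x / cr a b c, cr a b x / cr a b c, div_nonneg h2 h.le,
    div_nonneg h3 h.le, div_nonneg h1 h.le, ?_, ?_⟩
  · rw [← add_div, ← add_div, div_eq_one_iff_eq h.ne']
    simp only [cr, cs, Complex.sub_re, Complex.sub_im]
    ring
  · have e1 : cr a b c * x.re = cr b c x * a.re + cr c a x * b.re + cr a b x * c.re := by
      simp only [cr, cs, Complex.sub_re, Complex.sub_im]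
      ring
    have e2 : cr a b c * x.im = cr b c x * a.im + cr c a x * b.im + cr a b x * c.im := by
      simp only [cr, cs, Complex.sub_re, Complex.sub_im]
      ring
    refine Complex.ext ?_ ?_
    · simp only [Complex.add_re, Complex.smul_re, smul_eq_mul]
      rw [div_mul_eq_mul_div, div_mul_eq_mul_div, div_mul_eq_mul_div, ← add_div, ← add_div,
        ← e1, mul_div_cancel_left₀ _ h.ne']
    · simp only [Complex.add_im, Complex.smul_im, smul_eq_mul]
      rw [div_mul_eq_mul_div, div_mul_eq_mul_div, div_mul_eq_mul_div, ← add_div, ← add_div,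
        ← e2, mul_div_cancel_left₀ _ h.ne']

private theorem TriB_vals (a b c : ℂ) {α β γ : ℝ} (hs : α + β + γ = 1) :
    cr a b (α • a + β • b + γ • c) = γ * cr a b c ∧
      cr b c (α • a + β • b + γ • c) = α * cr a b c ∧
      cr c a (α • a + β • b + γ • c) = β * cr a b c := by
  have hα : α = 1 - β - γ := by linarith
  subst hα
  simp only [cr, cs, Complex.sub_re, Complex.sub_im, Complex.add_re, Complex.add_im,
    Complex.real_smul, Complex.mul_re, Complex.mul_im, Complex.ofReal_re, Complex.ofReal_im]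
  refine ⟨by ring, by ring, by ring⟩

/-- The converse: `cr a b x = γ cr a b c` and so on. -/
theorem tri_of_bary {a b c : ℂ} (h : 0 < cr a b c) {α β γ : ℝ} (hα : 0 ≤ α) (hβ : 0 ≤ β)
    (hγ : 0 ≤ γ) (hs : α + β + γ = 1) : α • a + β • b + γ • c ∈ Tri a b c := by
  obtain ⟨e1, e2, e3⟩ := TriB_vals a b c hs
  refine ⟨?_, ?_, ?_⟩
  · rw [e1]
    exact mul_nonneg hγ h.le
  · rw [e2]
    exact mul_nonneg hα h.le
  · rw [e3]
    exact mul_nonneg hβ h.le

/-- Intersection of three closed half-planes. -/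
theorem tri_convex (a b c : ℂ) : Convex ℝ (Tri a b c) := by
  rintro x ⟨hx1, hx2, hx3⟩ y ⟨hy1, hy2, hy3⟩ s t hs ht hst
  refine ⟨?_, ?_, ?_⟩
  · rw [TriB_aff _ _ _ _ hst]
    exact add_nonneg (mul_nonneg hs hx1) (mul_nonneg ht hy1)
  · rw [TriB_aff _ _ _ _ hst]
    exact add_nonneg (mul_nonneg hs hx2) (mul_nonneg ht hy2)
  · rw [TriB_aff _ _ _ _ hst]
    exact add_nonneg (mul_nonneg hs hx3) (mul_nonneg ht hy3)

theorem tri_closed (a b c : ℂ) : IsClosed (Tri a b c) :=
  (isClosed_le continuous_const (TriB_cont a b)).inter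
    ((isClosed_le continuous_const (TriB_cont b c)).inter
      (isClosed_le continuous_const (TriB_cont c a)))

private theorem TriB_pos {s t A B : ℝ} (hs : 0 ≤ s) (ht : 0 ≤ t) (hst : s + t = 1) (hA : 0 < A)
    (hB : 0 < B) : 0 < s * A + t * B := by
  rcases hs.eq_or_lt with h | h
  · have h1 : t = 1 := by linarith
    rw [← h, h1]
    linarith
  · exact add_pos_of_pos_of_nonneg (mul_pos h hA) (mul_nonneg ht hB.le)

theorem otri_convex (a b c : ℂ) : Convex ℝ (oTri a b c) := by
  rintro x ⟨hx1, hx2, hx3⟩ y ⟨hy1, hy2, hy3⟩ s t hs ht hst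
  refine ⟨?_, ?_, ?_⟩
  · rw [TriB_aff _ _ _ _ hst]
    exact TriB_pos hs ht hst hx1 hy1
  · rw [TriB_aff _ _ _ _ hst]
    exact TriB_pos hs ht hst hx2 hy2
  · rw [TriB_aff _ _ _ _ hst]
    exact TriB_pos hs ht hst hx3 hy3

theorem otri_open (a b c : ℂ) : IsOpen (oTri a b c) :=
  (isOpen_lt continuous_const (TriB_cont a b)).inter
    ((isOpen_lt continuous_const (TriB_cont b c)).inter
      (isOpen_lt continuous_const (TriB_cont c a)))

theorem otri_subset (a b c : ℂ) : oTri a b c ⊆ Tri a b c :=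
  fun _ hx => ⟨hx.1.le, hx.2.1.le, hx.2.2.le⟩

theorem tri_rot (a b c : ℂ) : Tri b c a = Tri a b c := by
  ext x
  simp only [Tri, mem_setOf_eq]
  tauto

theorem tri_mem₁ {a b c : ℂ} (h : 0 < cr a b c) : a ∈ Tri a b c := by
  refine ⟨?_, ?_, ?_⟩
  · rw [cr_self'']
  · rw [cr_rot]; exact h.le
  · rw [cr_self']

theorem tri_mem₂ {a b c : ℂ} (h : 0 < cr a b c) : b ∈ Tri a b c := by
  refine ⟨?_, ?_, ?_⟩
  · rw [cr_self']
  · rw [cr_self'']
  · rw [cr_rot']; exact h.le

theorem tri_mem₃ {a b c : ℂ} (h : 0 < cr a b c) : c ∈ Tri a b c := by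
  refine ⟨h.le, ?_, ?_⟩
  · rw [cr_self']
  · rw [cr_self'']

theorem tri_seg {a b c x y : ℂ} (hx : x ∈ Tri a b c) (hy : y ∈ Tri a b c) :
    segment ℝ x y ⊆ Tri a b c := (tri_convex a b c).segment_subset hx hy

/-- A closed triangle is the union of the open one and its sides: if one of the three numbers is
`0`, say `cr a b x = 0`, then `γ = 0` in `tri_bary` (the coordinate `γ = cr a b x / cr a b c`, which
can be recomputed from the representation) and `x ∈ [a, b]`. -/
theorem tri_cases {a b c x : ℂ} (h : 0 < cr a b c) (hx : x ∈ Tri a b c) :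
    x ∈ oTri a b c ∨ x ∈ segment ℝ a b ∨ x ∈ segment ℝ b c ∨ x ∈ segment ℝ c a := by
  obtain ⟨α, β, γ, hα, hβ, hγ, hs, rfl⟩ := tri_bary h hx
  obtain ⟨e1, e2, e3⟩ := TriB_vals a b c hs
  rcases hγ.eq_or_lt with h1 | h1
  · refine Or.inr (Or.inl ⟨α, β, hα, hβ, by linarith, ?_⟩)
    rw [← h1, zero_smul, add_zero]
  rcases hα.eq_or_lt with h2 | h2
  · refine Or.inr (Or.inr (Or.inl ⟨β, γ, hβ, hγ, by linarith, ?_⟩))
    rw [← h2, zero_smul, zero_add]
  rcases hβ.eq_or_lt with h3 | h3
  · refine Or.inr (Or.inr (Or.inr ⟨γ, α, hγ, hα, by linarith, ?_⟩))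
    rw [← h3, zero_smul, add_zero, add_comm]
  · refine Or.inl ⟨?_, ?_, ?_⟩
    · rw [e1]
      exact mul_pos h1 h
    · rw [e2]
      exact mul_pos h2 h
    · rw [e3]
      exact mul_pos h3 h

/-- Bounded, because it is contained in the set of the `α a + β b + γ c`, of norm at most
`‖a‖ + ‖b‖ + ‖c‖` (`tri_bary`). -/
theorem tri_bdd {a b c : ℂ} (h : 0 < cr a b c) : Bornology.IsBounded (Tri a b c) := by
  refine (Metric.isBounded_closedBall (x := (0 : ℂ)) (r := ‖a‖ + ‖b‖ + ‖c‖)).subset ?_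
  intro x hx
  obtain ⟨α, β, γ, hα, hβ, hγ, hs, rfl⟩ := tri_bary h hx
  rw [mem_closedBall_zero_iff]
  have key : ∀ (t : ℝ) (z : ℂ), 0 ≤ t → t ≤ 1 → ‖t • z‖ ≤ ‖z‖ := fun t z h0 h1 => by
    rw [norm_smul, Real.norm_of_nonneg h0]
    exact mul_le_of_le_one_left (norm_nonneg _) h1
  have k1 := key α a hα (by linarith)
  have k2 := key β b hβ (by linarith)
  have k3 := key γ c hγ (by linarith)
  have k4 := norm_add_le (α • a + β • b) (γ • c)
  have k5 := norm_add_le (α • a) (β • b)
  linarith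

/-- The region depends only on the vertices of the tree. Induction on the tree. -/
theorem reg_congr {p q : ℕ → ℂ} (t : BT) {o o' : ℕ} (h : ∀ k ≤ t.sz, q (o + k) = p (o' + k)) :
    reg q t o = reg p t o' ∧ ireg q t o = ireg p t o' ∧ (Pos q t o ↔ Pos p t o') ∧
      (Emb q t o ↔ Emb p t o') := by
  induction t generalizing o o' with
  | leaf => exact ⟨rfl, rfl, Iff.rfl, Iff.rfl⟩
  | node l r ihl ihr =>
    have h0 : q o = p o' := h 0 (Nat.zero_le _)
    have h1 : q (o + l.sz) = p (o' + l.sz) := h l.sz (by simp only [sz]; omega)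
    have h2 : q (o + l.sz + r.sz) = p (o' + l.sz + r.sz) := by
      rw [add_assoc, add_assoc]
      exact h (l.sz + r.sz) le_rfl
    obtain ⟨l1, l2, l3, l4⟩ := ihl (o := o) (o' := o')
      fun k hk => h k (by simp only [sz]; omega)
    obtain ⟨r1, r2, r3, r4⟩ := ihr (o := o + l.sz) (o' := o' + l.sz) fun k hk => by
      rw [add_assoc, add_assoc]
      exact h (l.sz + k) (by simp only [sz]; omega)
    refine ⟨?_, ?_, ?_, ?_⟩
    · simp only [reg]
      rw [h0, h1, h2, l1, r1]
    · simp only [ireg]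
      rw [h0, h1, h2, l2, r2]
    · simp only [Pos]
      rw [h0, h1, h2, l3, r3]
    · simp only [Emb]
      rw [l2, r2, l4, r4]

theorem ireg_open (p : ℕ → ℂ) : ∀ (t : BT) (o : ℕ), IsOpen (ireg p t o)
  | leaf, _ => isOpen_empty
  | node l r, o => ((otri_open _ _ _).union (ireg_open p l o)).union (ireg_open p r _)

theorem ireg_subset (p : ℕ → ℂ) : ∀ (t : BT) (o : ℕ), ireg p t o ⊆ reg p t o
  | leaf, _ => subset_rfl
  | node l r, o => union_subset_union (union_subset_union (otri_subset _ _ _)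
      (ireg_subset p l o)) (ireg_subset p r _)

end MP7e112f
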