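import Pool.Agent.Lib.MP_7e112f_co.PJT
import Pool.Agent.Lib.MP_7e112f_co.TriB

/-!
# MP_7e112f_co, EG module BaseT: triangles (the start of the induction), and the chain has empty
interior
-/

open Set

namespace MP7e112f

private theorem BaseT_null (a b : ℂ) : MeasureTheory.volume (segment ℝ a b) = 0 := by
  by_cases hab : a = b
  · rw [hab, segment_same]
    exact MeasureTheory.measure_singleton b
  · have h1 : segment ℝ a b ⊆ (affineSpan ℝ ({a, b} : Set ℂ) : Set ℂ) := by
      rw [← convexHull_pair]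
      exact convexHull_subset_affineSpan _
    refine MeasureTheory.measure_mono_null h1 ?_
    refine MeasureTheory.Measure.addHaar_affineSubspace _ _ fun htop => ?_
    have h2 : a + Complex.I * (b - a) ∈ affineSpan ℝ ({a, b} : Set ℂ) := by
      rw [htop]
      exact AffineSubspace.mem_top ℝ ℂ _
    obtain ⟨r, hr⟩ := mem_affineSpan_pair_iff_exists_lineMap_eq.1 h2
    rw [AffineMap.lineMap_apply_module'] at hr
    have h3 : ((r : ℂ) - Complex.I) * (b - a) = 0 := by
      rw [Complex.real_smul] at hr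
      linear_combination hr
    rcases mul_eq_zero.1 h3 with h4 | h4
    · have h5 := congrArg Complex.im h4
      simp at h5
    · exact hab (sub_eq_zero.1 h4).symm

/-- A chain has empty interior. Segments have Lebesgue measure zero in the plane: a segment is
contained in a line, i.e. in the preimage of a point under a nonzero real linear functional
`z ↦ cs (b - a) (z - a)` if `a ≠ b` (`MeasureTheory.Measure.addHaar_affineSubspace`, or
`MeasureTheory.Measure.addHaar_submodule` and translation), and it is a point if `a = b`; finite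
unions of null sets are null, and nonempty open sets have positive measure
(`IsOpen.measure_pos`). -/
theorem crv_int (p : ℕ → ℂ) (n : ℕ) {U : Set ℂ} (hU : IsOpen U) (hne : U.Nonempty) :
    ∃ z ∈ U, z ∉ crv p n := by
  by_contra hc
  push Not at hc
  have h1 : MeasureTheory.volume (crv p n) = 0 := by
    rw [crv_eq]
    exact (MeasureTheory.measure_biUnion_null_iff (Finset.range n).countable_toSet).2
      fun k _ => BaseT_null _ _
  have h2 : 0 < MeasureTheory.volume U := hU.measure_pos MeasureTheory.volume hne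
  have h3 : MeasureTheory.volume U = 0 := MeasureTheory.measure_mono_null (fun z hz => hc z hz) h1
  exact absurd h3 h2.ne'

theorem crv_int' {p p' : ℕ → ℂ} {n n' : ℕ} {U : Set ℂ} (hU : IsOpen U) (hne : U.Nonempty) :
    ∃ z ∈ U, z ∉ crv p n ∧ z ∉ crv p' n' := by
  obtain ⟨z, hz, hz'⟩ := crv_int p n hU hne
  obtain ⟨w, hw, hw'⟩ := crv_int p' n' (hU.inter (crv_closed p n).isOpen_compl) ⟨z, hz, hz'⟩
  exact ⟨w, hw.1, hw.2, hw'⟩

private theorem BaseT_seg {x y w : ℂ} (hw : w ∈ segment ℝ x y) : cr x y w = 0 := by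
  obtain ⟨s, t, _, _, _, _, h⟩ := cs_seg (u := y - x) (w := x) hw
  show cs (y - x) (w - x) = 0
  rw [h, sub_self, cs_zero, cs_self]
  ring

private theorem BaseT_half {x y w : ℂ} (hxy : x ≠ y) {C : Set ℂ}
    (hC : {v | cr x y v < 0} ⊆ C) (hw : cr x y w < 0) : ¬ Bornology.IsBounded C := by
  intro hb
  obtain ⟨R, hR⟩ := (Metric.isBounded_iff_subset_closedBall (0 : ℂ)).1 hb
  have hyx : y - x ≠ 0 := sub_ne_zero.2 hxy.symm
  obtain ⟨v, hv⟩ : ∃ v : ℂ, v = -(Complex.I * (y - x)) := ⟨_, rfl⟩
  have hv0 : 0 < ‖v‖ := by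
    rw [hv, norm_neg, norm_mul, Complex.norm_I, one_mul]
    exact norm_pos_iff.2 hyx
  have hvc : cs (y - x) v < 0 := by
    rw [hv, cs_neg]
    have := cs_I_pos hyx
    linarith
  have key : ∀ t : ℝ, 0 ≤ t → ‖w + t • v‖ ≤ R := by
    intro t ht
    have h1 : w + t • v ∈ {v | cr x y v < 0} := by
      show cs (y - x) (w + t • v - x) < 0
      have h2 : w + t • v - x = (w - x) + t • v := by ring
      rw [h2, cs_add, cs_smul]
      have h3 : cs (y - x) (w - x) < 0 := hw
      nlinarith
    have h2 := hR (hC h1)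
    rwa [mem_closedBall_zero_iff] at h2
  have hR0 : 0 ≤ R := (norm_nonneg _).trans (key 0 le_rfl)
  have h1 := key ((R + ‖w‖ + 1) / ‖v‖) (by positivity)
  have h2 : ‖((R + ‖w‖ + 1) / ‖v‖) • v‖ = R + ‖w‖ + 1 := by
    rw [norm_smul, Real.norm_eq_abs, abs_of_nonneg (by positivity)]
    field_simp
  have h3 := norm_sub_le (w + ((R + ‖w‖ + 1) / ‖v‖) • v) w
  rw [add_sub_cancel_left, h2] at h3
  linarith

private theorem BaseT_convex (x y : ℂ) : Convex ℝ {v | cr x y v < 0} := by
  intro u hu v hv s t hs ht hst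
  show cs (y - x) (s • u + t • v - x) < 0
  have h1 : s • u + t • v - x = s • (u - x) + t • (v - x) := by
    have h2 : x = s • x + t • x := by rw [← add_smul, hst, one_smul]
    conv_lhs => rw [h2]
    simp only [smul_sub]
    abel
  rw [h1, cs_add, cs_smul, cs_smul]
  have hu' : cs (y - x) (u - x) < 0 := hu
  have hv' : cs (y - x) (v - x) < 0 := hv
  rcases hs.eq_or_lt with h | h
  · rw [← h, zero_mul, zero_add]
    have h3 : t = 1 := by linarith
    rw [h3, one_mul]
    exact hv'
  · nlinarith [mul_neg_of_pos_of_neg h hu', mul_nonpos_of_nonneg_of_nonpos ht hv'.le]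

private theorem BaseT_ne {x y z : ℂ} (h : 0 < cr x y z) : x ≠ y := by
  rintro rfl
  rw [cr_self] at h
  exact lt_irrefl _ h

private theorem BaseT_out {x y z w : ℂ} (h : 0 < cr x y z) {S : Set ℂ}
    (hS : S = segment ℝ x y ∪ segment ℝ y z ∪ segment ℝ z x) (hw : w ∉ Tri x y z) :
    w ∉ S ∧ ¬ Bornology.IsBounded (connectedComponentIn Sᶜ w) := by
  have hST : S ⊆ Tri x y z := by
    rw [hS]
    refine union_subset (union_subset ?_ ?_) ?_
    · exact tri_seg (tri_mem₁ h) (tri_mem₂ h)
    · exact tri_seg (tri_mem₂ h) (tri_mem₃ h)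
    · exact tri_seg (tri_mem₃ h) (tri_mem₁ h)
  refine ⟨fun hw' => hw (hST hw'), ?_⟩
  have key : ∀ a b : ℂ, a ≠ b → (∀ v ∈ Tri x y z, 0 ≤ cr a b v) → cr a b w < 0 →
      ¬ Bornology.IsBounded (connectedComponentIn Sᶜ w) := by
    intro a b hab hT hneg
    refine BaseT_half hab (w := w) ?_ hneg
    refine (BaseT_convex a b).isPreconnected.subset_connectedComponentIn hneg ?_
    intro v hv hvS
    exact absurd (hT v (hST hvS)) (not_le.2 hv)
  have h2 : 0 < cr y z x := by rw [cr_rot]; exact h
  have h3 : 0 < cr z x y := by rw [cr_rot']; exact h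
  by_cases c1 : cr x y w < 0
  · exact key x y (BaseT_ne h) (fun v hv => hv.1) c1
  by_cases c2 : cr y z w < 0
  · exact key y z (BaseT_ne h2) (fun v hv => hv.2.1) c2
  by_cases c3 : cr z x w < 0
  · exact key z x (BaseT_ne h3) (fun v hv => hv.2.2) c3
  exact absurd ⟨not_lt.1 c1, not_lt.1 c2, not_lt.1 c3⟩ hw

private theorem BaseT_in {x y z w : ℂ} (h : 0 < cr x y z) {S : Set ℂ}
    (hS : S = segment ℝ x y ∪ segment ℝ y z ∪ segment ℝ z x) (hw : w ∈ oTri x y z) :
    w ∉ S ∧ Bornology.IsBounded (connectedComponentIn Sᶜ w) := by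
  have hwS : w ∉ S := by
    rw [hS]
    rintro ((hw' | hw') | hw')
    · have := hw.1
      rw [BaseT_seg hw'] at this
      exact lt_irrefl _ this
    · have := hw.2.1
      rw [BaseT_seg hw'] at this
      exact lt_irrefl _ this
    · have := hw.2.2
      rw [BaseT_seg hw'] at this
      exact lt_irrefl _ this
  refine ⟨hwS, ?_⟩
  refine (tri_bdd h).subset (subset_trans ?_ (otri_subset x y z))
  refine IsPreconnected.subset_left_of_subset_union (otri_open x y z)
    (tri_closed x y z).isOpen_compl (disjoint_compl_right.mono_left (otri_subset x y z)) ?_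
    ⟨w, mem_connectedComponentIn hwS, hw⟩ isPreconnected_connectedComponentIn
  intro v hv
  have hvS : v ∉ S := connectedComponentIn_subset _ _ hv
  by_cases hvT : v ∈ Tri x y z
  · left
    rcases tri_cases h hvT with h1 | h1 | h1 | h1
    · exact h1
    · exact absurd (by rw [hS]; exact Or.inl (Or.inl h1)) hvS
    · exact absurd (by rw [hS]; exact Or.inl (Or.inr h1)) hvS
    · exact absurd (by rw [hS]; exact Or.inr h1) hvS
  · exact Or.inr hvT

private theorem BaseT_rgn {x y z : ℂ} (h : 0 < cr x y z) {S : Set ℂ}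
    (hS : S = segment ℝ x y ∪ segment ℝ y z ∪ segment ℝ z x) : rgn S = Tri x y z := by
  ext w
  constructor
  · rintro (hw | ⟨hw, hb⟩)
    · by_contra hT
      exact (BaseT_out h hS hT).1 hw
    · by_contra hT
      exact (BaseT_out h hS hT).2 hb
  · intro hw
    rcases tri_cases h hw with h1 | h1 | h1 | h1
    · exact Or.inr (BaseT_in h hS h1)
    · left
      rw [hS]
      exact Or.inl (Or.inl h1)
    · left
      rw [hS]
      exact Or.inl (Or.inr h1)
    · left
      rw [hS]
      exact Or.inr h1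

private theorem BaseT_crv {p : ℕ → ℂ} (h : SC p 3) : crv p 3 =
    segment ℝ (p 0) (p 1) ∪ segment ℝ (p 1) (p 2) ∪ segment ℝ (p 2) (p 0) := by
  ext z
  constructor
  · rintro ⟨k, hk, hz⟩
    interval_cases k
    · exact Or.inl (Or.inl hz)
    · exact Or.inl (Or.inr hz)
    · right
      have h1 : p (2 + 1) = p 0 := h.cl
      rwa [h1] at hz
  · rintro ((hz | hz) | hz)
    · exact ⟨0, by norm_num, hz⟩
    · exact ⟨1, by norm_num, hz⟩
    · refine ⟨2, by norm_num, ?_⟩
      have h1 : p (2 + 1) = p 0 := h.cl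
      rwa [h1]

private theorem BaseT_cr {p : ℕ → ℂ} (h : SC p 3) : cr (p 0) (p 1) (p 2) ≠ 0 := by
  intro h0
  have hab : p 0 ≠ p 1 := fun e => absurd (h.inj 0 1 (by norm_num) (by norm_num) e) (by norm_num)
  have hbc : p 1 ≠ p 2 := fun e => absurd (h.inj 1 2 (by norm_num) (by norm_num) e) (by norm_num)
  have hcl : p (2 + 1) = p 0 := h.cl
  have hba : p 1 - p 0 ≠ 0 := sub_ne_zero.2 hab.symm
  obtain ⟨w, hw⟩ : ∃ w : ℂ, w = (p 2 - p 0) / (p 1 - p 0) := ⟨_, rfl⟩
  have hwim : w.im = 0 := by
    rw [hw, Complex.div_im, ← sub_div]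
    have h1 : (p 2 - p 0).im * (p 1 - p 0).re - (p 2 - p 0).re * (p 1 - p 0).im = 0 := by
      have h2 : cs (p 1 - p 0) (p 2 - p 0) = 0 := h0
      unfold cs at h2
      linarith
    rw [h1, zero_div]
  have hwr : w = (w.re : ℂ) := by
    apply Complex.ext
    · simp
    · simp [hwim]
  have hc : p 2 - p 0 = (w.re : ℂ) * (p 1 - p 0) := by
    rw [← hwr, hw]
    field_simp
  obtain ⟨t, ht⟩ : ∃ t : ℝ, t = w.re := ⟨_, rfl⟩
  rw [← ht] at hc
  rcases lt_or_ge t 0 with h1 | h1
  · -- `p 0` between `p 1` and `p 2`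
    have h2 : p 0 ∈ segment ℝ (p 1) (p (1 + 1)) := by
      have h3 : (0 : ℝ) < 1 - t := by linarith
      refine ⟨-t / (1 - t), 1 / (1 - t), by apply div_nonneg <;> linarith, by positivity, ?_, ?_⟩
      · field_simp
        ring
      · have h4 : ((1 - t : ℝ) : ℂ) ≠ 0 := by exact_mod_cast h3.ne'
        apply mul_left_cancel₀ h4
        rw [Complex.real_smul, Complex.real_smul]
        push_cast at h4 ⊢
        field_simp
        linear_combination hc
    rcases h.inter 0 1 (by norm_num) (by norm_num) (p 0) (left_mem_segment ℝ _ _) h2 with h3 | h3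
    · exact hab h3.2
    · exact absurd h3.2.1 (by norm_num)
  rcases le_or_gt t 1 with h2 | h2
  · have h3 : p 2 ∈ segment ℝ (p 0) (p (0 + 1)) := by
      refine ⟨1 - t, t, by linarith, h1, by ring, ?_⟩
      rw [Complex.real_smul, Complex.real_smul]
      push_cast
      linear_combination -hc
    rcases h.inter 0 1 (by norm_num) (by norm_num) (p 2) h3 (right_mem_segment ℝ _ _) with h4 | h4
    · exact hbc h4.2.symm
    · exact absurd h4.2.1 (by norm_num)
  · have h3 : p 1 ∈ segment ℝ (p 2) (p (2 + 1)) := by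
      rw [hcl]
      have h4 : (0 : ℝ) < t := by linarith
      refine ⟨1 / t, (t - 1) / t, by positivity, by apply div_nonneg <;> linarith, ?_, ?_⟩
      · field_simp
        ring
      · have h5 : (t : ℂ) ≠ 0 := by exact_mod_cast h4.ne'
        apply mul_left_cancel₀ h5
        rw [Complex.real_smul, Complex.real_smul]
        push_cast
        field_simp
        linear_combination hc
    rcases h.inter 1 2 (by norm_num) (by norm_num) (p 1) (left_mem_segment ℝ _ _) h3 with h4 | h4
    · exact hbc h4.2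
    · exact absurd h4.1 (by norm_num)

/-- Let `a = p 0`, `b = p 1`, `c = p 2`, `p 3 = a`.
(1) `cr a b c ≠ 0`: otherwise the three distinct points are on a line and one of them is between the
two others, so it lies on the edge opposite to it, against `SC.inter` (the vertex `a` is not on
`[b, c] = [p 1, p 2]`, `b` is not on `[c, a] = [p 2, p 3]`, `c` is not on `[a, b] = [p 0, p 1]`).
(2) For both signs of `cr a b c`: let `T = Tri a b c` if it is positive and `T = Tri a c b` if it is
negative, `T°` the corresponding open triangle. The chain is the boundary, `T = T° ∪ crv p 3`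
(`tri_cases`), `T°` and `Tᶜ` are open and disjoint from the chain, so `z ∈ T°` implies
`cmp p 3 z ⊆ T°` (the component is preconnected, contained in the union of the disjoint open sets
`T°` and `Tᶜ`, and meets `T°`), which is bounded. For `z ∉ T` one of the three numbers, say
`cr x y z`, is negative, the half-plane `{w | cr x y w < 0}` is convex, unbounded, contains `z` and is
disjoint from `T ⊇ crv p 3`, so it is contained in the component of `z`, which is unbounded. So
`rgn (crv p 3) = T` (directly from the definition of `rgn`).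
(3) If `cr a b c < 0` take `m` the midpoint of `[a, b]` and `ν = I (b - a)`, and `W_jump` at the edge
`0`: for small `ε > 0`, `m + ε ν ∉ T` (`cr a b (m + ε ν) > 0`, `T = Tri a c b`) so
`W (m + ε ν) = 0` (`W_unb`), hence `W (m - ε ν) = -1`, which contradicts `Ori p 3 1` (its values are
`0` and `1`). So `0 < cr a b c`. -/
theorem base3 {p : ℕ → ℂ} (h : SC p 3) (ho : Ori p 3 1) :
    0 < cr (p 0) (p 1) (p 2) ∧ rgn (crv p 3) = Tri (p 0) (p 1) (p 2) := by
  have hS := BaseT_crv h
  rcases lt_or_gt_of_ne (BaseT_cr h) with hneg | hpos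
  · exfalso
    have hpos' : 0 < cr (p 0) (p 2) (p 1) := by
      rw [cr_swap']
      linarith
    have hS' : crv p 3 = segment ℝ (p 0) (p 2) ∪ segment ℝ (p 2) (p 1) ∪
        segment ℝ (p 1) (p 0) := by
      rw [hS, segment_symm ℝ (p 0) (p 1), segment_symm ℝ (p 1) (p 2), segment_symm ℝ (p 2) (p 0)]
      ext z
      simp only [mem_union]
      tauto
    have h03 : 0 < 3 := by norm_num
    have hba : p (0 + 1) - p 0 ≠ 0 := sub_ne_zero.2 (edge_ne h h03).symm
    have hν := cs_I_pos hba
    obtain ⟨δ, hδ, hj⟩ := W_jump h.cl h03 mid_mem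
      (fun j hj hjk => open_not_mem h h03 hj hjk mid_mem) hν
    obtain ⟨h1, h2, h3⟩ := hj (δ / 2) (by positivity) (by linarith)
    obtain ⟨q, hq⟩ : ∃ q : ℂ, q = p 0 + (1 / 2 : ℝ) • (p (0 + 1) - p 0) +
      (δ / 2) • (Complex.I * (p (0 + 1) - p 0)) := ⟨_, rfl⟩
    rw [← hq] at h1 h3
    have hqT : q ∉ Tri (p 0) (p 2) (p 1) := by
      intro hqT
      have h4 : 0 ≤ cr (p 1) (p 0) q := hqT.2.2
      rw [cr_swap] at h4
      have h5 : cr (p 0) (p 1) q = δ / 2 * cs (p (0 + 1) - p 0)
          (Complex.I * (p (0 + 1) - p 0)) := by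
        have h6 : q - p 0 = (1 / 2 : ℝ) • (p (0 + 1) - p 0) +
            (δ / 2) • (Complex.I * (p (0 + 1) - p 0)) := by
          rw [hq]
          ring
        show cs (p (0 + 1) - p 0) (q - p 0) = _
        rw [h6, cs_add, cs_smul, cs_smul, cs_self]
        ring
      rw [h5] at h4
      have h7 : 0 < δ / 2 * cs (p (0 + 1) - p 0) (Complex.I * (p (0 + 1) - p 0)) := by
        positivity
      linarith
    have h8 := W_unb h.cl (BaseT_out hpos' hS' hqT).2
    rw [h8] at h3
    rcases ho.dich _ h2 with h9 | h9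
    · rw [h9.1] at h3
      norm_num at h3
    · rw [h9.1] at h3
      norm_num at h3
  · exact ⟨hpos, BaseT_rgn hpos hS⟩

end MP7e112f
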