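import Pool.Agent.Lib.MP_7e112f_co.PJT

/-!
# MP_7e112f_co, EG module Conv: from simple polygons to positively oriented simple closed chains
-/

open Set

namespace MP7e112f

private theorem ofNat_succ {n : ℕ} [NeZero n] (k : ℕ) :
    Fin.ofNat n (k + 1) = Fin.ofNat n k + 1 := by
  apply Fin.ext
  rw [Fin.val_add]
  have h1 : ((1 : Fin n) : ℕ) = 1 % n := rfl
  simp only [Fin.val_ofNat]
  rw [Nat.add_mod, h1]

private theorem ofNat_inj {n : ℕ} [NeZero n] {i j : ℕ} (hi : i < n) (hj : j < n)
    (h : Fin.ofNat n i = Fin.ofNat n j) : i = j := by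
  have h1 := congrArg Fin.val h
  simp only [Fin.val_ofNat] at h1
  rwa [Nat.mod_eq_of_lt hi, Nat.mod_eq_of_lt hj] at h1

private theorem ofNat_self {n : ℕ} [NeZero n] : Fin.ofNat n n = Fin.ofNat n 0 := by
  apply Fin.ext
  simp only [Fin.val_ofNat, Nat.mod_self, Nat.zero_mod]

private theorem ofNat_val {n : ℕ} [NeZero n] (i : Fin n) : Fin.ofNat n i.val = i := by
  apply Fin.ext
  simp only [Fin.val_ofNat]
  exact Nat.mod_eq_of_lt i.2

/-- The vertices of a simple polygon as a closed chain: `q k = p (k mod n)`. Edge `k < n` of the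
chain is the edge `p k` of the polygon (`k + 1` in `Fin n` is `(k+1) mod n`). `SC.inter` for
`i < j < n`: if `j = i + 1` then `SimplePolygon.adj`; if `i = 0`, `j = n - 1`, then `adj` for the
index `n - 1`, as `n - 1 + 1 = 0` in `Fin n`; otherwise `disj`. -/
theorem sc_of_simple {n : ℕ} [NeZero n] (hn : 3 ≤ n) {p : Fin n → ℂ} (h : SimplePolygon p) :
    SC (fun k => p (Fin.ofNat n k)) n ∧ crv (fun k => p (Fin.ofNat n k)) n = curve p ∧
      ∀ k < n, segment ℝ (p (Fin.ofNat n k)) (p (Fin.ofNat n (k + 1))) =
        edge p (Fin.ofNat n k) := by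
  have hedge : ∀ k, segment ℝ (p (Fin.ofNat n k)) (p (Fin.ofNat n (k + 1))) =
      edge p (Fin.ofNat n k) := by
    intro k
    rw [ofNat_succ, edge]
  refine ⟨⟨hn, ?_, ?_, ?_⟩, ?_, fun k _ => hedge k⟩
  · simp only [ofNat_self]
  · intro i j hi hj hij
    exact ofNat_inj hi hj (h.inj hij)
  · intro i j hij hj x hxi hxj
    rw [hedge] at hxi hxj
    by_cases h1 : j = i + 1
    · left
      refine ⟨h1, ?_⟩
      have h2 := h.adj (Fin.ofNat n i)
      rw [← ofNat_succ, ← h1] at h2
      have h3 : x ∈ edge p (Fin.ofNat n i) ∩ edge p (Fin.ofNat n j) := ⟨hxi, hxj⟩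
      rw [h2] at h3
      exact h3
    · by_cases h2 : i = 0 ∧ j + 1 = n
      · right
        refine ⟨h2.1, h2.2, ?_⟩
        have h3 := h.adj (Fin.ofNat n j)
        rw [← ofNat_succ, h2.2, ofNat_self] at h3
        rw [h2.1] at hxi
        have h4 : x ∈ edge p (Fin.ofNat n j) ∩ edge p (Fin.ofNat n 0) := ⟨hxj, hxi⟩
        rw [h3] at h4
        exact h4
      · exfalso
        have hi : i < n := by omega
        refine Set.disjoint_left.1 (h.disj (Fin.ofNat n i) (Fin.ofNat n j) ?_ ?_ ?_) hxi hxj
        · intro h3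
          have := ofNat_inj hi hj h3
          omega
        · intro h3
          rw [← ofNat_succ] at h3
          have := ofNat_inj (by omega) hj h3
          omega
        · intro h3
          rw [← ofNat_succ] at h3
          by_cases h4 : j + 1 = n
          · rw [h4, ofNat_self] at h3
            have := ofNat_inj (by omega) hi h3
            omega
          · have := ofNat_inj (by omega) hi h3
            omega
  · ext z
    simp only [crv, curve, Set.mem_iUnion]
    constructor
    · rintro ⟨k, hk, hz⟩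
      rw [hedge] at hz
      exact ⟨Fin.ofNat n k, hz⟩
    · rintro ⟨i, hz⟩
      refine ⟨i.val, i.2, ?_⟩
      rw [hedge, ofNat_val]
      exact hz

/-- The reversed chain: the edge `k` is the edge `n - 1 - k` backwards (`segment_symm`), so the chain
is the same set, and the winding number changes its sign: each summand changes its sign,
`arg w⁻¹ = - arg w` for `w` in the slit plane (`slit`, `Complex.arg_inv`); the order of the summands
is reversed (`Finset.sum_range_reflect`). -/
theorem sc_rev {q : ℕ → ℂ} {n : ℕ} (h : SC q n) :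
    SC (fun k => q (n - k)) n ∧ crv (fun k => q (n - k)) n = crv q n ∧
      ∀ z, z ∉ crv q n → W (fun k => q (n - k)) n z = -W q n z := by
  have h3 := h.three
  have hcl := h.cl
  have hseg : ∀ k < n, segment ℝ (q (n - k)) (q (n - (k + 1))) =
      segment ℝ (q (n - 1 - k)) (q (n - 1 - k + 1)) := by
    intro k hk
    have e1 : n - (k + 1) = n - 1 - k := by omega
    have e2 : n - k = n - 1 - k + 1 := by omega
    rw [e1, e2, segment_symm]
  refine ⟨⟨h3, ?_, ?_, ?_⟩, ?_, ?_⟩
  · simp only [Nat.sub_self, Nat.sub_zero]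
    exact hcl.symm
  · intro i j hi hj hij
    rcases Nat.eq_zero_or_pos i with hi0 | hi0
    · rcases Nat.eq_zero_or_pos j with hj0 | hj0
      · omega
      · exfalso
        rw [hi0, Nat.sub_zero, hcl] at hij
        have := h.inj 0 (n - j) (by omega) (by omega) hij
        omega
    · rcases Nat.eq_zero_or_pos j with hj0 | hj0
      · exfalso
        rw [hj0, Nat.sub_zero, hcl] at hij
        have := h.inj (n - i) 0 (by omega) (by omega) hij
        omega
      · have := h.inj (n - i) (n - j) (by omega) (by omega) hij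
        omega
  · intro i j hij hj x hxi hxj
    rw [hseg i (by omega)] at hxi
    rw [hseg j hj] at hxj
    rcases h.inter (n - 1 - j) (n - 1 - i) (by omega) (by omega) x hxj hxi with ⟨h1, h2⟩ | ⟨h1, h2, h4⟩
    · left
      refine ⟨by omega, ?_⟩
      have h5 : n - j = n - 1 - i := by omega
      simp only [h5]
      exact h2
    · right
      refine ⟨by omega, by omega, ?_⟩
      simp only [Nat.sub_zero, hcl]
      exact h4
  · ext z
    simp only [crv]
    constructor
    · rintro ⟨k, hk, hz⟩
      rw [hseg k hk] at hz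
      exact ⟨n - 1 - k, by omega, hz⟩
    · rintro ⟨k, hk, hz⟩
      refine ⟨n - 1 - k, by omega, ?_⟩
      rw [hseg _ (by omega)]
      have h5 : n - 1 - (n - 1 - k) = k := by omega
      rw [h5]
      exact hz
  · intro z hz
    unfold W
    rw [← neg_div, ← Finset.sum_neg_distrib, ← Finset.sum_range_reflect]
    congr 1
    refine Finset.sum_congr rfl fun k hk => ?_
    have hk' := Finset.mem_range.1 hk
    have e1 : n - (n - 1 - k + 1) = k := by omega
    have e2 : n - (n - 1 - k) = k + 1 := by omega
    simp only [e1, e2]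
    have h5 : z ∉ segment ℝ (q k) (q (k + 1)) := fun h6 => hz ⟨k, hk', h6⟩
    have h6 := slit h5
    rw [Complex.mem_slitPlane_iff_arg] at h6
    rw [← inv_div (q (k + 1) - z) (q k - z), Complex.arg_inv, if_neg h6.1]

/-- Take `sc_of_simple` and `pjt`. If the orientation is `1`, `f k = Fin.ofNat n k`. If it is `-1`,
take the reversed chain (`sc_rev`), which has the orientation `1` (`Ori` is stated in terms of the
set `crv` and of `W`), and `f k = Fin.ofNat n (n - 1 - k)`. -/
theorem conv {n : ℕ} [NeZero n] (hn : 3 ≤ n) {p : Fin n → ℂ} (h : SimplePolygon p) :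
    ∃ (q : ℕ → ℂ) (f : ℕ → Fin n), SC q n ∧ Ori q n 1 ∧ crv q n = curve p ∧
      ∀ k < n, segment ℝ (q k) (q (k + 1)) = edge p (f k) := by
  obtain ⟨hS, hc, hE⟩ := sc_of_simple hn h
  obtain ⟨s, hs⟩ := pjt hS
  rcases hs.sq with rfl | rfl
  · exact ⟨_, fun k => Fin.ofNat n k, hS, hs, hc, hE⟩
  · obtain ⟨hR, hRc, hW⟩ := sc_rev hS
    refine ⟨_, fun k => Fin.ofNat n (n - 1 - k), hR, ⟨Or.inl rfl, ?_, ?_⟩, hRc.trans hc, ?_⟩
    · obtain ⟨z, hz, hz'⟩ := hs.ex
      refine ⟨z, by rw [hRc]; exact hz, ?_⟩
      rw [hW z hz, hz', neg_neg]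
    · intro z hz
      have hz1 : z ∉ crv (fun k => p (Fin.ofNat n k)) n := by rw [← hRc]; exact hz
      have hcmp : cmp (fun k => (fun k => p (Fin.ofNat n k)) (n - k)) n z =
          cmp (fun k => p (Fin.ofNat n k)) n z := by
        unfold cmp
        rw [hRc]
      rw [hW z hz1, hcmp]
      rcases hs.dich z hz1 with ⟨h1, h2⟩ | ⟨h1, h2⟩
      · left
        exact ⟨by rw [h1, neg_zero], h2⟩
      · right
        exact ⟨by rw [h1, neg_neg], h2⟩
    · intro k hk
      have h1 := hE (n - 1 - k) (by omega)
      have e1 : n - 1 - k + 1 = n - k := by omega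
      have e2 : n - (k + 1) = n - 1 - k := by omega
      rw [e1] at h1
      simp only [e2]
      rw [segment_symm]
      exact h1

end MP7e112f
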