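import Pool.Agent.Lib.MP_7e112f_co.FCase

/-!
# MP_7e112f_co, EG module Core: the 9-gon which consists of two pentagons and a triangle is covered
by two edges
-/

open Set

namespace MP7e112f

/-- The union of the seven triangles. -/
def U9 (q : ℕ → ℂ) : Set ℂ :=
  Tri (q 0) (q 4) (q 8) ∪ (Tri (q 0) (q 2) (q 4) ∪ Tri (q 0) (q 1) (q 2) ∪
    Tri (q 2) (q 3) (q 4)) ∪ (Tri (q 4) (q 6) (q 8) ∪ Tri (q 4) (q 5) (q 6) ∪
    Tri (q 6) (q 7) (q 8))

/-- The edge `k` sees the point `y`. -/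
def Sn (q : ℕ → ℂ) (k : ℕ) (y : ℂ) : Prop :=
  ∃ x ∈ segment ℝ (q k) (q (k + 1)), segment ℝ x y ⊆ U9 q

/-- All seven triangles are positively oriented. -/
structure H9 (q : ℕ → ℂ) : Prop where
  h048 : 0 < cr (q 0) (q 4) (q 8)
  h024 : 0 < cr (q 0) (q 2) (q 4)
  h012 : 0 < cr (q 0) (q 1) (q 2)
  h234 : 0 < cr (q 2) (q 3) (q 4)
  h468 : 0 < cr (q 4) (q 6) (q 8)
  h456 : 0 < cr (q 4) (q 5) (q 6)
  h678 : 0 < cr (q 6) (q 7) (q 8)

variable {q : ℕ → ℂ}

theorem s048 : Tri (q 0) (q 4) (q 8) ⊆ U9 q := fun _ h => Or.inl (Or.inl h)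
theorem s024 : Tri (q 0) (q 2) (q 4) ⊆ U9 q := fun _ h => Or.inl (Or.inr (Or.inl (Or.inl h)))
theorem s012 : Tri (q 0) (q 1) (q 2) ⊆ U9 q := fun _ h => Or.inl (Or.inr (Or.inl (Or.inr h)))
theorem s234 : Tri (q 2) (q 3) (q 4) ⊆ U9 q := fun _ h => Or.inl (Or.inr (Or.inr h))
theorem s468 : Tri (q 4) (q 6) (q 8) ⊆ U9 q := fun _ h => Or.inr (Or.inl (Or.inl h))
theorem s456 : Tri (q 4) (q 5) (q 6) ⊆ U9 q := fun _ h => Or.inr (Or.inl (Or.inr h))
theorem s678 : Tri (q 6) (q 7) (q 8) ⊆ U9 q := fun _ h => Or.inr (Or.inr h)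

theorem sn_l {k : ℕ} {a b c y : ℂ} (hS : Tri a b c ⊆ U9 q) (hv : q k ∈ Tri a b c)
    (hy : y ∈ Tri a b c) : Sn q k y :=
  ⟨_, left_mem_segment ℝ _ _, (tri_seg hv hy).trans hS⟩

theorem sn_r {k : ℕ} {a b c y : ℂ} (hS : Tri a b c ⊆ U9 q) (hv : q (k + 1) ∈ Tri a b c)
    (hy : y ∈ Tri a b c) : Sn q k y :=
  ⟨_, right_mem_segment ℝ _ _, (tri_seg hv hy).trans hS⟩

theorem pair15 (h : H9 q) (hx : ∀ y ∈ Tri (q 0) (q 4) (q 8), Sn q 1 y ∨ Sn q 5 y) :
    ∀ y ∈ U9 q, Sn q 1 y ∨ Sn q 5 y := by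
  rintro y ((hy | ((hy | hy) | hy)) | ((hy | hy) | hy))
  · exact hx y hy
  · exact Or.inl (sn_r s024 (tri_mem₂ h.h024) hy)
  · exact Or.inl (sn_l s012 (tri_mem₂ h.h012) hy)
  · exact Or.inl (sn_r s234 (tri_mem₁ h.h234) hy)
  · exact Or.inr (sn_r s468 (tri_mem₂ h.h468) hy)
  · exact Or.inr (sn_l s456 (tri_mem₂ h.h456) hy)
  · exact Or.inr (sn_r s678 (tri_mem₁ h.h678) hy)

theorem pair17 (h : H9 q) (hx : ∀ y ∈ Tri (q 4) (q 5) (q 6), Sn q 1 y ∨ Sn q 7 y) :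
    ∀ y ∈ U9 q, Sn q 1 y ∨ Sn q 7 y := by
  rintro y ((hy | ((hy | hy) | hy)) | ((hy | hy) | hy))
  · exact Or.inr (sn_r s048 (tri_mem₃ h.h048) hy)
  · exact Or.inl (sn_r s024 (tri_mem₂ h.h024) hy)
  · exact Or.inl (sn_l s012 (tri_mem₂ h.h012) hy)
  · exact Or.inl (sn_r s234 (tri_mem₁ h.h234) hy)
  · exact Or.inr (sn_r s468 (tri_mem₃ h.h468) hy)
  · exact hx y hy
  · exact Or.inr (sn_l s678 (tri_mem₂ h.h678) hy)

theorem pair14 (h : H9 q) (hx : ∀ y ∈ Tri (q 6) (q 7) (q 8), Sn q 1 y ∨ Sn q 4 y) :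
    ∀ y ∈ U9 q, Sn q 1 y ∨ Sn q 4 y := by
  rintro y ((hy | ((hy | hy) | hy)) | ((hy | hy) | hy))
  · exact Or.inr (sn_l s048 (tri_mem₂ h.h048) hy)
  · exact Or.inl (sn_r s024 (tri_mem₂ h.h024) hy)
  · exact Or.inl (sn_l s012 (tri_mem₂ h.h012) hy)
  · exact Or.inl (sn_r s234 (tri_mem₁ h.h234) hy)
  · exact Or.inr (sn_l s468 (tri_mem₁ h.h468) hy)
  · exact Or.inr (sn_l s456 (tri_mem₁ h.h456) hy)
  · exact hx y hy

theorem pair03 (h : H9 q) (hx : ∀ y ∈ Tri (q 6) (q 7) (q 8), Sn q 0 y ∨ Sn q 3 y) :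
    ∀ y ∈ U9 q, Sn q 0 y ∨ Sn q 3 y := by
  rintro y ((hy | ((hy | hy) | hy)) | ((hy | hy) | hy))
  · exact Or.inl (sn_l s048 (tri_mem₁ h.h048) hy)
  · exact Or.inl (sn_l s024 (tri_mem₁ h.h024) hy)
  · exact Or.inl (sn_l s012 (tri_mem₁ h.h012) hy)
  · exact Or.inr (sn_l s234 (tri_mem₂ h.h234) hy)
  · exact Or.inr (sn_r s468 (tri_mem₁ h.h468) hy)
  · exact Or.inr (sn_r s456 (tri_mem₁ h.h456) hy)
  · exact hx y hy

theorem pair13 (h : H9 q) (hx : ∀ y ∈ Tri (q 6) (q 7) (q 8), Sn q 1 y ∨ Sn q 3 y) :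
    ∀ y ∈ U9 q, Sn q 1 y ∨ Sn q 3 y := by
  rintro y ((hy | ((hy | hy) | hy)) | ((hy | hy) | hy))
  · exact Or.inr (sn_r s048 (tri_mem₂ h.h048) hy)
  · exact Or.inl (sn_r s024 (tri_mem₂ h.h024) hy)
  · exact Or.inl (sn_l s012 (tri_mem₂ h.h012) hy)
  · exact Or.inl (sn_r s234 (tri_mem₁ h.h234) hy)
  · exact Or.inr (sn_r s468 (tri_mem₁ h.h468) hy)
  · exact Or.inr (sn_r s456 (tri_mem₁ h.h456) hy)
  · exact hx y hy

theorem pair24 (h : H9 q) (hx : ∀ y ∈ Tri (q 6) (q 7) (q 8), Sn q 2 y ∨ Sn q 4 y) :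
    ∀ y ∈ U9 q, Sn q 2 y ∨ Sn q 4 y := by
  rintro y ((hy | ((hy | hy) | hy)) | ((hy | hy) | hy))
  · exact Or.inr (sn_l s048 (tri_mem₂ h.h048) hy)
  · exact Or.inl (sn_l s024 (tri_mem₂ h.h024) hy)
  · exact Or.inl (sn_l s012 (tri_mem₃ h.h012) hy)
  · exact Or.inl (sn_l s234 (tri_mem₁ h.h234) hy)
  · exact Or.inr (sn_l s468 (tri_mem₁ h.h468) hy)
  · exact Or.inr (sn_l s456 (tri_mem₁ h.h456) hy)
  · exact hx y hy

/-- `2` sees a point `t` of `0 4 8` if it is in the right angle. -/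
theorem see_2 (h : H9 q) {t : ℂ} (ht : t ∈ Tri (q 0) (q 4) (q 8))
    (h1 : 0 ≤ cr (q 2) (q 4) t) (h2 : 0 ≤ cr (q 2) t (q 0)) : Sn q 1 t := by
  refine ⟨q 2, right_mem_segment ℝ _ _, ?_⟩
  have := see2 (q := q 2) (R := q 4) (L := q 0) (q' := q 8) (x := q 2) (y := t)
    (by rw [cr_rot]; exact h.h024) (by rw [cr_rot']; exact h.h048)
    (by rw [tri_rot]; exact tri_mem₂ h.h024) (by rw [← tri_rot]; exact ht) ?_ ?_
  · exact this.trans (union_subset (mem_of_eq_tri s024) (mem_of_eq_tri' s048))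
  · have e : cs (t - q 2) (q 4 - q 2) = -cr (q 2) (q 4) t := by
      simp only [cr, cs, Complex.sub_re, Complex.sub_im]; ring
    rw [e]; linarith
  · exact h2

/-- `6` sees a point `t` of `0 4 8` if it is in the right angle. -/
theorem see_6 (h : H9 q) {t : ℂ} (ht : t ∈ Tri (q 0) (q 4) (q 8))
    (h1 : 0 ≤ cr (q 6) (q 8) t) (h2 : 0 ≤ cr (q 6) t (q 4)) : Sn q 5 t := by
  refine ⟨q 6, right_mem_segment ℝ _ _, ?_⟩
  have := see2 (q := q 6) (R := q 8) (L := q 4) (q' := q 0) (x := q 6) (y := t)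
    (by rw [cr_rot]; exact h.h468) h.h048
    (by rw [tri_rot]; exact tri_mem₂ h.h468) ht ?_ ?_
  · exact this.trans (union_subset (mem_of_eq_tri s468) s048)
  · have e : cs (t - q 6) (q 8 - q 6) = -cr (q 6) (q 8) t := by
      simp only [cr, cs, Complex.sub_re, Complex.sub_im]; ring
    rw [e]; linarith
  · exact h2

theorem cr_comb {a b c x y : ℂ} {α β γ : ℝ} (hs : α + β + γ = 1) :
    cr x y (α • a + β • b + γ • c) = α * cr x y a + β * cr x y b + γ * cr x y c := by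
  have : α = 1 - β - γ := by linarith
  subst this
  simp only [cr, cs, Complex.sub_re, Complex.sub_im, Complex.add_re, Complex.add_im,
    Complex.real_smul, Complex.mul_re, Complex.mul_im, Complex.ofReal_re, Complex.ofReal_im]
  ring

/-- The rule of the full angle: if `t` is in none of the two angles at `4`, then the two triangles
`0 2 4` and `4 6 8` overlap. -/
theorem full_angle (h : H9 q) (hd : Disjoint (oTri (q 0) (q 2) (q 4)) (oTri (q 4) (q 6) (q 8)))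
    {t : ℂ} (ht : t ∈ Tri (q 0) (q 4) (q 8)) (h1 : cr (q 2) (q 4) t < 0)
    (h2 : cr (q 6) t (q 4) < 0) : False := by
  have a1 : 0 < cr (q 4) (q 0) t ∨ cr (q 4) (q 0) t ≤ 0 := lt_or_ge _ _
  have e1 : 0 ≤ cr (q 0) (q 4) t := ht.1
  have e2 : 0 ≤ cr (q 4) (q 8) t := ht.2.1
  -- with `w = q 4 - ε (t - q 4)`
  have g1 : cr (q 2) (q 4) t < 0 := h1
  have k1 : 0 < cr (q 0) (q 4) t := by
    rcases eq_or_lt_of_le e1 with h0 | h0
    · exfalso
      -- `t` is on `[4, 0]`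
      have hz : t ∈ segment ℝ (q 0) (q 4) := by
        have := on_side (q := q 8) (R := q 0) (L := q 4) (x := t)
          (by rw [cr_rot']; exact h.h048) (by rw [← tri_rot]; exact ht) h0.symm
        exact this
      obtain ⟨a, b, ha, hb, hab, rfl⟩ := hz
      have e : cr (q 2) (q 4) (a • q 0 + b • q 4) = a * cr (q 0) (q 2) (q 4) := by
        have : b = 1 - a := by linarith
        subst this
        simp only [cr, cs, Complex.sub_re, Complex.sub_im, Complex.add_re, Complex.add_im,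
          Complex.real_smul, Complex.mul_re, Complex.mul_im, Complex.ofReal_re,
          Complex.ofReal_im]
        ring
      rw [e] at h1
      have := mul_nonneg ha h.h024.le
      linarith
    · exact h0
  have k2 : 0 < cr (q 4) (q 8) t := by
    rcases eq_or_lt_of_le e2 with h0 | h0
    · exfalso
      have hz : t ∈ segment ℝ (q 4) (q 8) := on_side h.h048 ht h0.symm
      obtain ⟨a, b, ha, hb, hab, rfl⟩ := hz
      have e : cr (q 6) (a • q 4 + b • q 8) (q 4) = b * cr (q 4) (q 6) (q 8) := by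
        have : a = 1 - b := by linarith
        subst this
        simp only [cr, cs, Complex.sub_re, Complex.sub_im, Complex.add_re, Complex.add_im,
          Complex.real_smul, Complex.mul_re, Complex.mul_im, Complex.ofReal_re,
          Complex.ofReal_im]
        ring
      rw [e] at h2
      have := mul_nonneg hb h.h468.le
      linarith
    · exact h0
  -- choose a small `ε`
  have c1 : Filter.Tendsto (fun ε : ℝ => cr (q 0) (q 2) (q 4 - ε • (t - q 4)))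
      (nhdsWithin 0 (Ioi 0)) (nhds (cr (q 0) (q 2) (q 4))) := by
    have : Continuous fun ε : ℝ => cr (q 0) (q 2) (q 4 - ε • (t - q 4)) := by
      unfold cr cs
      fun_prop
    have h3 := this.tendsto 0
    simp only [zero_smul, sub_zero] at h3
    exact h3.mono_left nhdsWithin_le_nhds
  have c2 : Filter.Tendsto (fun ε : ℝ => cr (q 6) (q 8) (q 4 - ε • (t - q 4)))
      (nhdsWithin 0 (Ioi 0)) (nhds (cr (q 6) (q 8) (q 4))) := by
    have : Continuous fun ε : ℝ => cr (q 6) (q 8) (q 4 - ε • (t - q 4)) := by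
      unfold cr cs
      fun_prop
    have h3 := this.tendsto 0
    simp only [zero_smul, sub_zero] at h3
    exact h3.mono_left nhdsWithin_le_nhds
  have c3 : 0 < cr (q 6) (q 8) (q 4) := by rw [cr_rot]; exact h.h468
  have ev := ((c1.eventually (lt_mem_nhds h.h024)).and (c2.eventually (lt_mem_nhds c3))).and
    self_mem_nhdsWithin
  obtain ⟨ε, ⟨he1, he2⟩, he0⟩ := ev.exists
  have he0' : 0 < ε := he0
  have fin : q 4 - ε • (t - q 4) ∈ oTri (q 0) (q 2) (q 4) ∧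
      q 4 - ε • (t - q 4) ∈ oTri (q 4) (q 6) (q 8) → False :=
    fun hh => Set.disjoint_left.1 hd hh.1 hh.2
  refine fin ⟨⟨he1, ?_, ?_⟩, ?_, he2, ?_⟩
  · have e : cr (q 2) (q 4) (q 4 - ε • (t - q 4)) = -(ε * cr (q 2) (q 4) t) := by
      simp only [cr, cs, Complex.sub_re, Complex.sub_im,
        Complex.real_smul, Complex.mul_re, Complex.mul_im, Complex.ofReal_re,
        Complex.ofReal_im]
      ring
    rw [e]
    have := mul_pos_of_neg_of_neg (neg_lt_zero.2 he0') h1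
    linarith
  · have e : cr (q 4) (q 0) (q 4 - ε • (t - q 4)) = ε * cr (q 0) (q 4) t := by
      simp only [cr, cs, Complex.sub_re, Complex.sub_im,
        Complex.real_smul, Complex.mul_re, Complex.mul_im, Complex.ofReal_re,
        Complex.ofReal_im]
      ring
    rw [e]
    exact mul_pos he0' k1
  · have e : cr (q 4) (q 6) (q 4 - ε • (t - q 4)) = -(ε * cr (q 6) t (q 4)) := by
      simp only [cr, cs, Complex.sub_re, Complex.sub_im,
        Complex.real_smul, Complex.mul_re, Complex.mul_im, Complex.ofReal_re,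
        Complex.ofReal_im]
      ring
    rw [e]
    have := mul_pos_of_neg_of_neg (neg_lt_zero.2 he0') h2
    linarith
  · have e : cr (q 8) (q 4) (q 4 - ε • (t - q 4)) = ε * cr (q 4) (q 8) t := by
      simp only [cr, cs, Complex.sub_re, Complex.sub_im,
        Complex.real_smul, Complex.mul_re, Complex.mul_im, Complex.ofReal_re,
        Complex.ofReal_im]
      ring
    rw [e]
    exact mul_pos he0' k2

/-- Case A. -/
theorem coreA (h : H9 q) (hd : Disjoint (oTri (q 0) (q 2) (q 4)) (oTri (q 4) (q 6) (q 8)))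
    (hc : (0 ≤ cr (q 0) (q 2) (q 8) ∧ 0 ≤ cr (q 2) (q 4) (q 8)) ∨
      (0 ≤ cr (q 0) (q 4) (q 6) ∧ 0 ≤ cr (q 0) (q 6) (q 8)) ∨
      (cr (q 2) (q 4) (q 8) < 0 ∧ cr (q 0) (q 4) (q 6) < 0)) :
    ∀ y ∈ U9 q, Sn q 1 y ∨ Sn q 5 y := by
  apply pair15 h
  intro t ht
  obtain ⟨α, β, γ, hα, hβ, hγ, hs, he⟩ := tri_bary h.h048 ht
  have v1 : cr (q 2) (q 4) t = α * cr (q 0) (q 2) (q 4) + γ * cr (q 2) (q 4) (q 8) := by
    rw [he, cr_comb hs, cr_self', cr_rot (q 0) (q 2) (q 4)]; ring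
  have v2 : cr (q 2) t (q 0) = β * cr (q 0) (q 2) (q 4) + γ * cr (q 0) (q 2) (q 8) := by
    rw [← cr_rot' (q 2) t (q 0), he, cr_comb hs, cr_self'']; ring
  have v3 : cr (q 6) (q 8) t = β * cr (q 4) (q 6) (q 8) + α * cr (q 0) (q 6) (q 8) := by
    rw [he, cr_comb hs, cr_self', cr_rot (q 4) (q 6) (q 8), cr_rot (q 0) (q 6) (q 8)]; ring
  have v4 : cr (q 6) t (q 4) = γ * cr (q 4) (q 6) (q 8) + α * cr (q 0) (q 4) (q 6) := by
    rw [← cr_rot' (q 6) t (q 4), he, cr_comb hs, cr_self'', cr_rot (q 0) (q 4) (q 6)]; ring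
  rcases hc with hc | hc | hc
  · left
    refine see_2 h ht ?_ ?_
    · rw [v1]; exact add_nonneg (mul_nonneg hα h.h024.le) (mul_nonneg hγ hc.2)
    · rw [v2]; exact add_nonneg (mul_nonneg hβ h.h024.le) (mul_nonneg hγ hc.1)
  · right
    refine see_6 h ht ?_ ?_
    · rw [v3]; exact add_nonneg (mul_nonneg hβ h.h468.le) (mul_nonneg hα hc.2)
    · rw [v4]; exact add_nonneg (mul_nonneg hγ h.h468.le) (mul_nonneg hα hc.1)
  · have w1 : 0 ≤ cr (q 0) (q 2) (q 8) := by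
      have := cr_sum (q 0) (q 4) (q 8) (q 2)
      have := cr_swap' (q 0) (q 2) (q 4)
      have := h.h024
      have := h.h048
      linarith [hc.1]
    have w2 : 0 ≤ cr (q 0) (q 6) (q 8) := by
      have := cr_sum (q 0) (q 4) (q 8) (q 6)
      have := cr_swap (q 4) (q 6) (q 8)
      have := h.h468
      have := h.h048
      linarith [hc.2]
    by_cases z1 : 0 ≤ cr (q 2) (q 4) t
    · left
      refine see_2 h ht z1 ?_
      rw [v2]; exact add_nonneg (mul_nonneg hβ h.h024.le) (mul_nonneg hγ w1)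
    · by_cases z2 : 0 ≤ cr (q 6) t (q 4)
      · right
        refine see_6 h ht ?_ z2
        rw [v3]; exact add_nonneg (mul_nonneg hβ h.h468.le) (mul_nonneg hα w2)
      · exact absurd (full_angle h hd ht (not_le.1 z1) (not_le.1 z2)) id

end MP7e112f
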