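import Pool.Agent.Lib.MP_7e112f_co.Core

/-!
# MP_7e112f_co, EG module CoreB: the 9-gon, the remaining cases and the mirror image
-/

open Set

namespace MP7e112f

variable {q : ℕ → ℂ}

theorem sn_of {k : ℕ} {y : ℂ} (h : ∃ x ∈ segment ℝ (q k) (q (k + 1)), segment ℝ x y ⊆ U9 q) :
    Sn q k y := h

/-- The reflex angle `0 8 6`, and a reflex angle at `0` or at `4` on the other side. -/
theorem coreB (h : H9 q) (r8 : cr (q 0) (q 6) (q 8) < 0)
    (hc : cr (q 2) (q 4) (q 8) < 0 ∨ cr (q 0) (q 2) (q 8) < 0) :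
    ∃ i j, i < 8 ∧ j < 8 ∧ ∀ y ∈ U9 q, Sn q i y ∨ Sn q j y := by
  by_cases a4 : cr (q 4) (q 5) (q 8) < 0
  · -- reflex at `4` in the quadrilateral `4 5 6 8`
    refine ⟨1, 5, by norm_num, by norm_num, pair15 h fun t ht => Or.inr ?_⟩
    exact fanV h.h048 h.h468 h.h456 r8 a4 s048 s468 s456 ht
  push Not at a4
  by_cases a6 : cr (q 5) (q 6) (q 8) < 0
  swap
  · -- convex quadrilateral `4 5 6 8`: the vertex `8` sees `4 5 6`
    push Not at a6
    refine ⟨1, 7, by norm_num, by norm_num, pair17 h fun t ht => Or.inr ?_⟩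
    refine ⟨q 8, right_mem_segment ℝ _ _, ?_⟩
    obtain ⟨α, β, γ, hα, hβ, hγ, hs, he⟩ := tri_bary h.h456 ht
    have := see2 (q := q 8) (R := q 4) (L := q 6) (q' := q 5) (x := q 8) (y := t)
      (by rw [cr_rot']; exact h.h468) (by rw [cr_rot]; exact h.h456)
      (by rw [← tri_rot]; exact tri_mem₃ h.h468) (by rw [tri_rot]; exact ht) ?_ ?_
    · exact this.trans (union_subset (mem_of_eq_tri' s468) (mem_of_eq_tri s456))
    · have e : cs (t - q 8) (q 4 - q 8) = -(cr (q 8) (q 4) t) := by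
        simp only [cr, cs, Complex.sub_re, Complex.sub_im]; ring
      have e' : cr (q 8) (q 4) t = β * cr (q 4) (q 5) (q 8) + γ * cr (q 4) (q 6) (q 8) := by
        rw [he, cr_comb hs, cr_self', cr_rot' (q 4) (q 5) (q 8), cr_rot' (q 4) (q 6) (q 8)]; ring
      rw [e, e']
      have := mul_nonneg hβ a4
      have := mul_nonneg hγ h.h468.le
      linarith
    · have e : cs (t - q 8) (q 6 - q 8) = cr (q 6) (q 8) t := by
        simp only [cr, cs, Complex.sub_re, Complex.sub_im]; ring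
      have e' : cr (q 6) (q 8) t = α * cr (q 4) (q 6) (q 8) + β * cr (q 5) (q 6) (q 8) := by
        rw [he, cr_comb hs, cr_self'', cr_rot (q 4) (q 6) (q 8), cr_rot (q 5) (q 6) (q 8)]; ring
      rw [e, e']
      exact add_nonneg (mul_nonneg hα h.h468.le) (mul_nonneg hβ a6)
  by_cases b8 : cr (q 4) (q 7) (q 8) < 0
  · -- reflex at `8` in the quadrilateral `4 6 7 8`
    refine ⟨1, 4, by norm_num, by norm_num, pair14 h fun t ht => Or.inr ?_⟩
    exact fanU h.h678 h.h468 h.h456 a6 b8 s678 s468 s456 ht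
  push Not at b8
  by_cases b6 : cr (q 4) (q 6) (q 7) < 0
  swap
  · -- convex quadrilateral `4 6 7 8`: the vertex `4` sees `6 7 8`
    push Not at b6
    refine ⟨1, 4, by norm_num, by norm_num, pair14 h fun t ht => Or.inr ?_⟩
    refine ⟨q 4, left_mem_segment ℝ _ _, ?_⟩
    obtain ⟨α, β, γ, hα, hβ, hγ, hs, he⟩ := tri_bary h.h678 ht
    have := see2 (q := q 4) (R := q 6) (L := q 8) (q' := q 7) (x := q 4) (y := t)
      h.h468 (by rw [cr_rot]; exact h.h678)
      (tri_mem₁ h.h468) (by rw [tri_rot]; exact ht) ?_ ?_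
    · exact this.trans (union_subset s468 (mem_of_eq_tri s678))
    · have e : cs (t - q 4) (q 6 - q 4) = -(cr (q 4) (q 6) t) := by
        simp only [cr, cs, Complex.sub_re, Complex.sub_im]; ring
      have e' : cr (q 4) (q 6) t = β * cr (q 4) (q 6) (q 7) + γ * cr (q 4) (q 6) (q 8) := by
        rw [he, cr_comb hs, cr_self']; ring
      rw [e, e']
      have := mul_nonneg hβ b6
      have := mul_nonneg hγ h.h468.le
      linarith
    · have e : cs (t - q 4) (q 8 - q 4) = cr (q 8) (q 4) t := by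
        simp only [cr, cs, Complex.sub_re, Complex.sub_im]; ring
      have e' : cr (q 8) (q 4) t = α * cr (q 4) (q 6) (q 8) + β * cr (q 4) (q 7) (q 8) := by
        rw [he, cr_comb hs, cr_self'', cr_rot' (q 4) (q 6) (q 8), cr_rot' (q 4) (q 7) (q 8)]; ring
      rw [e, e']
      exact add_nonneg (mul_nonneg hα h.h468.le) (mul_nonneg hβ b8)
  have hF : FH (q 0) (q 2) (q 4) (q 6) (q 7) (q 8) :=
    ⟨h.h048, h.h024, h.h468, h.h678, b6, r8⟩
  rcases hc with r4 | r0
  · rcases le_total 0 (cr (q 7) (q 8) (q 1)) with hw | hw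
    · exact ⟨0, 3, by norm_num, by norm_num, pair03 h fun t ht =>
        Or.inl (hF.caseA h.h012 r4 hw s024 s048 s468 s678 s012 ht)⟩
    · exact ⟨1, 3, by norm_num, by norm_num, pair13 h fun t ht =>
        Or.inl (hF.caseB h.h012 r4 hw s024 s048 s468 s678 s012 ht)⟩
  · rcases le_total 0 (cr (q 7) (q 6) (q 3)) with hw | hw
    · exact ⟨2, 4, by norm_num, by norm_num, pair24 h fun t ht =>
        Or.inl (hF.caseD h.h234 r0 hw s024 s048 s468 s678 s234 ht)⟩
    · exact ⟨0, 3, by norm_num, by norm_num, pair03 h fun t ht =>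
        Or.inr (hF.caseC h.h234 r0 hw s024 s048 s468 s678 s234 ht)⟩

/-- Complex conjugation. -/
noncomputable def cj (z : ℂ) : ℂ := starRingEnd ℂ z

theorem cj_cj (z : ℂ) : cj (cj z) = z := Complex.conj_conj z

theorem cr_cj (a b c : ℂ) : cr (cj a) (cj b) (cj c) = -cr a b c := by
  simp only [cr, cs, cj, Complex.sub_re, Complex.sub_im, Complex.conj_re, Complex.conj_im]; ring

theorem cr_rev (a b c : ℂ) : cr c b a = -cr a b c := by
  simp only [cr, cs, Complex.sub_re, Complex.sub_im]; ring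

theorem tri_cj {a b c x : ℂ} : cj x ∈ Tri (cj c) (cj b) (cj a) ↔ x ∈ Tri a b c := by
  simp only [Tri, mem_setOf_eq, cr_cj, neg_nonneg]
  rw [cr_swap b c x, cr_swap a b x, cr_swap c a x]
  simp only [neg_nonpos]
  tauto

theorem seg_cj {a b x : ℂ} (hx : x ∈ segment ℝ (cj a) (cj b)) : cj x ∈ segment ℝ a b := by
  obtain ⟨s, t, hs, ht, hst, rfl⟩ := hx
  refine ⟨s, t, hs, ht, hst, ?_⟩
  simp only [cj, Complex.real_smul, map_add, map_mul, Complex.conj_conj, Complex.conj_ofReal]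

/-- The mirror image, with the vertices in the reverse order. -/
noncomputable def mir (q : ℕ → ℂ) : ℕ → ℂ := fun k => cj (q (8 - k))

theorem mir_U9 {y : ℂ} : cj y ∈ U9 (mir q) ↔ y ∈ U9 q := by
  simp only [U9, mir, mem_union, tri_cj]
  norm_num only
  tauto

theorem mir_H9 (h : H9 q) : H9 (mir q) := by
  constructor <;> simp only [mir, cr_cj] <;> rw [cr_rev, neg_neg]
  · exact h.h048
  · exact h.h468
  · exact h.h678
  · exact h.h456
  · exact h.h024
  · exact h.h234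
  · exact h.h012

theorem mir_Sn {k : ℕ} (hk : k < 8) {y : ℂ} (h : Sn (mir q) k (cj y)) : Sn q (7 - k) y := by
  obtain ⟨x, hx, hseg⟩ := h
  refine ⟨cj x, ?_, ?_⟩
  · have h1 := seg_cj (a := q (8 - k)) (b := q (8 - (k + 1))) hx
    rw [segment_symm]
    have e1 : 7 - k + 1 = 8 - k := by omega
    have e2 : 8 - (k + 1) = 7 - k := by omega
    rw [e1, ← e2]
    exact h1
  · intro w hw
    rw [← mir_U9]
    apply hseg
    have h1 : cj w ∈ segment ℝ x (cj y) := by
      apply seg_cj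
      rwa [cj_cj]
    exact h1

/-- The 9-gon is covered by two of its edges. -/
theorem core (h : H9 q) (hd : Disjoint (oTri (q 0) (q 2) (q 4)) (oTri (q 4) (q 6) (q 8))) :
    ∃ i j, i < 8 ∧ j < 8 ∧ ∀ y ∈ U9 q, Sn q i y ∨ Sn q j y := by
  by_cases c1 : 0 ≤ cr (q 0) (q 2) (q 8) ∧ 0 ≤ cr (q 2) (q 4) (q 8)
  · exact ⟨1, 5, by norm_num, by norm_num, coreA h hd (Or.inl c1)⟩
  by_cases c2 : 0 ≤ cr (q 0) (q 4) (q 6) ∧ 0 ≤ cr (q 0) (q 6) (q 8)
  · exact ⟨1, 5, by norm_num, by norm_num, coreA h hd (Or.inr (Or.inl c2))⟩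
  by_cases c3 : cr (q 2) (q 4) (q 8) < 0 ∧ cr (q 0) (q 4) (q 6) < 0
  · exact ⟨1, 5, by norm_num, by norm_num, coreA h hd (Or.inr (Or.inr c3))⟩
  have d1 : cr (q 2) (q 4) (q 8) < 0 ∨ cr (q 0) (q 2) (q 8) < 0 := by
    by_contra hcon
    push Not at hcon
    exact c1 ⟨hcon.2, hcon.1⟩
  have d2 : cr (q 0) (q 6) (q 8) < 0 ∨ cr (q 0) (q 4) (q 6) < 0 := by
    by_contra hcon
    push Not at hcon
    exact c2 ⟨hcon.2, hcon.1⟩
  rcases d2 with d2 | d2
  · exact coreB h d2 d1
  · have d3 : cr (q 0) (q 2) (q 8) < 0 := by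
      rcases d1 with d1 | d1
      · exact absurd ⟨d1, d2⟩ c3
      · exact d1
    -- the mirror image
    have m1 : cr (mir q 0) (mir q 6) (mir q 8) < 0 := by
      simp only [mir, cr_cj]
      rw [cr_rev, neg_neg]
      exact d3
    have m2 : cr (mir q 2) (mir q 4) (mir q 8) < 0 := by
      simp only [mir, cr_cj]
      rw [cr_rev, neg_neg]
      exact d2
    obtain ⟨i, j, hi, hj, H⟩ := coreB (mir_H9 h) m1 (Or.inl m2)
    refine ⟨7 - i, 7 - j, by omega, by omega, fun y hy => ?_⟩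
    rcases H (cj y) (mir_U9.2 hy) with h1 | h1
    · exact Or.inl (mir_Sn hi h1)
    · exact Or.inr (mir_Sn hj h1)

end MP7e112f
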