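import Pool.Agent.Lib.MP_7e112f_co.Ach

/-!
# MP_7e112f_co, EG module DP: the cost of a tree is at most 5/17 of its size, up to a constant

`cost t a b` is the number of leaves which suffice for the tree `t` if the states of the first and
the last vertex are `a` and `b` (see `Ach`). The vector `cost t` is bounded by
`17 * cost t a b + 24 ≤ 5 * sz t + DD (typ t) a b`, where `typ t` is one of 32 types, and `DD` is a
fixed table.
-/

open Set

namespace MP7e112f

open BT

/-- Composition of two vectors. -/
def raw (c d : ℕ → ℕ → ℕ) (a b : ℕ) : ℕ :=
  min (min (c a 1 + d 2 b) (c a 2 + d 1 b))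
    (min (c a 1 + d 1 b) (if a = 0 ∧ b = 0 then c a 1 + d 2 b else c a 0 + d 0 b))

/-- State `0` is implied by `1`, and state `2` by `0`. -/
def clA (c : ℕ → ℕ → ℕ) (a b : ℕ) : ℕ :=
  if a = 1 then c 1 b else if a = 0 then min (c 0 b) (c 1 b) else
    min (c 2 b) (min (c 0 b) (c 1 b))

def clB (c : ℕ → ℕ → ℕ) (a b : ℕ) : ℕ :=
  if b = 1 then c a 1 else if b = 0 then min (c a 0) (c a 1) else
    min (c a 2) (min (c a 0) (c a 1))

def cmpo (c d : ℕ → ℕ → ℕ) : ℕ → ℕ → ℕ := clB (clA (raw c d))

def cap (a b : ℕ) : ℕ := 2 + (if a = 1 then 1 else 0) + (if b = 1 then 1 else 0)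

/-- The cost of a tree. -/
def cost : BT → ℕ → ℕ → ℕ
  | leaf => fun a b => if a = 1 ∨ b = 1 then 1 else 0
  | node l r => fun a b =>
      if node l r = D8 then min (cmpo (cost l) (cost r) a b) (cap a b)
      else cmpo (cost l) (cost r) a b

/-- The table of the types. -/
def DD (s a b : ℕ) : ℕ := (3424982810377413967334423573503704362556366421306995449349144511000400445547060070171933421288085789659995131124045547947273262651903617242788638293406717939068234266595409557383972143646003505504087186363314506600584683312488792926127414129582608259335706079004531311077904716636453347449025351632096388330838436874400233664063919406901461694584884146306350050925074303694690615909437409577860585907567058137090841661849346058457825268631900837173658411231446014827935471246827899212246546503669146392726628364390054163 >>> (6 * (9 * s + 3 * a + b))) % 64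

/-- The table of the transitions. -/
def TR (s t : ℕ) : ℕ := (12118075527106612275803168688375483183902027513992884464219672763672986743318624080619232694917405082657278352928982070309274689496942865737299043761633385981701237439016015632345076507771210703759475008455839190092077572396162234450685771322021023373824777322454386980293293670202411877280473747766834557972781908644661086391070031289168067719581043617920917078413731348308150128401825188957486481600808940623411486046369898203249519317632044044509296591497618073841414959055938762103731530956672045962949882744761026469874708221012295749481911145713088774080385513199106103553313902965652452259302193272870047713732214440486888916459261787800357485774074586032990857409550967260502630083336721111605497441164324597853925179649341774323098603160984365763924265205490825625909721239581479687510124897789246765324914005562865080744411216143063027806613656411054183609287514410025251217035702592090477291734846351558915479777150409347208743116767670328550329309469818463760207443270282336241724246049794789753793055682046982121548670052535867554019778218541298189375768637400975764615198039321396621210855913656025835283433000106553353795354974253964689526376522020493710989424893754879311469684763045892199893019527172537794119716800893213480023334477083705698161404736186458689632280380381480834187577875177078084789657971163040265692382422276107584870782000772887522741117357251696004154609861180771449225224614918064019351992697802481932523796105599690316902202837784821384585295856054194998584875025564558286976304218881765299521786646593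 >>> (5 * (32 * s + t))) % 32

def typ : BT → ℕ
  | leaf => 0
  | node l r => TR (typ l) (typ r)

theorem TR_lt (s t : ℕ) : TR s t < 32 := Nat.mod_lt _ (by norm_num)

theorem typ_lt : ∀ t, typ t < 32
  | leaf => by norm_num [typ]
  | node l r => TR_lt _ _

/-- The check of the transitions. -/
theorem check : ∀ s < 32, ∀ t < 32, (s = 6 ∧ t = 6) ∨
    ∀ a < 3, ∀ b < 3, cmpo (DD s) (DD t) a b ≤ DD (TR s t) a b + 24 := by
  decide +kernel

theorem check_exact : ∀ s < 32, ∀ t < 32, TR s t ≠ 0 ∧ (TR s t = 1 → s = 0 ∧ t = 0) ∧
    (TR s t = 6 → s = 1 ∧ t = 1) := by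
  decide +kernel

theorem check_fin : ∀ s < 32, s ≠ 0 → DD s 0 0 ≤ 33 ∨ DD s 2 2 + 17 ≤ 33 := by
  decide +kernel

theorem raw_bound {c d C D : ℕ → ℕ → ℕ} {X Y : ℕ}
    (hc : ∀ a < 3, ∀ b < 3, 17 * c a b + 24 ≤ X + C a b)
    (hd : ∀ a < 3, ∀ b < 3, 17 * d a b + 24 ≤ Y + D a b) :
    ∀ a < 3, ∀ b < 3, 17 * raw c d a b + 48 ≤ X + Y + raw C D a b := by
  intro a ha b hb
  have h1 := hc a ha 0 (by norm_num)
  have h2 := hc a ha 1 (by norm_num)
  have h3 := hc a ha 2 (by norm_num)
  have h4 := hd 0 (by norm_num) b hb
  have h5 := hd 1 (by norm_num) b hb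
  have h6 := hd 2 (by norm_num) b hb
  unfold raw
  split_ifs <;> omega

theorem clA_bound {c C : ℕ → ℕ → ℕ} {X K : ℕ}
    (hc : ∀ a < 3, ∀ b < 3, 17 * c a b + K ≤ X + C a b) :
    ∀ a < 3, ∀ b < 3, 17 * clA c a b + K ≤ X + clA C a b := by
  intro a ha b hb
  have h1 := hc 0 (by norm_num) b hb
  have h2 := hc 1 (by norm_num) b hb
  have h3 := hc 2 (by norm_num) b hb
  unfold clA
  split_ifs <;> omega

theorem clB_bound {c C : ℕ → ℕ → ℕ} {X K : ℕ}
    (hc : ∀ a < 3, ∀ b < 3, 17 * c a b + K ≤ X + C a b) :
    ∀ a < 3, ∀ b < 3, 17 * clB c a b + K ≤ X + clB C a b := by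
  intro a ha b hb
  have h1 := hc a ha 0 (by norm_num)
  have h2 := hc a ha 1 (by norm_num)
  have h3 := hc a ha 2 (by norm_num)
  unfold clB
  split_ifs <;> omega

theorem D8_bound : ∀ a < 3, ∀ b < 3, 17 * cost D8 a b + 24 ≤ 5 * 8 + DD 15 a b := by
  decide +kernel

theorem leaf_bound : ∀ a < 3, ∀ b < 3, 17 * cost leaf a b + 24 ≤ 5 * 1 + DD 0 a b := by
  decide +kernel

/-- The cost vector is bounded by the type. -/
theorem cost_bound : ∀ t : BT, ((typ t = 0 → t = leaf) ∧ (typ t = 1 → t = EE) ∧
    (typ t = 6 → t = WW)) ∧ ∀ a < 3, ∀ b < 3, 17 * cost t a b + 24 ≤ 5 * t.sz + DD (typ t) a b := by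
  intro t
  induction t with
  | leaf =>
    refine ⟨⟨fun _ => rfl, fun h => ?_, fun h => ?_⟩, leaf_bound⟩
    · simp [typ] at h
    · simp [typ] at h
  | node l r ihl ihr =>
    obtain ⟨⟨l0, l1, l6⟩, hl⟩ := ihl
    obtain ⟨⟨r0, r1, r6⟩, hr⟩ := ihr
    obtain ⟨e0, e1, e6⟩ := check_exact (typ l) (typ_lt l) (typ r) (typ_lt r)
    refine ⟨⟨fun h => absurd h e0, fun h => ?_, fun h => ?_⟩, fun a ha b hb => ?_⟩
    · obtain ⟨h1, h2⟩ := e1 h
      rw [l0 h1, r0 h2]; rfl
    · obtain ⟨h1, h2⟩ := e6 h
      rw [l1 h1, r1 h2]; rfl
    · by_cases h8 : node l r = D8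
      · rw [h8]
        have h15 : typ D8 = 15 := by decide +kernel
        rw [h15]
        exact D8_bound a ha b hb
      · have hne : ¬ (typ l = 6 ∧ typ r = 6) := by
          rintro ⟨h1, h2⟩
          apply h8
          rw [l6 h1, r6 h2]; rfl
        have hcost : cost (node l r) a b = cmpo (cost l) (cost r) a b := by
          simp only [cost, h8, if_false]
        have hb1 := clB_bound (clA_bound (raw_bound hl hr)) a ha b hb
        have hb2 := ((check (typ l) (typ_lt l) (typ r) (typ_lt r)).resolve_left hne) a ha b hb
        have hsz : (node l r).sz = l.sz + r.sz := rfl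
        rw [hcost, hsz]
        change 17 * cmpo (cost l) (cost r) a b + 48 ≤
          5 * l.sz + 5 * r.sz + cmpo (DD (typ l)) (DD (typ r)) a b at hb1
        change _ ≤ _ + DD (TR (typ l) (typ r)) a b
        omega

/-- The bound for the whole polygon. -/
theorem cost_fin (t : BT) (ht : t ≠ leaf) :
    17 * cost t 0 0 ≤ 5 * (t.sz + 1) + 4 ∨ 17 * (cost t 2 2 + 1) ≤ 5 * (t.sz + 1) + 4 := by
  obtain ⟨⟨t0, _, _⟩, h⟩ := cost_bound t
  have h1 := h 0 (by norm_num) 0 (by norm_num)
  have h2 := h 2 (by norm_num) 2 (by norm_num)
  rcases check_fin (typ t) (typ_lt t) (fun h0 => ht (t0 h0)) with h3 | h3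
  · left; omega
  · right; omega

/-! ## Soundness -/

theorem f3 : ∀ a : Fin 3, a ≠ 1 → a = 0 ∨ a = 2 := by decide

theorem ach_cost (p : ℕ → ℂ) : ∀ (t : BT) (o : ℕ), Pos p t o → Emb p t o →
    ∀ a b : Fin 3, Ach p t o a b (cost t a.val b.val) := by
  intro t
  induction t with
  | leaf =>
    intro o _ _ a b
    by_cases h : a = 1 ∨ b = 1
    · have : cost leaf a.val b.val = 1 := by
        revert h; revert a b; decide
      rw [this]
      exact Ach.leaf1 p o a b
    · have : cost leaf a.val b.val = 0 := by
        revert h; revert a b; decide
      rw [this]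
      have h0 := Ach.leaf0 p o
      push Not at h
      have ha := f3 a h.1
      have hb := f3 b h.2
      rcases ha with rfl | rfl <;> rcases hb with rfl | rfl
      · exact h0
      · exact h0.b02
      · exact h0.a02
      · exact h0.a02.b02
  | node l r ihl ihr =>
    intro o hp he a b
    have hl := ihl o hp.2.1 he.2.1
    have hr := ihr _ hp.2.2 he.2.2
    have hraw : ∀ a b : Fin 3, Ach p (node l r) o a b (raw (cost l) (cost r) a.val b.val) := by
      intro a b
      have k1 := Ach.comp hp (hl a 1) (hr 2 b) (Or.inr (Or.inl ⟨rfl, rfl⟩))
      have k2 := Ach.comp hp (hl a 2) (hr 1 b) (Or.inr (Or.inr (Or.inl ⟨rfl, rfl⟩)))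
      have k3 := Ach.comp hp (hl a 1) (hr 1 b) (Or.inr (Or.inr (Or.inr ⟨rfl, rfl⟩)))
      have k4 : Ach p (node l r) o a b (if a.val = 0 ∧ b.val = 0 then
          cost l a.val 1 + cost r 2 b.val else cost l a.val 0 + cost r 0 b.val) := by
        split_ifs with h
        · exact k1
        · refine Ach.comp hp (hl a 0) (hr 0 b) (Or.inl ⟨rfl, rfl, ?_⟩)
          by_contra hcon
          push Not at hcon
          exact h ⟨by rw [hcon.1]; rfl, by rw [hcon.2]; rfl⟩
      unfold raw
      rcases min_choice (min (cost l a.val 1 + cost r 2 b.val) (cost l a.val 2 + cost r 1 b.val))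
        (min (cost l a.val 1 + cost r 1 b.val) (if a.val = 0 ∧ b.val = 0 then
          cost l a.val 1 + cost r 2 b.val else cost l a.val 0 + cost r 0 b.val)) with h | h
      · rw [h]
        rcases min_choice (cost l a.val 1 + cost r 2 b.val) (cost l a.val 2 + cost r 1 b.val)
          with h | h
        · rw [h]; exact k1
        · rw [h]; exact k2
      · rw [h]
        rcases min_choice (cost l a.val 1 + cost r 1 b.val) (if a.val = 0 ∧ b.val = 0 then
          cost l a.val 1 + cost r 2 b.val else cost l a.val 0 + cost r 0 b.val) with h | h
        · rw [h]; exact k3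
        · rw [h]; exact k4
    have hA : ∀ a b : Fin 3,
        Ach p (node l r) o a b (clA (raw (cost l) (cost r)) a.val b.val) := by
      intro a b
      have k0 := hraw 0 b
      have k1 := hraw 1 b
      have k2 := hraw 2 b
      fin_cases a
      · change Ach p (node l r) o 0 b (min (raw (cost l) (cost r) 0 b.val)
          (raw (cost l) (cost r) 1 b.val))
        rcases min_choice (raw (cost l) (cost r) 0 b.val) (raw (cost l) (cost r) 1 b.val)
          with h | h
        · rw [h]; exact k0
        · rw [h]; exact k1.a10
      · exact k1
      · change Ach p (node l r) o 2 b (min (raw (cost l) (cost r) 2 b.val)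
          (min (raw (cost l) (cost r) 0 b.val) (raw (cost l) (cost r) 1 b.val)))
        rcases min_choice (raw (cost l) (cost r) 2 b.val)
          (min (raw (cost l) (cost r) 0 b.val) (raw (cost l) (cost r) 1 b.val)) with h | h
        · rw [h]; exact k2
        · rw [h]
          rcases min_choice (raw (cost l) (cost r) 0 b.val) (raw (cost l) (cost r) 1 b.val)
            with h | h
          · rw [h]; exact k0.a02
          · rw [h]; exact k1.a10.a02
    have hB : ∀ a b : Fin 3,
        Ach p (node l r) o a b (cmpo (cost l) (cost r) a.val b.val) := by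
      intro a b
      have k0 := hA a 0
      have k1 := hA a 1
      have k2 := hA a 2
      fin_cases b
      · change Ach p (node l r) o a 0 (min (clA (raw (cost l) (cost r)) a.val 0)
          (clA (raw (cost l) (cost r)) a.val 1))
        rcases min_choice (clA (raw (cost l) (cost r)) a.val 0)
          (clA (raw (cost l) (cost r)) a.val 1) with h | h
        · rw [h]; exact k0
        · rw [h]; exact k1.b10
      · exact k1
      · change Ach p (node l r) o a 2 (min (clA (raw (cost l) (cost r)) a.val 2)
          (min (clA (raw (cost l) (cost r)) a.val 0) (clA (raw (cost l) (cost r)) a.val 1)))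
        rcases min_choice (clA (raw (cost l) (cost r)) a.val 2)
          (min (clA (raw (cost l) (cost r)) a.val 0) (clA (raw (cost l) (cost r)) a.val 1))
          with h | h
        · rw [h]; exact k2
        · rw [h]
          rcases min_choice (clA (raw (cost l) (cost r)) a.val 0)
            (clA (raw (cost l) (cost r)) a.val 1) with h | h
          · rw [h]; exact k0.b02
          · rw [h]; exact k1.b10.b02
    by_cases h8 : node l r = D8
    · have e : cost (node l r) a.val b.val = min (cmpo (cost l) (cost r) a.val b.val)
          (cap a.val b.val) := by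
        simp only [cost, h8, if_true]
      rw [e]
      have hcap : Ach p (node l r) o a b (cap a.val b.val) := by
        rw [h8] at hp he ⊢
        have h0 := Ach.d8 hp he
        fin_cases a <;> fin_cases b
        · exact h0
        · exact h0.b01
        · exact h0.b02
        · exact h0.a01
        · exact h0.a01.b01
        · exact h0.a01.b02
        · exact h0.a02
        · exact h0.a02.b01
        · exact h0.a02.b02
      rcases min_choice (cmpo (cost l) (cost r) a.val b.val) (cap a.val b.val) with h | h
      · rw [h]; exact hB a b
      · rw [h]; exact hcap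
    · have e : cost (node l r) a.val b.val = cmpo (cost l) (cost r) a.val b.val := by
        simp only [cost, h8, if_false]
      rw [e]
      exact hB a b

end MP7e112f
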