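import Mathlib

/-!
# MP_7e112f_co, EG: definitions

* the polygon bounded by a simple closed polygonal curve, and edge guards (used in the result),
* closed chains of edges `p 0, p 1, …, p n = p 0` (`SC`), the winding number `W`, the orientation
  `Ori` (topological part),
* binary trees, their realisation as triangulations, and the region of a tree (guarding part).
-/

open Set

namespace MP7e112f

/-! ## Polygons -/

/-- The `i`-th edge of the closed polygonal curve with the vertices `p 0, …, p (n-1)`: the closed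
segment from `p i` to `p (i+1)`, where the indices are read modulo `n`. -/
def edge {n : ℕ} [NeZero n] (p : Fin n → ℂ) (i : Fin n) : Set ℂ := segment ℝ (p i) (p (i + 1))

/-- The closed polygonal curve with the vertices `p 0, …, p (n-1)`. -/
def curve {n : ℕ} [NeZero n] (p : Fin n → ℂ) : Set ℂ := ⋃ i, edge p i

/-- `p 0, …, p (n-1)` are the vertices, in this order, of a simple closed polygonal curve: they are
distinct, consecutive edges meet only in their common vertex, and all other pairs of edges are
disjoint. -/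
structure SimplePolygon {n : ℕ} [NeZero n] (p : Fin n → ℂ) : Prop where
  inj : Function.Injective p
  adj : ∀ i, edge p i ∩ edge p (i + 1) = {p (i + 1)}
  disj : ∀ i j, i ≠ j → i + 1 ≠ j → j + 1 ≠ i → Disjoint (edge p i) (edge p j)

/-- The closed set `S` together with all bounded components of its complement. -/
def rgn (S : Set ℂ) : Set ℂ :=
  S ∪ {z | z ∉ S ∧ Bornology.IsBounded (connectedComponentIn Sᶜ z)}

/-- The polygon with the vertices `p 0, …, p (n-1)`: the curve together with its inside. -/
def region {n : ℕ} [NeZero n] (p : Fin n → ℂ) : Set ℂ := rgn (curve p)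

/-! ## Orientation -/

/-- The determinant of two plane vectors. -/
def cs (u v : ℂ) : ℝ := u.re * v.im - u.im * v.re

/-- Twice the signed area of the triangle `a b c`. -/
def cr (a b c : ℂ) : ℝ := cs (b - a) (c - a)

/-- The closed triangle with the positively oriented vertices `a, b, c`. -/
def Tri (a b c : ℂ) : Set ℂ := {x | 0 ≤ cr a b x ∧ 0 ≤ cr b c x ∧ 0 ≤ cr c a x}

/-- The open triangle with the positively oriented vertices `a, b, c`. -/
def oTri (a b c : ℂ) : Set ℂ := {x | 0 < cr a b x ∧ 0 < cr b c x ∧ 0 < cr c a x}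

/-! ## Closed chains -/

/-- The union of the edges `[p k, p (k+1)]`, `k < n`. -/
def crv (p : ℕ → ℂ) (n : ℕ) : Set ℂ := {z | ∃ k < n, z ∈ segment ℝ (p k) (p (k + 1))}

/-- `p 0, …, p (n-1), p n = p 0` is a simple closed chain. -/
structure SC (p : ℕ → ℂ) (n : ℕ) : Prop where
  three : 3 ≤ n
  cl : p n = p 0
  inj : ∀ i j, i < n → j < n → p i = p j → i = j
  inter : ∀ i j, i < j → j < n → ∀ x, x ∈ segment ℝ (p i) (p (i + 1)) →
    x ∈ segment ℝ (p j) (p (j + 1)) → (j = i + 1 ∧ x = p j) ∨ (i = 0 ∧ j + 1 = n ∧ x = p 0)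

/-- The winding number of the closed chain `p 0, …, p n = p 0` around `z`. -/
noncomputable def W (p : ℕ → ℂ) (n : ℕ) (z : ℂ) : ℝ :=
  (∑ k ∈ Finset.range n, Complex.arg ((p (k + 1) - z) / (p k - z))) / (2 * Real.pi)

/-- The connected component of `z` in the complement of the chain. -/
def cmp (p : ℕ → ℂ) (n : ℕ) (z : ℂ) : Set ℂ := connectedComponentIn (crv p n)ᶜ z

/-- `s` is the orientation of the simple closed chain: off the chain, the winding number is `0` in
the unbounded component, and `s` in the (only, nonempty) bounded component. -/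
structure Ori (p : ℕ → ℂ) (n : ℕ) (s : ℝ) : Prop where
  sq : s = 1 ∨ s = -1
  ex : ∃ z, z ∉ crv p n ∧ W p n z = s
  dich : ∀ z, z ∉ crv p n → (W p n z = 0 ∧ ¬ Bornology.IsBounded (cmp p n z)) ∨
    (W p n z = s ∧ Bornology.IsBounded (cmp p n z))

/-- `z` lies in the component of the complement of the chain which touches the `k`-th edge from the
left (`σ = 1`) or from the right (`σ = -1`). -/
def Near (p : ℕ → ℂ) (n k : ℕ) (σ : ℝ) (z : ℂ) : Prop :=
  z ∉ crv p n ∧ ∀ m ∈ openSegment ℝ (p k) (p (k + 1)), ∀ ν : ℂ, 0 < σ * cs (p (k + 1) - p k) ν →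
    ∃ δ > 0, ∀ ε : ℝ, 0 < ε → ε < δ → m + ε • ν ∈ cmp p n z

/-- The open segment from `p i` to `p j` lies in the inside of the chain. -/
def Diag (p : ℕ → ℂ) (n i j : ℕ) : Prop :=
  ∀ x ∈ openSegment ℝ (p i) (p j), x ∉ crv p n ∧ W p n x ≠ 0

/-- The closed chain `p i, p (i+1), …, p j, p i`, with `j - i + 1` edges. -/
def inn (p : ℕ → ℂ) (i j : ℕ) : ℕ → ℂ := fun k => if k ≤ j - i then p (i + k) else p i

/-- The chain `p 0, …, p i, p j, p (j+1), …`, which skips `p (i+1), …, p (j-1)`. -/
def out (p : ℕ → ℂ) (i j : ℕ) : ℕ → ℂ := fun k => if k ≤ i then p k else p (k + (j - i - 1))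

/-- The chain `p r, p (r+1), …, p n = p 0, p 1, …, p r`. -/
def rot (p : ℕ → ℂ) (n r : ℕ) : ℕ → ℂ := fun k => if k + r ≤ n then p (k + r) else p (k + r - n)

/-! ## Trees -/

/-- Binary trees. A leaf is an edge of the polygon, a node is a triangle. -/
inductive BT : Type
  | leaf : BT
  | node : BT → BT → BT
  deriving DecidableEq

namespace BT

/-- The number of leaves. -/
def sz : BT → ℕ
  | leaf => 1
  | node l r => sz l + sz r

theorem sz_pos : ∀ t : BT, 0 < t.sz
  | leaf => Nat.one_pos
  | node l r => by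
      have := sz_pos l
      simp only [sz]
      omega

/-- Replace the `i`-th leaf of the first tree by the second tree. -/
def graft : BT → ℕ → BT → BT
  | leaf, _, u => u
  | node l r, i, u => if i < l.sz then node (graft l i u) r else node l (graft r (i - l.sz) u)

end BT

open BT

/-- The union of the closed triangles of the tree `t`, whose leaves are the edges
`[p o, p (o+1)], …, [p (o + sz t - 1), p (o + sz t)]`. -/
def reg (p : ℕ → ℂ) : BT → ℕ → Set ℂ
  | leaf, _ => ∅
  | node l r, o => Tri (p o) (p (o + l.sz)) (p (o + l.sz + r.sz)) ∪ reg p l o ∪ reg p r (o + l.sz)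

/-- The union of the open triangles of the tree `t`. -/
def ireg (p : ℕ → ℂ) : BT → ℕ → Set ℂ
  | leaf, _ => ∅
  | node l r, o => oTri (p o) (p (o + l.sz)) (p (o + l.sz + r.sz)) ∪ ireg p l o ∪
      ireg p r (o + l.sz)

/-- All triangles are positively oriented. -/
def Pos (p : ℕ → ℂ) : BT → ℕ → Prop
  | leaf, _ => True
  | node l r, o => 0 < cr (p o) (p (o + l.sz)) (p (o + l.sz + r.sz)) ∧ Pos p l o ∧
      Pos p r (o + l.sz)

/-- At each node, the open triangles on the left are disjoint from the ones on the right. -/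
def Emb (p : ℕ → ℂ) : BT → ℕ → Prop
  | leaf, _ => True
  | node l r, o => Disjoint (ireg p l o) (ireg p r (o + l.sz)) ∧ Emb p l o ∧ Emb p r (o + l.sz)

/-- The edges in `E` (`j` stands for `[p j, p (j+1)]`) together with the points `p o` (if `A`) and
`p (o + sz t)` (if `B`) see all points of the region of the tree. -/
def Good (p : ℕ → ℂ) (t : BT) (o : ℕ) (E : Finset ℕ) (A B : Prop) : Prop :=
  ∀ y ∈ reg p t o, (∃ j ∈ E, ∃ x ∈ segment ℝ (p j) (p (j + 1)), segment ℝ x y ⊆ reg p t o) ∨
    (A ∧ segment ℝ (p o) y ⊆ reg p t o) ∨ (B ∧ segment ℝ (p (o + t.sz)) y ⊆ reg p t o)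

/-- `m` leaves of the tree suffice. `a` and `b` are the states of the first and the last vertex:
`0` nothing is known, `1` the first (last) leaf is used, `2` the vertex is guarded from outside. -/
def Ach (p : ℕ → ℂ) (t : BT) (o : ℕ) (a b : Fin 3) (m : ℕ) : Prop :=
  ∃ E : Finset ℕ, E ⊆ Finset.Ico o (o + t.sz) ∧ E.card ≤ m ∧ (a = 1 → o ∈ E) ∧
    (b = 1 → o + t.sz - 1 ∈ E) ∧ Good p t o E (a = 2) (b = 2)

end MP7e112f
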