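import Pool.Agent.Lib.MP_7e112f_co.Triv

/-!
# MP_7e112f_co, EG module DiagAbs: a diagonal at a convex vertex (abstract form)
-/

open Set

namespace MP7e112f

/-- The closed triangle with the vertices `u, v, w`, any orientation. -/
def CT (u v w : ℂ) : Set ℂ :=
  {x | ∃ α β γ : ℝ, 0 ≤ α ∧ 0 ≤ β ∧ 0 ≤ γ ∧ α + β + γ = 1 ∧ x = α • u + β • v + γ • w}

private theorem coords {u v w : ℂ} (hne : cr u v w ≠ 0) : ∃ A B G : ℂ → ℝ,
    (∀ x, A x + B x + G x = 1) ∧ (∀ x, x = A x • u + B x • v + G x • w) ∧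
    (∀ a b g : ℝ, a + b + g = 1 → A (a • u + b • v + g • w) = a ∧
      B (a • u + b • v + g • w) = b ∧ G (a • u + b • v + g • w) = g) ∧
    (∀ (s t : ℝ) (x y : ℂ), s + t = 1 → A (s • x + t • y) = s * A x + t * A y ∧
      B (s • x + t • y) = s * B x + t * B y ∧ G (s • x + t • y) = s * G x + t * G y) := by
  refine ⟨fun x => cr v w x / cr u v w, fun x => cr w u x / cr u v w,
    fun x => cr u v x / cr u v w, ?_, ?_, ?_, ?_⟩
  · intro x
    rw [← add_div, ← add_div, div_eq_one_iff_eq hne]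
    simp only [cr, cs, Complex.sub_re, Complex.sub_im]; ring
  · intro x
    apply Complex.ext
    · simp only [Complex.add_re, Complex.real_smul, Complex.mul_re, Complex.ofReal_re,
        Complex.ofReal_im, zero_mul, sub_zero]
      rw [div_mul_eq_mul_div, div_mul_eq_mul_div, div_mul_eq_mul_div, ← add_div, ← add_div,
        eq_div_iff hne]
      simp only [cr, cs, Complex.sub_re, Complex.sub_im]; ring
    · simp only [Complex.add_im, Complex.real_smul, Complex.mul_im, Complex.ofReal_re,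
        Complex.ofReal_im, zero_mul, add_zero]
      rw [div_mul_eq_mul_div, div_mul_eq_mul_div, div_mul_eq_mul_div, ← add_div, ← add_div,
        eq_div_iff hne]
      simp only [cr, cs, Complex.sub_re, Complex.sub_im]; ring
  · intro a b g h
    have ha : a = 1 - b - g := by linarith
    subst ha
    refine ⟨?_, ?_, ?_⟩ <;>
    · show _ / _ = _
      rw [div_eq_iff hne]
      simp only [cr, cs, Complex.sub_re, Complex.sub_im, Complex.add_re, Complex.add_im,
        Complex.real_smul, Complex.mul_re, Complex.mul_im, Complex.ofReal_re, Complex.ofReal_im]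
      ring
  · intro s t x y h
    have hs : s = 1 - t := by linarith
    subst hs
    refine ⟨?_, ?_, ?_⟩ <;>
    · show _ / _ = _ * (_ / _) + _ * (_ / _)
      rw [← mul_div_assoc, ← mul_div_assoc, ← add_div, div_left_inj' hne]
      simp only [cr, cs, Complex.sub_re, Complex.sub_im, Complex.add_re, Complex.add_im,
        Complex.real_smul, Complex.mul_re, Complex.mul_im, Complex.ofReal_re, Complex.ofReal_im]
      ring

private theorem starU {V : Finset ℂ} {u v w : ℂ} {A B G : ℂ → ℝ}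
    (h1 : ∀ x, A x + B x + G x = 1) (hx : ∀ x, x = A x • u + B x • v + G x • w)
    (hAu : A u = 1) (hBu : B u = 0) (hGu : G u = 0) (hBv : B v = 1) (hGw : G w = 1)
    (hseg : ∀ (s t : ℝ) (x y : ℂ), s + t = 1 → A (s • x + t • y) = s * A x + t * A y ∧
      B (s • x + t • y) = s * B x + t * B y ∧ G (s • x + t • y) = s * G x + t * G y)
    (hwV : w ∈ V) {d x : ℂ} (hd : d ∈ V)
    (h2 : ∀ x ∈ V, x ∈ segment ℝ u d → x = u ∨ x = d) (hdw : d ≠ w)
    (hxs : x ∈ segment ℝ u d) (hBx : B x = 0) (hGx : 0 < G x) :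
    ∃ c ∈ V, c ≠ u ∧ c ≠ v ∧ c ≠ w ∧ 0 ≤ A c ∧ 0 ≤ B c ∧ 0 ≤ G c ∧ B x ≤ B c := by
  obtain ⟨s, t, hs, ht, hst, rfl⟩ := hxs
  obtain ⟨e1, e2, e3⟩ := hseg s t u d hst
  rw [e2, hBu, mul_zero, zero_add] at hBx
  rw [e3, hGu, mul_zero, zero_add] at hGx
  have ht0 : 0 < t := lt_of_le_of_ne ht (fun h => by rw [← h] at hGx; simp at hGx)
  have hGd : 0 < G d := by
    by_contra hc
    push Not at hc
    nlinarith
  have hBd : B d = 0 := by
    rcases mul_eq_zero.1 hBx with h | h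
    · exact absurd h ht0.ne'
    · exact h
  have hsum := h1 d
  rw [hBd, add_zero] at hsum
  have hdu : d ≠ u := fun h => by rw [h, hGu] at hGd; exact lt_irrefl _ hGd
  have hdv : d ≠ v := fun h => by rw [h, hBv] at hBd; exact one_ne_zero hBd
  have hA : 0 ≤ A d := by
    by_contra hc
    push Not at hc
    have hG1 : 1 < G d := by linarith
    have hw : w ∈ segment ℝ u d := by
      refine ⟨1 - 1 / G d, 1 / G d, ?_, by positivity, by ring, ?_⟩
      · have : 1 / G d ≤ 1 := by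
          rw [div_le_one hGd]; exact hG1.le
        linarith
      · have h5 : G d ≠ 0 := hGd.ne'
        have h6 : d = A d • u + G d • w := by
          conv_lhs => rw [hx d]
          rw [hBd]; simp
        have h7 : A d = 1 - G d := by linarith
        have h8 : 1 / G d * G d = 1 := by field_simp
        have h9 : 1 - 1 / G d + 1 / G d * (1 - G d) = 0 := by
          rw [mul_sub, h8]; ring
        obtain ⟨g, hg⟩ : ∃ g, g = G d := ⟨_, rfl⟩
        rw [h7] at h6
        rw [← hg] at h6 h8 h9 ⊢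
        rw [h6, smul_add, smul_smul, smul_smul, ← add_assoc, ← add_smul, h8, h9]
        simp
    rcases h2 w hwV hw with h | h
    · rw [h, hGu] at hGw; exact zero_ne_one hGw
    · exact hdw h.symm
  refine ⟨d, hd, hdu, hdv, hdw, hA, hBd.ge, hGd.le, ?_⟩
  rw [e2, hBu, hBd]; simp

private theorem firstZero {a g a' g' : ℝ} (ha : 0 < a) (hg : 0 < g) (h : a' < 0 ∨ g' < 0) :
    ∃ s : ℝ, 0 < s ∧ s < 1 ∧ 0 ≤ (1 - s) * a + s * a' ∧ 0 ≤ (1 - s) * g + s * g' ∧
      ((1 - s) * a + s * a' = 0 ∨ (1 - s) * g + s * g' = 0) := by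
  have hc : ContinuousOn (fun s : ℝ => min ((1 - s) * a + s * a') ((1 - s) * g + s * g'))
      (Icc 0 1) := by fun_prop
  have h0 : (0 : ℝ) ∈ Icc ((fun s : ℝ => min ((1 - s) * a + s * a') ((1 - s) * g + s * g')) 1)
      ((fun s : ℝ => min ((1 - s) * a + s * a') ((1 - s) * g + s * g')) 0) := by
    constructor
    · simp only [sub_self, zero_mul, one_mul, zero_add]
      rcases h with h | h
      · exact (min_le_left _ _).trans h.le
      · exact (min_le_right _ _).trans h.le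
    · simp only [sub_zero, zero_mul, one_mul, add_zero]
      exact le_min ha.le hg.le
  obtain ⟨s, ⟨hs0, hs1⟩, hs⟩ := intermediate_value_Icc' zero_le_one hc h0
  simp only at hs
  have k1 : 0 ≤ (1 - s) * a + s * a' := by rw [← hs]; exact min_le_left _ _
  have k2 : 0 ≤ (1 - s) * g + s * g' := by rw [← hs]; exact min_le_right _ _
  refine ⟨s, ?_, ?_, k1, k2, ?_⟩
  · apply lt_of_le_of_ne hs0
    intro h'
    rw [← h'] at hs
    simp only [sub_zero, zero_mul, one_mul, add_zero] at hs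
    have := lt_min ha hg
    linarith
  · apply lt_of_le_of_ne hs1
    intro h'
    rw [h'] at hs
    simp only [sub_self, zero_mul, one_mul, zero_add] at hs
    rcases h with h | h
    · have := min_le_left a' g'
      linarith
    · have := min_le_right a' g'
      linarith
  · rcases min_choice ((1 - s) * a + s * a') ((1 - s) * g + s * g') with h' | h'
    · left; rw [← h', hs]
    · right; rw [← h', hs]

private theorem star {V : Finset ℂ} {u v w : ℂ} {A B G : ℂ → ℝ}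
    (h1 : ∀ x, A x + B x + G x = 1) (hx : ∀ x, x = A x • u + B x • v + G x • w)
    (hAu : A u = 1) (hBu : B u = 0) (hGu : G u = 0) (hBv : B v = 1)
    (hAw : A w = 0) (hBw : B w = 0) (hGw : G w = 1)
    (hseg : ∀ (s t : ℝ) (x y : ℂ), s + t = 1 → A (s • x + t • y) = s * A x + t * A y ∧
      B (s • x + t • y) = s * B x + t * B y ∧ G (s • x + t • y) = s * G x + t * G y)
    (huV : u ∈ V) (hwV : w ∈ V) {c d x : ℂ} (hc : c ∈ V) (hd : d ∈ V)
    (h2 : ∀ x ∈ V, x ∈ segment ℝ c d → x = c ∨ x = d)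
    (h3 : v ∉ segment ℝ c d)
    (h4 : ∀ x ∈ segment ℝ c d, x ∈ segment ℝ u v → x = u)
    (h4' : ∀ x ∈ segment ℝ c d, x ∈ segment ℝ v w → x = w)
    (h5 : ¬ (c = u ∧ d = w)) (h5' : ¬ (c = w ∧ d = u))
    (hxs : x ∈ segment ℝ c d) (hAx : 0 ≤ A x) (hBx : 0 ≤ B x) (hGx : 0 ≤ G x)
    (hxu : x ≠ u) (hxw : x ≠ w) (hxc : B x ≤ B c) :
    ∃ c ∈ V, c ≠ u ∧ c ≠ v ∧ c ≠ w ∧ 0 ≤ A c ∧ 0 ≤ B c ∧ 0 ≤ G c ∧ B x ≤ B c := by
  have memuv : ∀ y, 0 ≤ A y → 0 ≤ B y → G y = 0 → y ∈ segment ℝ u v := by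
    intro y hA hB hG
    refine ⟨A y, B y, hA, hB, by have := h1 y; linarith, ?_⟩
    conv_rhs => rw [hx y]
    rw [hG]; simp
  have memvw : ∀ y, A y = 0 → 0 ≤ B y → 0 ≤ G y → y ∈ segment ℝ v w := by
    intro y hA hB hG
    refine ⟨B y, G y, hB, hG, by have := h1 y; linarith, ?_⟩
    conv_rhs => rw [hx y]
    rw [hA]; simp
  have hAx' : 0 < A x := lt_of_le_of_ne hAx fun h => hxw (h4' x hxs (memvw x h.symm hBx hGx))
  have hGx' : 0 < G x := lt_of_le_of_ne hGx fun h => hxu (h4 x hxs (memuv x hAx hBx h.symm))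
  have hcB : 0 ≤ B c := hBx.trans hxc
  by_cases hcT : 0 ≤ A c ∧ 0 ≤ G c
  · obtain ⟨hAc, hGc⟩ := hcT
    have hcv : c ≠ v := fun h => h3 (h ▸ left_mem_segment ℝ c d)
    by_cases hcu : c = u
    · subst hcu
      have hB0 : B x = 0 := le_antisymm (hxc.trans hBu.le) hBx
      exact starU h1 hx hAu hBu hGu hBv hGw hseg hwV hd h2 (fun h => h5 ⟨rfl, h⟩) hxs hB0 hGx'
    by_cases hcw : c = w
    · subst hcw
      have hB0 : B x = 0 := le_antisymm (hxc.trans hBw.le) hBx
      obtain ⟨c', q1, q2, q3, q4, q5, q6, q7, q8⟩ := starU (u := c) (w := u) (v := v)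
        (A := G) (B := B) (G := A) (x := x) (d := d) (V := V)
        (fun y => by have := h1 y; linarith) (fun y => by
          conv_lhs => rw [hx y]
          abel) hGw hBw hAw hBv hAu
        (fun s t x y h => ⟨(hseg s t x y h).2.2, (hseg s t x y h).2.1, (hseg s t x y h).1⟩)
        huV hd h2 (fun h => h5' ⟨rfl, h⟩) hxs hB0 hAx'
      exact ⟨c', q1, q4, q3, q2, q7, q6, q5, q8⟩
    · exact ⟨c, hc, hcu, hcv, hcw, hAc, hcB, hGc, hxc⟩
  · exfalso
    have hneg : A c < 0 ∨ G c < 0 := by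
      by_contra hcon
      push Not at hcon
      exact hcT hcon
    obtain ⟨s, hs0, hs1, k1, k2, k3⟩ := firstZero hAx' hGx' hneg
    obtain ⟨e1, e2, e3⟩ := hseg (1 - s) s x c (by ring)
    obtain ⟨y, hy⟩ : ∃ y, y = (1 - s) • x + s • c := ⟨_, rfl⟩
    rw [← hy] at e1 e2 e3
    have hBy : 0 ≤ B y := by
      rw [e2]
      have := mul_nonneg (sub_nonneg.2 hs1.le) hBx
      have := mul_nonneg hs0.le hcB
      linarith
    have hys : y ∈ segment ℝ c d := by
      rw [hy]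
      exact (convex_segment c d) hxs (left_mem_segment ℝ c d) (sub_nonneg.2 hs1.le) hs0.le
        (by ring)
    have hyuw : y = u ∨ y = w := by
      rcases k3 with h | h
      · right
        apply h4' y hys (memvw y (by rw [e1]; exact h) hBy (by rw [e3]; exact k2))
      · left
        apply h4 y hys (memuv y (by rw [e1]; exact k1) hBy (by rw [e3]; exact h))
    have hyV : y ∈ V := by
      rcases hyuw with h | h
      · rw [h]; exact huV
      · rw [h]; exact hwV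
    rcases h2 y hyV hys with h | h
    · rw [← e1] at k1
      rw [← e3] at k2
      rw [h] at k1 k2
      rcases hneg with h' | h' <;> linarith
    · obtain ⟨s1, t1, hs1', ht1', hst1, hxe⟩ := hxs
      have hk : 0 < (1 - s) * s1 + s := by
        have := mul_nonneg (sub_nonneg.2 hs1.le) hs1'
        linarith
      have hcd : c = d := by
        have ht1 : t1 = 1 - s1 := by linarith
        have e : ((1 - s) * s1 + s) • (c - d) = 0 := by
          have e' : ((1 - s) * s1 + s) • (c - d) = ((1 - s) • (s1 • c + t1 • d) + s • c) - d := by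
            rw [ht1]
            module
          rw [e', hxe, ← hy, h, sub_self]
        rcases smul_eq_zero.1 e with h' | h'
        · exact absurd h' hk.ne'
        · exact sub_eq_zero.1 h'
      have hxd : x = y := by
        rw [h, ← hxe, hcd, ← add_smul, hst1, one_smul]
      rcases hyuw with h' | h'
      · exact hxu (hxd.trans h')
      · exact hxw (hxd.trans h')

/-- `V` is the set of the vertices, `E` the set of the edges not incident with the vertex `v`, whose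
neighbours are `u` and `w`.

Barycentric coordinates `α, β, γ` of a point `x` are its (unique, since `cr u v w ≠ 0`) coordinates
`x = α u + β v + γ w`, `α + β + γ = 1`; they are real affine functions of `x`
(`α x = cr v w x / cr u v w`, `β x = cr w u x / cr u v w`, `γ x = cr u v x / cr u v w`).

(*) Claim: if `e ∈ E`, `x ∈ [e.1, e.2]`, `x ∈ CT`, `x ≠ u`, `x ≠ w`, then there is `c ∈ V`,
`c ≠ u, v, w`, `c ∈ CT`, with `β c ≥ β x`. First, `x` is not on `[u, v]` or `[v, w]` by `h4`, `h4'`,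
so `0 < γ x` and `0 < α x`. As `β` is affine, one endpoint of `e`, say `c`, has `β c ≥ β x`; `d` is
the other endpoint. Case `c ∉ CT`: `β c ≥ β x ≥ 0`, so `α c < 0` or `γ c < 0`; moving from `x` to `c`,
let `y` be the first point where `α` or `γ` vanishes (`α x, γ x > 0`): `y ∈ [x, c] ⊆ e`, `α y ≥ 0`,
`γ y ≥ 0`, `β y ≥ 0` and `α y = 0` or `γ y = 0`, so `y` is on `[v, w]` or `[u, v]`; by `h4`, `h4'` it is
`u` or `w`. By `h2` (`hu`, `hw`) it is an endpoint of `e`; it is not `c` (as `c ∉ CT`), so `y = d`;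
but `y ∈ [x, c]` and `x ∈ [c, d]` give `x = d = y`, a contradiction with `x ≠ u, w`. Case `c ∈ CT`:
`c ≠ v` by `h3`. If `c ≠ u, w` then `c` is as claimed. If `c = u` (the case `c = w` is symmetric):
`β x ≤ β u = 0`, so `β x = 0`, `x ∈ [u, w]`, and `x ∈ [u, d]`, `x ≠ u`, so `d` is on the line through
`u` and `w`, on the side of `w`: `d = u + s (w - u)` with `s > 0`. `d ≠ w` by `h5`, `h5'`. If
`s > 1` then `w ∈ [u, d]`, so `w = u` or `w = d` by `h2`, a contradiction (`u ≠ w` since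
`cr u v w ≠ 0`). So `s < 1`, `d ∈ CT`, `d ≠ u, v, w`, `β d = 0 ≥ β x` and `d` is as claimed.

Conclusion: if `V` has no element `c ≠ u, v, w` in `CT`, then the first alternative holds by (*).
Otherwise let `z` be such an element with the largest `β z`. By `h6`, `h6'` it is not on `[u, v]`,
`[v, w]`, so `α z, γ z > 0`. Let `x ∈ (v, z)`, `x ∈ [e.1, e.2]`, `e ∈ E`. Then `x = (1-t) v + t z`
with `0 < t < 1`, `x ∈ CT`, `α x = t α z > 0`, `γ x > 0`, so `x ≠ u, w`, and
`β x = (1 - t) + t β z > β z` since `β z < 1`. By (*) there is a `c` with `β c ≥ β x > β z`, against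
the choice of `z`. -/
theorem diagAbs {V : Finset ℂ} {E : Finset (ℂ × ℂ)} {u v w : ℂ} (hne : cr u v w ≠ 0)
    (hu : u ∈ V) (hw : w ∈ V)
    (h1 : ∀ e ∈ E, e.1 ∈ V ∧ e.2 ∈ V)
    (h2 : ∀ e ∈ E, ∀ x ∈ V, x ∈ segment ℝ e.1 e.2 → x = e.1 ∨ x = e.2)
    (h3 : ∀ e ∈ E, v ∉ segment ℝ e.1 e.2)
    (h4 : ∀ e ∈ E, ∀ x ∈ segment ℝ e.1 e.2, x ∈ segment ℝ u v → x = u)
    (h4' : ∀ e ∈ E, ∀ x ∈ segment ℝ e.1 e.2, x ∈ segment ℝ v w → x = w)
    (h5 : (u, w) ∉ E) (h5' : (w, u) ∉ E)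
    (h6 : ∀ x ∈ V, x ≠ u → x ≠ v → x ∉ segment ℝ u v)
    (h6' : ∀ x ∈ V, x ≠ v → x ≠ w → x ∉ segment ℝ v w) :
    (∀ e ∈ E, ∀ x ∈ segment ℝ e.1 e.2, x ∈ CT u v w → x = u ∨ x = w) ∨
    (∃ z ∈ V, z ≠ u ∧ z ≠ v ∧ z ≠ w ∧
      (∃ α β γ : ℝ, 0 < α ∧ 0 ≤ β ∧ 0 < γ ∧ α + β + γ = 1 ∧ z = α • u + β • v + γ • w) ∧
      ∀ e ∈ E, ∀ x ∈ openSegment ℝ v z, x ∉ segment ℝ e.1 e.2) := by
  obtain ⟨A, B, G, f1, f2, f3, f4⟩ := coords hne
  have vu : A u = 1 ∧ B u = 0 ∧ G u = 0 := by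
    have := f3 1 0 0 (by norm_num)
    simpa using this
  have vv : A v = 0 ∧ B v = 1 ∧ G v = 0 := by
    have := f3 0 1 0 (by norm_num)
    simpa using this
  have vw : A w = 0 ∧ B w = 0 ∧ G w = 1 := by
    have := f3 0 0 1 (by norm_num)
    simpa using this
  have memCT : ∀ x, x ∈ CT u v w → 0 ≤ A x ∧ 0 ≤ B x ∧ 0 ≤ G x := by
    rintro x ⟨α, β, γ, hα, hβ, hγ, hs, rfl⟩
    obtain ⟨e1, e2, e3⟩ := f3 α β γ hs
    rw [e1, e2, e3]
    exact ⟨hα, hβ, hγ⟩
  have key : ∀ e ∈ E, ∀ x ∈ segment ℝ e.1 e.2, 0 ≤ A x → 0 ≤ B x → 0 ≤ G x → x ≠ u → x ≠ w →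
      ∃ c ∈ V, c ≠ u ∧ c ≠ v ∧ c ≠ w ∧ 0 ≤ A c ∧ 0 ≤ B c ∧ 0 ≤ G c ∧ B x ≤ B c := by
    intro e he x hxs hA hB hG hxu hxw
    have hor : B x ≤ B e.1 ∨ B x ≤ B e.2 := by
      obtain ⟨s, t, hs, ht, hst, rfl⟩ := hxs
      rw [(f4 s t e.1 e.2 hst).2.1]
      by_contra hcon
      push Not at hcon
      obtain ⟨q1, q2⟩ := hcon
      have hs' : s = 1 - t := by linarith
      subst hs'
      have r1 : 0 < t * (B e.2 - B e.1) := by linarith
      have r2 : 0 < (1 - t) * (B e.1 - B e.2) := by linarith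
      rcases le_total (B e.1) (B e.2) with h | h
      · have := mul_nonneg hs (sub_nonneg.2 h)
        linarith
      · have := mul_nonneg ht (sub_nonneg.2 h)
        linarith
    have n1 : ¬ (e.1 = u ∧ e.2 = w) := by
      rintro ⟨q1, q2⟩
      apply h5
      rw [← q1, ← q2]
      exact he
    have n2 : ¬ (e.1 = w ∧ e.2 = u) := by
      rintro ⟨q1, q2⟩
      apply h5'
      rw [← q1, ← q2]
      exact he
    rcases hor with hor | hor
    · exact star f1 f2 vu.1 vu.2.1 vu.2.2 vv.2.1 vw.1 vw.2.1 vw.2.2 f4 hu hw (h1 e he).1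
        (h1 e he).2 (h2 e he) (h3 e he) (h4 e he) (h4' e he) n1 n2 hxs hA hB hG hxu hxw hor
    · have hsy := segment_symm ℝ e.1 e.2
      exact star f1 f2 vu.1 vu.2.1 vu.2.2 vv.2.1 vw.1 vw.2.1 vw.2.2 f4 hu hw (h1 e he).2
        (h1 e he).1 (fun x hx hxs => (h2 e he x hx (hsy ▸ hxs)).symm) (hsy ▸ h3 e he)
        (hsy ▸ h4 e he) (hsy ▸ h4' e he) (fun h => n2 ⟨h.2, h.1⟩) (fun h => n1 ⟨h.2, h.1⟩)
        (hsy ▸ hxs) hA hB hG hxu hxw hor
  obtain ⟨S, hS⟩ : ∃ S : Finset ℂ, ∀ c, c ∈ S ↔ c ∈ V ∧ (c ≠ u ∧ c ≠ v ∧ c ≠ w ∧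
      0 ≤ A c ∧ 0 ≤ B c ∧ 0 ≤ G c) := by
    classical
    exact ⟨V.filter (fun c => c ≠ u ∧ c ≠ v ∧ c ≠ w ∧ 0 ≤ A c ∧ 0 ≤ B c ∧ 0 ≤ G c),
      fun c => Finset.mem_filter⟩
  rcases S.eq_empty_or_nonempty with hSe | hSn
  · left
    intro e he x hxs hxT
    obtain ⟨hA, hB, hG⟩ := memCT x hxT
    by_contra hcon
    push Not at hcon
    obtain ⟨c, q1, q2, q3, q4, q5, q6, q7, -⟩ := key e he x hxs hA hB hG hcon.1 hcon.2
    have : c ∈ S := (hS c).2 ⟨q1, q2, q3, q4, q5, q6, q7⟩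
    rw [hSe] at this
    exact absurd this (Finset.notMem_empty c)
  · right
    obtain ⟨z, hzS, hzmax⟩ := S.exists_max_image B hSn
    obtain ⟨hzV, hzu, hzv, hzw, hAz, hBz, hGz⟩ := (hS z).1 hzS
    have hAz' : 0 < A z := by
      apply lt_of_le_of_ne hAz
      intro h
      apply h6' z hzV hzv hzw
      refine ⟨B z, G z, hBz, hGz, by have := f1 z; linarith, ?_⟩
      conv_rhs => rw [f2 z]
      rw [← h]; simp
    have hGz' : 0 < G z := by
      apply lt_of_le_of_ne hGz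
      intro h
      apply h6 z hzV hzu hzv
      refine ⟨A z, B z, hAz, hBz, by have := f1 z; linarith, ?_⟩
      conv_rhs => rw [f2 z]
      rw [← h]; simp
    refine ⟨z, hzV, hzu, hzv, hzw, ⟨A z, B z, G z, hAz', hBz, hGz', f1 z, f2 z⟩, ?_⟩
    rintro e he x ⟨s, t, hs, ht, hst, rfl⟩ hxs
    obtain ⟨e1, e2, e3⟩ := f4 s t v z hst
    rw [vv.1, mul_zero, zero_add] at e1
    rw [vv.2.1, mul_one] at e2
    rw [vv.2.2, mul_zero, zero_add] at e3
    have hA : 0 < A (s • v + t • z) := by rw [e1]; exact mul_pos ht hAz'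
    have hG : 0 < G (s • v + t • z) := by rw [e3]; exact mul_pos ht hGz'
    have hB1 : B z < 1 := by have := f1 z; linarith
    have hBx : B z < B (s • v + t • z) := by
      rw [e2]
      have hs' : s = 1 - t := by linarith
      have := mul_pos hs (sub_pos.2 hB1)
      subst hs'
      linarith
    obtain ⟨c, q1, q2, q3, q4, q5, q6, q7, q8⟩ := key e he _ hxs hA.le (hBz.trans hBx.le) hG.le
      (fun h => by rw [h, vu.2.2] at hG; exact lt_irrefl _ hG)
      (fun h => by rw [h, vw.1] at hA; exact lt_irrefl _ hA)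
    have := hzmax c ((hS c).2 ⟨q1, q2, q3, q4, q5, q6, q7⟩)
    linarith

end MP7e112f
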