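import Pool.Agent.Lib.MP_7e112f_co.Expo
import Pool.Agent.Lib.MP_7e112f_co.DiagAbs

/-!
# MP_7e112f_co, EG module DiagZ: an inner diagonal if the vertex `p 0` is exposed
-/

open Set

namespace MP7e112f

private theorem dz_vtx {p : ℕ → ℂ} {n : ℕ} (h : SC p n) {k j : ℕ} (hk : k < n) (hj : j < n)
    (hx : p k ∈ segment ℝ (p j) (p (j + 1))) : p k = p j ∨ p k = p (j + 1) := by
  have hl : p k ∈ segment ℝ (p k) (p (k + 1)) := left_mem_segment ℝ _ _
  rcases lt_trichotomy k j with hkj | hkj | hkj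
  · rcases h.inter k j hkj hj (p k) hl hx with ⟨-, h1⟩ | ⟨h0, h1, h2⟩
    · exact Or.inl h1
    · right
      rw [h1, h.cl, h2]
  · rw [hkj]
    exact Or.inl rfl
  · rcases h.inter j k hkj hk (p k) hx hl with ⟨h1, -⟩ | ⟨h0, -, h2⟩
    · right
      rw [h1]
    · left
      rw [h2, h0]

private theorem dz_alpha {u v w x : ℂ} {α β γ : ℝ} (hs : α + β + γ = 1)
    (hx : x = α • u + β • v + γ • w) : cr v w x = α * cr u v w := by
  have hβ : β = 1 - α - γ := by linarith
  subst hβ hx
  simp only [cr, cs, Complex.sub_re, Complex.sub_im, Complex.add_re, Complex.add_im,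
    Complex.real_smul, Complex.mul_re, Complex.mul_im, Complex.ofReal_re, Complex.ofReal_im]
  ring

private theorem dz_gamma {u v w x : ℂ} {α β γ : ℝ} (hs : α + β + γ = 1)
    (hx : x = α • u + β • v + γ • w) : cr u v x = γ * cr u v w := by
  have hβ : β = 1 - α - γ := by linarith
  subst hβ hx
  simp only [cr, cs, Complex.sub_re, Complex.sub_im, Complex.add_re, Complex.add_im,
    Complex.real_smul, Complex.mul_re, Complex.mul_im, Complex.ofReal_re, Complex.ofReal_im]
  ring

private theorem dz_seg {a b x : ℂ} (hx : x ∈ segment ℝ a b) : cr a b x = 0 := by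
  obtain ⟨s, t, hs, ht, hst, rfl⟩ := hx
  have hs' : s = 1 - t := by linarith
  subst hs'
  simp only [cr, cs, Complex.sub_re, Complex.sub_im, Complex.add_re, Complex.add_im,
    Complex.real_smul, Complex.mul_re, Complex.mul_im, Complex.ofReal_re, Complex.ofReal_im]
  ring

/-- the part of the triangle with positive coordinates `α, γ` -/
private def dzS (u v w : ℂ) : Set ℂ :=
  {x | ∃ α β γ : ℝ, 0 < α ∧ 0 ≤ β ∧ 0 < γ ∧ α + β + γ = 1 ∧ x = α • u + β • v + γ • w}

private theorem dz_comb {a b x y : ℝ} (ha : 0 ≤ a) (hb : 0 ≤ b) (hab : a + b = 1) (hx : 0 < x)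
    (hy : 0 < y) : 0 < a * x + b * y := by
  rcases ha.eq_or_lt with h0 | h0
  · have hb1 : b = 1 := by linarith
    rw [← h0, hb1]
    linarith
  · have h1 : 0 < a * x := mul_pos h0 hx
    have h2 : 0 ≤ b * y := mul_nonneg hb hy.le
    linarith

private theorem dz_convex (u v w : ℂ) : Convex ℝ (dzS u v w) := by
  rintro x ⟨α, β, γ, hα, hβ, hγ, hs, rfl⟩ y ⟨α', β', γ', hα', hβ', hγ', hs', rfl⟩ a b ha hb hab
  refine ⟨a * α + b * α', a * β + b * β', a * γ + b * γ', dz_comb ha hb hab hα hα',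
    add_nonneg (mul_nonneg ha hβ) (mul_nonneg hb hβ'), dz_comb ha hb hab hγ hγ', ?_, ?_⟩
  · calc a * α + b * α' + (a * β + b * β') + (a * γ + b * γ') =
        a * (α + β + γ) + b * (α' + β' + γ') := by ring
      _ = 1 := by rw [hs, hs']; linarith
  · module

/-- Let `v = p 0`, `u = p (n-1)`, `w = p 1`. Apply `diagAbs` with `V = {p j | j < n}` and
`E = {(p j, p (j+1)) | 1 ≤ j ≤ n - 2}`. `hne` is `expo_ne`; `h2`, `h3`, `h4`, `h4'`, `h6`, `h6'`
come from `SC.inter` and `SC.inj` (a vertex on an edge is one of its endpoints; `[u, v]` is the edge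
`n-1` because `p n = p 0`; `[v, w]` is the edge `0`; two edges meet only in a common endpoint), `h5`,
`h5'` from `n ≥ 4` and `SC.inj`.

First alternative: the diagonal is `(i, j) = (1, n-1)` (`[w, u]`). Put
`S = {α u + β v + γ w | α, γ > 0, β ≥ 0, α + β + γ = 1}`, a convex set, disjoint from the chain:
its points are in `CT u v w` and `≠ u, w` (uniqueness of the barycentric coordinates), so they are
not on the edges of `E`, and they are not on `[u, v]` (`γ = 0` there) or `[v, w]`. So `W` is constant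
on `S` (`W_const`). The open segment `(w, u)` is contained in `S`, and `S` contains
`v + τ (½ (u - v) + ½ (w - v))` for small `τ`, where `W ≠ 0` by `expo`.

Second alternative: `z = p l` with `2 ≤ l ≤ n - 2` (as `z ≠ u, v, w`), the diagonal is
`(0, l)`. The open segment `(v, z)` is disjoint from the edges of `E`, and from `[u, v]`, `[v, w]`
because the coordinates of its points are `t α`, `.`, `t γ` with `t α, t γ > 0`. So `W` is constant
on it; `z - v = α (u - v) + γ (w - v)`, so `W ≠ 0` near `v` by `expo`. -/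
theorem diag_zero {p : ℕ → ℂ} {n : ℕ} (h : SC p n) (hn : 4 ≤ n) (hv : Expd p n) :
    ∃ i j, i + 2 ≤ j ∧ j < n ∧ j + 2 ≤ i + n ∧ Diag p n i j := by
  classical
  have hne := expo_ne h hv
  obtain ⟨m, rfl⟩ : ∃ m, n = m + 1 := ⟨n - 1, by omega⟩
  have hm1 : m + 1 - 1 = m := rfl
  rw [hm1] at hne
  have hcl := h.cl
  have hmem : ∀ k, k < m + 1 → p k ∈ (Finset.range (m + 1)).image p := fun k hk =>
    Finset.mem_image.2 ⟨k, Finset.mem_range.2 hk, rfl⟩
  have hE : ∀ e ∈ (Finset.Icc 1 (m - 1)).image (fun j => (p j, p (j + 1))),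
      ∃ j, 1 ≤ j ∧ j + 1 ≤ m ∧ e = (p j, p (j + 1)) := by
    intro e he
    obtain ⟨j, hj, rfl⟩ := Finset.mem_image.1 he
    rw [Finset.mem_Icc] at hj
    exact ⟨j, hj.1, by omega, rfl⟩
  have hE' : ∀ j, 1 ≤ j → j + 1 ≤ m →
      (p j, p (j + 1)) ∈ (Finset.Icc 1 (m - 1)).image (fun j => (p j, p (j + 1))) :=
    fun j h1 h2 => Finset.mem_image.2 ⟨j, Finset.mem_Icc.2 ⟨h1, by omega⟩, rfl⟩
  -- points of the chain
  have hcrv : ∀ x, (cr (p 0) (p 1) x ≠ 0) → (cr (p m) (p 0) x ≠ 0) →
      (∀ j, 1 ≤ j → j + 1 ≤ m → x ∉ segment ℝ (p j) (p (j + 1))) → x ∉ crv p (m + 1) := by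
    rintro x h1 h2 h3 ⟨k, hk, hx⟩
    rcases Nat.eq_zero_or_pos k with h0 | h0
    · rw [h0] at hx
      exact h1 (dz_seg hx)
    · by_cases hkm : k = m
      · rw [hkm, hcl] at hx
        exact h2 (dz_seg hx)
      · exact h3 k h0 (by omega) hx
  rcases diagAbs (V := (Finset.range (m + 1)).image p)
    (E := (Finset.Icc 1 (m - 1)).image (fun j => (p j, p (j + 1)))) (u := p m) (v := p 0)
    (w := p 1) hne (hmem m (by omega)) (hmem 1 (by omega))
    (by
      intro e he
      obtain ⟨j, hj1, hj2, rfl⟩ := hE e he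
      exact ⟨hmem j (by omega), hmem (j + 1) (by omega)⟩)
    (by
      intro e he x hx hxs
      obtain ⟨j, hj1, hj2, rfl⟩ := hE e he
      obtain ⟨k, hk, rfl⟩ := Finset.mem_image.1 hx
      exact dz_vtx h (Finset.mem_range.1 hk) (by omega) hxs)
    (by
      intro e he hxs
      obtain ⟨j, hj1, hj2, rfl⟩ := hE e he
      rcases dz_vtx h (by omega) (by omega) hxs with h1 | h1
      · have := h.inj _ _ (by omega) (by omega) h1
        omega
      · have := h.inj _ _ (by omega) (by omega) h1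
        omega)
    (by
      intro e he x hx hxs
      obtain ⟨j, hj1, hj2, rfl⟩ := hE e he
      rw [← hcl] at hxs
      rcases h.inter j m (by omega) (by omega) x hx hxs with ⟨-, h1⟩ | ⟨h1, -, -⟩
      · exact h1
      · omega)
    (by
      intro e he x hx hxs
      obtain ⟨j, hj1, hj2, rfl⟩ := hE e he
      rcases h.inter 0 j (by omega) (by omega) x hxs hx with ⟨h1, h2⟩ | ⟨-, h1, -⟩
      · rw [h2, h1]
      · omega)
    (by
      intro he
      obtain ⟨j, hj1, hj2, h1⟩ := hE _ he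
      have := h.inj _ _ (by omega) (by omega) (Prod.ext_iff.1 h1).1
      omega)
    (by
      intro he
      obtain ⟨j, hj1, hj2, h1⟩ := hE _ he
      have h2 := h.inj _ _ (by omega) (by omega) (Prod.ext_iff.1 h1).1
      have h3 := h.inj _ _ (by omega) (by omega) (Prod.ext_iff.1 h1).2
      omega)
    (by
      intro x hx hxu hxv hxs
      obtain ⟨k, hk, rfl⟩ := Finset.mem_image.1 hx
      rw [← hcl] at hxs
      rcases dz_vtx h (Finset.mem_range.1 hk) (by omega) hxs with h1 | h1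
      · exact hxu h1
      · exact hxv (h1.trans hcl))
    (by
      intro x hx hxv hxw hxs
      obtain ⟨k, hk, rfl⟩ := Finset.mem_image.1 hx
      rcases dz_vtx h (j := 0) (Finset.mem_range.1 hk) (by omega) hxs with h1 | h1
      · exact hxv h1
      · exact hxw h1) with hA | ⟨z, hz, hzu, hzv, hzw, ⟨α, β, γ, hα, hβ, hγ, hs, hzx⟩, hB⟩
  · -- the diagonal from `p 1` to `p m`
    have hoff : ∀ x ∈ dzS (p m) (p 0) (p 1), x ∉ crv p (m + 1) := by
      rintro x ⟨α, β, γ, hα, hβ, hγ, hs, hx⟩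
      have h1 := dz_alpha hs hx
      have h2 := dz_gamma hs hx
      have h3 : α * cr (p m) (p 0) (p 1) ≠ 0 := mul_ne_zero hα.ne' hne
      have h4 : γ * cr (p m) (p 0) (p 1) ≠ 0 := mul_ne_zero hγ.ne' hne
      refine hcrv x (by rw [h1]; exact h3) (by rw [h2]; exact h4) fun j hj1 hj2 hxs => ?_
      rcases hA _ (hE' j hj1 hj2) x hxs ⟨α, β, γ, hα.le, hβ, hγ.le, hs, hx⟩ with h5 | h5
      · rw [h5, cr_self''] at h2
        exact h4 h2.symm
      · rw [h5, cr_self'] at h1
        exact h3 h1.symm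
    refine ⟨1, m, by omega, by omega, by omega, fun x hx => ?_⟩
    have hxS : x ∈ dzS (p m) (p 0) (p 1) := by
      obtain ⟨s, t, hs, ht, hst, rfl⟩ := hx
      refine ⟨t, 0, s, ht, le_rfl, hs, by linarith, ?_⟩
      module
    refine ⟨hoff x hxS, ?_⟩
    obtain ⟨τ₀, hτ₀, hτ⟩ := expo h hv (α := 1 / 2) (γ := 1 / 2) (by norm_num) (by norm_num)
    obtain ⟨τ, hτ1⟩ : ∃ τ : ℝ, τ = min (τ₀ / 2) (1 / 2) := ⟨_, rfl⟩
    have hτ2 : 0 < τ := by
      rw [hτ1]
      exact lt_min (by linarith) (by norm_num)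
    have hτ3 : τ ≤ τ₀ / 2 := by
      rw [hτ1]
      exact min_le_left _ _
    have hτ4 : τ ≤ 1 / 2 := by
      rw [hτ1]
      exact min_le_right _ _
    obtain ⟨-, hW⟩ := hτ τ hτ2 (by linarith)
    rw [hm1] at hW
    have hyS : p 0 + τ • ((1 / 2 : ℝ) • (p m - p 0) + (1 / 2 : ℝ) • (p 1 - p 0)) ∈
        dzS (p m) (p 0) (p 1) := by
      refine ⟨τ / 2, 1 - τ, τ / 2, by linarith, by linarith, by linarith, by ring, ?_⟩
      module
    rw [W_const hcl (dz_convex _ _ _).isPreconnected hoff hxS hyS]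
    exact hW
  · -- the diagonal from `p 0` to `z`
    obtain ⟨l, hl, rfl⟩ := Finset.mem_image.1 hz
    rw [Finset.mem_range] at hl
    have hl0 : l ≠ 0 := by
      rintro rfl
      exact hzv rfl
    have hl1 : l ≠ 1 := by
      rintro rfl
      exact hzw rfl
    have hlm : l ≠ m := by
      rintro rfl
      exact hzu rfl
    have hoff : ∀ x ∈ openSegment ℝ (p 0) (p l), x ∉ crv p (m + 1) := by
      intro x hx
      have hx' := hx
      obtain ⟨s, t, hs', ht, hst, rfl⟩ := hx'
      have e : s • p 0 + t • p l = (t * α) • p m + (s + t * β) • p 0 + (t * γ) • p 1 := by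
        rw [hzx]
        module
      have e1 : t * α + (s + t * β) + t * γ = 1 := by
        calc t * α + (s + t * β) + t * γ = s + t * (α + β + γ) := by ring
          _ = 1 := by rw [hs]; linarith
      have h1 := dz_alpha e1 e
      have h2 := dz_gamma e1 e
      refine hcrv _ (by rw [h1]; exact mul_ne_zero (mul_pos ht hα).ne' hne)
        (by rw [h2]; exact mul_ne_zero (mul_pos ht hγ).ne' hne) fun j hj1 hj2 hxs =>
          hB _ (hE' j hj1 hj2) _ hx hxs
    refine ⟨0, l, by omega, by omega, by omega, fun x hx => ⟨hoff x hx, ?_⟩⟩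
    obtain ⟨τ₀, hτ₀, hτ⟩ := expo h hv hα hγ
    obtain ⟨τ, hτ1⟩ : ∃ τ : ℝ, τ = min (τ₀ / 2) (1 / 2) := ⟨_, rfl⟩
    have hτ2 : 0 < τ := by
      rw [hτ1]
      exact lt_min (by linarith) (by norm_num)
    have hτ3 : τ ≤ τ₀ / 2 := by
      rw [hτ1]
      exact min_le_left _ _
    have hτ4 : τ ≤ 1 / 2 := by
      rw [hτ1]
      exact min_le_right _ _
    obtain ⟨-, hW⟩ := hτ τ hτ2 (by linarith)
    rw [hm1] at hW
    have hyS : p 0 + τ • (α • (p m - p 0) + γ • (p 1 - p 0)) ∈ openSegment ℝ (p 0) (p l) := by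
      refine ⟨1 - τ, τ, by linarith, hτ2, by ring, ?_⟩
      have hβ' : β = 1 - α - γ := by linarith
      rw [hzx, hβ']
      module
    rw [W_const hcl (convex_openSegment _ _).isPreconnected hoff hx hyS]
    exact hW

end MP7e112f
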