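import Pool.Agent.Lib.MP_7e112f_co.WJ

/-!
# MP_7e112f_co, EG module Expo: an exposed vertex, and points inside near it
-/

open Set

namespace MP7e112f

/-- The scalar product of the plane. -/
def dt (u v : ℂ) : ℝ := u.re * v.re + u.im * v.im

private theorem Expo_add (u v w : ℂ) : dt (u + v) w = dt u w + dt v w := by
  simp only [dt, Complex.add_re, Complex.add_im]; ring

private theorem Expo_sub (u v w : ℂ) : dt (u - v) w = dt u w - dt v w := by
  simp only [dt, Complex.sub_re, Complex.sub_im]; ring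

private theorem Expo_smul (t : ℝ) (u w : ℂ) : dt (t • u) w = t * dt u w := by
  simp only [dt, Complex.real_smul, Complex.mul_re, Complex.mul_im, Complex.ofReal_re,
    Complex.ofReal_im]; ring

/-- `p 0` is strictly exposed: `x ↦ dt x (p 0)` has a strict maximum there. -/
def Expd (p : ℕ → ℂ) (n : ℕ) : Prop := ∀ j, 0 < j → j < n → dt (p j) (p 0) < dt (p 0) (p 0)

/-- Take `k` with the largest `‖p k‖`. For `j ≠ k`: `‖p j - p k‖² = ‖p j‖² - 2 dt (p j) (p k) +
‖p k‖² ≤ 2 ‖p k‖² - 2 dt (p j) (p k)` and `p j ≠ p k`. -/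
theorem expo_ex {p : ℕ → ℂ} {n : ℕ} (h : SC p n) :
    ∃ k < n, ∀ j < n, j ≠ k → dt (p j) (p k) < dt (p k) (p k) := by
  have hn := h.three
  obtain ⟨k, hk, hmax⟩ := Finset.exists_max_image (Finset.range n)
    (fun k => dt (p k) (p k)) ⟨0, Finset.mem_range.2 (by omega)⟩
  have hkn := Finset.mem_range.1 hk
  refine ⟨k, hkn, fun j hj hjk => ?_⟩
  have h1 := hmax j (Finset.mem_range.2 hj)
  have h2 : p j ≠ p k := fun h2 => hjk (h.inj j k hj hkn h2)
  have h3 : 0 < ((p j).re - (p k).re) ^ 2 + ((p j).im - (p k).im) ^ 2 := by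
    by_contra hcon
    apply h2
    have h4 := sq_nonneg ((p j).re - (p k).re)
    have h5 := sq_nonneg ((p j).im - (p k).im)
    have h6 : ((p j).re - (p k).re) ^ 2 = 0 := by linarith
    have h7 : ((p j).im - (p k).im) ^ 2 = 0 := by linarith
    exact Complex.ext (sub_eq_zero.1 (pow_eq_zero_iff two_ne_zero |>.1 h6))
      (sub_eq_zero.1 (pow_eq_zero_iff two_ne_zero |>.1 h7))
  simp only [dt] at h1 ⊢
  nlinarith [h1, h3]

/-- If `cr (p (n-1)) (p 0) (p 1) = 0`, then `p (n-1) - p 0` and `p 1 - p 0` are parallel, and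
`x ↦ dt x (p 0)` is negative on both (`Expd`), so one is a positive multiple of the other and the
edges `[p (n-1), p n]` and `[p 0, p 1]` have more than the point `p 0` in common, against
`SC.inter` (`i = 0`, `j = n - 1`). -/
theorem expo_ne {p : ℕ → ℂ} {n : ℕ} (h : SC p n) (hv : Expd p n) :
    cr (p (n - 1)) (p 0) (p 1) ≠ 0 := by
  obtain ⟨m, rfl⟩ : ∃ m, n = m + 1 := ⟨n - 1, by have := h.three; omega⟩
  have hm : 2 ≤ m := by have := h.three; omega
  rw [Nat.add_sub_cancel]
  intro hcr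
  have hA : 0 < dt (p 0) (p 0) - dt (p m) (p 0) := by
    have := hv m (by omega) (by omega)
    linarith
  have hB : 0 < dt (p 0) (p 0) - dt (p 1) (p 0) := by
    have := hv 1 (by omega) (by omega)
    linarith
  set A := dt (p 0) (p 0) - dt (p m) (p 0) with hAd
  set B := dt (p 0) (p 0) - dt (p 1) (p 0) with hBd
  have hcs : ((p m).re - (p 0).re) * ((p 1).im - (p 0).im) -
      ((p m).im - (p 0).im) * ((p 1).re - (p 0).re) = 0 := by
    simp only [cr, cs, Complex.sub_re, Complex.sub_im] at hcr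
    linarith
  have hpar : A • (p 1 - p 0) = B • (p m - p 0) := by
    apply Complex.ext
    · simp only [Complex.real_smul, Complex.mul_re, Complex.ofReal_re, Complex.ofReal_im,
        Complex.sub_re, zero_mul, sub_zero, hAd, hBd, dt]
      linear_combination ((p 0).im) * hcs
    · simp only [Complex.real_smul, Complex.mul_im, Complex.ofReal_re, Complex.ofReal_im,
        Complex.sub_im, zero_mul, add_zero, hAd, hBd, dt]
      linear_combination (-(p 0).re) * hcs
  have hAB : 0 < A + B := by linarith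
  have hx1 : p 0 + (A / (A + B)) • (p 1 - p 0) ∈ segment ℝ (p 0) (p (0 + 1)) := by
    refine ⟨1 - A / (A + B), A / (A + B), ?_, by positivity, by ring, ?_⟩
    · rw [sub_nonneg, div_le_one hAB]
      linarith
    · rw [zero_add, sub_smul, smul_sub, one_smul]
      abel
  have e1 : p 0 + (A / (A + B)) • (p 1 - p 0) = p 0 + (B / (A + B)) • (p m - p 0) := by
    rw [div_eq_inv_mul, div_eq_inv_mul, mul_smul, mul_smul, hpar]
  have hx2 : p 0 + (A / (A + B)) • (p 1 - p 0) ∈ segment ℝ (p m) (p (m + 1)) := by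
    rw [e1, h.cl]
    refine ⟨B / (A + B), 1 - B / (A + B), by positivity, ?_, by ring, ?_⟩
    · rw [sub_nonneg, div_le_one hAB]
      linarith
    · rw [sub_smul, smul_sub, one_smul]
      abel
  rcases h.inter 0 m (by omega) (by omega) _ hx1 hx2 with ⟨h1, -⟩ | ⟨-, -, h1⟩
  · omega
  · have h2 : (A / (A + B)) • (p 1 - p 0) = 0 := by
      have h3 : p 0 + (A / (A + B)) • (p 1 - p 0) = p 0 + 0 := by rw [h1, add_zero]
      exact add_left_cancel h3
    have h3 : dt ((A / (A + B)) • (p 1 - p 0)) (p 0) = 0 := by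
      rw [h2]
      simp [dt]
    rw [Expo_smul, Expo_sub] at h3
    have h4 : 0 < A / (A + B) := by positivity
    rcases mul_eq_zero.1 h3 with h5 | h5
    · exact h4.ne' h5
    · linarith

/-- the points of the chain on the line `ℓ = ℓ v - θ` -/
private theorem Expo_line {p : ℕ → ℂ} {m : ℕ} (h : SC p (m + 1)) {δ θ : ℝ}
    (hδ : ∀ j, 0 < j → j < m + 1 → dt (p j) (p 0) ≤ dt (p 0) (p 0) - δ) (hθ : θ < δ)
    (hA : 0 < dt (p 0) (p 0) - dt (p m) (p 0)) (hB : 0 < dt (p 0) (p 0) - dt (p 1) (p 0))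
    {x : ℂ} (hx : x ∈ crv p (m + 1)) (hl : dt x (p 0) = dt (p 0) (p 0) - θ) :
    x = p 0 + (θ / (dt (p 0) (p 0) - dt (p m) (p 0))) • (p m - p 0) ∨
      x = p 0 + (θ / (dt (p 0) (p 0) - dt (p 1) (p 0))) • (p 1 - p 0) := by
  obtain ⟨k, hk, s, t, hs, ht, hst, rfl⟩ := hx
  rw [Expo_add, Expo_smul, Expo_smul] at hl
  have hs' : s = 1 - t := by linarith
  rcases Nat.eq_zero_or_pos k with hk0 | hk0
  · right
    subst hk0
    rw [zero_add] at hl ⊢
    have e : t * (dt (p 0) (p 0) - dt (p 1) (p 0)) = θ := by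
      rw [hs'] at hl
      linarith
    rw [← e, mul_div_assoc, div_self hB.ne', mul_one, hs', sub_smul, smul_sub, one_smul]
    abel
  · rcases (Nat.lt_succ_iff.1 hk).eq_or_lt with hkm | hkm
    · left
      subst hkm
      have e0 : p (k + 1) = p 0 := h.cl
      rw [e0] at hl ⊢
      have ht' : t = 1 - s := by linarith
      have e : s * (dt (p 0) (p 0) - dt (p k) (p 0)) = θ := by
        rw [ht'] at hl
        linarith
      rw [← e, mul_div_assoc, div_self hA.ne', mul_one, ht', sub_smul, smul_sub, one_smul]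
      abel
    · exfalso
      have h1 := hδ k hk0 (by omega)
      have h2 := hδ (k + 1) (by omega) (by omega)
      have h3 := mul_le_mul_of_nonneg_left h1 hs
      have h4 := mul_le_mul_of_nonneg_left h2 ht
      have h5 : s * (dt (p 0) (p 0) - δ) + t * (dt (p 0) (p 0) - δ) = dt (p 0) (p 0) - δ := by
        rw [← add_mul, hst, one_mul]
      linarith

/-- Points near the exposed vertex `v = p 0` in the open angle spanned by `u = p (n-1)` and
`w = p 1` are inside. Let `ℓ x = dt x v` and `L₁ < ℓ v` the maximum of the `ℓ (p j)`, `0 < j < n`.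
Points `x` of the chain with `ℓ x > L₁` lie on `[u, v]` (edge `n-1`) or on `[v, w]` (edge `0`),
since
`ℓ ≤ L₁` at both ends of all other edges. Put `u' = (u - v) / (ℓ v - ℓ u)`,
`w' = (w - v) / (ℓ v - ℓ w)`; then `ℓ u' = ℓ w' = -1`, `cs u' w' ≠ 0` (`expo_ne`), and
`α (u - v) + γ (w - v) = s ((1 - l) u' + l w')` with `s > 0` and `0 < l < 1`
(`s = α (ℓ v - ℓ u) + γ (ℓ v - ℓ w)`, `l = γ (ℓ v - ℓ w) / s`).
Let `θ = τ s` be small: `θ < ℓ v - L₁` (then the points `A = v + θ u'`, `C = v + θ w'` are in the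
open
edges `n-1` and `0`). On the line `{ℓ = ℓ v - θ}` the only points of the chain are `A` and `C`:
`x ∈ [u, v]` with `ℓ x = ℓ v - θ` is `A`, and so on. Hence, with `η = A - C`:
* the ray `{A + r η | r > 0}` is convex, unbounded, and disjoint from the chain, so `W = 0` on it
  (`W_const`, `W_far`);
* the open segment `(A, C)` is convex and disjoint from the chain, so `W` is constant on it
  (`W_const`), and it contains the point `D = v + τ (α (u - v) + γ (w - v))`;
* `A` is in the open edge `n-1`, `cs (p n - p (n-1)) η ≠ 0` (`η` is parallel to the line `ℓ = const`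
  and `ℓ` is not constant on the edge), so by `W_jump` (with `ν = η` or `ν = -η`,
  `open_not_mem`): `W (A + ε η) - W (A - ε η) = 1` or `-1` for small `ε > 0`.
So `W D = W (A - ε η) ≠ 0`, and `D` is off the chain. -/
theorem expo {p : ℕ → ℂ} {n : ℕ} (h : SC p n) (hv : Expd p n) {α γ : ℝ} (hα : 0 < α)
    (hγ : 0 < γ) : ∃ τ₀ > 0, ∀ τ : ℝ, 0 < τ → τ < τ₀ →
      p 0 + τ • (α • (p (n - 1) - p 0) + γ • (p 1 - p 0)) ∉ crv p n ∧
      W p n (p 0 + τ • (α • (p (n - 1) - p 0) + γ • (p 1 - p 0))) ≠ 0 := by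
  have hne := expo_ne h hv
  obtain ⟨m, rfl⟩ : ∃ m, n = m + 1 := ⟨n - 1, by have := h.three; omega⟩
  have hm : 2 ≤ m := by have := h.three; omega
  rw [Nat.add_sub_cancel] at hne ⊢
  have hA : 0 < dt (p 0) (p 0) - dt (p m) (p 0) := by
    have := hv m (by omega) (by omega)
    linarith
  have hB : 0 < dt (p 0) (p 0) - dt (p 1) (p 0) := by
    have := hv 1 (by omega) (by omega)
    linarith
  have hcs : cs (p m - p 0) (p 1 - p 0) ≠ 0 := by
    intro h1
    apply hne
    simp only [cr, cs, Complex.sub_re, Complex.sub_im] at h1 ⊢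
    linarith
  obtain ⟨δ, hδ0, hδ⟩ : ∃ δ > 0, ∀ j, 0 < j → j < m + 1 →
      dt (p j) (p 0) ≤ dt (p 0) (p 0) - δ := by
    obtain ⟨k, hk, hmax⟩ := Finset.exists_max_image (Finset.Ico 1 (m + 1))
      (fun j => dt (p j) (p 0)) ⟨1, Finset.mem_Ico.2 ⟨le_rfl, by omega⟩⟩
    have hk' := Finset.mem_Ico.1 hk
    refine ⟨dt (p 0) (p 0) - dt (p k) (p 0), ?_, fun j hj hj' => ?_⟩
    · have := hv k (by omega) (by omega)
      linarith
    · have h1 := hmax j (Finset.mem_Ico.2 ⟨hj, hj'⟩)
      linarith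
  have hδA : δ ≤ dt (p 0) (p 0) - dt (p m) (p 0) := by
    have := hδ m (by omega) (by omega)
    linarith
  have hline := fun (θ : ℝ) (hθ : θ < δ) (x : ℂ) => Expo_line h hδ hθ hA hB (x := x)
  set A := dt (p 0) (p 0) - dt (p m) (p 0) with hAd
  set B := dt (p 0) (p 0) - dt (p 1) (p 0) with hBd
  have hs : 0 < α * A + γ * B := by positivity
  set s := α * A + γ * B with hsd
  refine ⟨δ / s, div_pos hδ0 hs, fun τ hτ hτ' => ?_⟩
  have hθ : 0 < τ * s := mul_pos hτ hs
  have hθδ : τ * s < δ := by rwa [lt_div_iff₀ hs] at hτ'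
  set θ := τ * s with hθd
  set P := p 0 + (θ / A) • (p m - p 0) with hP
  set C := p 0 + (θ / B) • (p 1 - p 0) with hC
  set η := P - C with hη
  have hPl : dt P (p 0) = dt (p 0) (p 0) - θ := by
    rw [hP, Expo_add, Expo_smul, Expo_sub]
    have e : θ / A * A = θ := div_mul_cancel₀ _ hA.ne'
    have e2 : dt (p m) (p 0) - dt (p 0) (p 0) = -A := by rw [hAd]; ring
    rw [e2, mul_neg, e]
    ring
  have hCl : dt C (p 0) = dt (p 0) (p 0) - θ := by
    rw [hC, Expo_add, Expo_smul, Expo_sub]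
    have e : θ / B * B = θ := div_mul_cancel₀ _ hB.ne'
    have e2 : dt (p 1) (p 0) - dt (p 0) (p 0) = -B := by rw [hBd]; ring
    rw [e2, mul_neg, e]
    ring
  have hηl : dt η (p 0) = 0 := by
    rw [hη, Expo_sub, hPl, hCl, sub_self]
  have hcη : cs (p m - p 0) η = -(θ / B) * cs (p m - p 0) (p 1 - p 0) := by
    have e : η = (θ / A) • (p m - p 0) - (θ / B) • (p 1 - p 0) := by
      rw [hη, hP, hC]
      abel
    rw [e, cs_sub, cs_smul, cs_smul, cs_self]
    ring
  have hcη0 : cs (p m - p 0) η ≠ 0 := by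
    rw [hcη]
    exact mul_ne_zero (neg_ne_zero.2 (div_pos hθ hB).ne') hcs
  have hη0 : η ≠ 0 := by
    intro h1
    rw [h1, cs_zero] at hcη0
    exact hcη0 rfl
  have hoff : ∀ r : ℝ, r ≠ 0 → r ≠ -1 → P + r • η ∉ crv p (m + 1) := by
    intro r hr0 hr1 hx
    have hl : dt (P + r • η) (p 0) = dt (p 0) (p 0) - θ := by
      rw [Expo_add, Expo_smul, hPl, hηl, mul_zero, add_zero]
    rcases hline θ hθδ _ hx hl with h1 | h1
    · have h2 : r • η = 0 := by
        have h3 : P + r • η = P + 0 := by rw [h1, add_zero]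
        exact add_left_cancel h3
      rcases smul_eq_zero.1 h2 with h3 | h3
      · exact hr0 h3
      · exact hη0 h3
    · have h2 : (r + 1) • η = 0 := by
        have h3 : P + r • η = C := h1
        have h4 : (r + 1) • η = (P + r • η) - C := by
          rw [add_smul, one_smul]
          nth_rewrite 2 [hη]
          abel
        rw [h4, h3, sub_self]
      rcases smul_eq_zero.1 h2 with h3 | h3
      · exact hr1 (by linarith)
      · exact hη0 h3
  have hcont : Continuous fun r : ℝ => P + r • η := by fun_prop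
  -- the ray
  have hray : ∀ r : ℝ, 0 < r → W p (m + 1) (P + r • η) = 0 := by
    obtain ⟨R, hR⟩ := W_far (p := p) (n := m + 1) h.cl
    have hηn : 0 < ‖η‖ := norm_pos_iff.2 hη0
    have hr1 : 0 < (|R| + ‖P‖ + 1) / ‖η‖ := by positivity
    have h1 : R < ‖P + ((|R| + ‖P‖ + 1) / ‖η‖) • η‖ := by
      have h2 : ‖((|R| + ‖P‖ + 1) / ‖η‖) • η‖ = |R| + ‖P‖ + 1 := by
        rw [norm_smul, Real.norm_eq_abs, abs_of_pos hr1, div_mul_cancel₀ _ hηn.ne']
      have h3 := norm_sub_le (P + ((|R| + ‖P‖ + 1) / ‖η‖) • η) P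
      rw [add_sub_cancel_left, h2] at h3
      have h4 := le_abs_self R
      linarith
    intro r hr
    rw [← (hR _ h1).2]
    refine W_const h.cl (S := (fun r : ℝ => P + r • η) '' Ioi 0)
      (isPreconnected_Ioi.image _ hcont.continuousOn) ?_ ⟨r, hr, rfl⟩ ⟨_, hr1, rfl⟩
    rintro _ ⟨r', hr', rfl⟩
    have hr'' : 0 < r' := hr'
    exact hoff r' hr''.ne' (by linarith)
  -- the segment
  have hseg : ∀ r r' : ℝ, -1 < r → r < 0 → -1 < r' → r' < 0 →
      W p (m + 1) (P + r • η) = W p (m + 1) (P + r' • η) := by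
    intro r r' h1 h2 h3 h4
    refine W_const h.cl (S := (fun r : ℝ => P + r • η) '' Ioo (-1) 0)
      (isPreconnected_Ioo.image _ hcont.continuousOn) ?_ ⟨r, ⟨h1, h2⟩, rfl⟩ ⟨r', ⟨h3, h4⟩, rfl⟩
    rintro _ ⟨t, ht, rfl⟩
    exact hoff t ht.2.ne ht.1.ne'
  -- the point P lies in the open edge m
  have hPo : P ∈ openSegment ℝ (p m) (p (m + 1)) := by
    rw [h.cl]
    refine ⟨θ / A, 1 - θ / A, by positivity, ?_, by ring, ?_⟩
    · rw [sub_pos, div_lt_one hA]
      linarith
    · rw [hP, sub_smul, smul_sub, one_smul]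
      abel
  have ho : ∀ j < m + 1, j ≠ m → P ∉ segment ℝ (p j) (p (j + 1)) := fun j hj hjm =>
    open_not_mem h (by omega) hj hjm hPo
  have hD : p 0 + τ • (α • (p m - p 0) + γ • (p 1 - p 0)) = P + (-(γ * B / s)) • η := by
    have e1 : η = (θ / A) • (p m - p 0) - (θ / B) • (p 1 - p 0) := by
      rw [hη, hP, hC]
      abel
    have e2 : θ / A - γ * B / s * (θ / A) = τ * α := by
      rw [hθd, hsd]
      field_simp
      ring
    have e3 : γ * B / s * (θ / B) = τ * γ := by
      rw [hθd]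
      field_simp
    rw [e1, hP]
    generalize p m - p 0 = a
    generalize p 1 - p 0 = b
    rw [smul_add, smul_smul, smul_smul, ← e2, ← e3]
    module
  have hl0 : 0 < γ * B / s := by positivity
  have hl1 : γ * B / s < 1 := by
    rw [div_lt_one hs, hsd]
    have : 0 < α * A := by positivity
    linarith
  rw [hD]
  refine ⟨hoff _ (by linarith) (by intro h1; linarith), ?_⟩
  have hd : p (m + 1) - p m = -(p m - p 0) := by
    rw [h.cl]
    abel
  rcases lt_or_gt_of_ne hcη0 with h1 | h1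
  · have h2 : 0 < cs (p (m + 1) - p m) η := by
      rw [hd, neg_cs]
      linarith
    obtain ⟨δ', hδ', hj⟩ := W_jump h.cl (by omega) hPo ho h2
    have hε : 0 < min δ' 1 / 2 := by positivity
    have hε1 : min δ' 1 / 2 < δ' := by
      have := min_le_left δ' 1
      linarith
    have hε2 : min δ' 1 / 2 < 1 := by
      have := min_le_right δ' 1
      linarith
    obtain ⟨-, -, h3⟩ := hj _ hε hε1
    rw [hray _ hε] at h3
    have e : P - (min δ' 1 / 2) • η = P + (-(min δ' 1 / 2)) • η := by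
      rw [neg_smul]
      abel
    rw [e] at h3
    rw [hseg _ (-(min δ' 1 / 2)) (by linarith) (by linarith) (by linarith) (by linarith)]
    intro h4
    linarith
  · have h2 : 0 < cs (p (m + 1) - p m) (-η) := by
      rw [hd, neg_cs, cs_neg]
      linarith
    obtain ⟨δ', hδ', hj⟩ := W_jump h.cl (by omega) hPo ho h2
    have hε : 0 < min δ' 1 / 2 := by positivity
    have hε1 : min δ' 1 / 2 < δ' := by
      have := min_le_left δ' 1
      linarith
    have hε2 : min δ' 1 / 2 < 1 := by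
      have := min_le_right δ' 1
      linarith
    obtain ⟨-, -, h3⟩ := hj _ hε hε1
    have e : P - (min δ' 1 / 2) • -η = P + (min δ' 1 / 2) • η := by
      rw [smul_neg]
      abel
    have e2 : P + (min δ' 1 / 2) • -η = P + (-(min δ' 1 / 2)) • η := by
      rw [smul_neg, neg_smul]
    rw [e, e2, hray _ hε] at h3
    rw [hseg _ (-(min δ' 1 / 2)) (by linarith) (by linarith) (by linarith) (by linarith)]
    intro h4
    linarith

end MP7e112f
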