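import Pool.Agent.Lib.MP_7e112f_co.FType

/-!
# MP_7e112f_co, EG module FCase: one edge sees the triangle `6 7 8` (four cases)
-/

open Set

namespace MP7e112f

variable {S : Set ℂ} {p0 p1 p2 p3 p4 p6 p7 p8 : ℂ}

/-- The values on the lines through `7` in the directions `8 - 7` and `6 - 7`. -/
theorem FH.dir8 (h : FH p0 p2 p4 p6 p7 p8) : cs (p8 - p7) (p8 - p7) ≤ 0 ∧
    0 ≤ cs (p8 - p7) (p6 - p7) ∧ cs (p8 - p7) (p7 - p7) ≤ 0 := by
  refine ⟨by rw [cs_self], ?_, by rw [sub_self, cs_zero]⟩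
  have e : cs (p8 - p7) (p6 - p7) = cr p6 p7 p8 := by
    simp only [cr, cs, Complex.sub_re, Complex.sub_im]; ring
  rw [e]; exact h.h678.le

theorem FH.dir6 (h : FH p0 p2 p4 p6 p7 p8) : cs (p6 - p7) (p8 - p7) ≤ 0 ∧
    0 ≤ cs (p6 - p7) (p6 - p7) ∧ cs (p6 - p7) (p7 - p7) ≤ 0 := by
  refine ⟨?_, by rw [cs_self], by rw [sub_self, cs_zero]⟩
  have e : cs (p6 - p7) (p8 - p7) = -cr p6 p7 p8 := by
    simp only [cr, cs, Complex.sub_re, Complex.sub_im]; ring
  rw [e]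
  have := h.h678
  linarith

theorem FH.hc (h : FH p0 p2 p4 p6 p7 p8) : 0 < cs (p8 - p7) (p6 - p7) := by
  have e : cs (p8 - p7) (p6 - p7) = cr p6 p7 p8 := by
    simp only [cr, cs, Complex.sub_re, Complex.sub_im]; ring
  rw [e]; exact h.h678

theorem FH.k028 (h : FH p0 p2 p4 p6 p7 p8) (r4 : cr p2 p4 p8 < 0) : 0 < cr p0 p2 p8 := by
  have := cr_sum p0 p4 p8 p2
  have := cr_swap' p0 p2 p4
  have := h.h024
  have := h.h048
  linarith

theorem FH.k248 (h : FH p0 p2 p4 p6 p7 p8) (r0 : cr p0 p2 p8 < 0) : 0 < cr p2 p4 p8 := by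
  have := cr_sum p0 p4 p8 p2
  have := cr_swap' p0 p2 p4
  have := h.h024
  have := h.h048
  linarith

/-- Case A. -/
theorem FH.caseA (h : FH p0 p2 p4 p6 p7 p8) (h012 : 0 < cr p0 p1 p2) (r4 : cr p2 p4 p8 < 0)
    (hw : 0 ≤ cr p7 p8 p1) (S0 : Tri p0 p2 p4 ⊆ S) (S1 : Tri p0 p4 p8 ⊆ S)
    (S2 : Tri p4 p6 p8 ⊆ S) (S3 : Tri p6 p7 p8 ⊆ S) (S4 : Tri p0 p1 p2 ⊆ S) {t : ℂ}
    (ht : t ∈ Tri p6 p7 p8) : ∃ x ∈ segment ℝ p0 p1, segment ℝ x t ⊆ S := by
  by_cases h8 : t = p8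
  · subst h8
    exact ⟨p0, left_mem_segment ℝ _ _,
      (tri_seg (tri_mem₁ h.h048) (tri_mem₃ h.h048)).trans S1⟩
  have hu : p8 - t ≠ 0 := sub_ne_zero.2 (Ne.symm h8)
  have main : ∀ α β : ℝ, 0 ≤ α → 0 ≤ β → ∀ u : ℂ, u = α • (p8 - p6) + β • (p8 - p7) →
      cs u (p8 - p8) ≤ 0 ∧ 0 ≤ cs u (p6 - p8) ∧ 0 ≤ cs u (p4 - p8) ∧ cs u (p0 - p8) ≤ 0 ∧
        0 ≤ cs u (p2 - p8) := by
    intro α β hα hβ u hu
    have f8 : cs u (p8 - p8) ≤ 0 := by rw [sub_self, cs_zero]
    have f6 : 0 ≤ cs u (p6 - p8) := by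
      have e : cs u (p6 - p8) = β * cr p6 p7 p8 := by
        rw [hu, add_cs, smul_cs, smul_cs]
        simp only [cr, cs, Complex.sub_re, Complex.sub_im]; ring
      rw [e]; exact mul_nonneg hβ h.h678.le
    have f7 : cs u (p7 - p8) ≤ 0 := by
      have e : cs u (p7 - p8) = -(α * cr p6 p7 p8) := by
        rw [hu, add_cs, smul_cs, smul_cs]
        simp only [cr, cs, Complex.sub_re, Complex.sub_im]; ring
      rw [e]
      have := mul_nonneg hα h.h678.le
      linarith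
    have f4 := h.f4 f8 f6 f7
    have f0 := (h.f0 f8 f6 f4).trans f8
    exact ⟨f8, f6, f4, f0, h.f2a r4 f8 f4 f0⟩
  have hv := main 1 0 zero_le_one le_rfl (p8 - p6) (by simp)
  have hv' := main 0 1 le_rfl zero_le_one (p8 - p7) (by simp)
  have k1 : 0 < cr p6 p8 p1 := by
    by_contra hcon
    push Not at hcon
    refine mono (o := p8) (v := p8 - p6) (v' := p8 - p7) (a := p0) (b := p2) (c := p1) ?_
      hv.2.2.2.1 hv.2.2.2.2 hv'.2.2.2.1 hv'.2.2.2.2 (h.k028 r4).le ?_ ?_ ?_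
    · have e : cs (p8 - p6) (p8 - p7) = cr p6 p7 p8 := by
        simp only [cr, cs, Complex.sub_re, Complex.sub_im]; ring
      rw [e]; exact h.h678
    · rw [cr_swap']; linarith
    · have e : cs (p8 - p6) (p1 - p8) = cr p6 p8 p1 := by
        simp only [cr, cs, Complex.sub_re, Complex.sub_im]; ring
      rwa [e]
    · have e : cs (p8 - p7) (p1 - p8) = cr p7 p8 p1 := by
        simp only [cr, cs, Complex.sub_re, Complex.sub_im]; ring
      rwa [e]
  obtain ⟨α, β, γ, hα, hβ, hγ, hs, he⟩ := tri_bary h.h678 ht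
  have hue : p8 - t = α • (p8 - p6) + β • (p8 - p7) := by
    rw [he]
    have : γ = 1 - α - β := by linarith
    rw [this]
    module
  have ee : ∀ P, cs (p8 - t) (P - t) = cs (p8 - t) (P - p8) := fun P => by
    simp only [cs, Complex.sub_re, Complex.sub_im]; ring
  obtain ⟨f8, f6, f4, f0, f2⟩ := main α β hα hβ _ hue
  have f1 : 0 ≤ cs (p8 - t) (p1 - p8) := by
    have e : cs (p8 - t) (p1 - p8) = α * cr p6 p8 p1 + β * cr p7 p8 p1 := by
      rw [hue, add_cs, smul_cs, smul_cs]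
      simp only [cr, cs, Complex.sub_re, Complex.sub_im]; ring
    rw [e]
    exact add_nonneg (mul_nonneg hα k1.le) (mul_nonneg hβ hw)
  refine hits_sees (h.to02 S0 S1 S2 S3 ht hu (by rwa [ee]) (by rwa [ee]) (by rwa [ee])
    (by rwa [ee]) (by rwa [ee]) fun z hz hzx => ?_)
  have e : ∀ P, cs (p8 - t) (P - z) = cs (p8 - t) (P - t) := fun P => by
    rw [cs_sub, cs_sub, hzx]
  refine hit_last (q := p2) (R := p0) (L := p1) (by rwa [cr_rot']) hu (mem_of_eq_tri' S4) ?_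
    (by rwa [e, ee]) (by rwa [e, ee])
  rw [← tri_rot]
  exact tri_seg (tri_mem₁ h012) (tri_mem₃ h012) hz

/-- Case B. -/
theorem FH.caseB (h : FH p0 p2 p4 p6 p7 p8) (h012 : 0 < cr p0 p1 p2) (r4 : cr p2 p4 p8 < 0)
    (hw : cr p7 p8 p1 ≤ 0) (S0 : Tri p0 p2 p4 ⊆ S) (S1 : Tri p0 p4 p8 ⊆ S)
    (S2 : Tri p4 p6 p8 ⊆ S) (S3 : Tri p6 p7 p8 ⊆ S) (S4 : Tri p0 p1 p2 ⊆ S) {t : ℂ}
    (ht : t ∈ Tri p6 p7 p8) : ∃ x ∈ segment ℝ p1 p2, segment ℝ x t ⊆ S := by
  have main : ∀ u : ℂ, cs u (p8 - p7) ≤ 0 → 0 ≤ cs u (p6 - p7) → cs u (p7 - p7) ≤ 0 →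
      0 ≤ cs u (p4 - p7) ∧ cs u (p0 - p7) ≤ 0 ∧ 0 ≤ cs u (p2 - p7) := by
    intro u f8 f6 f7
    have f4 := h.f4 f8 f6 f7
    have f0 := (h.f0 f8 f6 f4).trans f8
    exact ⟨f4, f0, h.f2a r4 f8 f4 f0⟩
  have hv := main _ h.dir8.1 h.dir8.2.1 h.dir8.2.2
  have hv' := main _ h.dir6.1 h.dir6.2.1 h.dir6.2.2
  have k1 : cr p7 p6 p1 < 0 := by
    by_contra hcon
    push Not at hcon
    refine mono (o := p7) (v := p8 - p7) (v' := p6 - p7) (a := p0) (b := p2) (c := p1) h.hc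
      hv.2.1 hv.2.2 hv'.2.1 hv'.2.2 ?_ ?_ hw hcon
    · have e : cr p0 p2 p7 = cr p0 p2 p8 + (cs (p8 - p7) (p2 - p7) - cs (p8 - p7) (p0 - p7)) := by
        simp only [cr, cs, Complex.sub_re, Complex.sub_im]; ring
      rw [e]
      have := h.k028 r4
      have := hv.2.1
      have := hv.2.2
      linarith
    · rw [cr_swap']; linarith
  obtain ⟨u, hu, ee, α, β, hα, hβ, hue⟩ := line7 h.h678 ht
  have f8 : cs u (p8 - p7) ≤ 0 := by
    have e : cs u (p8 - p7) = -(α * cr p6 p7 p8) := by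
      rw [hue, add_cs, smul_cs, smul_cs]
      simp only [cr, cs, Complex.sub_re, Complex.sub_im]; ring
    rw [e]
    have := mul_nonneg hα h.h678.le
    linarith
  have f6 : 0 ≤ cs u (p6 - p7) := by
    have e : cs u (p6 - p7) = β * cr p6 p7 p8 := by
      rw [hue, add_cs, smul_cs, smul_cs]
      simp only [cr, cs, Complex.sub_re, Complex.sub_im]; ring
    rw [e]; exact mul_nonneg hβ h.h678.le
  obtain ⟨f4, f0, f2⟩ := main u f8 f6 (by rw [sub_self, cs_zero])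
  have f1 : cs u (p1 - p7) ≤ 0 := by
    have e : cs u (p1 - p7) = α * cr p7 p6 p1 + β * cr p7 p8 p1 := by
      rw [hue, add_cs, smul_cs, smul_cs]
      simp only [cr]
    rw [e]
    have := mul_nonneg hα (neg_nonneg.2 k1.le)
    have := mul_nonneg hβ (neg_nonneg.2 hw)
    linarith
  refine hits_sees (h.to02 S0 S1 S2 S3 ht hu (by rwa [ee]) (by rwa [ee]) (by rwa [ee])
    (by rwa [ee]) (by rwa [ee]) fun z hz hzx => ?_)
  have e : ∀ P, cs u (P - z) = cs u (P - t) := fun P => by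
    rw [cs_sub, cs_sub, hzx]
  exact hit_last h012 hu S4 (tri_seg (tri_mem₁ h012) (tri_mem₃ h012) hz)
    (by rwa [e, ee]) (by rwa [e, ee])

/-- Case D. -/
theorem FH.caseD (h : FH p0 p2 p4 p6 p7 p8) (h234 : 0 < cr p2 p3 p4) (r0 : cr p0 p2 p8 < 0)
    (hw : 0 ≤ cr p7 p6 p3) (S0 : Tri p0 p2 p4 ⊆ S) (S1 : Tri p0 p4 p8 ⊆ S)
    (S2 : Tri p4 p6 p8 ⊆ S) (S3 : Tri p6 p7 p8 ⊆ S) (S4 : Tri p2 p3 p4 ⊆ S) {t : ℂ}
    (ht : t ∈ Tri p6 p7 p8) : ∃ x ∈ segment ℝ p2 p3, segment ℝ x t ⊆ S := by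
  have main : ∀ u : ℂ, cs u (p8 - p7) ≤ 0 → 0 ≤ cs u (p6 - p7) → cs u (p7 - p7) ≤ 0 →
      0 ≤ cs u (p4 - p7) ∧ cs u (p0 - p7) ≤ 0 ∧ cs u (p2 - p7) ≤ 0 := by
    intro u f8 f6 f7
    have f4 := h.f4 f8 f6 f7
    have f0 := h.f0 f8 f6 f4
    exact ⟨f4, f0.trans f8, h.f2b r0 f8 f4 f0⟩
  have hv := main _ h.dir8.1 h.dir8.2.1 h.dir8.2.2
  have hv' := main _ h.dir6.1 h.dir6.2.1 h.dir6.2.2
  have k1 : 0 < cr p7 p8 p3 := by
    by_contra hcon
    push Not at hcon
    refine mono (o := p7) (v := p8 - p7) (v' := p6 - p7) (a := p2) (b := p4) (c := p3) h.hc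
      hv.2.2 hv.1 hv'.2.2 hv'.1 ?_ ?_ hcon hw
    · have e : cr p2 p4 p7 = cr p2 p4 p8 + (cs (p8 - p7) (p4 - p7) - cs (p8 - p7) (p2 - p7)) := by
        simp only [cr, cs, Complex.sub_re, Complex.sub_im]; ring
      rw [e]
      have := h.k248 r0
      have := hv.1
      have := hv.2.2
      linarith
    · rw [cr_swap']; linarith
  obtain ⟨u, hu, ee, α, β, hα, hβ, hue⟩ := line7 h.h678 ht
  have f8 : cs u (p8 - p7) ≤ 0 := by
    have e : cs u (p8 - p7) = -(α * cr p6 p7 p8) := by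
      rw [hue, add_cs, smul_cs, smul_cs]
      simp only [cr, cs, Complex.sub_re, Complex.sub_im]; ring
    rw [e]
    have := mul_nonneg hα h.h678.le
    linarith
  have f6 : 0 ≤ cs u (p6 - p7) := by
    have e : cs u (p6 - p7) = β * cr p6 p7 p8 := by
      rw [hue, add_cs, smul_cs, smul_cs]
      simp only [cr, cs, Complex.sub_re, Complex.sub_im]; ring
    rw [e]; exact mul_nonneg hβ h.h678.le
  obtain ⟨f4, f0, f2⟩ := main u f8 f6 (by rw [sub_self, cs_zero])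
  have f3 : 0 ≤ cs u (p3 - p7) := by
    have e : cs u (p3 - p7) = α * cr p7 p6 p3 + β * cr p7 p8 p3 := by
      rw [hue, add_cs, smul_cs, smul_cs]
      simp only [cr]
    rw [e]
    exact add_nonneg (mul_nonneg hα hw) (mul_nonneg hβ k1.le)
  refine hits_sees (h.to24 S0 S1 S2 S3 ht hu (by rwa [ee]) (by rwa [ee]) (by rwa [ee])
    (by rwa [ee]) (by rwa [ee]) fun z hz hzx => ?_)
  have e : ∀ P, cs u (P - z) = cs u (P - t) := fun P => by
    rw [cs_sub, cs_sub, hzx]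
  refine hit_last (q := p4) (R := p2) (L := p3) (by rwa [cr_rot']) hu (mem_of_eq_tri' S4) ?_
    (by rwa [e, ee]) (by rwa [e, ee])
  rw [← tri_rot]
  exact tri_seg (tri_mem₁ h234) (tri_mem₃ h234) hz

/-- Case C. -/
theorem FH.caseC (h : FH p0 p2 p4 p6 p7 p8) (h234 : 0 < cr p2 p3 p4) (r0 : cr p0 p2 p8 < 0)
    (hw : cr p7 p6 p3 ≤ 0) (S0 : Tri p0 p2 p4 ⊆ S) (S1 : Tri p0 p4 p8 ⊆ S)
    (S2 : Tri p4 p6 p8 ⊆ S) (S3 : Tri p6 p7 p8 ⊆ S) (S4 : Tri p2 p3 p4 ⊆ S) {t : ℂ}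
    (ht : t ∈ Tri p6 p7 p8) : ∃ x ∈ segment ℝ p3 p4, segment ℝ x t ⊆ S := by
  obtain ⟨α, β, γ, hα, hβ, hγ, hs, he⟩ := tri_bary h.h678 ht
  have hα' : α = 1 - β - γ := by linarith
  rcases le_or_gt 0 (cr p4 p6 t) with hc | hc
  · refine ⟨p4, right_mem_segment ℝ _ _, ?_⟩
    have h5 : 0 ≤ cr p4 p7 p8 := by
      have := cr_sum p6 p7 p8 p4
      have := cr_swap p6 p4 p8
      have := cr_rot p4 p6 p7
      have := h.r6
      have := h.h678
      have := h.h468
      linarith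
    have hsee := see2 (q := p7) (R := p8) (L := p6) (q' := p4) (x := t) (y := p4)
      (by rw [cr_rot]; exact h.h678) h.h468 (by rwa [tri_rot]) (tri_mem₁ h.h468) ?_ ?_
    · rw [segment_symm]
      refine hsee.trans (union_subset (mem_of_eq_tri S3) S2)
    · have e : cs (p4 - t) (p8 - t) = -(α * cr p4 p6 p8 + β * cr p4 p7 p8) := by
        rw [he, hα']
        simp only [cr, cs, Complex.sub_re, Complex.sub_im, Complex.add_re, Complex.add_im,
          Complex.real_smul, Complex.mul_re, Complex.mul_im, Complex.ofReal_re,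
          Complex.ofReal_im]
        ring
      rw [e]
      have := mul_nonneg hα h.h468.le
      have := mul_nonneg hβ h5
      linarith
    · have e : cs (p4 - t) (p6 - t) = cr p4 p6 t := by
        simp only [cr, cs, Complex.sub_re, Complex.sub_im]; ring
      rwa [e]
  · have ht6 : t ≠ p6 := by
      rintro rfl
      rw [cr_self'] at hc
      exact lt_irrefl _ hc
    have hu : p6 - t ≠ 0 := sub_ne_zero.2 (Ne.symm ht6)
    have hue : p6 - t = β • (p6 - p7) + γ • (p6 - p8) := by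
      rw [he, hα']
      module
    have ee : ∀ P, cs (p6 - t) (P - t) = cs (p6 - t) (P - p6) := fun P => by
      simp only [cs, Complex.sub_re, Complex.sub_im]; ring
    have f8 : cs (p6 - t) (p8 - p6) ≤ 0 := by
      have e : cs (p6 - t) (p8 - p6) = -(β * cr p6 p7 p8) := by
        rw [hue, add_cs, smul_cs, smul_cs]
        simp only [cr, cs, Complex.sub_re, Complex.sub_im]; ring
      rw [e]
      have := mul_nonneg hβ h.h678.le
      linarith
    have f6 : 0 ≤ cs (p6 - t) (p6 - p6) := by rw [sub_self, cs_zero]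
    have f4 : 0 ≤ cs (p6 - t) (p4 - p6) := by
      have e : cs (p6 - t) (p4 - p6) = -cr p4 p6 t := by
        simp only [cr, cs, Complex.sub_re, Complex.sub_im]; ring
      rw [e]; linarith
    have f0 := h.f0 f8 f6 f4
    have f2 := h.f2b r0 f8 f4 f0
    have f3 : cs (p6 - t) (p3 - p6) ≤ 0 := by
      have e : cs (p6 - t) (p3 - p6) = β * cr p7 p6 p3 + γ * cs (p6 - p8) (p3 - p6) := by
        rw [hue, add_cs, smul_cs, smul_cs]
        simp only [cr, cs, Complex.sub_re, Complex.sub_im]; ring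
      rcases eq_or_lt_of_le hγ with hγ0 | hγ0
      · rw [e, ← hγ0, zero_mul, add_zero]
        have := mul_nonneg hβ (neg_nonneg.2 hw)
        linarith
      · by_contra hcon
        push Not at hcon
        -- the line through `7` and `6`
        have g8 : cs (p6 - p7) (p8 - p6) ≤ 0 := by
          have e : cs (p6 - p7) (p8 - p6) = -cr p6 p7 p8 := by
            simp only [cr, cs, Complex.sub_re, Complex.sub_im]; ring
          rw [e]
          have := h.h678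
          linarith
        have g6 : 0 ≤ cs (p6 - p7) (p6 - p6) := by rw [sub_self, cs_zero]
        have g7 : cs (p6 - p7) (p7 - p6) ≤ 0 := by
          rw [← neg_sub p6 p7, cs_neg, cs_self, neg_zero]
        have g4 := h.f4 g8 g6 g7
        have g0 := h.f0 g8 g6 g4
        have g2 := h.f2b r0 g8 g4 g0
        -- the line through `6` and `8`
        have k8 : cs (p8 - p6) (p8 - p6) ≤ 0 := by rw [cs_self]
        have k6 : 0 ≤ cs (p8 - p6) (p6 - p6) := by rw [sub_self, cs_zero]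
        have k7 : cs (p8 - p6) (p7 - p6) ≤ 0 := by
          have e : cs (p8 - p6) (p7 - p6) = -cr p6 p7 p8 := by
            simp only [cr, cs, Complex.sub_re, Complex.sub_im]; ring
          rw [e]
          have := h.h678
          linarith
        have k4 := h.f4 k8 k6 k7
        have k0 := h.f0 k8 k6 k4
        have k2 := h.f2b r0 k8 k4 k0
        refine mono (o := p6) (v := p6 - p7) (v' := p6 - t) (a := p2) (b := p4) (c := p3) ?_
          g2 g4 f2 f4 ?_ ?_ ?_ hcon.le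
        · have e : cs (p6 - p7) (p6 - t) = γ * cr p6 p7 p8 := by
            rw [hue, cs_add, cs_smul, cs_smul, cs_self]
            simp only [cr, cs, Complex.sub_re, Complex.sub_im]; ring
          rw [e]
          exact mul_pos hγ0 h.h678
        · have e : cr p2 p4 p6 =
              cr p2 p4 p8 + (cs (p8 - p6) (p4 - p6) - cs (p8 - p6) (p2 - p6)) := by
            simp only [cr, cs, Complex.sub_re, Complex.sub_im]; ring
          rw [e]
          have := h.k248 r0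
          linarith
        · rw [cr_swap']; linarith
        · have e : cs (p6 - p7) (p3 - p6) = cr p7 p6 p3 := by
            simp only [cr, cs, Complex.sub_re, Complex.sub_im]; ring
          rwa [e]
    refine hits_sees (h.to24 S0 S1 S2 S3 ht hu (by rwa [ee]) (by rwa [ee]) (by rwa [ee])
      (by rw [ee]; exact f0.trans f8) (by rwa [ee]) fun z hz hzx => ?_)
    have e : ∀ P, cs (p6 - t) (P - z) = cs (p6 - t) (P - t) := fun P => by
      rw [cs_sub, cs_sub, hzx]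
    exact hit_last h234 hu S4 (tri_seg (tri_mem₁ h234) (tri_mem₃ h234) hz)
      (by rwa [e, ee]) (by rwa [e, ee])

end MP7e112f
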