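import Pool.Agent.Lib.MP_7e112f_co.Fan

/-!
# MP_7e112f_co, EG module FType: the pentagon with both reflex angles at the middle vertex
-/

open Set

namespace MP7e112f

/-- The hypotheses on the triangles `0 4 8`, `0 2 4`, `4 6 8`, `6 7 8`, with reflex angles at `6` (of
`4 6 7`) and at `8` (of `0 8 6`). -/
structure FH (p0 p2 p4 p6 p7 p8 : ℂ) : Prop where
  h048 : 0 < cr p0 p4 p8
  h024 : 0 < cr p0 p2 p4
  h468 : 0 < cr p4 p6 p8
  h678 : 0 < cr p6 p7 p8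
  r6 : cr p4 p6 p7 < 0
  r8 : cr p0 p6 p8 < 0

variable {S : Set ℂ} {p0 p1 p2 p3 p4 p6 p7 p8 : ℂ}

/-- A line which passes `8` on the right, `6` and `4` on the left has `0` on the right, and `0` is
at least as far from it as `8`. -/
theorem FH.f0 (h : FH p0 p2 p4 p6 p7 p8) {x u : ℂ} (f8 : cs u (p8 - x) ≤ 0)
    (f6 : 0 ≤ cs u (p6 - x)) (f4 : 0 ≤ cs u (p4 - x)) : cs u (p0 - x) ≤ cs u (p8 - x) := by
  have key : cr p4 p6 p8 * (cs u (p0 - x) - cs u (p8 - x)) ≤ 0 := by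
    rw [mul_sub, bary]
    have e1 : cr p4 p0 p8 = -cr p0 p4 p8 := cr_swap _ _ _
    have e2 : cr p4 p6 p0 = cr p4 p6 p8 - cr p0 p6 p8 + cr p0 p4 p8 := by
      have := cr_sum p4 p6 p8 p0
      linarith
    have a1 := mul_nonneg (neg_nonneg.2 h.r8.le) f4
    have a2 := mul_nonneg h.h048.le f6
    have a3 := mul_nonneg (neg_nonneg.2 h.r8.le) (neg_nonneg.2 f8)
    have a4 := mul_nonneg h.h048.le (neg_nonneg.2 f8)
    rw [e1, e2]
    linarith
  have := np h.h468 key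
  linarith

/-- Reflex angle `2 4 8`: such a line has `2` on the left. -/
theorem FH.f2a (h : FH p0 p2 p4 p6 p7 p8) (r4 : cr p2 p4 p8 < 0) {x u : ℂ}
    (f8 : cs u (p8 - x) ≤ 0)
    (f4 : 0 ≤ cs u (p4 - x)) (f0 : cs u (p0 - x) ≤ 0) : 0 ≤ cs u (p2 - x) := by
  apply nn h.h048
  rw [bary]
  have e1 : cr p0 p4 p2 = -cr p0 p2 p4 := cr_swap' _ _ _
  have h5 : 0 ≤ cr p0 p2 p8 := by
    have := cr_sum p0 p4 p8 p2
    have := h.h024
    have := h.h048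
    linarith
  have a1 := mul_nonneg_of_nonpos_of_nonpos r4.le f0
  have a2 := mul_nonneg h5 f4
  have a3 := mul_nonneg h.h024.le (neg_nonneg.2 f8)
  rw [e1]
  linarith

/-- Reflex angle `8 0 2`: such a line has `2` on the right. -/
theorem FH.f2b (h : FH p0 p2 p4 p6 p7 p8) (r0 : cr p0 p2 p8 < 0) {x u : ℂ}
    (f8 : cs u (p8 - x) ≤ 0)
    (f4 : 0 ≤ cs u (p4 - x)) (f0 : cs u (p0 - x) ≤ cs u (p8 - x)) : cs u (p2 - x) ≤ 0 := by
  apply np h.h048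
  rw [bary]
  have e1 : cr p0 p4 p2 = -cr p0 p2 p4 := cr_swap' _ _ _
  have e2 : cr p2 p4 p8 = cr p0 p4 p8 + cr p0 p2 p4 - cr p0 p2 p8 := by
    have := cr_sum p0 p4 p8 p2
    linarith
  have h5 : 0 ≤ cr p2 p4 p8 := by
    rw [e2]
    have := h.h024
    have := h.h048
    linarith
  have a1 := mul_nonneg h5 (sub_nonneg.2 f0)
  have a2 := mul_nonneg (neg_nonneg.2 r0.le) f4
  have a3 := mul_nonneg h.h048.le (neg_nonneg.2 f8)
  have a4 := mul_nonneg (neg_nonneg.2 r0.le) (neg_nonneg.2 f8)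
  have a5 : cr p2 p4 p8 * cs u (p8 - x) =
    (cr p0 p4 p8 + cr p0 p2 p4 - cr p0 p2 p8) * cs u (p8 - x) := by rw [e2]
  rw [e1]
  linarith

/-- If `7` is on the line or on the right of it, then `4` is on the left. -/
theorem FH.f4 (h : FH p0 p2 p4 p6 p7 p8) {x u : ℂ} (f8 : cs u (p8 - x) ≤ 0)
    (f6 : 0 ≤ cs u (p6 - x)) (f7 : cs u (p7 - x) ≤ 0) : 0 ≤ cs u (p4 - x) := by
  apply nn h.h678
  rw [bary]
  have e1 : cr p6 p4 p8 = -cr p4 p6 p8 := cr_swap _ _ _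
  have e2 : cr p6 p7 p4 = cr p4 p6 p7 := cr_rot _ _ _
  have h5 : 0 ≤ cr p4 p7 p8 := by
    have := cr_sum p6 p7 p8 p4
    have := h.r6
    have := h.h678
    have := h.h468
    linarith
  have a1 := mul_nonneg h5 f6
  have a2 := mul_nonneg h.h468.le (neg_nonneg.2 f7)
  have a3 := mul_nonneg_of_nonpos_of_nonpos h.r6.le f8
  rw [e1, e2]
  linarith

/-- Rays from `6 7 8` to `[0, 4]`. -/
theorem FH.to04 (h : FH p0 p2 p4 p6 p7 p8) {E : Set ℂ} (S1 : Tri p0 p4 p8 ⊆ S)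
    (S2 : Tri p4 p6 p8 ⊆ S) (S3 : Tri p6 p7 p8 ⊆ S) {x u : ℂ} (hx : x ∈ Tri p6 p7 p8)
    (hu : u ≠ 0) (f8 : cs u (p8 - x) ≤ 0) (f6 : 0 ≤ cs u (p6 - x)) (f4 : 0 ≤ cs u (p4 - x))
    (f0 : cs u (p0 - x) ≤ 0) (H : ∀ z ∈ segment ℝ p0 p4, cs u z = cs u x → Hits S E z u) :
    Hits S E x u := by
  refine hit_step (q := p7) (R := p8) (L := p6) (by rw [cr_rot]; exact h.h678) hu
    (mem_of_eq_tri S3) (by rwa [tri_rot]) f8 f6 fun z hz hzx => ?_
  have e : ∀ P, cs u (P - z) = cs u (P - x) := fun P => by rw [cs_sub, cs_sub, hzx]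
  have hz' : z ∈ Tri p6 p8 p4 := by
    rw [tri_rot]
    exact tri_seg (tri_mem₃ h.h468) (tri_mem₂ h.h468) hz
  refine hit_step (q := p6) (R := p8) (L := p4) (by rw [cr_rot]; exact h.h468) hu
    (mem_of_eq_tri S2) hz' (by rwa [e]) (by rwa [e]) fun w hw hwz => ?_
  have e' : ∀ P, cs u (P - w) = cs u (P - x) := fun P => by rw [cs_sub, cs_sub, hwz, hzx]
  have hw' : w ∈ Tri p8 p0 p4 := by
    rw [← tri_rot]
    exact tri_seg (tri_mem₃ h.h048) (tri_mem₂ h.h048) hw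
  refine hit_step (q := p8) (R := p0) (L := p4) (by rw [cr_rot']; exact h.h048) hu
    (mem_of_eq_tri' S1) hw' (by rwa [e']) (by rwa [e']) fun v hv hvw => ?_
  exact H v hv (by rw [hvw, hwz, hzx])

/-- Rays from `6 7 8` to `[0, 2]`, in the case of the reflex angle `2 4 8`. -/
theorem FH.to02 (h : FH p0 p2 p4 p6 p7 p8) {E : Set ℂ} (S0 : Tri p0 p2 p4 ⊆ S)
    (S1 : Tri p0 p4 p8 ⊆ S)
    (S2 : Tri p4 p6 p8 ⊆ S) (S3 : Tri p6 p7 p8 ⊆ S) {x u : ℂ} (hx : x ∈ Tri p6 p7 p8)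
    (hu : u ≠ 0) (f8 : cs u (p8 - x) ≤ 0) (f6 : 0 ≤ cs u (p6 - x)) (f4 : 0 ≤ cs u (p4 - x))
    (f0 : cs u (p0 - x) ≤ 0) (f2 : 0 ≤ cs u (p2 - x))
    (H : ∀ z ∈ segment ℝ p0 p2, cs u z = cs u x → Hits S E z u) :
    Hits S E x u := by
  refine h.to04 S1 S2 S3 hx hu f8 f6 f4 f0 fun z hz hzx => ?_
  have e : ∀ P, cs u (P - z) = cs u (P - x) := fun P => by rw [cs_sub, cs_sub, hzx]
  have hz' : z ∈ Tri p4 p0 p2 := by
    rw [← tri_rot]
    exact tri_seg (tri_mem₁ h.h024) (tri_mem₃ h.h024) hz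
  refine hit_step (q := p4) (R := p0) (L := p2) (by rw [cr_rot']; exact h.h024) hu
    (mem_of_eq_tri' S0) hz' (by rwa [e]) (by rwa [e]) fun w hw hwz => ?_
  exact H w hw (by rw [hwz, hzx])

/-- Rays from `6 7 8` to `[2, 4]`, in the case of the reflex angle `8 0 2`. -/
theorem FH.to24 (h : FH p0 p2 p4 p6 p7 p8) {E : Set ℂ} (S0 : Tri p0 p2 p4 ⊆ S)
    (S1 : Tri p0 p4 p8 ⊆ S)
    (S2 : Tri p4 p6 p8 ⊆ S) (S3 : Tri p6 p7 p8 ⊆ S) {x u : ℂ} (hx : x ∈ Tri p6 p7 p8)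
    (hu : u ≠ 0) (f8 : cs u (p8 - x) ≤ 0) (f6 : 0 ≤ cs u (p6 - x)) (f4 : 0 ≤ cs u (p4 - x))
    (f0 : cs u (p0 - x) ≤ 0) (f2 : cs u (p2 - x) ≤ 0)
    (H : ∀ z ∈ segment ℝ p2 p4, cs u z = cs u x → Hits S E z u) :
    Hits S E x u := by
  refine h.to04 S1 S2 S3 hx hu f8 f6 f4 f0 fun z hz hzx => ?_
  have e : ∀ P, cs u (P - z) = cs u (P - x) := fun P => by rw [cs_sub, cs_sub, hzx]
  have hz' : z ∈ Tri p0 p2 p4 := tri_seg (tri_mem₁ h.h024) (tri_mem₃ h.h024) hz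
  refine hit_step h.h024 hu S0 hz' (by rwa [e]) (by rwa [e]) fun w hw hwz => ?_
  exact H w hw (by rw [hwz, hzx])

/-- Comparison of two lines through `o` with the directions `v` and `v'` (`v'` is further to the
left): both pass `a` on the right and `b` on the left, `o` is on the near side of `a b`, `c` beyond.
Then `c` cannot be on the right of the first and on the left of the second line. -/
theorem mono {o v v' a b c : ℂ} (hc : 0 < cs v v') (ha : cs v (a - o) ≤ 0)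
    (hb : 0 ≤ cs v (b - o)) (ha' : cs v' (a - o) ≤ 0) (hb' : 0 ≤ cs v' (b - o))
    (ho : 0 ≤ cr a b o) (hk : cr a b c < 0) (h1 : cs v (c - o) ≤ 0)
    (h2 : 0 ≤ cs v' (c - o)) : False := by
  have key : cs v v' * cr a b c = cs v v' * cr a b o +
      cs v' (c - o) * (cs v (b - o) - cs v (a - o)) -
      cs v (c - o) * (cs v' (b - o) - cs v' (a - o)) := by
    simp only [cr, cs, Complex.sub_re, Complex.sub_im]; ring
  have a1 := mul_nonneg hc.le ho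
  have a2 := mul_nonneg h2 (sub_nonneg.2 (ha.trans hb))
  have a3 := mul_nonneg (neg_nonneg.2 h1) (sub_nonneg.2 (ha'.trans hb'))
  have a4 := mul_neg_of_pos_of_neg hc hk
  linarith

/-- Values at a point `t` of `6 7 8` for the line through `7` and `t`. -/
theorem line7 {t : ℂ} (h : 0 < cr p6 p7 p8) (ht : t ∈ Tri p6 p7 p8) :
    ∃ u : ℂ, u ≠ 0 ∧ (∀ P, cs u (P - t) = cs u (P - p7)) ∧ ∃ α β : ℝ, 0 ≤ α ∧ 0 ≤ β ∧
      u = α • (p6 - p7) + β • (p8 - p7) := by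
  by_cases h0 : t = p7
  · refine ⟨p8 - p7, ?_, fun P => by rw [h0], 0, 1, le_rfl, zero_le_one, by simp⟩
    intro h'
    rw [sub_eq_zero.1 h'] at h
    simp [cr_self'] at h
  · obtain ⟨α, β, γ, hα, hβ, hγ, hs, he⟩ := tri_bary h ht
    refine ⟨t - p7, sub_ne_zero.2 h0, fun P => ?_, α, γ, hα, hγ, ?_⟩
    · simp only [cs, Complex.sub_re, Complex.sub_im]; ring
    · rw [he]
      have : β = 1 - α - γ := by linarith
      rw [this]
      module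

end MP7e112f
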