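import Pool.Agent.Lib.MP_7e112f_co.Hit

/-!
# MP_7e112f_co, EG module Fan: the fan rule, in the two orientations which are needed
-/

open Set

namespace MP7e112f

theorem nn {a b : ℝ} (ha : 0 < a) (h : 0 ≤ a * b) : 0 ≤ b := (mul_nonneg_iff_of_pos_left ha).1 h

theorem np {a b : ℝ} (ha : 0 < a) (h : a * b ≤ 0) : b ≤ 0 := by
  by_contra hb
  push Not at hb
  have := mul_pos ha hb
  linarith

theorem mem_of_eq_tri {S : Set ℂ} {a b c : ℂ} (h : Tri a b c ⊆ S) : Tri b c a ⊆ S := by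
  rwa [tri_rot]

theorem mem_of_eq_tri' {S : Set ℂ} {a b c : ℂ} (h : Tri a b c ⊆ S) : Tri c a b ⊆ S := by
  rwa [← tri_rot]

/-- Rays which leave `0 4 8` through `[4, 8]`, with `0` on the line, hit `[5, 6]`. -/
theorem fanV_line {S : Set ℂ} {p0 p4 p5 p6 p8 x u : ℂ} (h1 : 0 < cr p0 p4 p8)
    (h2 : 0 < cr p4 p6 p8)
    (h3 : 0 < cr p4 p5 p6) (h8 : cr p0 p6 p8 < 0) (h4 : cr p4 p5 p8 < 0)
    (S1 : Tri p0 p4 p8 ⊆ S) (S2 : Tri p4 p6 p8 ⊆ S) (S3 : Tri p4 p5 p6 ⊆ S)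
    (hx : x ∈ Tri p0 p4 p8) (hu : u ≠ 0) (f0 : cs u (p0 - x) = 0) (f4 : cs u (p4 - x) ≤ 0)
    (f8 : 0 ≤ cs u (p8 - x)) : Hits S (segment ℝ p5 p6) x u := by
  have f6 : 0 ≤ cs u (p6 - x) := by
    apply nn h1
    rw [bary, f0, mul_zero, zero_add]
    have h5 : 0 ≤ cr p0 p4 p6 := by
      have := cr_sum p0 p4 p8 p6
      have := cr_swap p6 p4 p8
      linarith
    have := mul_nonneg_of_nonpos_of_nonpos h8.le f4
    have := mul_nonneg h5 f8
    linarith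
  have f5 : cs u (p5 - x) ≤ 0 := by
    apply np h2
    rw [bary]
    have e1 : cr p4 p6 p5 = -cr p4 p5 p6 := cr_swap' _ _ _
    have h5 : 0 ≤ cr p5 p6 p8 := by
      have := cr_sum p4 p6 p8 p5
      linarith
    have a1 := mul_nonneg h5 (neg_nonneg.2 f4)
    have a2 := mul_nonneg (neg_nonneg.2 h4.le) f6
    have a3 := mul_nonneg h3.le f8
    rw [e1]
    linarith
  refine hit_step h1 hu S1 hx f4 f8 fun z hz hzx => ?_
  have e : ∀ P, cs u (P - z) = cs u (P - x) := fun P => by rw [cs_sub, cs_sub, hzx]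
  have hz' : z ∈ Tri p8 p4 p6 := by
    rw [← tri_rot]
    exact tri_seg (tri_mem₁ h2) (tri_mem₃ h2) hz
  refine hit_step (q := p8) (R := p4) (L := p6) (by rwa [cr_rot']) hu (mem_of_eq_tri' S2) hz'
    (by rwa [e]) (by rwa [e]) fun w hw hwz => ?_
  have e' : ∀ P, cs u (P - w) = cs u (P - x) := fun P => by rw [cs_sub, cs_sub, hwz, hzx]
  exact hit_last h3 hu S3 (tri_seg (tri_mem₁ h3) (tri_mem₃ h3) hw) (by rwa [e']) (by rwa [e'])

/-- The fan rule: `[5, 6]` sees the triangle `0 4 8`. -/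
theorem fanV {S : Set ℂ} {p0 p4 p5 p6 p8 t : ℂ} (h1 : 0 < cr p0 p4 p8) (h2 : 0 < cr p4 p6 p8)
    (h3 : 0 < cr p4 p5 p6) (h8 : cr p0 p6 p8 < 0) (h4 : cr p4 p5 p8 < 0)
    (S1 : Tri p0 p4 p8 ⊆ S) (S2 : Tri p4 p6 p8 ⊆ S) (S3 : Tri p4 p5 p6 ⊆ S)
    (ht : t ∈ Tri p0 p4 p8) : ∃ x ∈ segment ℝ p5 p6, segment ℝ x t ⊆ S := by
  by_cases h0 : t = p0
  · subst h0
    have hu : p8 - t ≠ 0 := by
      intro h
      rw [sub_eq_zero.1 h] at h1
      simp [cr_self''] at h1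
    refine hits_sees (fanV_line h1 h2 h3 h8 h4 S1 S2 S3 ht hu ?_ ?_ ?_)
    · rw [sub_self, cs_zero]
    · have : cs (p8 - t) (p4 - t) = -cr t p4 p8 := by rw [cs_swap]; rfl
      rw [this]; linarith
    · rw [cs_self]
  · have hu : t - p0 ≠ 0 := sub_ne_zero.2 h0
    refine hits_sees (fanV_line h1 h2 h3 h8 h4 S1 S2 S3 ht hu ?_ ?_ ?_)
    · rw [← neg_sub t p0, cs_neg, cs_self, neg_zero]
    · have e : cs (t - p0) (p4 - t) = -cr p0 p4 t := by
        simp only [cr, cs, Complex.sub_re, Complex.sub_im]; ring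
      rw [e]
      have := ht.1
      linarith
    · have e : cs (t - p0) (p8 - t) = cr p8 p0 t := by
        simp only [cr, cs, Complex.sub_re, Complex.sub_im]; ring
      rw [e]
      exact ht.2.2

/-- Rays which leave `6 7 8` through `[6, 8]`, with `7` on the line, hit `[4, 5]`. -/
theorem fanU_line {S : Set ℂ} {p4 p5 p6 p7 p8 x u : ℂ} (h1 : 0 < cr p6 p7 p8)
    (h2 : 0 < cr p4 p6 p8)
    (h3 : 0 < cr p4 p5 p6) (h6 : cr p5 p6 p8 < 0) (h8 : cr p4 p7 p8 < 0)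
    (S1 : Tri p6 p7 p8 ⊆ S) (S2 : Tri p4 p6 p8 ⊆ S) (S3 : Tri p4 p5 p6 ⊆ S)
    (hx : x ∈ Tri p6 p7 p8) (hu : u ≠ 0) (f7 : cs u (p7 - x) = 0) (f8 : cs u (p8 - x) ≤ 0)
    (f6 : 0 ≤ cs u (p6 - x)) : Hits S (segment ℝ p4 p5) x u := by
  have f4 : cs u (p4 - x) ≤ 0 := by
    apply np h1
    rw [bary, f7, mul_zero, add_zero]
    have h5 : 0 ≤ cr p6 p7 p4 := by
      have := cr_sum p6 p7 p8 p4
      have := cr_swap p6 p4 p8
      linarith
    have a1 := mul_nonneg (neg_nonneg.2 h8.le) f6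
    have a2 := mul_nonneg h5 (neg_nonneg.2 f8)
    linarith
  have f5 : 0 ≤ cs u (p5 - x) := by
    apply nn h2
    rw [bary]
    have e1 : cr p4 p6 p5 = -cr p4 p5 p6 := cr_swap' _ _ _
    have h5 : 0 ≤ cr p4 p5 p8 := by
      have := cr_sum p4 p6 p8 p5
      linarith
    have a1 := mul_nonneg_of_nonpos_of_nonpos h6.le f4
    have a2 := mul_nonneg h5 f6
    have a3 := mul_nonneg h3.le (neg_nonneg.2 f8)
    rw [e1]
    linarith
  refine hit_step (q := p7) (R := p8) (L := p6) (by rwa [cr_rot]) hu (mem_of_eq_tri S1)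
    (by rwa [tri_rot]) f8 f6 fun z hz hzx => ?_
  have e : ∀ P, cs u (P - z) = cs u (P - x) := fun P => by rw [cs_sub, cs_sub, hzx]
  have hz' : z ∈ Tri p8 p4 p6 := by
    rw [← tri_rot]
    exact tri_seg (tri_mem₃ h2) (tri_mem₂ h2) hz
  refine hit_step (q := p8) (R := p4) (L := p6) (by rwa [cr_rot']) hu (mem_of_eq_tri' S2) hz'
    (by rwa [e]) (by rwa [e]) fun w hw hwz => ?_
  have e' : ∀ P, cs u (P - w) = cs u (P - x) := fun P => by rw [cs_sub, cs_sub, hwz, hzx]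
  refine hit_last (q := p6) (R := p4) (L := p5) (by rwa [cr_rot']) hu (mem_of_eq_tri' S3) ?_
    (by rwa [e']) (by rwa [e'])
  rw [← tri_rot]
  exact tri_seg (tri_mem₁ h3) (tri_mem₃ h3) hw

/-- The fan rule: `[4, 5]` sees the triangle `6 7 8`. -/
theorem fanU {S : Set ℂ} {p4 p5 p6 p7 p8 t : ℂ} (h1 : 0 < cr p6 p7 p8) (h2 : 0 < cr p4 p6 p8)
    (h3 : 0 < cr p4 p5 p6) (h6 : cr p5 p6 p8 < 0) (h8 : cr p4 p7 p8 < 0)
    (S1 : Tri p6 p7 p8 ⊆ S) (S2 : Tri p4 p6 p8 ⊆ S) (S3 : Tri p4 p5 p6 ⊆ S)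
    (ht : t ∈ Tri p6 p7 p8) : ∃ x ∈ segment ℝ p4 p5, segment ℝ x t ⊆ S := by
  by_cases h0 : t = p7
  · subst h0
    have hu : p8 - t ≠ 0 := by
      intro h
      rw [sub_eq_zero.1 h] at h1
      simp [cr_self'] at h1
    refine hits_sees (fanU_line h1 h2 h3 h6 h8 S1 S2 S3 ht hu ?_ ?_ ?_)
    · rw [sub_self, cs_zero]
    · rw [cs_self]
    · have : cs (p8 - t) (p6 - t) = cr p6 t p8 := by
        simp only [cr, cs, Complex.sub_re, Complex.sub_im]; ring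
      rw [this]; linarith
  · have hu : t - p7 ≠ 0 := sub_ne_zero.2 h0
    refine hits_sees (fanU_line h1 h2 h3 h6 h8 S1 S2 S3 ht hu ?_ ?_ ?_)
    · rw [← neg_sub t p7, cs_neg, cs_self, neg_zero]
    · have e : cs (t - p7) (p8 - t) = -cr p7 p8 t := by
        simp only [cr, cs, Complex.sub_re, Complex.sub_im]; ring
      rw [e]
      have := ht.2.1
      linarith
    · have e : cs (t - p7) (p6 - t) = cr p6 p7 t := by
        simp only [cr, cs, Complex.sub_re, Complex.sub_im]; ring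
      rw [e]
      exact ht.1

end MP7e112f
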