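import Pool.Agent.Lib.MP_7e112f_co.WJ

/-!
# MP_7e112f_co, EG module Touch: every component of the complement touches an open edge
-/

open Set

namespace MP7e112f

/-- Finitely many lines do not cover a nonempty open set. -/
theorem off_lines (a u : ℕ → ℂ) : ∀ N : ℕ, (∀ j < N, u j ≠ 0) → ∀ U : Set ℂ, IsOpen U →
    U.Nonempty → ∃ z ∈ U, ∀ j < N, cs (u j) (z - a j) ≠ 0 := by
  intro N
  induction N with
  | zero =>
    intro _ U _ hne
    obtain ⟨z, hz⟩ := hne
    exact ⟨z, hz, fun j hj => absurd hj (Nat.not_lt_zero j)⟩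
  | succ N ih =>
    intro hu U hU hne
    have hcont : Continuous fun z : ℂ => cs (u N) (z - a N) := by
      unfold cs
      fun_prop
    have hV : IsOpen (U ∩ {z : ℂ | cs (u N) (z - a N) ≠ 0}) :=
      hU.inter (isOpen_ne_fun hcont continuous_const)
    have hVne : (U ∩ {z : ℂ | cs (u N) (z - a N) ≠ 0}).Nonempty := by
      obtain ⟨z, hz⟩ := hne
      by_cases hc : cs (u N) (z - a N) = 0
      · obtain ⟨r, hr, hb⟩ := Metric.isOpen_iff.1 hU z hz
        have hun : u N ≠ 0 := hu N (Nat.lt_succ_self N)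
        have hnp : 0 < ‖u N‖ := norm_pos_iff.2 hun
        refine ⟨z + (r / (2 * ‖u N‖)) • (Complex.I * u N), hb ?_, ?_⟩
        · rw [Metric.mem_ball, dist_eq_norm, add_sub_cancel_left, norm_smul, norm_mul,
            Complex.norm_I, one_mul, Real.norm_of_nonneg (by positivity)]
          have : r / (2 * ‖u N‖) * ‖u N‖ = r / 2 := by
            field_simp
          rw [this]
          linarith
        · have h1 : z + (r / (2 * ‖u N‖)) • (Complex.I * u N) - a N =
              (z - a N) + (r / (2 * ‖u N‖)) • (Complex.I * u N) := by ring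
          show cs (u N) (z + (r / (2 * ‖u N‖)) • (Complex.I * u N) - a N) ≠ 0
          rw [h1, cs_add, hc, cs_smul, zero_add]
          have := cs_I_pos hun
          positivity
      · exact ⟨z, hz, hc⟩
    obtain ⟨z, hz, hzj⟩ := ih (fun j hj => hu j (Nat.lt_succ_of_lt hj)) _ hV hVne
    refine ⟨z, hz.1, fun j hj => ?_⟩
    rcases Nat.lt_succ_iff_lt_or_eq.1 hj with hj' | rfl
    · exact hzj j hj'
    · exact hz.2

/-- Let `m₀` be the midpoint of the edge `0`, `B = ball z r ⊆ (crv p n)ᶜ` with `r > 0`. No vertex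
`p j` (`j < n`) equals `m₀` (`open_not_mem`-like: `m₀` is in the open edge `0`). The set of the
`z' ∈ B` with `cs (m₀ - p j) (z' - p j) ≠ 0` for all `j < n` is nonempty: each
`{z' | cs (m₀ - p j) (z' - p j) = 0}` is a line (closed with empty interior, or of measure zero),
and finitely many of them do not cover the ball; alternatively choose `z' = z + s v` on a suitable
small polynomial curve. Fix such a `z'`; it is in `cmp p n z` (the ball is convex).

The set `T = {t ∈ [0,1] | z' + t (m₀ - z') ∈ crv p n}` is compact and contains `1`; let `t₀` be its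
least element, `q = z' + t₀ (m₀ - z')`; `t₀ > 0`. `q ∈ [p k, p (k+1)]` for some `k < n`. No vertex
`p j` is on the line through `z'` and `m₀` (by the choice of `z'`; for `j = n` note `p n = p 0`), so
`q` is in the open edge, and with `ν = z' - q` (a positive multiple of `z' - m₀`) we have
`cs (p (k+1) - p k) ν ≠ 0` (otherwise the edge would be on the line through `q` and `z'`, which
contains no vertex). Let `σ = 1` or `-1` be its sign. For `0 < ε < 1` the point `q + ε ν` is on the
half-open segment from `z'` to `q`, which is convex and disjoint from the chain, so it is in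
`cmp p n z' = cmp p n z`. -/
theorem touch {p : ℕ → ℂ} {n : ℕ} (h : SC p n) {z : ℂ} (hz : z ∉ crv p n) :
    ∃ k < n, ∃ σ : ℝ, (σ = 1 ∨ σ = -1) ∧ ∃ m ∈ openSegment ℝ (p k) (p (k + 1)), ∃ ν : ℂ,
      0 < σ * cs (p (k + 1) - p k) ν ∧
        ∃ δ > 0, ∀ ε : ℝ, 0 < ε → ε < δ → m + ε • ν ∈ cmp p n z := by
  classical
  have hn : 3 ≤ n := h.three
  have h0n : 0 < n := by omega
  obtain ⟨m₀, hm₀⟩ : ∃ m₀ : ℂ, m₀ ∈ openSegment ℝ (p 0) (p (0 + 1)) :=
    ⟨(1 / 2 : ℝ) • p 0 + (1 / 2 : ℝ) • p (0 + 1), 1 / 2, 1 / 2, by norm_num, by norm_num,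
      by norm_num, rfl⟩
  have hm₀c : m₀ ∈ crv p n := ⟨0, h0n, openSegment_subset_segment ℝ _ _ hm₀⟩
  have hmne : ∀ j < n, m₀ - p j ≠ 0 := by
    intro j hj hc
    have hc' : m₀ = p j := sub_eq_zero.1 hc
    rcases Nat.eq_zero_or_pos j with rfl | hj0
    · refine open_not_mem h h0n (j := n - 1) (by omega) (by omega) hm₀ ?_
      have h1 : n - 1 + 1 = n := by omega
      rw [h1, h.cl, hc']
      exact right_mem_segment ℝ _ _
    · refine open_not_mem h h0n hj (by omega) hm₀ ?_
      rw [hc']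
      exact left_mem_segment ℝ _ _
  obtain ⟨r, hr, hb⟩ := Metric.isOpen_iff.1 (crv_closed p n).isOpen_compl z hz
  obtain ⟨z', hz'b, hz'⟩ := off_lines p (fun j => m₀ - p j) n hmne (Metric.ball z r)
    Metric.isOpen_ball ⟨z, Metric.mem_ball_self hr⟩
  have hz'c : z' ∉ crv p n := hb hz'b
  have hzz' : z' ∈ cmp p n z :=
    cmp_of (convex_ball z r).isPreconnected (fun x hx => hb hx) (Metric.mem_ball_self hr) hz'b
  have hv : ∀ j ≤ n, cs (m₀ - p j) (z' - p j) ≠ 0 := by
    intro j hj
    rcases Nat.lt_or_ge j n with hj' | hj'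
    · exact hz' j hj'
    · have : j = n := le_antisymm hj hj'
      rw [this, h.cl]
      exact hz' 0 h0n
  set f : ℝ → ℂ := fun t => z' + t • (m₀ - z') with hf
  have hfc : Continuous f := by fun_prop
  have hTc : IsCompact (Icc (0 : ℝ) 1 ∩ f ⁻¹' crv p n) :=
    isCompact_Icc.inter_right ((crv_closed p n).preimage hfc)
  have hf0 : f 0 = z' := by simp [hf]
  have hf1 : f 1 = m₀ := by simp [hf]
  obtain ⟨t₀, ⟨⟨ht0, ht1⟩, htc⟩, hmin⟩ := hTc.exists_isLeast
    ⟨1, ⟨by norm_num, le_refl _⟩, by rw [mem_preimage, hf1]; exact hm₀c⟩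
  have ht0' : 0 < t₀ := by
    rcases ht0.lt_or_eq with h1 | h1
    · exact h1
    · exfalso
      apply hz'c
      rw [← hf0, h1]
      exact htc
  have hoff : ∀ t : ℝ, 0 ≤ t → t < t₀ → f t ∉ crv p n := by
    intro t h1 h2 hc
    exact absurd (hmin ⟨⟨h1, (h2.trans_le ht1).le⟩, hc⟩) (not_le.2 h2)
  obtain ⟨k, hk, hqk⟩ := htc
  have hqv : ∀ j ≤ n, p j ≠ f t₀ := by
    intro j hj hc
    apply hv j hj
    rw [hc]
    simp only [hf, cs, Complex.sub_re, Complex.sub_im, Complex.add_re, Complex.add_im,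
      Complex.real_smul, Complex.mul_re, Complex.mul_im, Complex.ofReal_re, Complex.ofReal_im]
    ring
  have hqo : f t₀ ∈ openSegment ℝ (p k) (p (k + 1)) :=
    mem_openSegment_of_ne_left_right (hqv k hk.le) (hqv (k + 1) hk) hqk
  have hcs : cs (p (k + 1) - p k) (z' - f t₀) ≠ 0 := by
    intro hc
    obtain ⟨s, t, hs, ht, hst, hq⟩ := hqk
    have hs' : s = 1 - t := by linarith
    subst hs'
    have h1 := congrArg Complex.re hq
    have h2 := congrArg Complex.im hq
    apply hv k hk.le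
    have key : t₀ * cs (m₀ - p k) (z' - p k) = t * cs (p (k + 1) - p k) (z' - f t₀) := by
      simp only [hf, cs, Complex.sub_re, Complex.sub_im, Complex.add_re, Complex.add_im,
        Complex.real_smul, Complex.mul_re, Complex.mul_im, Complex.ofReal_re,
        Complex.ofReal_im] at h1 h2 ⊢
      linear_combination (-(z'.im - (z'.im + t₀ * (m₀.im - z'.im)))) * h1 +
        (z'.re - (z'.re + t₀ * (m₀.re - z'.re))) * h2
    rw [hc, mul_zero] at key
    rcases mul_eq_zero.1 key with h3 | h3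
    · exact absurd h3 ht0'.ne'
    · exact h3
  have hcomp : ∀ ε : ℝ, 0 < ε → ε < 1 → f t₀ + ε • (z' - f t₀) ∈ cmp p n z := by
    intro ε h1 h2
    have h3 : f t₀ + ε • (z' - f t₀) = f (t₀ * (1 - ε)) := by
      simp only [hf, Complex.real_smul, Complex.ofReal_mul, Complex.ofReal_sub,
        Complex.ofReal_one]
      ring
    rw [h3]
    refine cmp_trans hzz' (cmp_of (S := f '' Ico 0 t₀) (isPreconnected_Ico.image f
      hfc.continuousOn) ?_ ⟨0, ⟨le_refl _, ht0'⟩, hf0⟩ ⟨t₀ * (1 - ε), ⟨?_, ?_⟩, rfl⟩)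
    · rintro x ⟨t, ht, rfl⟩
      exact hoff t ht.1 ht.2
    · exact mul_nonneg ht0 (by linarith)
    · nlinarith
  rcases lt_or_gt_of_ne hcs with h1 | h1
  · exact ⟨k, hk, -1, Or.inr rfl, f t₀, hqo, z' - f t₀, by linarith, 1, one_pos, hcomp⟩
  · exact ⟨k, hk, 1, Or.inl rfl, f t₀, hqo, z' - f t₀, by linarith, 1, one_pos, hcomp⟩

end MP7e112f
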