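import Pool.Agent.Lib.MP_7e112f_co.WJ

/-!
# MP_7e112f_co, EG module Vertex: the sides of two consecutive edges are connected near the common
vertex
-/

open Set

namespace MP7e112f

private theorem Vertex_far {p : ℕ → ℂ} {n k j : ℕ} (h : SC p n) (hk : k + 1 < n) (hj : j < n)
    (h1 : j ≠ k) (h2 : j ≠ k + 1) : p (k + 1) ∉ segment ℝ (p j) (p (j + 1)) := by
  intro hm
  rcases lt_or_gt_of_ne h2 with hlt | hgt
  · rcases h.inter j (k + 1) hlt hk _ hm (left_mem_segment ℝ _ _) with ⟨h3, _⟩ | ⟨_, _, h5⟩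
    · omega
    · have := h.inj (k + 1) 0 hk (by omega) h5
      omega
  · rcases h.inter (k + 1) j hgt hj _ (left_mem_segment ℝ _ _) hm with ⟨h3, h4⟩ | ⟨h3, _, _⟩
    · have := h.inj (k + 1) j hk hj h4
      omega
    · omega

private theorem Vertex_ball {p : ℕ → ℂ} {n k : ℕ} (h : SC p n) (hk : k + 1 < n) :
    ∃ r > 0, ∀ z ∈ Metric.ball (p (k + 1)) r, ∀ j < n, j ≠ k → j ≠ k + 1 →
      z ∉ segment ℝ (p j) (p (j + 1)) := by
  classical
  have hc : IsClosed (⋃ j ∈ (Finset.range n).filter (fun j => j ≠ k ∧ j ≠ k + 1),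
      segment ℝ (p j) (p (j + 1))) :=
    (Finset.isCompact_biUnion _ fun j _ => seg_compact _ _).isClosed
  have hb : p (k + 1) ∈ (⋃ j ∈ (Finset.range n).filter (fun j => j ≠ k ∧ j ≠ k + 1),
      segment ℝ (p j) (p (j + 1)))ᶜ := by
    intro hm
    simp only [mem_iUnion, Finset.mem_filter, Finset.mem_range, exists_prop] at hm
    obtain ⟨j, ⟨hj, h1, h2⟩, h3⟩ := hm
    exact Vertex_far h hk hj h1 h2 h3
  obtain ⟨r, hr, hs⟩ := Metric.isOpen_iff.1 hc.isOpen_compl _ hb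
  refine ⟨r, hr, fun z hz j hj h1 h2 h3 => hs hz ?_⟩
  simp only [mem_iUnion, Finset.mem_filter, Finset.mem_range, exists_prop]
  exact ⟨j, ⟨hj, h1, h2⟩, h3⟩

/-- on the first edge -/
private theorem Vertex_e1 {a b z : ℂ} (hz : z ∈ segment ℝ a b) :
    ∃ s : ℝ, 0 ≤ s ∧ s ≤ 1 ∧ z - b = -(s • (b - a)) := by
  obtain ⟨s, t, hs, ht, hst, rfl⟩ := hz
  refine ⟨s, hs, by linarith, ?_⟩
  have ht' : t = 1 - s := by linarith
  subst ht'
  rw [sub_smul, one_smul, smul_sub]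
  abel

private theorem Vertex_e2 {b c z : ℂ} (hz : z ∈ segment ℝ b c) :
    ∃ s : ℝ, 0 ≤ s ∧ s ≤ 1 ∧ z - b = s • (c - b) := by
  obtain ⟨s, t, hs, ht, hst, rfl⟩ := hz
  refine ⟨t, ht, by linarith, ?_⟩
  have hs' : s = 1 - t := by linarith
  subst hs'
  rw [sub_smul, one_smul, smul_sub]
  abel

private theorem Vertex_convex (b u : ℂ) (σ r : ℝ) :
    Convex ℝ (Metric.ball b r ∩ {z | 0 < σ * cs u (z - b)}) := by
  refine (convex_ball b r).inter ?_
  intro x hx y hy s t hs ht hst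
  have hx' : 0 < σ * cs u (x - b) := hx
  have hy' : 0 < σ * cs u (y - b) := hy
  show 0 < σ * cs u (s • x + t • y - b)
  have e : s • x + t • y - b = s • (x - b) + t • (y - b) := by
    have hs' : s = 1 - t := by linarith
    subst hs'
    rw [smul_sub, smul_sub, sub_smul 1 t b, one_smul]
    abel
  rw [e, cs_add, cs_smul, cs_smul]
  have e2 : σ * (s * cs u (x - b) + t * cs u (y - b)) =
      s * (σ * cs u (x - b)) + t * (σ * cs u (y - b)) := by ring
  rw [e2]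
  rcases hs.lt_or_eq with h | h
  · exact add_pos_of_pos_of_nonneg (mul_pos h hx') (mul_nonneg ht hy'.le)
  · have ht1 : t = 1 := by linarith
    rw [← h, ht1, zero_mul, zero_add, one_mul]
    exact hy'

private theorem Vertex_conc {p : ℕ → ℂ} {n : ℕ} {S : Set ℂ} (hS : IsPreconnected S)
    (hd : ∀ x ∈ S, x ∉ crv p n) {m m' ν ν' : ℂ}
    (h1 : ∀ᶠ ε : ℝ in nhdsWithin 0 (Ioi 0), m + ε • ν ∈ S)
    (h2 : ∀ᶠ ε : ℝ in nhdsWithin 0 (Ioi 0), m' + ε • ν' ∈ S) :
    ∃ z, ∃ δ > 0, ∀ ε : ℝ, 0 < ε → ε < δ → m + ε • ν ∈ cmp p n z ∧ m' + ε • ν' ∈ cmp p n z := by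
  obtain ⟨δ, hδ, hs⟩ := mem_nhdsGT_iff_exists_Ioo_subset.1 (h1.and h2)
  have hδ' : (0:ℝ) < δ := hδ
  have hz := (hs (⟨by linarith, by linarith⟩ : δ / 2 ∈ Ioo 0 δ)).1
  refine ⟨m + (δ / 2) • ν, δ, hδ', fun ε h3 h4 => ?_⟩
  have h5 := hs (⟨h3, h4⟩ : ε ∈ Ioo 0 δ)
  exact ⟨cmp_of hS hd hz h5.1, cmp_of hS hd hz h5.2⟩

private theorem Vertex_ev_ball {b m ν : ℂ} {r : ℝ} (h : ‖m - b‖ < r) :
    ∀ᶠ ε : ℝ in nhdsWithin 0 (Ioi 0), m + ε • ν ∈ Metric.ball b r := by
  have hc : Continuous (fun ε : ℝ => m + ε • ν) := by fun_prop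
  have h0 : m + (0:ℝ) • ν ∈ Metric.ball b r := by
    rw [zero_smul, add_zero, mem_ball_iff_norm]
    exact h
  exact Filter.Eventually.filter_mono nhdsWithin_le_nhds
    (hc.continuousAt.eventually (Metric.isOpen_ball.mem_nhds h0))

private theorem Vertex_ev_pos {x y : ℝ} (hx : 0 < x) :
    ∀ᶠ ε : ℝ in nhdsWithin 0 (Ioi 0), 0 < x + ε * y := by
  have hc : Continuous (fun ε : ℝ => x + ε * y) := by fun_prop
  have h0 : (0:ℝ) < x + 0 * y := by rw [zero_mul, add_zero]; exact hx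
  exact Filter.Eventually.filter_mono nhdsWithin_le_nhds
    (hc.continuousAt.eventually (lt_mem_nhds h0))

/-- parallel consecutive edges have the same direction -/
private theorem Vertex_par {p : ℕ → ℂ} {n k : ℕ} (h : SC p n) (hk : k + 1 < n)
    (h0 : cs (p (k + 1) - p k) (p (k + 2) - p (k + 1)) = 0) :
    ∃ l : ℝ, 0 < l ∧ p (k + 2) - p (k + 1) = l • (p (k + 1) - p k) := by
  have hd : p (k + 1) - p k ≠ 0 := sub_ne_zero.2 (edge_ne h (by omega)).symm
  have hd' : p (k + 2) - p (k + 1) ≠ 0 := sub_ne_zero.2 (edge_ne h hk).symm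
  obtain ⟨d, hdd⟩ : ∃ d, d = p (k + 1) - p k := ⟨_, rfl⟩
  obtain ⟨d', hdd'⟩ : ∃ d', d' = p (k + 2) - p (k + 1) := ⟨_, rfl⟩
  rw [← hdd, ← hdd'] at h0
  rw [← hdd] at hd
  rw [← hdd'] at hd'
  have hN : 0 < d.re ^ 2 + d.im ^ 2 := by
    have h1 : d.re ≠ 0 ∨ d.im ≠ 0 := by
      by_contra hcon
      rw [not_or, not_not, not_not] at hcon
      exact hd (Complex.ext hcon.1 hcon.2)
    rcases h1 with h1 | h1
    · have := sq_nonneg d.im
      have := pow_pos (abs_pos.2 h1) 2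
      rw [sq_abs] at this
      linarith
    · have := sq_nonneg d.re
      have := pow_pos (abs_pos.2 h1) 2
      rw [sq_abs] at this
      linarith
  have h0' : d.re * d'.im - d.im * d'.re = 0 := h0
  set l : ℝ := (d.re * d'.re + d.im * d'.im) / (d.re ^ 2 + d.im ^ 2) with hl
  have hdl : d' = l • d := by
    apply Complex.ext
    · rw [Complex.real_smul, Complex.mul_re, Complex.ofReal_re, Complex.ofReal_im, zero_mul,
        sub_zero, hl, div_mul_eq_mul_div, eq_div_iff hN.ne']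
      linear_combination (-d.im) * h0'
    · rw [Complex.real_smul, Complex.mul_im, Complex.ofReal_re, Complex.ofReal_im, zero_mul,
        add_zero, hl, div_mul_eq_mul_div, eq_div_iff hN.ne']
      linear_combination d.re * h0'
  refine ⟨l, ?_, by rw [← hdd', ← hdd]; exact hdl⟩
  by_contra hneg
  rw [not_lt] at hneg
  rcases hneg.lt_or_eq with hneg | hneg
  swap
  · rw [hneg, zero_smul] at hdl
    exact hd' hdl
  -- a common point
  set s : ℝ := min 1 (-l) with hs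
  have hs0 : 0 < s := lt_min one_pos (by linarith)
  have hs1 : s ≤ 1 := min_le_left _ _
  have hs2 : s ≤ -l := min_le_right _ _
  have hx1 : p (k + 1) - s • d ∈ segment ℝ (p k) (p (k + 1)) := by
    refine ⟨s, 1 - s, hs0.le, by linarith, by ring, ?_⟩
    rw [hdd, sub_smul, one_smul, smul_sub]
    abel
  have hx2 : p (k + 1) - s • d ∈ segment ℝ (p (k + 1)) (p (k + 1 + 1)) := by
    have hq0 : 0 ≤ s / (-l) := div_nonneg hs0.le (by linarith)
    have hq1 : s / (-l) ≤ 1 := (div_le_one (by linarith)).2 hs2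
    refine ⟨1 - s / (-l), s / (-l), by linarith, hq0, by ring, ?_⟩
    have e1 : p (k + 1 + 1) = p (k + 1) + l • d := by
      rw [← hdl, hdd', add_sub_cancel]
    rw [e1, smul_add, smul_smul]
    have hl0 : l ≠ 0 := hneg.ne
    have e2 : s / (-l) * l = -s := by
      field_simp
    rw [e2, sub_smul, one_smul, neg_smul]
    abel
  rcases h.inter k (k + 1) (by omega) hk _ hx1 hx2 with ⟨_, h5⟩ | ⟨h5, h6, _⟩
  · have h6 : s • d = 0 := by
      have : p (k + 1) - (p (k + 1) - s • d) = 0 := by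
        rw [h5, sub_self]
      rwa [sub_sub_cancel] at this
    rcases smul_eq_zero.1 h6 with h7 | h7
    · linarith
    · exact hd h7
  · have := h.three
    omega

/-- Let `a = p k`, `b = p (k+1)`, `c = p (k+2)`, `d = b - a`, `d' = c - b` (both nonzero, `edge_ne`;
note `k + 1 < n`). The vertex `b` lies on no edge `j ≠ k, k+1` (`SC.inter`: `b ∈ [p (k+1), p (k+2)]`
and `b ∈ [p j, p (j+1)]` would give `b = p j` with `j = k + 2`, or `b = p 0`, or for `j < k + 1`: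
`j = k`), so there is `r > 0` such that `ball b r` is disjoint from all edges `j ≠ k, k+1`.
Let `H1 = ball b r ∩ {z | 0 < σ * cs d (z - b)}`, `H2 = ball b r ∩ {z | 0 < σ * cs d' (z - b)}`; both
are convex. Take `ν = σ • (I * d)`, `ν' = σ • (I * d')` (so `σ * cs d ν = ‖d‖² > 0`, `cs_I`),
`m = b - τ d`, `m' = b + τ d'` with small `τ > 0` (`τ < 1`, `τ ‖d‖ < r`, `τ ‖d'‖ < r`).

Case 1: `0 ≤ σ * cs d d'`. Then `S = H1 ∩ H2` is convex, and disjoint from the chain: points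
`b - t d` of the edge `k` have `cs d (z - b) = 0`, points `b + t d'` of the edge `k+1` have
`cs d' (z - b) = 0`. `m + ε ν ∈ H1` since `σ cs d (m + ε ν - b) = σ ε cs d ν > 0`, and it is in `H2`
for small `ε > 0` since `σ cs d' (m + ε ν - b) = τ σ cs d d' + ε σ cs d' ν`: if `σ cs d d' > 0` this
is clear; if `cs d d' = 0` then `d' = l • d` with a real `l > 0` (real `l` by `cs d d' = 0`; if
`l < 0` then a point `b - s d` with small `s > 0` lies on both edges, against `SC.inter`), so it is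
`ε l σ cs d ν > 0`. In the same way `m' + ε ν' ∈ H1 ∩ H2` for small `ε`.

Case 2: `σ * cs d d' < 0`. Then `S = H1 ∪ H2` is preconnected, because both are convex and
`b + ρ (d - d')` is in both for small `ρ > 0` (`σ cs d (d - d') = - σ cs d d' > 0`,
`σ cs d' (d - d') = σ cs d' d = - σ cs d d' > 0`). It is disjoint from the chain: for `z = b - t d`,
`0 ≤ t ≤ 1`: `cs d (z - b) = 0` and `σ cs d' (z - b) = t σ cs d d' ≤ 0`; for `z = b + t d'`:
`σ cs d (z - b) = t σ cs d d' ≤ 0`, `cs d' (z - b) = 0`. For small `ε > 0`, `m + ε ν ∈ H1`,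
`m' + ε ν' ∈ H2`.

In both cases take `z` any point of `S`, for example `m + ε₀ ν` with a small `ε₀`, and conclude with
`cmp_of`. -/
theorem vertex {p : ℕ → ℂ} {n k : ℕ} (h : SC p n) (hk : k + 1 < n) {σ : ℝ} (hσ : σ = 1 ∨ σ = -1) :
    ∃ z, ∃ m ∈ openSegment ℝ (p k) (p (k + 1)), ∃ m' ∈ openSegment ℝ (p (k + 1)) (p (k + 2)),
      ∃ ν ν' : ℂ, 0 < σ * cs (p (k + 1) - p k) ν ∧ 0 < σ * cs (p (k + 2) - p (k + 1)) ν' ∧
        ∃ δ > 0, ∀ ε : ℝ, 0 < ε → ε < δ → m + ε • ν ∈ cmp p n z ∧ m' + ε • ν' ∈ cmp p n z := by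
  have hd : p (k + 1) - p k ≠ 0 := sub_ne_zero.2 (edge_ne h (by omega)).symm
  have hd' : p (k + 2) - p (k + 1) ≠ 0 := sub_ne_zero.2 (edge_ne h hk).symm
  have hσ2 : σ * σ = 1 := by rcases hσ with rfl | rfl <;> norm_num
  obtain ⟨r, hr, hball⟩ := Vertex_ball h hk
  have hpar := Vertex_par h hk
  obtain ⟨b, hb⟩ : ∃ b, b = p (k + 1) := ⟨_, rfl⟩
  obtain ⟨d, hdd⟩ : ∃ d, d = p (k + 1) - p k := ⟨_, rfl⟩
  obtain ⟨d', hdd'⟩ : ∃ d', d' = p (k + 2) - p (k + 1) := ⟨_, rfl⟩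
  rw [← hdd, ← hdd'] at hpar
  rw [← hdd] at hd
  rw [← hdd'] at hd'
  rw [← hb] at hball
  -- positivity of the squares
  have hDp : 0 < cs d (Complex.I * d) := cs_I_pos hd
  have hDp' : 0 < cs d' (Complex.I * d') := cs_I_pos hd'
  -- `τ`
  obtain ⟨τ, hτ0, hτ1, hτd, hτd'⟩ : ∃ τ : ℝ, 0 < τ ∧ τ < 1 ∧ τ * ‖d‖ < r ∧ τ * ‖d'‖ < r := by
    have hM : 0 < ‖d‖ + ‖d'‖ + r := by
      have := norm_nonneg d
      have := norm_nonneg d'
      linarith
    have hn := norm_pos_iff.2 hd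
    have hn' := norm_pos_iff.2 hd'
    refine ⟨r / (‖d‖ + ‖d'‖ + r), div_pos hr hM, ?_, ?_, ?_⟩
    · rw [div_lt_one hM]
      linarith
    · rw [div_mul_eq_mul_div, div_lt_iff₀ hM]
      apply mul_lt_mul_of_pos_left _ hr
      linarith
    · rw [div_mul_eq_mul_div, div_lt_iff₀ hM]
      apply mul_lt_mul_of_pos_left _ hr
      linarith
  obtain ⟨ν, hν⟩ : ∃ ν : ℂ, ν = σ • (Complex.I * d) := ⟨_, rfl⟩
  obtain ⟨ν', hν'⟩ : ∃ ν' : ℂ, ν' = σ • (Complex.I * d') := ⟨_, rfl⟩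
  have hcν : σ * cs d ν = cs d (Complex.I * d) := by
    rw [hν, cs_smul, ← mul_assoc, hσ2, one_mul]
  have hcν' : σ * cs d' ν' = cs d' (Complex.I * d') := by
    rw [hν', cs_smul, ← mul_assoc, hσ2, one_mul]
  obtain ⟨m, hm⟩ : ∃ m : ℂ, m = b - τ • d := ⟨_, rfl⟩
  obtain ⟨m', hm'⟩ : ∃ m' : ℂ, m' = b + τ • d' := ⟨_, rfl⟩
  have hmem : m ∈ openSegment ℝ (p k) (p (k + 1)) := by
    refine ⟨τ, 1 - τ, hτ0, by linarith, by ring, ?_⟩
    rw [hm, hb, hdd, sub_smul, one_smul, smul_sub]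
    abel
  have hmem' : m' ∈ openSegment ℝ (p (k + 1)) (p (k + 2)) := by
    refine ⟨1 - τ, τ, by linarith, hτ0, by ring, ?_⟩
    rw [hm', hb, hdd', sub_smul, one_smul, smul_sub]
    abel
  have hmb : ‖m - b‖ < r := by
    have : m - b = -(τ • d) := by rw [hm]; abel
    rw [this, norm_neg, norm_smul, Real.norm_eq_abs, abs_of_pos hτ0]
    exact hτd
  have hmb' : ‖m' - b‖ < r := by
    have : m' - b = τ • d' := by rw [hm']; abel
    rw [this, norm_smul, Real.norm_eq_abs, abs_of_pos hτ0]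
    exact hτd'
  have ev0 : ∀ᶠ ε : ℝ in nhdsWithin 0 (Ioi 0), 0 < ε := self_mem_nhdsWithin
  have evb : ∀ᶠ ε : ℝ in nhdsWithin 0 (Ioi 0), m + ε • ν ∈ Metric.ball b r := Vertex_ev_ball hmb
  have evb' : ∀ᶠ ε : ℝ in nhdsWithin 0 (Ioi 0), m' + ε • ν' ∈ Metric.ball b r :=
    Vertex_ev_ball hmb'
  -- the affine functions at the points
  have f1 : ∀ ε : ℝ, σ * cs d (m + ε • ν - b) = ε * cs d (Complex.I * d) := by
    intro ε
    have e : m + ε • ν - b = ε • ν - τ • d := by rw [hm]; abel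
    rw [e, cs_sub, cs_smul, cs_smul, cs_self, ← hcν]
    ring
  have f2 : ∀ ε : ℝ, σ * cs d' (m + ε • ν - b) = τ * (σ * cs d d') + ε * (σ * cs d' ν) := by
    intro ε
    have e : m + ε • ν - b = ε • ν - τ • d := by rw [hm]; abel
    rw [e, cs_sub, cs_smul, cs_smul, cs_swap d' d]
    ring
  have f3 : ∀ ε : ℝ, σ * cs d (m' + ε • ν' - b) = τ * (σ * cs d d') + ε * (σ * cs d ν') := by
    intro ε
    have e : m' + ε • ν' - b = ε • ν' + τ • d' := by rw [hm']; abel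
    rw [e, cs_add, cs_smul, cs_smul]
    ring
  have f4 : ∀ ε : ℝ, σ * cs d' (m' + ε • ν' - b) = ε * cs d' (Complex.I * d') := by
    intro ε
    have e : m' + ε • ν' - b = ε • ν' + τ • d' := by rw [hm']; abel
    rw [e, cs_add, cs_smul, cs_smul, cs_self, ← hcν']
    ring
  have H1m : ∀ᶠ ε : ℝ in nhdsWithin 0 (Ioi 0),
      m + ε • ν ∈ Metric.ball b r ∩ {z | 0 < σ * cs d (z - b)} := by
    filter_upwards [ev0, evb] with ε h1 h2
    refine ⟨h2, ?_⟩
    show 0 < σ * cs d (m + ε • ν - b)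
    rw [f1]
    exact mul_pos h1 hDp
  have H2m : ∀ᶠ ε : ℝ in nhdsWithin 0 (Ioi 0),
      m' + ε • ν' ∈ Metric.ball b r ∩ {z | 0 < σ * cs d' (z - b)} := by
    filter_upwards [ev0, evb'] with ε h1 h2
    refine ⟨h2, ?_⟩
    show 0 < σ * cs d' (m' + ε • ν' - b)
    rw [f4]
    exact mul_pos h1 hDp'
  -- the conclusion from a set
  have fin : ∀ S : Set ℂ, IsPreconnected S → (∀ x ∈ S, x ∈ Metric.ball b r) →
      (∀ x ∈ S, x ∉ segment ℝ (p k) (p (k + 1))) →
      (∀ x ∈ S, x ∉ segment ℝ (p (k + 1)) (p (k + 2))) →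
      (∀ᶠ ε : ℝ in nhdsWithin 0 (Ioi 0), m + ε • ν ∈ S) →
      (∀ᶠ ε : ℝ in nhdsWithin 0 (Ioi 0), m' + ε • ν' ∈ S) →
      ∃ z, ∃ m ∈ openSegment ℝ (p k) (p (k + 1)), ∃ m' ∈ openSegment ℝ (p (k + 1)) (p (k + 2)),
        ∃ ν ν' : ℂ, 0 < σ * cs (p (k + 1) - p k) ν ∧ 0 < σ * cs (p (k + 2) - p (k + 1)) ν' ∧
          ∃ δ > 0, ∀ ε : ℝ, 0 < ε → ε < δ →
            m + ε • ν ∈ cmp p n z ∧ m' + ε • ν' ∈ cmp p n z := by
    intro S hS hSb hS1 hS2 h1 h2
    have hdis : ∀ x ∈ S, x ∉ crv p n := by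
      rintro x hx ⟨j, hj, hxj⟩
      by_cases e1 : j = k
      · subst e1
        exact hS1 x hx hxj
      · by_cases e2 : j = k + 1
        · subst e2
          exact hS2 x hx hxj
        · exact hball x (hSb x hx) j hj e1 e2 hxj
    obtain ⟨z, δ, hδ, hz⟩ := Vertex_conc hS hdis h1 h2
    refine ⟨z, m, hmem, m', hmem', ν, ν', ?_, ?_, δ, hδ, hz⟩
    · rw [← hdd, hcν]
      exact hDp
    · rw [← hdd', hcν']
      exact hDp'
  have on1 : ∀ x ∈ segment ℝ (p k) (p (k + 1)), ∃ s : ℝ, 0 ≤ s ∧ σ * cs d (x - b) = 0 ∧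
      σ * cs d' (x - b) = s * (σ * cs d d') := by
    intro x hx
    obtain ⟨s, hs, _, hs2⟩ := Vertex_e1 hx
    rw [← hb] at hs2
    refine ⟨s, hs, ?_, ?_⟩
    · rw [hs2, hb, ← hdd, cs_neg, cs_smul, cs_self]
      ring
    · rw [hs2, hb, ← hdd, cs_neg, cs_smul, cs_swap d' d]
      ring
  have on2 : ∀ x ∈ segment ℝ (p (k + 1)) (p (k + 2)), ∃ s : ℝ, 0 ≤ s ∧
      σ * cs d (x - b) = s * (σ * cs d d') ∧ σ * cs d' (x - b) = 0 := by
    intro x hx
    obtain ⟨s, hs, _, hs2⟩ := Vertex_e2 hx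
    rw [← hb] at hs2
    refine ⟨s, hs, ?_, ?_⟩
    · rw [hs2, hb, ← hdd', cs_smul]
      ring
    · rw [hs2, hb, ← hdd', cs_smul, cs_self]
      ring
  rcases lt_or_ge (σ * cs d d') 0 with hκ | hκ
  · -- case 2
    refine fin ((Metric.ball b r ∩ {z | 0 < σ * cs d (z - b)}) ∪
      (Metric.ball b r ∩ {z | 0 < σ * cs d' (z - b)})) ?_ ?_ ?_ ?_ ?_ ?_
    · -- a common point
      obtain ⟨ρ, hρ0, hρ⟩ : ∃ ρ : ℝ, 0 < ρ ∧ ρ * ‖d - d'‖ < r := by
        refine ⟨r / (‖d - d'‖ + 1), div_pos hr (by positivity), ?_⟩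
        rw [div_mul_eq_mul_div, div_lt_iff₀ (by positivity)]
        apply mul_lt_mul_of_pos_left _ hr
        linarith
      have hxb : b + ρ • (d - d') ∈ Metric.ball b r := by
        rw [mem_ball_iff_norm, add_sub_cancel_left, norm_smul, Real.norm_eq_abs,
          abs_of_pos hρ0]
        exact hρ
      refine IsPreconnected.union (b + ρ • (d - d')) ⟨hxb, ?_⟩ ⟨hxb, ?_⟩
        (Vertex_convex b d σ r).isPreconnected (Vertex_convex b d' σ r).isPreconnected
      · show 0 < σ * cs d (b + ρ • (d - d') - b)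
        rw [add_sub_cancel_left, cs_smul, cs_sub, cs_self]
        have : σ * (ρ * (0 - cs d d')) = ρ * (-(σ * cs d d')) := by ring
        rw [this]
        exact mul_pos hρ0 (by linarith)
      · show 0 < σ * cs d' (b + ρ • (d - d') - b)
        rw [add_sub_cancel_left, cs_smul, cs_sub, cs_self, cs_swap d' d]
        have : σ * (ρ * (-cs d d' - 0)) = ρ * (-(σ * cs d d')) := by ring
        rw [this]
        exact mul_pos hρ0 (by linarith)
    · rintro x (hx | hx)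
      · exact hx.1
      · exact hx.1
    · rintro x (hx | hx) hxe
      · obtain ⟨s, _, h1, _⟩ := on1 x hxe
        have h3 : 0 < σ * cs d (x - b) := hx.2
        linarith
      · obtain ⟨s, hs, _, h1⟩ := on1 x hxe
        have h3 : 0 < σ * cs d' (x - b) := hx.2
        have h4 := mul_nonpos_of_nonneg_of_nonpos hs hκ.le
        linarith
    · rintro x (hx | hx) hxe
      · obtain ⟨s, hs, h1, _⟩ := on2 x hxe
        have h3 : 0 < σ * cs d (x - b) := hx.2
        have h4 := mul_nonpos_of_nonneg_of_nonpos hs hκ.le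
        linarith
      · obtain ⟨s, _, _, h1⟩ := on2 x hxe
        have h3 : 0 < σ * cs d' (x - b) := hx.2
        linarith
    · filter_upwards [H1m] with ε h1
      exact Or.inl h1
    · filter_upwards [H2m] with ε h1
      exact Or.inr h1
  · -- case 1
    have G1 : ∀ᶠ ε : ℝ in nhdsWithin 0 (Ioi 0), 0 < σ * cs d' (m + ε • ν - b) ∧
        0 < σ * cs d (m' + ε • ν' - b) := by
      rcases hκ.lt_or_eq with hκ | hκ
      · filter_upwards [Vertex_ev_pos (y := σ * cs d' ν) (mul_pos hτ0 hκ),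
          Vertex_ev_pos (y := σ * cs d ν') (mul_pos hτ0 hκ)] with ε h1 h2
        rw [f2, f3]
        exact ⟨h1, h2⟩
      · have hcs : cs d d' = 0 := by
          have : σ * (σ * cs d d') = 0 := by rw [← hκ, mul_zero]
          rwa [← mul_assoc, hσ2, one_mul] at this
        obtain ⟨l, hl, hdl⟩ := hpar hcs
        filter_upwards [ev0] with ε h1
        rw [f2, f3, ← hκ, mul_zero, zero_add, zero_add]
        have e1 : σ * cs d' ν = l * cs d (Complex.I * d) := by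
          rw [hdl, smul_cs, ← hcν]
          ring
        have e2 : σ * cs d ν' = l * cs d (Complex.I * d) := by
          have : ν' = l • ν := by
            rw [hν, hν', hdl]
            simp only [Complex.real_smul]
            ring
          rw [this, cs_smul, ← hcν]
          ring
        rw [e1, e2]
        exact ⟨mul_pos h1 (mul_pos hl hDp), mul_pos h1 (mul_pos hl hDp)⟩
    refine fin ((Metric.ball b r ∩ {z | 0 < σ * cs d (z - b)}) ∩
      (Metric.ball b r ∩ {z | 0 < σ * cs d' (z - b)}))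
      ((Vertex_convex b d σ r).inter (Vertex_convex b d' σ r)).isPreconnected
      (fun x hx => hx.1.1) ?_ ?_ ?_ ?_
    · intro x hx hxe
      obtain ⟨s, _, h1, _⟩ := on1 x hxe
      have h3 : 0 < σ * cs d (x - b) := hx.1.2
      linarith
    · intro x hx hxe
      obtain ⟨s, _, _, h1⟩ := on2 x hxe
      have h3 : 0 < σ * cs d' (x - b) := hx.2.2
      linarith
    · filter_upwards [H1m, G1] with ε h1 h2
      exact ⟨h1, h1.1, h2.1⟩
    · filter_upwards [H2m, G1] with ε h1 h2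
      exact ⟨⟨h1.1, h2.2⟩, h1⟩

end MP7e112f
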