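import Pool.Agent.Lib.MP_7e112f_co.Strip
import Pool.Agent.Lib.MP_7e112f_co.Vertex
import Pool.Agent.Lib.MP_7e112f_co.Touch

/-!
# MP_7e112f_co, EG module PJT: the Jordan curve theorem for simple closed chains
-/

open Set

namespace MP7e112f

/-- By `strip`: for other `m'`, `ν'`, choose `ε` small with `m + ε ν ∈ cmp p n z` and
`m' + ε' ν' ∈ cmp p n (m + ε ν)` for all small `ε'`; then `cmp_trans`. -/
theorem near_of {p : ℕ → ℂ} {n k : ℕ} (h : SC p n) (hk : k < n) {z m ν : ℂ} {σ : ℝ}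
    (hm : m ∈ openSegment ℝ (p k) (p (k + 1))) (hν : 0 < σ * cs (p (k + 1) - p k) ν)
    (hd : ∃ δ > 0, ∀ ε : ℝ, 0 < ε → ε < δ → m + ε • ν ∈ cmp p n z) : Near p n k σ z := by
  obtain ⟨δ, hδ, hd⟩ := hd
  refine ⟨mem_of_cmp (hd (δ / 2) (by positivity) (by linarith)), fun m' hm' ν' hν' => ?_⟩
  obtain ⟨δ', hδ', hs⟩ := strip h hk hm hm' hν hν'
  have h1 : 0 < min δ δ' / 2 := by positivity
  have h2 : min δ δ' / 2 < δ := by
    have := min_le_left δ δ'
    have := lt_min hδ hδ'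
    linarith
  have h3 : min δ δ' / 2 < δ' := by
    have := min_le_right δ δ'
    have := lt_min hδ hδ'
    linarith
  exact ⟨δ', hδ', fun ε' h0 h0' => cmp_trans (hd _ h1 h2) (hs _ _ h1 h3 h0 h0')⟩

theorem mid_mem {a b : ℂ} : a + (1 / 2 : ℝ) • (b - a) ∈ openSegment ℝ a b :=
  ⟨1 / 2, 1 / 2, by norm_num, by norm_num, by norm_num, by
    simp only [Complex.real_smul]; push_cast; ring⟩

theorem near_same {p : ℕ → ℂ} {n k : ℕ} (h : SC p n) (hk : k < n) {z z' : ℂ} {σ : ℝ}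
    (hσ : σ = 1 ∨ σ = -1) (hz : Near p n k σ z) (hz' : Near p n k σ z') : z' ∈ cmp p n z := by
  have hν : 0 < σ * cs (p (k + 1) - p k) (σ • (Complex.I * (p (k + 1) - p k))) := by
    have := cs_I_pos (sub_ne_zero.2 (edge_ne h hk).symm)
    rw [cs_smul]
    rcases hσ with rfl | rfl <;> simpa using this
  obtain ⟨δ, hδ, h1⟩ := hz.2 _ mid_mem _ hν
  obtain ⟨δ', hδ', h2⟩ := hz'.2 _ mid_mem _ hν
  have h3 := h1 (min δ δ' / 2) (by positivity) (by
    have := min_le_left δ δ'; have := lt_min hδ hδ'; linarith)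
  have h4 := h2 (min δ δ' / 2) (by positivity) (by
    have := min_le_right δ δ'; have := lt_min hδ hδ'; linarith)
  exact cmp_trans h3 (cmp_symm h4)

theorem near_cmp {p : ℕ → ℂ} {n k : ℕ} {z z' : ℂ} {σ : ℝ}
    (hz : Near p n k σ z) (hz' : z' ∈ cmp p n z) : Near p n k σ z' := by
  refine ⟨cmp_subset hz', fun m hm ν hν => ?_⟩
  rw [← cmp_eq hz']
  exact hz.2 m hm ν hν

theorem near_ex {p : ℕ → ℂ} {n k : ℕ} (h : SC p n) (hk : k < n) {σ : ℝ}
    (hσ : σ = 1 ∨ σ = -1) : ∃ z, Near p n k σ z := by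
  have hν : 0 < σ * cs (p (k + 1) - p k) (σ • (Complex.I * (p (k + 1) - p k))) := by
    have := cs_I_pos (sub_ne_zero.2 (edge_ne h hk).symm)
    rw [cs_smul]
    rcases hσ with rfl | rfl <;> simpa using this
  obtain ⟨δ, hδ, h1⟩ := strip h hk (mid_mem (a := p k) (b := p (k + 1))) mid_mem hν hν
  exact ⟨_, near_of h hk mid_mem hν ⟨δ, hδ, fun ε h2 h3 => h1 (δ / 2) ε (by positivity)
    (by linarith) h2 h3⟩⟩

theorem near_succ {p : ℕ → ℂ} {n k : ℕ} (h : SC p n) (hk : k + 1 < n) {σ : ℝ}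
    (hσ : σ = 1 ∨ σ = -1) {z : ℂ} : Near p n k σ z ↔ Near p n (k + 1) σ z := by
  obtain ⟨z₀, m, hm, m', hm', ν, ν', hν, hν', δ, hδ, h1⟩ := vertex h hk hσ
  have a := near_of h (by omega) hm hν ⟨δ, hδ, fun ε h2 h3 => (h1 ε h2 h3).1⟩
  have b := near_of h hk hm' hν' ⟨δ, hδ, fun ε h2 h3 => (h1 ε h2 h3).2⟩
  constructor
  · intro hz
    exact near_cmp b (near_same h (by omega) hσ a hz)
  · intro hz
    exact near_cmp a (near_same h hk hσ b hz)

theorem near_zero {p : ℕ → ℂ} {n : ℕ} (h : SC p n) {σ : ℝ} (hσ : σ = 1 ∨ σ = -1) {z : ℂ} :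
    ∀ k, k < n → (Near p n 0 σ z ↔ Near p n k σ z)
  | 0, _ => Iff.rfl
  | k + 1, hk => (near_zero h hσ k (by omega)).trans (near_succ h hk hσ)

/-- `W` is larger by one on the left. -/
theorem near_W {p : ℕ → ℂ} {n k : ℕ} (h : SC p n) (hk : k < n) {z z' : ℂ}
    (hz : Near p n k 1 z) (hz' : Near p n k (-1) z') : W p n z = W p n z' + 1 := by
  have hν := cs_I_pos (sub_ne_zero.2 (edge_ne h hk).symm)
  obtain ⟨δ₁, h1, h1'⟩ := hz.2 _ mid_mem (Complex.I * (p (k + 1) - p k)) (by simpa using hν)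
  obtain ⟨δ₂, h2, h2'⟩ := hz'.2 _ mid_mem (-(Complex.I * (p (k + 1) - p k)))
    (by rw [cs_neg]; simpa using hν)
  obtain ⟨δ₃, h3, h3'⟩ := W_jump h.cl hk mid_mem
    (fun j hj hjk => open_not_mem h hk hj hjk mid_mem) hν
  obtain ⟨ε, he, he1, he2, he3⟩ : ∃ ε : ℝ, 0 < ε ∧ ε < δ₁ ∧ ε < δ₂ ∧ ε < δ₃ := by
    refine ⟨min δ₁ (min δ₂ δ₃) / 2, by positivity, ?_, ?_, ?_⟩
    · have := min_le_left δ₁ (min δ₂ δ₃); have := lt_min h1 (lt_min h2 h3); linarith
    · have := min_le_right δ₁ (min δ₂ δ₃); have := lt_min h1 (lt_min h2 h3)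
      have := min_le_left δ₂ δ₃; linarith
    · have := min_le_right δ₁ (min δ₂ δ₃); have := lt_min h1 (lt_min h2 h3)
      have := min_le_right δ₂ δ₃; linarith
  have e1 := W_cmp h.cl (h1' ε he he1)
  have e2 := W_cmp h.cl (h2' ε he he2)
  have e3 := (h3' ε he he3).2.2
  rw [smul_neg, ← sub_eq_add_neg] at e2
  rw [← e1, ← e2]
  exact e3

/-- The Jordan curve theorem for simple closed chains. -/
theorem pjt {p : ℕ → ℂ} {n : ℕ} (h : SC p n) : ∃ s, Ori p n s := by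
  have h3 := h.three
  have hn0 : 0 < n := by omega
  obtain ⟨zL, hL⟩ := near_ex h hn0 (Or.inl rfl : (1 : ℝ) = 1 ∨ (1 : ℝ) = -1)
  obtain ⟨zR, hR⟩ := near_ex h hn0 (Or.inr rfl : (-1 : ℝ) = 1 ∨ (-1 : ℝ) = -1)
  have hLR := near_W h hn0 hL hR
  have htwo : ∀ z, z ∉ crv p n → z ∈ cmp p n zL ∨ z ∈ cmp p n zR := by
    intro z hz
    obtain ⟨k, hk, σ, hσ, m, hm, ν, hν, hd⟩ := touch h hz
    have h1 := (near_zero h hσ k hk).2 (near_of h hk hm hν hd)
    rcases hσ with rfl | rfl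
    · exact Or.inl (near_same h hn0 (Or.inl rfl) hL h1)
    · exact Or.inr (near_same h hn0 (Or.inr rfl) hR h1)
  obtain ⟨R, hRR⟩ := W_far h.cl
  -- some component is unbounded
  have hunb : ¬ Bornology.IsBounded (cmp p n zL) ∨ ¬ Bornology.IsBounded (cmp p n zR) := by
    by_contra hcon
    push Not at hcon
    have h5 : Bornology.IsBounded (cmp p n zL ∪ cmp p n zR ∪ crv p n) :=
      (hcon.1.union hcon.2).union (crv_compact p n).isBounded
    have h6 : (cmp p n zL ∪ cmp p n zR ∪ crv p n) = univ := by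
      ext z
      simp only [mem_union, mem_univ, iff_true]
      by_cases hz : z ∈ crv p n
      · exact Or.inr hz
      · exact Or.inl (htwo z hz)
    rw [h6] at h5
    exact NormedSpace.unbounded_univ ℝ ℂ h5
  rcases hunb with hu | hu
  · have hL0 := W_unb h.cl hu
    have hR1 : W p n zR = -1 := by linarith
    have hRb : Bornology.IsBounded (cmp p n zR) := by
      by_contra hc
      have := W_unb h.cl hc
      linarith
    refine ⟨-1, Or.inr rfl, ⟨zR, hR.1, hR1⟩, fun z hz => ?_⟩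
    rcases htwo z hz with hz' | hz'
    · left
      rw [W_cmp h.cl hz', ← cmp_eq hz']
      exact ⟨hL0, hu⟩
    · right
      rw [W_cmp h.cl hz', ← cmp_eq hz']
      exact ⟨hR1, hRb⟩
  · have hR0 := W_unb h.cl hu
    have hL1 : W p n zL = 1 := by linarith
    have hLb : Bornology.IsBounded (cmp p n zL) := by
      by_contra hc
      have := W_unb h.cl hc
      linarith
    refine ⟨1, Or.inl rfl, ⟨zL, hL.1, hL1⟩, fun z hz => ?_⟩
    rcases htwo z hz with hz' | hz'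
    · right
      rw [W_cmp h.cl hz', ← cmp_eq hz']
      exact ⟨hL1, hLb⟩
    · left
      rw [W_cmp h.cl hz', ← cmp_eq hz']
      exact ⟨hR0, hu⟩

/-- Membership in the region, in terms of the winding number. -/
theorem mem_rgn {p : ℕ → ℂ} {n : ℕ} {s : ℝ} (ho : Ori p n s) {z : ℂ} :
    z ∈ rgn (crv p n) ↔ z ∈ crv p n ∨ W p n z = s := by
  by_cases hz : z ∈ crv p n
  · simp [rgn, hz]
  · have hs : s ≠ 0 := by
      rcases ho.sq with h | h <;> rw [h] <;> norm_num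
    have hc : connectedComponentIn (crv p n)ᶜ z = cmp p n z := rfl
    simp only [rgn, mem_union, hz, false_or, mem_setOf_eq, not_false_eq_true, true_and, hc]
    rcases ho.dich z hz with h | h
    · exact ⟨fun h' => absurd h' h.2, fun h' => absurd (h'.symm.trans h.1) hs⟩
    · exact ⟨fun _ => h.1, fun _ => h.2⟩

end MP7e112f
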