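import Pool.Agent.Lib.MP_7e112f_co.SubC
import Pool.Agent.Lib.MP_7e112f_co.PJT

/-!
# MP_7e112f_co, EG module GlueM: the regions of the two parts
-/

open Set

namespace MP7e112f

private theorem GlueM_arith {s s₁ s₂ a₁ a₂ b₁ b₂ : ℝ} (hs : s = 1 ∨ s = -1)
    (h1 : s₁ = 1 ∨ s₁ = -1) (h2 : s₂ = 1 ∨ s₂ = -1) (ha1 : a₁ = 0 ∨ a₁ = s₁)
    (hb1 : b₁ = 0 ∨ b₁ = s₁) (ha2 : a₂ = 0 ∨ a₂ = s₂) (hb2 : b₂ = 0 ∨ b₂ = s₂)
    (j1 : b₁ = a₁ + 1) (j2 : a₂ = b₂ + 1) (hs1 : s = a₁ + a₂) : s₁ = s ∧ s₂ = s := by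
  rcases h1 with h1 | h1 <;> rcases h2 with h2 | h2 <;> rcases ha1 with ha1 | ha1 <;>
    rcases hb1 with hb1 | hb1 <;> rcases ha2 with ha2 | ha2 <;> rcases hb2 with hb2 | hb2 <;>
    rcases hs with hs | hs <;> first | (exfalso; linarith) | (constructor <;> linarith)

private theorem GlueM_val {p : ℕ → ℂ} {n : ℕ} {s : ℝ} (ho : Ori p n s) {z : ℂ}
    (hz : z ∉ crv p n) : W p n z = 0 ∨ W p n z = s := by
  rcases ho.dich z hz with h | h
  · exact Or.inl h.1
  · exact Or.inr h.1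

/-- The orientations of the two parts. -/
private theorem GlueM_ori {p : ℕ → ℂ} {n i j : ℕ} {s : ℝ} (h : SC p n) (hij : i + 2 ≤ j)
    (hj : j < n) (hn : j + 2 ≤ i + n) (hD : Diag p n i j) (ho : Ori p n s) :
    Ori (inn p i j) (j - i + 1) s ∧ Ori (out p i j) (n - (j - i - 1)) s := by
  have hDD : ∀ x ∈ openSegment ℝ (p i) (p j), x ∉ crv p n := fun x hx => (hD x hx).1
  have h1 := inn_SC h hij hj hn hDD
  have h2 := out_SC h hij hj hn hDD
  obtain ⟨s₁, o1⟩ := pjt h1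
  obtain ⟨s₂, o2⟩ := pjt h2
  have hne : p i ≠ p j := fun h3 => by
    have := h.inj i j (by omega) hj h3
    omega
  obtain ⟨m, hm⟩ : ∃ m, m ∈ openSegment ℝ (p i) (p j) := ⟨_, mid_mem⟩
  obtain ⟨ν, hνd⟩ : ∃ ν : ℂ, 0 < cs (p j - p i) ν :=
    ⟨_, cs_I_pos (sub_ne_zero.2 hne.symm)⟩
  -- the jump of the first part
  have e1 : inn p i j (j - i) = p j := by
    rw [inn, if_pos le_rfl, show i + (j - i) = j by omega]
  have e2 : inn p i j (j - i + 1) = p i := by
    rw [inn, if_neg (by omega)]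
  have e3 : out p i j i = p i := by
    rw [out, if_pos le_rfl]
  have e4 : out p i j (i + 1) = p j := by
    rw [out, if_neg (by omega), show i + 1 + (j - i - 1) = j by omega]
  have k1 : j - i < j - i + 1 := by omega
  have k2 : i < n - (j - i - 1) := by omega
  have hm1 : m ∈ openSegment ℝ (inn p i j (j - i)) (inn p i j (j - i + 1)) := by
    rw [e1, e2, openSegment_symm]
    exact hm
  have hm2 : m ∈ openSegment ℝ (out p i j i) (out p i j (i + 1)) := by
    rw [e3, e4]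
    exact hm
  have hν1 : 0 < cs (inn p i j (j - i + 1) - inn p i j (j - i)) (-ν) := by
    rw [e1, e2, ← neg_sub (p j) (p i), neg_cs, cs_neg, neg_neg]
    exact hνd
  have hν2 : 0 < cs (out p i j (i + 1) - out p i j i) ν := by
    rw [e3, e4]
    exact hνd
  obtain ⟨δ₁, hδ₁, H1⟩ := W_jump h1.cl k1 hm1
    (fun l hl hlk => open_not_mem h1 k1 hl hlk hm1) hν1
  obtain ⟨δ₂, hδ₂, H2⟩ := W_jump h2.cl k2 hm2
    (fun l hl hlk => open_not_mem h2 k2 hl hlk hm2) hν2
  -- a ball around `m`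
  obtain ⟨hmc, hmW⟩ := hD m hm
  have hWm : W p n m = s := by
    rcases GlueM_val ho hmc with h3 | h3
    · exact absurd h3 hmW
    · exact h3
  obtain ⟨r, hr, hball⟩ := Metric.isOpen_iff.1 (crv_closed p n).isOpen_compl m hmc
  have hW : ∀ x ∈ Metric.ball m r, W p n x = s := by
    intro x hx
    rw [← hWm]
    exact W_const h.cl (convex_ball m r).isPreconnected (fun y hy => hball hy) hx
      (Metric.mem_ball_self hr)
  have hν0 : 0 < ‖ν‖ := by
    rw [norm_pos_iff]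
    rintro rfl
    rw [cs_zero] at hνd
    exact lt_irrefl _ hνd
  obtain ⟨ε, hε, hε1, hε2, hε3⟩ : ∃ ε : ℝ, 0 < ε ∧ ε < δ₁ ∧ ε < δ₂ ∧ ε * ‖ν‖ < r := by
    refine ⟨min (min δ₁ δ₂) (r / ‖ν‖) / 2, by positivity, ?_, ?_, ?_⟩
    · have h3 : min (min δ₁ δ₂) (r / ‖ν‖) ≤ δ₁ := (min_le_left _ _).trans (min_le_left _ _)
      linarith
    · have h3 : min (min δ₁ δ₂) (r / ‖ν‖) ≤ δ₂ := (min_le_left _ _).trans (min_le_right _ _)
      linarith
    · have h3 : min (min δ₁ δ₂) (r / ‖ν‖) ≤ r / ‖ν‖ := min_le_right _ _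
      have h4 : 0 < r / ‖ν‖ := by positivity
      rw [← lt_div_iff₀ hν0]
      linarith
  obtain ⟨a1, a2, a3⟩ := H1 ε hε hε1
  obtain ⟨b1, b2, b3⟩ := H2 ε hε hε2
  have hn1 : m + ε • (-ν) = m - ε • ν := by rw [smul_neg, ← sub_eq_add_neg]
  have hn2 : m - ε • (-ν) = m + ε • ν := by rw [smul_neg, sub_neg_eq_add]
  rw [hn1] at a1 a3
  rw [hn2] at a2 a3
  have hs : m + ε • ν ∉ segment ℝ (p i) (p j) := fun h3 => b1 ((mem_out hij hj).2 (Or.inr h3))
  have hWa : W p n (m + ε • ν) = s := by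
    refine hW _ ?_
    rw [Metric.mem_ball, dist_eq_norm, add_sub_cancel_left, norm_smul, Real.norm_of_nonneg hε.le]
    exact hε3
  rw [W_split hij hj hs] at hWa
  obtain ⟨q1, q2⟩ := GlueM_arith ho.sq o1.sq o2.sq (GlueM_val o1 a2) (GlueM_val o1 a1)
    (GlueM_val o2 b1) (GlueM_val o2 b2) a3 b3 hWa.symm
  rw [q1] at o1
  rw [q2] at o2
  exact ⟨o1, o2⟩

/-- Let `C₁ = crv (inn p i j) _`, `C₂ = crv (out p i j) _`, `W₁`, `W₂` their winding numbers, and
`s₁`, `s₂` their orientations (`pjt` with `inn_SC`, `out_SC`). Let `m` be the midpoint of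
`[p i, p j]`, `ν = I (p j - p i)` (`p i ≠ p j`). In `out` the diagonal is the edge `i` from `p i` to
`p j`; in `inn` it is the edge `j - i` from `p j` to `p i`. By `W_jump` (and `open_not_mem`), for
small `ε > 0`: `W₂ (m + ε ν) = W₂ (m - ε ν) + 1` and (with `-ν`) `W₁ (m - ε ν) = W₁ (m + ε ν) + 1`,
and the points are off `C₁` and `C₂`. `hD` gives `m ∉ crv p n`, `W m ≠ 0`, and `W = s` in a ball
around `m` (a ball off the chain, `W_const`, `Ori.dich`), so by `W_split`
`s = W₁ + W₂` at `m ± ε ν`. `W₁` has the values `0, s₁` and `W₂` the values `0, s₂` (`Ori.dich`). If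
`s₁ = 1` then `W₁ (m - ε ν) = 1`, `W₁ (m + ε ν) = 0`; if `s₁ = -1` then `0` and `-1`. If `s₂ = 1`
then `W₂ (m + ε ν) = 1`, `W₂ (m - ε ν) = 0`; if `s₂ = -1` then `0` and `-1`. As the sum is `s ≠ 0`,
`s₁ = s₂ = s`.

Now use `mem_rgn` for all three chains. `C₁ ∪ C₂ = crv p n ∪ [p i, p j]` (`mem_inn`, `mem_out`).
`⊆`: let `z ∈ rgn (crv p n)`. If `z ∈ crv p n` it is in `C₁` or `C₂`. If not and `z ∈ [p i, p j]` it
is in `C₁`. Else `s = W z = W₁ z + W₂ z` with both in `{0, s}`, so one of them is `s`.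
`⊇`: let `z ∈ rgn C₁`. If `z ∈ crv p n` done. If `z ∈ [p i, p j]` (not an endpoint, since these are
on the chain) then `W z ≠ 0` by `hD`, so `W z = s`. Else `z` is off `C₁` and `C₂`, `W₁ z = s` and
`W z = s + W₂ z ∈ {s, 2 s}` and `W z ∈ {0, s}`, so `W z = s`. The same for `C₂`.
The last statement: `z ∉ C₁ ∪ C₂`, `W₁ z = s = W₂ z` would give `W z = 2 s`. -/
theorem glue {p : ℕ → ℂ} {n i j : ℕ} {s : ℝ} (h : SC p n) (hij : i + 2 ≤ j) (hj : j < n)
    (hn : j + 2 ≤ i + n) (hD : Diag p n i j) (ho : Ori p n s) :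
    Ori (inn p i j) (j - i + 1) s ∧ Ori (out p i j) (n - (j - i - 1)) s ∧
    rgn (crv p n) = rgn (crv (inn p i j) (j - i + 1)) ∪
      rgn (crv (out p i j) (n - (j - i - 1))) ∧
    ∀ z, z ∉ crv (inn p i j) (j - i + 1) → z ∉ crv (out p i j) (n - (j - i - 1)) →
      z ∈ rgn (crv (inn p i j) (j - i + 1)) →
      z ∉ rgn (crv (out p i j) (n - (j - i - 1))) := by
  obtain ⟨o1, o2⟩ := GlueM_ori h hij hj hn hD ho
  have hs0 : s ≠ 0 := by
    rcases ho.sq with h1 | h1 <;> rw [h1] <;> norm_num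
  -- the curves
  have hC1 : ∀ z, z ∈ crv p n → z ∈ crv (inn p i j) (j - i + 1) ∨
      z ∈ crv (out p i j) (n - (j - i - 1)) := by
    rintro z ⟨k, hk, hz⟩
    by_cases h1 : i ≤ k ∧ k < j
    · exact Or.inl ((mem_inn hij).2 (Or.inl ⟨k, h1.1, h1.2, hz⟩))
    · exact Or.inr ((mem_out hij hj).2 (Or.inl ⟨k, hk, by omega, hz⟩))
  have hS1 : ∀ z, z ∈ segment ℝ (p i) (p j) → z ∈ crv (inn p i j) (j - i + 1) := by
    intro z hz
    rw [segment_symm] at hz
    exact (mem_inn hij).2 (Or.inr hz)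
  have hS2 : ∀ z, z ∈ segment ℝ (p i) (p j) → z ∈ crv (out p i j) (n - (j - i - 1)) := by
    intro z hz
    exact (mem_out hij hj).2 (Or.inr hz)
  have hC2 : ∀ z, z ∉ crv p n → z ∉ segment ℝ (p i) (p j) →
      z ∉ crv (inn p i j) (j - i + 1) ∧ z ∉ crv (out p i j) (n - (j - i - 1)) := by
    intro z h1 h2
    constructor
    · intro h3
      rcases (mem_inn hij).1 h3 with ⟨k, _, hk, hz⟩ | hz
      · exact h1 ⟨k, by omega, hz⟩
      · rw [segment_symm] at hz
        exact h2 hz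
    · intro h3
      rcases (mem_out hij hj).1 h3 with ⟨k, hk, _, hz⟩ | hz
      · exact h1 ⟨k, hk, hz⟩
      · exact h2 hz
  -- the points of the segment
  have hseg : ∀ z, z ∉ crv p n → z ∈ segment ℝ (p i) (p j) → W p n z = s := by
    intro z h1 h2
    have h3 : p i ≠ z := by
      rintro rfl
      exact h1 ⟨i, by omega, left_mem_segment ℝ _ _⟩
    have h4 : p j ≠ z := by
      rintro rfl
      exact h1 ⟨j, hj, left_mem_segment ℝ _ _⟩
    have h5 := (hD z (mem_openSegment_of_ne_left_right h3 h4 h2)).2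
    rcases GlueM_val ho h1 with h6 | h6
    · exact absurd h6 h5
    · exact h6
  have hback : ∀ z, z ∉ crv p n → z ∉ segment ℝ (p i) (p j) →
      (W (inn p i j) (j - i + 1) z = s ∨ W (out p i j) (n - (j - i - 1)) z = s) →
      W p n z = s := by
    intro z h1 h2 h3
    obtain ⟨c1, c2⟩ := hC2 z h1 h2
    have h4 := W_split hij hj h2
    have v0 := GlueM_val ho h1
    have v1 := GlueM_val o1 c1
    have v2 := GlueM_val o2 c2
    rcases v0 with v0 | v0
    · exfalso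
      rw [v0] at h4
      rcases h3 with h3 | h3
      · rcases v2 with v2 | v2
        · exact hs0 (by linarith)
        · exact hs0 (by linarith)
      · rcases v1 with v1 | v1
        · exact hs0 (by linarith)
        · exact hs0 (by linarith)
    · exact v0
  refine ⟨o1, o2, ?_, ?_⟩
  · refine Set.Subset.antisymm ?_ ?_
    · intro z hz
      rw [mem_rgn ho] at hz
      rw [Set.mem_union, mem_rgn o1, mem_rgn o2]
      by_cases h1 : z ∈ crv p n
      · rcases hC1 z h1 with h2 | h2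
        · exact Or.inl (Or.inl h2)
        · exact Or.inr (Or.inl h2)
      · by_cases h2 : z ∈ segment ℝ (p i) (p j)
        · exact Or.inl (Or.inl (hS1 z h2))
        · have h3 : W p n z = s := hz.resolve_left h1
          obtain ⟨c1, c2⟩ := hC2 z h1 h2
          have h4 := W_split hij hj h2
          rcases GlueM_val o1 c1 with v1 | v1
          · exact Or.inr (Or.inr (by linarith))
          · exact Or.inl (Or.inr v1)
    · intro z hz
      rw [Set.mem_union, mem_rgn o1, mem_rgn o2] at hz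
      rw [mem_rgn ho]
      by_cases h1 : z ∈ crv p n
      · exact Or.inl h1
      · by_cases h2 : z ∈ segment ℝ (p i) (p j)
        · exact Or.inr (hseg z h1 h2)
        · obtain ⟨c1, c2⟩ := hC2 z h1 h2
          refine Or.inr (hback z h1 h2 ?_)
          rcases hz with hz | hz
          · exact Or.inl (hz.resolve_left c1)
          · exact Or.inr (hz.resolve_left c2)
  · intro z c1 c2 h1 h2
    rw [mem_rgn o1] at h1
    rw [mem_rgn o2] at h2
    have h3 : z ∉ crv p n := fun h3 => (hC1 z h3).elim c1 c2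
    have h4 : z ∉ segment ℝ (p i) (p j) := fun h4 => c1 (hS1 z h4)
    have h5 := W_split hij hj h4
    have h6 := hback z h3 h4 (Or.inl (h1.resolve_left c1))
    rw [h6, h1.resolve_left c1, h2.resolve_left c2] at h5
    exact hs0 (by linarith)

end MP7e112f
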