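import Pool.Agent.Lib.MP_7e112f_co.TriB

/-!
# MP_7e112f_co, EG module Graft: realisation of a grafted tree
-/

open Set

namespace MP7e112f

open BT

private theorem gr_un1 (T A B U : Set ℂ) : T ∪ (A ∪ U) ∪ B = T ∪ A ∪ B ∪ U := by
  rw [union_assoc T A B, union_assoc T (A ∪ B) U, union_assoc T (A ∪ U) B, union_assoc A U B,
    union_assoc A B U, union_comm U B]

private theorem gr_un2 (T A B U : Set ℂ) : T ∪ A ∪ (B ∪ U) = T ∪ A ∪ B ∪ U := by
  rw [union_assoc (T ∪ A) B U]

theorem graft_sz : ∀ (t : BT) (i : ℕ) (u : BT), i < t.sz →
    (graft t i u).sz = t.sz + (u.sz - 1) := by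
  intro t
  induction t with
  | leaf =>
    intro i u hi
    have h1 := u.sz_pos
    simp only [graft, sz]
    omega
  | node l r ihl ihr =>
    intro i u hi
    simp only [sz] at hi
    by_cases h : i < l.sz
    · simp only [graft, if_pos h, sz, ihl i u h]
      omega
    · simp only [graft, if_neg h, sz, ihr (i - l.sz) u (by omega)]
      omega

/-- Let `q` be `p` without the vertices `p (i+1), …, p (i + sz u - 1)`. The tree `t`, placed at the
vertices `q o, …, q (o + sz t)`, has the leaf `[q i, q (i+1)] = [p i, p (i + sz u)]`, and `u` is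
placed at `p i, …, p (i + sz u)`. Induction on `t`. For `t = leaf`: `i = o`, all regions of `t` are
empty, `graft leaf 0 u = u`. For `t = node l r`: if `i < o + sz l`, then
`graft t (i - o) u = node (graft l (i - o) u) r`; the three vertices of the root triangle are
`p o = q o`, `p (o + sz l + (sz u - 1)) = q (o + sz l)` (as `o + sz l > i`), and
`p (o + sz l + (sz u - 1) + sz r) = q (o + sz l + sz r)`; `r` is placed in `p` at
`o + sz l + (sz u - 1)`, and in `q` at `o + sz l > i`: `reg_congr`. If `o + sz l ≤ i`, then
`graft t (i - o) u = node l (graft r (i - o - sz l) u)`, the root triangle has the vertices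
`p o = q o`, `p (o + sz l) = q (o + sz l)`, `p (o + sz l + sz r + (sz u - 1)) =
q (o + sz l + sz r)`, and `l` is placed in `p` and in `q` at `o` (`reg_congr`; `o + sz l ≤ i`).
`Emb`: the left and the right part of a node stay disjoint, because one of them is unchanged and
the other one is enlarged by `ireg p u i`, which is disjoint from all of `ireg q t o`. -/
theorem graft_reg {p q : ℕ → ℂ} {i : ℕ} {u : BT} (hq : ∀ k, k ≤ i → q k = p k)
    (hq' : ∀ k, i < k → q k = p (k + (u.sz - 1))) :
    ∀ (t : BT) (o : ℕ), o ≤ i → i < o + t.sz →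
      reg p (graft t (i - o) u) o = reg q t o ∪ reg p u i ∧
      ireg p (graft t (i - o) u) o = ireg q t o ∪ ireg p u i ∧
      (Pos q t o → Pos p u i → Pos p (graft t (i - o) u) o) ∧
      (Emb q t o → Emb p u i → Disjoint (ireg q t o) (ireg p u i) →
        Emb p (graft t (i - o) u) o) := by
  intro t
  induction t with
  | leaf =>
    intro o ho hi
    simp only [sz] at hi
    have h1 : i = o := by omega
    subst h1
    simp only [graft, reg, ireg, Emb, empty_union]
    exact ⟨trivial, trivial, fun _ h => h, fun _ h _ => h⟩
  | node l r ihl ihr =>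
    intro o ho hi
    simp only [sz] at hi
    by_cases h : i - o < l.sz
    · have hi' : i < o + l.sz := by omega
      have hsz := graft_sz l (i - o) u h
      obtain ⟨e1, e2, e3, e4⟩ := ihl o ho hi'
      have a1 : q o = p o := hq o ho
      have a2 : q (o + l.sz) = p (o + (graft l (i - o) u).sz) := by
        rw [hq' _ hi', hsz]
        congr 1
        omega
      have a3 : q (o + l.sz + r.sz) = p (o + (graft l (i - o) u).sz + r.sz) := by
        rw [hq' _ (by omega), hsz]
        congr 1
        omega
      obtain ⟨c1, c2, c3, c4⟩ := reg_congr (p := p) (q := q) r (o := o + l.sz)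
        (o' := o + (graft l (i - o) u).sz) (by
          intro k _
          rw [hq' _ (by omega), hsz]
          congr 1
          omega)
      have hg : graft (node l r) (i - o) u = node (graft l (i - o) u) r := by
        simp only [graft, if_pos h]
      rw [hg]
      refine ⟨?_, ?_, ?_, ?_⟩
      · simp only [reg]
        rw [a1, a2, a3, e1, c1]
        exact gr_un1 _ _ _ _
      · simp only [ireg]
        rw [a1, a2, a3, e2, c2]
        exact gr_un1 _ _ _ _
      · intro hP hU
        simp only [Pos] at hP ⊢
        rw [a1, a2, a3, c3] at hP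
        exact ⟨hP.1, e3 hP.2.1 hU, hP.2.2⟩
      · intro hE hU hD
        simp only [Emb] at hE ⊢
        simp only [ireg] at hD
        obtain ⟨hE1, hE2, hE3⟩ := hE
        rw [disjoint_union_left, disjoint_union_left] at hD
        refine ⟨?_, e4 hE2 hU hD.1.2, c4.1 hE3⟩
        rw [e2, ← c2, disjoint_union_left]
        exact ⟨hE1, hD.2.symm⟩
    · have hi' : o + l.sz ≤ i := by omega
      have hsz := graft_sz r (i - o - l.sz) u (by omega)
      have e0 := ihr (o + l.sz) hi' (by omega)
      rw [← Nat.sub_sub] at e0
      obtain ⟨e1, e2, e3, e4⟩ := e0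
      have a1 : q o = p o := hq o ho
      have a2 : q (o + l.sz) = p (o + l.sz) := hq _ hi'
      have a3 : q (o + l.sz + r.sz) = p (o + l.sz + (graft r (i - o - l.sz) u).sz) := by
        rw [hq' _ (by omega), hsz]
        congr 1
        omega
      obtain ⟨c1, c2, c3, c4⟩ := reg_congr (p := p) (q := q) l (o := o) (o' := o) (by
          intro k hk
          exact hq _ (by omega))
      have hg : graft (node l r) (i - o) u = node l (graft r (i - o - l.sz) u) := by
        simp only [graft, if_neg h]
      rw [hg]
      refine ⟨?_, ?_, ?_, ?_⟩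
      · simp only [reg]
        rw [a1, a2, a3, e1, c1]
        exact gr_un2 _ _ _ _
      · simp only [ireg]
        rw [a1, a2, a3, e2, c2]
        exact gr_un2 _ _ _ _
      · intro hP hU
        simp only [Pos] at hP ⊢
        rw [a1, a2, a3, c3] at hP
        exact ⟨hP.1, hP.2.1, e3 hP.2.2 hU⟩
      · intro hE hU hD
        simp only [Emb] at hE ⊢
        simp only [ireg] at hD
        obtain ⟨hE1, hE2, hE3⟩ := hE
        rw [disjoint_union_left, disjoint_union_left] at hD
        refine ⟨?_, c4.1 hE2, e4 hE3 hU hD.2⟩
        rw [e2, ← c2, disjoint_union_right]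
        exact ⟨hE1, hD.1.2⟩

end MP7e112f
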