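import Pool.Agent.Lib.MP_7e112f_co.TriB

/-!
# MP_7e112f_co, EG module Hit: rays through chains of triangles
-/

open Set

namespace MP7e112f

/-- The ray from `x` in the direction `u` meets `E`, and stays in `S` until it does. -/
def Hits (S E : Set ℂ) (x u : ℂ) : Prop :=
  ∃ s : ℝ, 0 ≤ s ∧ x + s • u ∈ E ∧ segment ℝ x (x + s • u) ⊆ S

theorem vec_id (u r l : ℂ) : cs u l • r - cs u r • l = cs r l • u := by
  apply Complex.ext
  · simp only [cs, Complex.sub_re, Complex.real_smul, Complex.mul_re, Complex.ofReal_re,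
      Complex.ofReal_im]
    ring
  · simp only [cs, Complex.sub_im, Complex.real_smul, Complex.mul_im, Complex.ofReal_re,
      Complex.ofReal_im]
    ring

theorem on_side {q R L x : ℂ} (hq : 0 < cr q R L) (hx : x ∈ Tri q R L) (h0 : cr R L x = 0) :
    x ∈ segment ℝ R L := by
  obtain ⟨α, β, γ, hα, hβ, hγ, hs, rfl⟩ := tri_bary hq hx
  have h1 : cr R L (α • q + β • R + γ • L) = α * cr q R L := by
    have : α = 1 - β - γ := by linarith
    subst this
    simp only [cr, cs, Complex.sub_re, Complex.sub_im, Complex.add_re, Complex.add_im,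
      Complex.real_smul, Complex.mul_re, Complex.mul_im, Complex.ofReal_re, Complex.ofReal_im]
    ring
  rw [h0] at h1
  have h2 : α = 0 := by
    rcases mul_eq_zero.1 h1.symm with h | h
    · exact h
    · exact absurd h hq.ne'
  subst h2
  exact ⟨β, γ, hβ, hγ, by linarith, by simp⟩

theorem hit_side {q R L x u : ℂ} (hq : 0 < cr q R L) (hu : u ≠ 0) (hx : x ∈ Tri q R L)
    (hR : cs u (R - x) ≤ 0) (hL : 0 ≤ cs u (L - x)) :
    ∃ s : ℝ, 0 ≤ s ∧ x + s • u ∈ segment ℝ R L := by
  have hcr : cr x R L = cr R L x := (cr_rot x R L).symm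
  have h0 : 0 ≤ cs (R - x) (L - x) := by
    have := hx.2.1
    rw [← hcr] at this
    exact this
  have key := vec_id u (R - x) (L - x)
  rcases eq_or_lt_of_le (show 0 ≤ cs u (L - x) - cs u (R - x) by linarith) with h | h
  · have hA : cs u (L - x) = 0 := by linarith
    have hB : cs u (R - x) = 0 := by linarith
    rw [hA, hB, zero_smul, zero_smul, sub_zero] at key
    have h1 : cs (R - x) (L - x) = 0 := by
      rcases smul_eq_zero.1 key.symm with h | h
      · exact h
      · exact absurd h hu
    refine ⟨0, le_rfl, ?_⟩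
    rw [zero_smul, add_zero]
    exact on_side hq hx (by rw [← hcr]; exact h1)
  · set D := cs u (L - x) - cs u (R - x) with hD
    refine ⟨cs (R - x) (L - x) / D, div_nonneg h0 h.le, ?_⟩
    refine ⟨cs u (L - x) / D, -cs u (R - x) / D, div_nonneg hL h.le,
      div_nonneg (by linarith) h.le, ?_, ?_⟩
    · rw [← add_div, div_eq_one_iff_eq h.ne', hD]; ring
    · have h2 : (cs (R - x) (L - x) / D) • u =
          (cs u (L - x) / D) • (R - x) - (cs u (R - x) / D) • (L - x) := by
        rw [div_eq_inv_mul, mul_smul, ← key, smul_sub, smul_smul, smul_smul, div_eq_inv_mul,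
          div_eq_inv_mul]
      rw [h2]
      have h3 : (1 : ℝ) = cs u (L - x) / D - cs u (R - x) / D := by
        rw [← sub_div, ← hD, div_self h.ne']
      have h4 : cs u (R - x) / D = cs u (L - x) / D - 1 := by linarith
      rw [neg_div, h4]
      module

/-- One step of a ray, through the side `[R, L]` of the triangle `q R L`. -/
theorem hit_step {S E : Set ℂ} {q R L x u : ℂ} (hq : 0 < cr q R L) (hu : u ≠ 0)
    (hS : Tri q R L ⊆ S) (hx : x ∈ Tri q R L) (hR : cs u (R - x) ≤ 0) (hL : 0 ≤ cs u (L - x))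
    (h : ∀ z ∈ segment ℝ R L, cs u z = cs u x → Hits S E z u) : Hits S E x u := by
  obtain ⟨s, hs, hz⟩ := hit_side hq hu hx hR hL
  obtain ⟨t, ht, hE, hseg⟩ := h _ hz (by rw [cs_add, cs_smul, cs_self, mul_zero, add_zero])
  refine ⟨s + t, by linarith, by rwa [add_smul, ← add_assoc], ?_⟩
  have hzT : x + s • u ∈ Tri q R L :=
    tri_seg (tri_mem₂ hq) (tri_mem₃ hq) hz
  intro w hw
  rw [segment_eq_image'] at hw
  obtain ⟨r, ⟨hr0, hr1⟩, rfl⟩ := hw
  rcases le_or_gt (r * (s + t)) s with h1 | h1
  · apply hS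
    apply tri_seg hx hzT
    rcases eq_or_lt_of_le hs with h2 | h2
    · have h3 : r * (s + t) = 0 := le_antisymm (by rw [h2]; exact h1) (by positivity)
      have h4 : x + r • (x + (s + t) • u - x) = x := by
        rw [add_sub_cancel_left, smul_smul, h3, zero_smul, add_zero]
      simp only [h4]
      exact left_mem_segment ℝ _ _
    · rw [segment_eq_image']
      refine ⟨r * (s + t) / s, ⟨by positivity, (div_le_one h2).2 h1⟩, ?_⟩
      simp only [add_sub_cancel_left, smul_smul]
      rw [div_mul_cancel₀ _ h2.ne']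
  · apply hseg
    have ht' : 0 < t := by nlinarith
    rw [segment_eq_image']
    refine ⟨(r * (s + t) - s) / t, ⟨div_nonneg (by linarith) ht, ?_⟩, ?_⟩
    · rw [div_le_one ht']; nlinarith
    · simp only [add_sub_cancel_left, smul_smul]
      rw [div_mul_cancel₀ _ ht'.ne']
      module

/-- The last step of a ray: the target is the side `[R, L]`. -/
theorem hit_last {S : Set ℂ} {q R L x u : ℂ} (hq : 0 < cr q R L) (hu : u ≠ 0)
    (hS : Tri q R L ⊆ S) (hx : x ∈ Tri q R L) (hR : cs u (R - x) ≤ 0) (hL : 0 ≤ cs u (L - x)) :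
    Hits S (segment ℝ R L) x u := by
  refine hit_step hq hu hS hx hR hL fun z hz _ => ⟨0, le_rfl, ?_, ?_⟩
  · rwa [zero_smul, add_zero]
  · rw [zero_smul, add_zero, segment_same, singleton_subset_iff]
    exact hS (tri_seg (tri_mem₂ hq) (tri_mem₃ hq) hz)

theorem hits_sees {S E : Set ℂ} {x u : ℂ} (h : Hits S E x u) :
    ∃ y ∈ E, segment ℝ y x ⊆ S := by
  obtain ⟨s, _, hE, hseg⟩ := h
  exact ⟨_, hE, by rwa [segment_symm]⟩

/-- Two points in adjacent triangles see each other if the segment passes between the endpoints of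
the common side. -/
theorem see2 {q R L q' x y : ℂ} (hq : 0 < cr q R L) (hq' : 0 < cr q' L R) (hx : x ∈ Tri q R L)
    (hy : y ∈ Tri q' L R) (hR : cs (y - x) (R - x) ≤ 0) (hL : 0 ≤ cs (y - x) (L - x)) :
    segment ℝ x y ⊆ Tri q R L ∪ Tri q' L R := by
  by_cases hxy : y - x = 0
  · rw [sub_eq_zero.1 hxy, segment_same, singleton_subset_iff]
    exact Or.inl hx
  obtain ⟨s, hs, hz⟩ := hit_side hq hxy hx hR hL
  have hz1 : x + s • (y - x) ∈ Tri q R L := tri_seg (tri_mem₂ hq) (tri_mem₃ hq) hz
  have hz2 : x + s • (y - x) ∈ Tri q' L R := tri_seg (tri_mem₃ hq') (tri_mem₂ hq') hz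
  have g0 : 0 ≤ cr R L x := hx.2.1
  have g1 : cr R L y ≤ 0 := by
    have := hy.2.1
    rw [cr_swap] at this
    linarith
  have gs : cr R L (x + s • (y - x)) = (1 - s) * cr R L x + s * cr R L y := by
    simp only [cr, cs, Complex.sub_re, Complex.sub_im, Complex.add_re, Complex.add_im,
      Complex.real_smul, Complex.mul_re, Complex.mul_im, Complex.ofReal_re, Complex.ofReal_im]
    ring
  have gz : cr R L (x + s • (y - x)) = 0 := by
    obtain ⟨a, b, ha, hb, hab, he⟩ := hz
    rw [← he]
    have : a = 1 - b := by linarith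
    subst this
    simp only [cr, cs, Complex.sub_re, Complex.sub_im, Complex.add_re, Complex.add_im,
      Complex.real_smul, Complex.mul_re, Complex.mul_im, Complex.ofReal_re, Complex.ofReal_im]
    ring
  rcases le_or_gt s 1 with h1 | h1
  · intro w hw
    rw [segment_eq_image'] at hw
    obtain ⟨r, ⟨hr0, hr1⟩, rfl⟩ := hw
    rcases le_or_gt r s with h2 | h2
    · left
      rcases eq_or_lt_of_le hs with h3 | h3
      · have : r = 0 := by linarith
        subst this
        simpa using hx
      · apply tri_seg hx hz1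
        rw [segment_eq_image']
        refine ⟨r / s, ⟨by positivity, (div_le_one h3).2 h2⟩, ?_⟩
        simp only [add_sub_cancel_left, smul_smul]
        rw [div_mul_cancel₀ _ h3.ne']
    · right
      have h3 : 0 < 1 - s := by linarith
      apply tri_seg hz2 hy
      rw [segment_eq_image']
      refine ⟨(r - s) / (1 - s), ⟨div_nonneg (by linarith) h3.le, ?_⟩, ?_⟩
      · rw [div_le_one h3]; linarith
      · have e : y - (x + s • (y - x)) = (1 - s) • (y - x) := by module
        simp only [e, smul_smul]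
        rw [div_mul_cancel₀ _ h3.ne']
        module
  · have hx0 : cr R L x = 0 := by nlinarith
    have hy0 : cr R L y = 0 := by nlinarith
    have hxs := on_side hq hx hx0
    have hys : y ∈ segment ℝ L R := by
      apply on_side hq' hy
      rw [cr_swap, hy0, neg_zero]
    rw [segment_symm] at hys
    intro w hw
    left
    exact tri_seg hx (tri_seg (tri_mem₂ hq) (tri_mem₃ hq) hys) hw

end MP7e112f
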