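import Pool.Agent.Lib.MP_7e112f_co.DiagZ

/-!
# MP_7e112f_co, EG module Rot: rotation of the chain; every simple closed chain with at least four
edges has an inner diagonal
-/

open Set

namespace MP7e112f

/-- For `k < n` the `k`-th edge of `rot p n r` (`r < n`) is the edge of `p` with the index `k + r` if
`k + r < n`, and `k + r - n` otherwise (if `k + r = n` then `rot p n r k = p n = p 0`). This gives a
bijection of the edges. -/
theorem rot_edge {p : ℕ → ℂ} {n r k : ℕ} (hcl : p n = p 0) (hr : r < n) (hk : k < n) :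
    (k + r < n ∧ rot p n r k = p (k + r) ∧ rot p n r (k + 1) = p (k + r + 1)) ∨
    (n ≤ k + r ∧ rot p n r k = p (k + r - n) ∧ rot p n r (k + 1) = p (k + r - n + 1)) := by
  by_cases h1 : k + r < n
  · left
    refine ⟨h1, ?_, ?_⟩
    · show (if k + r ≤ n then p (k + r) else p (k + r - n)) = _
      rw [if_pos h1.le]
    · show (if k + 1 + r ≤ n then p (k + 1 + r) else p (k + 1 + r - n)) = _
      rw [if_pos (by omega)]
      congr 1
      omega
  · right
    refine ⟨by omega, ?_, ?_⟩
    · show (if k + r ≤ n then p (k + r) else p (k + r - n)) = _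
      by_cases h2 : k + r = n
      · rw [if_pos h2.le, h2, Nat.sub_self, hcl]
      · rw [if_neg (by omega)]
    · show (if k + 1 + r ≤ n then p (k + 1 + r) else p (k + 1 + r - n)) = _
      rw [if_neg (by omega)]
      congr 1
      omega

private theorem rot_zero {p : ℕ → ℂ} {n r : ℕ} (hr : r < n) : rot p n r 0 = p r := by
  show (if 0 + r ≤ n then p (0 + r) else p (0 + r - n)) = _
  rw [if_pos (by omega), Nat.zero_add]

theorem rot_SC {p : ℕ → ℂ} {n r : ℕ} (h : SC p n) (hr : r < n) : SC (rot p n r) n := by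
  refine ⟨h.three, ?_, ?_, ?_⟩
  · rw [rot_zero hr]
    show (if n + r ≤ n then p (n + r) else p (n + r - n)) = _
    by_cases h0 : r = 0
    · subst h0
      simpa using h.cl
    · rw [if_neg (by omega), Nat.add_sub_cancel_left]
  · intro i j hi hj hij
    rcases rot_edge h.cl hr hi with ⟨h1, h2, -⟩ | ⟨h1, h2, -⟩ <;>
      rcases rot_edge h.cl hr hj with ⟨h3, h4, -⟩ | ⟨h3, h4, -⟩ <;>
      rw [h2, h4] at hij
    · have := h.inj _ _ h1 h3 hij
      omega
    · have := h.inj _ _ h1 (by omega) hij
      omega
    · have := h.inj _ _ (by omega) h3 hij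
      omega
    · have := h.inj _ _ (by omega) (by omega) hij
      omega
  · intro i j hij hj x hx hy
    have hi : i < n := hij.trans hj
    rcases rot_edge h.cl hr hi with ⟨h1, h2, h2'⟩ | ⟨h1, h2, h2'⟩ <;>
      rcases rot_edge h.cl hr hj with ⟨h3, h4, h4'⟩ | ⟨h3, h4, h4'⟩ <;>
      rw [h2, h2'] at hx <;> rw [h4, h4'] at hy
    · rcases h.inter _ _ (by omega) h3 x hx hy with ⟨h5, h6⟩ | ⟨h5, h6, h7⟩
      · left
        exact ⟨by omega, by rw [h4]; exact h6⟩
      · right
        refine ⟨by omega, by omega, ?_⟩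
        rw [rot_zero hr, h7]
        congr 1
        omega
    · rcases h.inter _ _ (by omega) h1 x hy hx with ⟨h5, h6⟩ | ⟨h5, h6, h7⟩
      · right
        refine ⟨by omega, by omega, ?_⟩
        rw [rot_zero hr, h6]
        congr 1
        omega
      · left
        refine ⟨by omega, ?_⟩
        rw [h4, h7]
        congr 1
        omega
    · exact absurd h3 (by omega)
    · rcases h.inter _ _ (by omega) (by omega) x hx hy with ⟨h5, h6⟩ | ⟨h5, h6, h7⟩
      · left
        exact ⟨by omega, by rw [h4]; exact h6⟩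
      · exact absurd h6 (by omega)

theorem rot_crv {p : ℕ → ℂ} {n r : ℕ} (hcl : p n = p 0) (hr : r < n) :
    crv (rot p n r) n = crv p n := by
  ext z
  constructor
  · rintro ⟨k, hk, hz⟩
    rcases rot_edge hcl hr hk with ⟨h1, h2, h3⟩ | ⟨h1, h2, h3⟩
    · rw [h2, h3] at hz
      exact ⟨_, h1, hz⟩
    · rw [h2, h3] at hz
      exact ⟨_, by omega, hz⟩
  · rintro ⟨k, hk, hz⟩
    by_cases hrk : r ≤ k
    · refine ⟨k - r, by omega, ?_⟩
      rcases rot_edge hcl hr (show k - r < n by omega) with ⟨h1, h2, h3⟩ | ⟨h1, h2, h3⟩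
      · rw [h2, h3, Nat.sub_add_cancel hrk]
        exact hz
      · exact absurd h1 (by omega)
    · refine ⟨k + n - r, by omega, ?_⟩
      rcases rot_edge hcl hr (show k + n - r < n by omega) with ⟨h1, h2, h3⟩ | ⟨h1, h2, h3⟩
      · exact absurd h1 (by omega)
      · rw [h2, h3, show k + n - r + r - n = k by omega]
        exact hz

/-- Reindexing of the sum: the first `n - r` summands are the ones of `p` with the indices
`r, …, n - 1`, the last `r` ones have the indices `0, …, r - 1`. -/
theorem rot_W {p : ℕ → ℂ} {n r : ℕ} (hcl : p n = p 0) (hr : r < n) (z : ℂ) :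
    W (rot p n r) n z = W p n z := by
  unfold W
  congr 1
  refine Finset.sum_nbij' (fun k => if k + r < n then k + r else k + r - n)
    (fun k => if r ≤ k then k - r else k + n - r) ?_ ?_ ?_ ?_ ?_
  · intro k hk
    have hk' := Finset.mem_range.1 hk
    refine Finset.mem_range.2 ?_
    show (if k + r < n then k + r else k + r - n) < n
    split_ifs <;> omega
  · intro k hk
    have hk' := Finset.mem_range.1 hk
    refine Finset.mem_range.2 ?_
    show (if r ≤ k then k - r else k + n - r) < n
    split_ifs <;> omega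
  · intro k hk
    have hk' := Finset.mem_range.1 hk
    show (if r ≤ (if k + r < n then k + r else k + r - n) then
      (if k + r < n then k + r else k + r - n) - r else
      (if k + r < n then k + r else k + r - n) + n - r) = k
    by_cases h1 : k + r < n
    · rw [if_pos h1, if_pos (by omega)]
      omega
    · rw [if_neg h1, if_neg (by omega)]
      omega
  · intro k hk
    have hk' := Finset.mem_range.1 hk
    show (if (if r ≤ k then k - r else k + n - r) + r < n then
      (if r ≤ k then k - r else k + n - r) + r else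
      (if r ≤ k then k - r else k + n - r) + r - n) = k
    by_cases h1 : r ≤ k
    · rw [if_pos h1, if_pos (by omega)]
      omega
    · rw [if_neg h1, if_neg (by omega)]
      omega
  · intro k hk
    have hk' := Finset.mem_range.1 hk
    show _ = Complex.arg ((p ((if k + r < n then k + r else k + r - n) + 1) - z) /
      (p (if k + r < n then k + r else k + r - n) - z))
    rcases rot_edge hcl hr hk' with ⟨h1, h2, h3⟩ | ⟨h1, h2, h3⟩
    · rw [h2, h3, if_pos h1]
    · rw [h2, h3, if_neg (by omega)]

/-- Take `k` from `expo_ex`; `rot p n k` satisfies `Expd`. Take `(i, j)` from `diag_zero` for it.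
With `i' = i + k` or `i + k - n`, `j' = j + k` or `j + k - n` we have `rot p n k i = p i'`,
`rot p n k j = p j'`, `i', j' < n`, and either `i' < j'`, `j' - i' = j - i`, or `j' < i'`,
`i' - j' = n - (j - i)`; take the pair in increasing order (`openSegment_symm`). -/
theorem diag_ex {p : ℕ → ℂ} {n : ℕ} (h : SC p n) (hn : 4 ≤ n) :
    ∃ i j, i + 2 ≤ j ∧ j < n ∧ j + 2 ≤ i + n ∧ Diag p n i j := by
  obtain ⟨k, hk, hmax⟩ := expo_ex h
  have hv : Expd (rot p n k) n := by
    intro j hj0 hj
    rw [rot_zero hk]
    rcases rot_edge h.cl hk hj with ⟨h1, h2, -⟩ | ⟨h1, h2, -⟩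
    · rw [h2]
      exact hmax _ h1 (by omega)
    · rw [h2]
      exact hmax _ (by omega) (by omega)
  obtain ⟨i, j, hij, hj, hji, hD⟩ := diag_zero (rot_SC h hk) hn hv
  have hi : i < n := by omega
  have hD' : ∀ x ∈ openSegment ℝ (rot p n k i) (rot p n k j), x ∉ crv p n ∧ W p n x ≠ 0 := by
    intro x hx
    have h1 := hD x hx
    rw [rot_crv h.cl hk, rot_W h.cl hk] at h1
    exact h1
  rcases rot_edge h.cl hk hi with ⟨h1, h2, -⟩ | ⟨h1, h2, -⟩ <;>
    rcases rot_edge h.cl hk hj with ⟨h3, h4, -⟩ | ⟨h3, h4, -⟩ <;>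
    rw [h2, h4] at hD'
  · exact ⟨i + k, j + k, by omega, h3, by omega, hD'⟩
  · refine ⟨j + k - n, i + k, by omega, h1, by omega, ?_⟩
    intro x hx
    rw [openSegment_symm] at hx
    exact hD' x hx
  · exact absurd h3 (by omega)
  · exact ⟨i + k - n, j + k - n, by omega, by omega, by omega, hD'⟩

end MP7e112f
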