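import Pool.Agent.Lib.MP_7e112f_co.BaseT
import Pool.Agent.Lib.MP_7e112f_co.Rot
import Pool.Agent.Lib.MP_7e112f_co.GlueM
import Pool.Agent.Lib.MP_7e112f_co.Graft

/-!
# MP_7e112f_co, EG module TriMain: every simple closed chain is triangulated by a tree
-/

open Set

namespace MP7e112f

open BT

/-- Triangulation theorem: the region of a positively oriented simple closed chain with `n` edges is
the region of a tree with `n - 1` leaves, with positively oriented triangles. -/
theorem triang : ∀ (n : ℕ) (p : ℕ → ℂ), SC p n → Ori p n 1 →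
    ∃ t : BT, t.sz + 1 = n ∧ Pos p t 0 ∧ Emb p t 0 ∧ rgn (crv p n) = reg p t 0 := by
  intro n
  induction n using Nat.strong_induction_on with
  | _ n ih =>
    intro p h ho
    rcases Nat.lt_or_ge n 4 with hn | hn
    · have h3 : n = 3 := by have := h.three; omega
      subst h3
      obtain ⟨h1, h2⟩ := base3 h ho
      refine ⟨node leaf leaf, rfl, ⟨h1, trivial, trivial⟩, ⟨?_, trivial, trivial⟩, ?_⟩
      · simp [ireg]
      · simp only [reg, sz, union_empty]
        exact h2
    · obtain ⟨i, j, hij, hj, hjn, hD⟩ := diag_ex h hn
      obtain ⟨o1, o2, hU, hdis⟩ := glue h hij hj hjn hD ho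
      have s1 := inn_SC h hij hj hjn fun x hx => (hD x hx).1
      have s2 := out_SC h hij hj hjn fun x hx => (hD x hx).1
      obtain ⟨u, hu, pu, eu, ru⟩ := ih (j - i + 1) (by omega) _ s1 o1
      obtain ⟨t, ht, pt, et, rt⟩ := ih (n - (j - i - 1)) (by omega) _ s2 o2
      have husz : u.sz = j - i := by omega
      have hcong := reg_congr (p := p) (q := inn p i j) u (o := 0) (o' := i) (by
        intro k hk
        simp only [inn, Nat.zero_add]
        rw [if_pos (by omega)])
      obtain ⟨c1, c2, c3, c4⟩ := hcong
      have hg := graft_reg (p := p) (q := out p i j) (i := i) (u := u)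
        (by intro k hk; simp only [out]; rw [if_pos hk])
        (by intro k hk; simp only [out]; rw [if_neg (by omega), husz]) t 0 (by omega)
        (by omega)
      obtain ⟨g1, g2, g3, g4⟩ := hg
      have hdisj : Disjoint (ireg (out p i j) t 0) (ireg p u i) := by
        rw [Set.disjoint_iff_inter_eq_empty]
        by_contra hne
        obtain ⟨z, ⟨hz1, hz2⟩, hz3⟩ := crv_int' (p := inn p i j) (n := j - i + 1)
          (p' := out p i j) (n' := n - (j - i - 1))
          ((ireg_open (out p i j) t 0).inter (ireg_open p u i))
          (Set.nonempty_iff_ne_empty.2 hne)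
        have hz4 : z ∈ rgn (crv (inn p i j) (j - i + 1)) := by
          rw [ru, c1]
          exact ireg_subset _ _ _ hz2
        have hz5 : z ∈ rgn (crv (out p i j) (n - (j - i - 1))) := by
          rw [rt]
          exact ireg_subset _ _ _ hz1
        exact hdis z hz3.1 hz3.2 hz4 hz5
      refine ⟨graft t i u, ?_, ?_, ?_, ?_⟩
      · rw [graft_sz t i u (by omega)]
        omega
      · exact g3 pt (c3.1 pu)
      · exact g4 et (c4.1 eu) hdisj
      · have : graft t (i - 0) u = graft t i u := by simp
        rw [this] at g1
        rw [hU, ru, rt, c1, g1, union_comm]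

end MP7e112f
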