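import Pool.Agent.Lib.MP_7e112f_co.DP
import Pool.Agent.Lib.MP_7e112f_co.TriMain
import Pool.Agent.Lib.MP_7e112f_co.Conv

/-!
# MP_7e112f_co, EG module Main: every simple polygon with `n` vertices is covered by `(5n+4)/17` of
its edges
-/

open Set

namespace MP7e112f

open BT

theorem chain_bound {q : ℕ → ℂ} {n : ℕ} (h : SC q n) (ho : Ori q n 1) :
    ∃ E : Finset ℕ, (∀ k ∈ E, k < n) ∧ 17 * E.card ≤ 5 * n + 4 ∧
      ∀ y ∈ rgn (crv q n), ∃ k ∈ E, ∃ x ∈ segment ℝ (q k) (q (k + 1)),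
        segment ℝ x y ⊆ rgn (crv q n) := by
  obtain ⟨t, hn, hp, he, hr⟩ := triang n q h ho
  have h3 := h.three
  have hleaf : t ≠ leaf := by
    rintro rfl
    simp only [sz] at hn
    omega
  rw [hr]
  rcases cost_fin t hleaf with hc | hc
  · obtain ⟨E, h1, h2, _, _, h5⟩ := ach_cost q t 0 hp he 0 0
    refine ⟨E, fun k hk => ?_, ?_, fun y hy => ?_⟩
    · have := Finset.mem_Ico.1 (h1 hk)
      omega
    · rw [← hn]
      have : 17 * E.card ≤ 17 * cost t 0 0 := Nat.mul_le_mul_left 17 h2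
      omega
    · rcases h5 y hy with h6 | h6 | h6
      · exact h6
      · exact absurd h6.1 (by decide)
      · exact absurd h6.1 (by decide)
  · obtain ⟨E, h1, h2, _, _, h5⟩ := ach_cost q t 0 hp he 2 2
    refine ⟨insert (n - 1) E, fun k hk => ?_, ?_, fun y hy => ?_⟩
    · rcases Finset.mem_insert.1 hk with rfl | hk
      · omega
      · have := Finset.mem_Ico.1 (h1 hk)
        omega
    · rw [← hn]
      have h6 := Finset.card_insert_le (n - 1) E
      have h7 : E.card ≤ cost t 2 2 := h2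
      rw [← hn] at h6
      omega
    · have e1 : n - 1 + 1 = n := by omega
      rcases h5 y hy with ⟨j, hj, h6⟩ | ⟨_, h6⟩ | ⟨_, h6⟩
      · exact ⟨j, Finset.mem_insert_of_mem hj, h6⟩
      · refine ⟨n - 1, Finset.mem_insert_self _ _, q 0, ?_, h6⟩
        rw [e1, h.cl]
        exact right_mem_segment ℝ _ _
      · refine ⟨n - 1, Finset.mem_insert_self _ _, q (n - 1), left_mem_segment ℝ _ _, ?_⟩
        have e2 : 0 + t.sz = n - 1 := by omega
        rwa [e2] at h6

/-- Main theorem. -/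
theorem edge_guards (n : ℕ) [NeZero n] (hn : 3 ≤ n) (p : Fin n → ℂ) (hp : SimplePolygon p) :
    ∃ E : Finset (Fin n), 17 * E.card ≤ 5 * n + 4 ∧
      ∀ y ∈ region p, ∃ i ∈ E, ∃ x ∈ edge p i, segment ℝ x y ⊆ region p := by
  obtain ⟨q, f, h1, h2, h3, h4⟩ := conv hn hp
  obtain ⟨E, h5, h6, h7⟩ := chain_bound h1 h2
  classical
  refine ⟨E.image f, ?_, ?_⟩
  · have := Finset.card_image_le (s := E) (f := f)
    omega
  · unfold region
    rw [← h3]
    intro y hy
    obtain ⟨k, hk, x, hx, hseg⟩ := h7 y hy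
    rw [h4 k (h5 k hk)] at hx
    exact ⟨f k, Finset.mem_image_of_mem f hk, x, hx, hseg⟩

end MP7e112f
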