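import Pool.Agent.Lib.MP_7e112f_co.WJ

/-!
# MP_7e112f_co, EG module Strip: the points near an open edge, on one side of it, lie in one
component
-/

open Set

namespace MP7e112f

private theorem cs_line_zero {a b z : ℂ} (hz : z ∈ segment ℝ a b) : cs (b - a) (z - a) = 0 := by
  obtain ⟨s, t, -, -, -, -, e⟩ := cs_seg (u := b - a) (w := a) hz
  rw [e, sub_self, cs_zero, cs_self, mul_zero, mul_zero, add_zero]

/-- Let `a = p k`, `b = p (k+1)`, `d = b - a`. The segment `K = [m, m']` is compact and contained in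
the open segment `(a, b)` (convexity), so it is disjoint from the closed set
`F = ⋃_{j < n, j ≠ k} [p j, p (j+1)]` by `open_not_mem`; hence there is `ρ > 0` with
`Metric.thickening ρ K` disjoint from `F` (`Disjoint.exists_thickenings` or
`IsCompact.exists_thickening_subset_open`). Put
`S = Metric.thickening ρ K ∩ {z | 0 < σ * cs d (z - a)}`. It is convex (`Convex.thickening` and a
half-plane), hence preconnected, and disjoint from the chain: a point of the `k`-th edge has
`cs d (z - a) = 0`. For `0 < ε < δ := ρ / (1 + ‖ν‖ + ‖ν'‖)` the points `m + ε ν` and `m' + ε ν'` are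
in `S`, because `cs d (m + ε ν - a) = ε cs d ν` (`m` is on the edge). Conclude with `cmp_of`. -/
theorem strip {p : ℕ → ℂ} {n k : ℕ} (h : SC p n) (hk : k < n) {m m' ν ν' : ℂ} {σ : ℝ}
    (hm : m ∈ openSegment ℝ (p k) (p (k + 1))) (hm' : m' ∈ openSegment ℝ (p k) (p (k + 1)))
    (hν : 0 < σ * cs (p (k + 1) - p k) ν) (hν' : 0 < σ * cs (p (k + 1) - p k) ν') :
    ∃ δ > 0, ∀ ε ε' : ℝ, 0 < ε → ε < δ → 0 < ε' → ε' < δ →
      m' + ε' • ν' ∈ cmp p n (m + ε • ν) := by
  have hK : segment ℝ m m' ⊆ openSegment ℝ (p k) (p (k + 1)) :=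
    (convex_openSegment (p k) (p (k + 1))).segment_subset hm hm'
  have hcomp : IsCompact (⋃ j ∈ (Finset.range n).erase k, segment ℝ (p j) (p (j + 1))) :=
    Finset.isCompact_biUnion _ fun j _ => seg_compact _ _
  obtain ⟨ρ, hρ, hρK⟩ := (seg_compact m m').exists_thickening_subset_open
    hcomp.isClosed.isOpen_compl (fun z hz hz' => by
      simp only [Set.mem_iUnion, Finset.mem_erase, Finset.mem_range] at hz'
      obtain ⟨j, ⟨hjk, hj⟩, hzj⟩ := hz'
      exact open_not_mem h hk hj hjk (hK hz) hzj)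
  have hline : ∀ z ∈ segment ℝ (p k) (p (k + 1)), cs (p (k + 1) - p k) (z - p k) = 0 :=
    fun z hz => cs_line_zero hz
  set S : Set ℂ := Metric.thickening ρ (segment ℝ m m') ∩
    {z | 0 < σ * cs (p (k + 1) - p k) (z - p k)} with hS
  have hconv : Convex ℝ S := by
    refine ((convex_segment m m').thickening ρ).inter ?_
    intro x hx y hy s t hs ht hst
    have hx' : 0 < σ * cs (p (k + 1) - p k) (x - p k) := hx
    have hy' : 0 < σ * cs (p (k + 1) - p k) (y - p k) := hy
    show 0 < σ * cs (p (k + 1) - p k) (s • x + t • y - p k)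
    have e1 : s • x + t • y - p k = s • (x - p k) + t • (y - p k) := by
      have : p k = (s + t) • p k := by rw [hst, one_smul]
      rw [smul_sub, smul_sub]
      nth_rewrite 1 [this]
      rw [add_smul]
      abel
    rw [e1, cs_add, cs_smul, cs_smul]
    rcases eq_or_lt_of_le hs with h0 | h0
    · have ht1 : t = 1 := by linarith
      rw [← h0, ht1]
      simpa using hy'
    · have h1 := mul_pos h0 hx'
      have h2 := mul_nonneg ht hy'.le
      nlinarith
  have hoff : ∀ x ∈ S, x ∉ crv p n := by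
    rintro x ⟨hx1, hx2⟩ ⟨j, hj, hxj⟩
    by_cases hjk : j = k
    · subst hjk
      have hx2' : 0 < σ * cs (p (j + 1) - p j) (x - p j) := hx2
      rw [hline x hxj, mul_zero] at hx2'
      exact lt_irrefl _ hx2'
    · apply hρK hx1
      simp only [Set.mem_iUnion, Finset.mem_erase, Finset.mem_range]
      exact ⟨j, ⟨hjk, hj⟩, hxj⟩
  have hin : ∀ q ∈ segment ℝ m m', ∀ μ : ℂ, 0 < σ * cs (p (k + 1) - p k) μ → ∀ e : ℝ, 0 < e →
      e * ‖μ‖ < ρ → q + e • μ ∈ S := by
    intro q hq μ hμ e he heρ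
    refine ⟨Metric.mem_thickening_iff.2 ⟨q, hq, ?_⟩, ?_⟩
    · rw [dist_eq_norm, add_sub_cancel_left, norm_smul, Real.norm_of_nonneg he.le]
      exact heρ
    · show 0 < σ * cs (p (k + 1) - p k) (q + e • μ - p k)
      have hq0 := hline q (openSegment_subset_segment _ _ _ (hK hq))
      have e1 : q + e • μ - p k = (q - p k) + e • μ := by abel
      rw [e1, cs_add, hq0, cs_smul, zero_add]
      have := mul_pos he hμ
      nlinarith
  have hden : 0 < 1 + ‖ν‖ + ‖ν'‖ := by positivity
  refine ⟨ρ / (1 + ‖ν‖ + ‖ν'‖), div_pos hρ hden, fun ε ε' he he1 he' he1' => ?_⟩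
  rw [lt_div_iff₀ hden] at he1 he1'
  refine cmp_of hconv.isPreconnected hoff (hin m (left_mem_segment ℝ m m') ν hν ε he ?_)
    (hin m' (right_mem_segment ℝ m m') ν' hν' ε' he' ?_)
  · nlinarith [norm_nonneg ν, norm_nonneg ν']
  · nlinarith [norm_nonneg ν, norm_nonneg ν']

end MP7e112f
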