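import Pool.Agent.Lib.MP_7e112f_co.WJ

/-!
# MP_7e112f_co, EG module SubC: a diagonal cuts a simple closed chain into two simple closed chains
-/

open Set

namespace MP7e112f

private theorem SubC_inn_le (p : ℕ → ℂ) {i j k : ℕ} (h : k ≤ j - i) : inn p i j k = p (i + k) :=
  if_pos h

private theorem SubC_inn_gt (p : ℕ → ℂ) {i j k : ℕ} (h : j - i < k) : inn p i j k = p i :=
  if_neg (not_le.2 h)

private theorem SubC_out_le (p : ℕ → ℂ) {i j k : ℕ} (h : k ≤ i) : out p i j k = p k :=
  if_pos h

private theorem SubC_out_gt (p : ℕ → ℂ) {i j k : ℕ} (h : i < k) :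
    out p i j k = p (k + (j - i - 1)) :=
  if_neg (not_le.2 h)

/-- a point of the chain on the closed diagonal is an endpoint -/
private theorem SubC_end {p : ℕ → ℂ} {n i j : ℕ}
    (hD : ∀ x ∈ openSegment ℝ (p i) (p j), x ∉ crv p n) {x : ℂ} (hx : x ∈ segment ℝ (p i) (p j))
    {k : ℕ} (hk : k < n) (hxk : x ∈ segment ℝ (p k) (p (k + 1))) : x = p i ∨ x = p j := by
  by_contra hc
  rw [not_or] at hc
  exact hD x (mem_openSegment_of_ne_left_right (Ne.symm hc.1) (Ne.symm hc.2) hx) ⟨k, hk, hxk⟩

/-- The edges of `inn p i j` are the edges `i, …, j - 1` of `p` and `[p j, p i]`. -/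
theorem mem_inn {p : ℕ → ℂ} {i j : ℕ} (hij : i + 2 ≤ j) {z : ℂ} :
    z ∈ crv (inn p i j) (j - i + 1) ↔
      (∃ k, i ≤ k ∧ k < j ∧ z ∈ segment ℝ (p k) (p (k + 1))) ∨ z ∈ segment ℝ (p j) (p i) := by
  constructor
  · rintro ⟨k, hk, hz⟩
    rcases Nat.lt_or_ge k (j - i) with hlt | hge
    · refine Or.inl ⟨i + k, by omega, by omega, ?_⟩
      rwa [SubC_inn_le p hlt.le, SubC_inn_le p (by omega : k + 1 ≤ j - i), ← add_assoc] at hz
    · have hkj : k = j - i := by omega
      subst hkj
      rw [SubC_inn_le p le_rfl, SubC_inn_gt p (Nat.lt_succ_self _),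
        show i + (j - i) = j by omega] at hz
      exact Or.inr hz
  · rintro (⟨k, hik, hkj, hz⟩ | hz)
    · refine ⟨k - i, by omega, ?_⟩
      rwa [SubC_inn_le p (by omega : k - i ≤ j - i), SubC_inn_le p (by omega : k - i + 1 ≤ j - i),
        show i + (k - i) = k by omega, show i + (k - i + 1) = k + 1 by omega]
    · refine ⟨j - i, by omega, ?_⟩
      rwa [SubC_inn_le p le_rfl, SubC_inn_gt p (Nat.lt_succ_self _),
        show i + (j - i) = j by omega]

/-- The edges of `out p i j` are the edges `0, …, i - 1` and `j, …, n - 1` of `p` and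
`[p i, p j]`. -/
theorem mem_out {p : ℕ → ℂ} {n i j : ℕ} (hij : i + 2 ≤ j) (hj : j < n) {z : ℂ} :
    z ∈ crv (out p i j) (n - (j - i - 1)) ↔
      (∃ k < n, (k < i ∨ j ≤ k) ∧ z ∈ segment ℝ (p k) (p (k + 1))) ∨
        z ∈ segment ℝ (p i) (p j) := by
  constructor
  · rintro ⟨k, hk, hz⟩
    rcases Nat.lt_trichotomy k i with hlt | heq | hgt
    · refine Or.inl ⟨k, by omega, Or.inl hlt, ?_⟩
      rwa [SubC_out_le p hlt.le, SubC_out_le p (by omega : k + 1 ≤ i)] at hz
    · subst heq
      rw [SubC_out_le p le_rfl, SubC_out_gt p (Nat.lt_succ_self _),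
        show k + 1 + (j - k - 1) = j by omega] at hz
      exact Or.inr hz
    · refine Or.inl ⟨k + (j - i - 1), by omega, Or.inr (by omega), ?_⟩
      rwa [SubC_out_gt p hgt, SubC_out_gt p (by omega : i < k + 1),
        show k + 1 + (j - i - 1) = k + (j - i - 1) + 1 by omega] at hz
  · rintro (⟨k, hk, hki | hjk, hz⟩ | hz)
    · refine ⟨k, by omega, ?_⟩
      rwa [SubC_out_le p hki.le, SubC_out_le p (by omega : k + 1 ≤ i)]
    · refine ⟨k - (j - i - 1), by omega, ?_⟩
      rwa [SubC_out_gt p (by omega : i < k - (j - i - 1)),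
        SubC_out_gt p (by omega : i < k - (j - i - 1) + 1),
        show k - (j - i - 1) + (j - i - 1) = k by omega,
        show k - (j - i - 1) + 1 + (j - i - 1) = k + 1 by omega]
    · refine ⟨i, by omega, ?_⟩
      rwa [SubC_out_le p le_rfl, SubC_out_gt p (Nat.lt_succ_self _),
        show i + 1 + (j - i - 1) = j by omega]

/-- The edges of `p` meet as in `SC.inter`; the new edge `[p j, p i]` (index `j - i`) is disjoint
from the chain except for its endpoints (`hD`), which are vertices of `p` and lie only on the edges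
`i` (and `i - 1`, which is not in `inn`) and `j - 1` (and `j`, not in `inn`). -/
theorem inn_SC {p : ℕ → ℂ} {n i j : ℕ} (h : SC p n) (hij : i + 2 ≤ j) (hj : j < n)
    (hn : j + 2 ≤ i + n) (hD : ∀ x ∈ openSegment ℝ (p i) (p j), x ∉ crv p n) :
    SC (inn p i j) (j - i + 1) := by
  refine ⟨by omega, ?_, ?_, ?_⟩
  · rw [SubC_inn_gt p (Nat.lt_succ_self _), SubC_inn_le p (Nat.zero_le _), add_zero]
  · intro a b ha hb hab
    rw [SubC_inn_le p (by omega), SubC_inn_le p (by omega)] at hab
    have := h.inj _ _ (by omega) (by omega) hab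
    omega
  · intro a b hab hb x hxa hxb
    rw [SubC_inn_le p (by omega : a ≤ j - i), SubC_inn_le p (by omega : a + 1 ≤ j - i),
      ← add_assoc] at hxa
    rcases Nat.lt_or_ge b (j - i) with hlt | hge
    · rw [SubC_inn_le p hlt.le, SubC_inn_le p (by omega : b + 1 ≤ j - i), ← add_assoc] at hxb
      rcases h.inter (i + a) (i + b) (by omega) (by omega) x hxa hxb with ⟨h1, h2⟩ | ⟨h1, h2, h3⟩
      · refine Or.inl ⟨by omega, ?_⟩
        rw [SubC_inn_le p hlt.le, h2]
      · omega
    · have hbj : b = j - i := by omega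
      subst hbj
      rw [SubC_inn_le p le_rfl, SubC_inn_gt p (Nat.lt_succ_self _),
        show i + (j - i) = j by omega, segment_symm] at hxb
      rcases SubC_end hD hxb (by omega : i + a < n) hxa with rfl | rfl
      · right
        have ha0 : a = 0 := by
          by_contra ha
          rcases h.inter i (i + a) (by omega) (by omega) _ (left_mem_segment ℝ _ _) hxa with
            ⟨h1, h2⟩ | ⟨h1, h2, h3⟩
          · have := h.inj _ _ (by omega) (by omega) h2
            omega
          · omega
        refine ⟨ha0, rfl, ?_⟩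
        rw [SubC_inn_le p (Nat.zero_le _), add_zero]
      · left
        have ha1 : i + a + 1 = j := by
          by_contra ha
          rcases h.inter (i + a) j (by omega) (by omega) _ hxa (left_mem_segment ℝ _ _) with
            ⟨h1, h2⟩ | ⟨h1, h2, h3⟩
          · omega
          · have := h.inj _ _ (by omega) (by omega) h3
            omega
        refine ⟨by omega, ?_⟩
        rw [SubC_inn_le p le_rfl, show i + (j - i) = j by omega]

/-- In the same way; the new edge `[p i, p j]` has the index `i`, and
`out p i j (n - (j - i - 1)) = p n = p 0 = out p i j 0`. -/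
theorem out_SC {p : ℕ → ℂ} {n i j : ℕ} (h : SC p n) (hij : i + 2 ≤ j) (hj : j < n)
    (hn : j + 2 ≤ i + n) (hD : ∀ x ∈ openSegment ℝ (p i) (p j), x ∉ crv p n) :
    SC (out p i j) (n - (j - i - 1)) := by
  refine ⟨by omega, ?_, ?_, ?_⟩
  · rw [SubC_out_gt p (by omega : i < n - (j - i - 1)), SubC_out_le p (Nat.zero_le _),
      show n - (j - i - 1) + (j - i - 1) = n by omega, h.cl]
  · intro a b ha hb hab
    rcases Nat.lt_or_ge i a with h1 | h1 <;> rcases Nat.lt_or_ge i b with h2 | h2
    · rw [SubC_out_gt p h1, SubC_out_gt p h2] at hab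
      have := h.inj _ _ (by omega) (by omega) hab
      omega
    · rw [SubC_out_gt p h1, SubC_out_le p h2] at hab
      have := h.inj _ _ (by omega) (by omega) hab
      omega
    · rw [SubC_out_le p h1, SubC_out_gt p h2] at hab
      have := h.inj _ _ (by omega) (by omega) hab
      omega
    · rw [SubC_out_le p h1, SubC_out_le p h2] at hab
      exact h.inj _ _ (by omega) (by omega) hab
  · intro a b hab hb x hxa hxb
    rcases Nat.lt_trichotomy a i with ha | ha | ha
    · rw [SubC_out_le p ha.le, SubC_out_le p (by omega : a + 1 ≤ i)] at hxa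
      rcases Nat.lt_trichotomy b i with hb' | hb' | hb'
      · rw [SubC_out_le p hb'.le, SubC_out_le p (by omega : b + 1 ≤ i)] at hxb
        rcases h.inter a b hab (by omega) x hxa hxb with ⟨h1, h2⟩ | ⟨h1, h2, h3⟩
        · refine Or.inl ⟨h1, ?_⟩
          rw [SubC_out_le p hb'.le, h2]
        · omega
      · subst hb'
        rw [SubC_out_le p le_rfl, SubC_out_gt p (Nat.lt_succ_self _),
          show b + 1 + (j - b - 1) = j by omega] at hxb
        rcases SubC_end hD hxb (by omega : a < n) hxa with rfl | rfl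
        · rcases h.inter a b hab (by omega) _ hxa (left_mem_segment ℝ _ _) with
            ⟨h1, h2⟩ | ⟨h1, h2, h3⟩
          · refine Or.inl ⟨h1, ?_⟩
            rw [SubC_out_le p le_rfl]
          · omega
        · rcases h.inter a j (by omega) (by omega) _ hxa (left_mem_segment ℝ _ _) with
            ⟨h1, h2⟩ | ⟨h1, h2, h3⟩
          · omega
          · have := h.inj _ _ (by omega) (by omega) h3
            omega
      · rw [SubC_out_gt p hb', SubC_out_gt p (by omega : i < b + 1),
          show b + 1 + (j - i - 1) = b + (j - i - 1) + 1 by omega] at hxb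
        rcases h.inter a (b + (j - i - 1)) (by omega) (by omega) x hxa hxb with
          ⟨h1, h2⟩ | ⟨h1, h2, h3⟩
        · omega
        · refine Or.inr ⟨h1, by omega, ?_⟩
          rw [SubC_out_le p (Nat.zero_le _), h3]
    · subst ha
      rw [SubC_out_le p le_rfl, SubC_out_gt p (Nat.lt_succ_self _),
        show a + 1 + (j - a - 1) = j by omega] at hxa
      rw [SubC_out_gt p hab, SubC_out_gt p (by omega : a < b + 1),
        show b + 1 + (j - a - 1) = b + (j - a - 1) + 1 by omega] at hxb
      rcases SubC_end hD hxa (by omega : b + (j - a - 1) < n) hxb with rfl | rfl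
      · rcases h.inter a (b + (j - a - 1)) (by omega) (by omega) _ (left_mem_segment ℝ _ _) hxb
          with ⟨h1, h2⟩ | ⟨h1, h2, h3⟩
        · omega
        · refine Or.inr ⟨h1, by omega, ?_⟩
          rw [SubC_out_le p (Nat.zero_le _), h3]
      · left
        have hb1 : b + (j - a - 1) = j := by
          by_contra hbj
          rcases h.inter j (b + (j - a - 1)) (by omega) (by omega) _ (left_mem_segment ℝ _ _) hxb
            with ⟨h1, h2⟩ | ⟨h1, h2, h3⟩
          · have := h.inj _ _ (by omega) (by omega) h2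
            omega
          · omega
        refine ⟨by omega, ?_⟩
        rw [SubC_out_gt p hab, hb1]
    · rw [SubC_out_gt p ha, SubC_out_gt p (by omega : i < a + 1),
        show a + 1 + (j - i - 1) = a + (j - i - 1) + 1 by omega] at hxa
      rw [SubC_out_gt p (by omega : i < b), SubC_out_gt p (by omega : i < b + 1),
        show b + 1 + (j - i - 1) = b + (j - i - 1) + 1 by omega] at hxb
      rcases h.inter (a + (j - i - 1)) (b + (j - i - 1)) (by omega) (by omega) x hxa hxb with
        ⟨h1, h2⟩ | ⟨h1, h2, h3⟩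
      · refine Or.inl ⟨by omega, ?_⟩
        rw [SubC_out_gt p (by omega : i < b), h2]
      · omega

/-- The sums for `inn` and `out` contain all summands for `p`, and in addition
`arg ((p i - z) / (p j - z))` and `arg ((p j - z) / (p i - z))`, whose sum is `0`: `arg w⁻¹ = - arg w`
for `w` in the slit plane (`Complex.arg_inv`, `Complex.mem_slitPlane_iff_arg`; `slit` for
`z ∉ [p i, p j]`). -/
theorem W_split {p : ℕ → ℂ} {n i j : ℕ} (hij : i + 2 ≤ j) (hj : j < n) {z : ℂ}
    (hz : z ∉ segment ℝ (p i) (p j)) :
    W p n z = W (inn p i j) (j - i + 1) z + W (out p i j) (n - (j - i - 1)) z := by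
  have hneg : Complex.arg ((p i - z) / (p j - z)) + Complex.arg ((p j - z) / (p i - z)) = 0 := by
    have h1 := slit hz
    have h2 : (p i - z) / (p j - z) = ((p j - z) / (p i - z))⁻¹ := (inv_div _ _).symm
    rw [h2, Complex.arg_inv, if_neg (Complex.mem_slitPlane_iff_arg.1 h1).1]
    ring
  set f : ℕ → ℝ := fun k => Complex.arg ((p (k + 1) - z) / (p k - z)) with hf
  have e1 : ∑ k ∈ Finset.range (j - i + 1),
      Complex.arg ((inn p i j (k + 1) - z) / (inn p i j k - z)) =
      ∑ k ∈ Finset.range (j - i), f (i + k) + Complex.arg ((p i - z) / (p j - z)) := by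
    rw [Finset.sum_range_succ, SubC_inn_gt p (Nat.lt_succ_self _), SubC_inn_le p le_rfl,
      show i + (j - i) = j by omega]
    congr 1
    refine Finset.sum_congr rfl fun k hk => ?_
    have hk' := Finset.mem_range.1 hk
    rw [SubC_inn_le p hk'.le, SubC_inn_le p (by omega : k + 1 ≤ j - i), ← add_assoc]
  have e2 : ∑ k ∈ Finset.range (n - (j - i - 1)),
      Complex.arg ((out p i j (k + 1) - z) / (out p i j k - z)) =
      ∑ k ∈ Finset.range i, f k + Complex.arg ((p j - z) / (p i - z)) +
        ∑ k ∈ Finset.range (n - j), f (j + k) := by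
    rw [show n - (j - i - 1) = i + 1 + (n - j) by omega, Finset.sum_range_add,
      Finset.sum_range_succ, SubC_out_gt p (Nat.lt_succ_self _), SubC_out_le p le_rfl,
      show i + 1 + (j - i - 1) = j by omega]
    congr 1
    · congr 1
      refine Finset.sum_congr rfl fun k hk => ?_
      have hk' := Finset.mem_range.1 hk
      rw [SubC_out_le p hk'.le, SubC_out_le p (by omega : k + 1 ≤ i)]
    · refine Finset.sum_congr rfl fun k hk => ?_
      rw [SubC_out_gt p (by omega : i < i + 1 + k), SubC_out_gt p (by omega : i < i + 1 + k + 1),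
        show i + 1 + k + (j - i - 1) = j + k by omega,
        show i + 1 + k + 1 + (j - i - 1) = j + k + 1 by omega]
  have e3 : ∑ k ∈ Finset.range n, f k = ∑ k ∈ Finset.range i, f k +
      ∑ k ∈ Finset.range (j - i), f (i + k) + ∑ k ∈ Finset.range (n - j), f (j + k) := by
    conv_lhs => rw [show n = i + (j - i) + (n - j) by omega]
    rw [Finset.sum_range_add, Finset.sum_range_add, show i + (j - i) = j by omega]
  unfold W
  rw [e1, e2, ← add_div]
  congr 1
  change ∑ k ∈ Finset.range n, f k = _
  rw [e3]
  linarith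

end MP7e112f
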