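import Pool.Agent.Lib.MP_7e112f_co.Defs

/-!
# MP_7e112f_co, EG module Triv: trivial facts used everywhere
-/

open Set

namespace MP7e112f

theorem cs_add (u v w : ℂ) : cs u (v + w) = cs u v + cs u w := by
  simp only [cs, Complex.add_re, Complex.add_im]; ring

theorem cs_sub (u v w : ℂ) : cs u (v - w) = cs u v - cs u w := by
  simp only [cs, Complex.sub_re, Complex.sub_im]; ring

theorem add_cs (u v w : ℂ) : cs (u + v) w = cs u w + cs v w := by
  simp only [cs, Complex.add_re, Complex.add_im]; ring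

theorem sub_cs (u v w : ℂ) : cs (u - v) w = cs u w - cs v w := by
  simp only [cs, Complex.sub_re, Complex.sub_im]; ring

theorem cs_smul (u v : ℂ) (t : ℝ) : cs u (t • v) = t * cs u v := by
  simp only [cs, Complex.real_smul, Complex.mul_re, Complex.mul_im, Complex.ofReal_re,
    Complex.ofReal_im]; ring

theorem smul_cs (u v : ℂ) (t : ℝ) : cs (t • u) v = t * cs u v := by
  simp only [cs, Complex.real_smul, Complex.mul_re, Complex.mul_im, Complex.ofReal_re,
    Complex.ofReal_im]; ring

theorem cs_neg (u v : ℂ) : cs u (-v) = -cs u v := by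
  simp only [cs, Complex.neg_re, Complex.neg_im]; ring

theorem neg_cs (u v : ℂ) : cs (-u) v = -cs u v := by
  simp only [cs, Complex.neg_re, Complex.neg_im]; ring

theorem cs_self (u : ℂ) : cs u u = 0 := by
  simp only [cs]; ring

theorem cs_swap (u v : ℂ) : cs u v = -cs v u := by
  simp only [cs]; ring

theorem cs_zero (u : ℂ) : cs u 0 = 0 := by simp [cs]

theorem zero_cs (u : ℂ) : cs 0 u = 0 := by simp [cs]

theorem cs_I (u : ℂ) : cs u (Complex.I * u) = ‖u‖ ^ 2 := by
  rw [← Complex.normSq_eq_norm_sq, Complex.normSq_apply]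
  simp only [cs, Complex.mul_re, Complex.mul_im, Complex.I_re, Complex.I_im]
  ring

theorem cs_I_pos {u : ℂ} (hu : u ≠ 0) : 0 < cs u (Complex.I * u) := by
  rw [cs_I]
  have := norm_pos_iff.2 hu
  positivity

theorem cr_rot (a b c : ℂ) : cr b c a = cr a b c := by
  simp only [cr, cs, Complex.sub_re, Complex.sub_im]; ring

theorem cr_rot' (a b c : ℂ) : cr c a b = cr a b c := by
  simp only [cr, cs, Complex.sub_re, Complex.sub_im]; ring

theorem cr_swap (a b c : ℂ) : cr b a c = -cr a b c := by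
  simp only [cr, cs, Complex.sub_re, Complex.sub_im]; ring

theorem cr_swap' (a b c : ℂ) : cr a c b = -cr a b c := by
  simp only [cr, cs, Complex.sub_re, Complex.sub_im]; ring

theorem cr_self (a b : ℂ) : cr a a b = 0 := by
  simp only [cr, cs, Complex.sub_re, Complex.sub_im]; ring

theorem cr_self' (a b : ℂ) : cr a b b = 0 := by
  simp only [cr, cs, Complex.sub_re, Complex.sub_im]; ring

theorem cr_self'' (a b : ℂ) : cr a b a = 0 := by
  simp only [cr, cs, Complex.sub_re, Complex.sub_im]; ring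

/-- The value of an affine function at a point, in terms of its values at the vertices of a
triangle. -/
theorem bary (a b c P x u : ℂ) : cr a b c * cs u (P - x) =
    cr P b c * cs u (a - x) + cr a P c * cs u (b - x) + cr a b P * cs u (c - x) := by
  simp only [cr, cs, Complex.sub_re, Complex.sub_im]; ring

theorem cr_sum (a b c P : ℂ) : cr P b c + cr a P c + cr a b P = cr a b c := by
  simp only [cr, cs, Complex.sub_re, Complex.sub_im]; ring

/-- Affine functions on segments. -/
theorem cs_seg {x y z u w : ℂ} (hz : z ∈ segment ℝ x y) : ∃ s t : ℝ, 0 ≤ s ∧ 0 ≤ t ∧ s + t = 1 ∧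
    z = s • x + t • y ∧ cs u (z - w) = s * cs u (x - w) + t * cs u (y - w) := by
  obtain ⟨s, t, hs, ht, hst, rfl⟩ := hz
  refine ⟨s, t, hs, ht, hst, rfl, ?_⟩
  have hs' : s = 1 - t := by linarith
  subst hs'
  simp only [cs, Complex.sub_re, Complex.sub_im, Complex.add_re, Complex.add_im,
    Complex.real_smul, Complex.mul_re, Complex.mul_im, Complex.ofReal_re, Complex.ofReal_im]
  ring

theorem seg_compact (a b : ℂ) : IsCompact (segment ℝ a b) := by
  rw [segment_eq_image]
  exact isCompact_Icc.image (by fun_prop)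

theorem crv_eq (p : ℕ → ℂ) (n : ℕ) :
    crv p n = ⋃ k ∈ Finset.range n, segment ℝ (p k) (p (k + 1)) := by
  ext z; simp [crv]

theorem crv_compact (p : ℕ → ℂ) (n : ℕ) : IsCompact (crv p n) := by
  rw [crv_eq]
  exact Finset.isCompact_biUnion _ fun k _ => seg_compact _ _

theorem crv_closed (p : ℕ → ℂ) (n : ℕ) : IsClosed (crv p n) := (crv_compact p n).isClosed

theorem cmp_subset {p : ℕ → ℂ} {n : ℕ} {z w : ℂ} (h : w ∈ cmp p n z) : w ∉ crv p n :=
  connectedComponentIn_subset _ _ h

theorem mem_cmp {p : ℕ → ℂ} {n : ℕ} {z : ℂ} (h : z ∉ crv p n) : z ∈ cmp p n z :=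
  mem_connectedComponentIn h

theorem mem_of_cmp {p : ℕ → ℂ} {n : ℕ} {z w : ℂ} (h : w ∈ cmp p n z) : z ∉ crv p n := by
  by_contra hz
  have h1 : cmp p n z = ∅ := connectedComponentIn_eq_empty (by simpa using hz)
  rw [h1] at h
  exact h

theorem cmp_eq {p : ℕ → ℂ} {n : ℕ} {z w : ℂ} (h : w ∈ cmp p n z) : cmp p n z = cmp p n w :=
  connectedComponentIn_eq h

theorem cmp_symm {p : ℕ → ℂ} {n : ℕ} {z w : ℂ} (h : w ∈ cmp p n z) : z ∈ cmp p n w := by
  rw [← cmp_eq h]
  exact mem_cmp (mem_of_cmp h)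

theorem cmp_trans {p : ℕ → ℂ} {n : ℕ} {x y z : ℂ} (h : y ∈ cmp p n x) (h' : z ∈ cmp p n y) :
    z ∈ cmp p n x := by
  rwa [cmp_eq h]

/-- A preconnected set off the chain lies in one component. -/
theorem cmp_of {p : ℕ → ℂ} {n : ℕ} {S : Set ℂ} (hS : IsPreconnected S)
    (hd : ∀ x ∈ S, x ∉ crv p n) {x y : ℂ} (hx : x ∈ S) (hy : y ∈ S) : y ∈ cmp p n x :=
  hS.subset_connectedComponentIn hx hd hy

end MP7e112f
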