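import Pool.Agent.Lib.MP_7e112f_co.Triv

/-!
# MP_7e112f_co, EG module WA: the winding number is an integer, continuous, and constant on
preconnected sets off the chain; it vanishes near infinity

`W p n z = (∑ k ∈ range n, arg ((p (k+1) - z) / (p k - z))) / (2 π)`.
-/

open Set

namespace MP7e112f

/-- If `w = (b - z) / (a - z)` were a real number `≤ 0` (this includes `w = 0`, that is `z = b` or
the junk case `z = a`), then `z` would lie on the segment: if `a - z ≠ 0` then `b - z = w (a - z)`,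
so `z = (b - w a) / (1 - w) = (1/(1-w)) b + ((-w)/(1-w)) a`. Use `Complex.mem_slitPlane_iff` (or
`Complex.slitPlane_...`): `w ∉ slitPlane ↔ w.re ≤ 0 ∧ w.im = 0`. -/
theorem slit {a b z : ℂ} (hz : z ∉ segment ℝ a b) : (b - z) / (a - z) ∈ Complex.slitPlane := by
  by_contra h
  rw [Complex.mem_slitPlane_iff, not_or, not_lt, not_not] at h
  obtain ⟨h1, h2⟩ := h
  have ha : a - z ≠ 0 := by
    intro h3
    exact hz (by rw [← sub_eq_zero.1 h3]; exact left_mem_segment ℝ _ _)
  obtain ⟨t, ht⟩ : ∃ t : ℝ, (b - z) / (a - z) = (t : ℂ) :=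
    ⟨((b - z) / (a - z)).re, Complex.ext (by simp) (by simpa using h2)⟩
  rw [ht, Complex.ofReal_re] at h1
  have h3 : b - z = t * (a - z) := by rw [← ht, div_mul_cancel₀ _ ha]
  have h4 : (0:ℝ) < 1 - t := by linarith
  have h5 : ((1 - t : ℝ) : ℂ) ≠ 0 := by exact_mod_cast h4.ne'
  apply hz
  refine ⟨-t / (1 - t), 1 / (1 - t), div_nonneg (by linarith) h4.le, by positivity, ?_, ?_⟩
  · field_simp
    ring
  · rw [Complex.real_smul, Complex.real_smul]
    push_cast at h5 ⊢
    field_simp
    linear_combination h3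

theorem sub_ne {p : ℕ → ℂ} {n k : ℕ} {z : ℂ} (hz : z ∉ crv p n) (hk : k < n) : p k - z ≠ 0 := by
  intro h
  exact hz ⟨k, hk, by rw [← sub_eq_zero.1 h]; exact left_mem_segment ℝ _ _⟩

/-- Let `w k = (p (k+1) - z) / (p k - z)`. All `p k - z` (`k < n`) are nonzero (`sub_ne`), also
`p n - z = p 0 - z`. For `w ≠ 0`: `exp (arg w * I) = w / ‖w‖` (`Complex.norm_mul_exp_arg_mul_I`).
So `exp ((∑ arg (w k)) * I) = ∏ w k / ∏ ‖w k‖ = 1`, because both products telescope
(`Finset.prod_range_div`-like: `∏ k ∈ range n, f (k+1) / f k = f n / f 0`) with `p n = p 0`. By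
`Complex.exp_eq_one_iff` the sum is `2 π m`. For `n = 0` everything is trivial as well. -/
theorem W_int {p : ℕ → ℂ} {n : ℕ} (hcl : p n = p 0) {z : ℂ} (hz : z ∉ crv p n) :
    ∃ m : ℤ, W p n z = m := by
  rcases Nat.eq_zero_or_pos n with rfl | hn
  · exact ⟨0, by simp [W]⟩
  have hne : ∀ k < n, p (k + 1) - z ≠ 0 := by
    intro k hk h
    exact hz ⟨k, hk, by rw [← sub_eq_zero.1 h]; exact right_mem_segment ℝ _ _⟩
  have h0 : p 0 - z ≠ 0 := sub_ne hz hn
  have hprod : ∀ m ≤ n, ∏ k ∈ Finset.range m, (p (k + 1) - z) / (p k - z) =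
      (p m - z) / (p 0 - z) := by
    intro m
    induction m with
    | zero =>
      intro _
      rw [Finset.prod_range_zero, div_self h0]
    | succ m ih =>
      intro hm
      have h1 := sub_ne hz (k := m) (by omega)
      rw [Finset.prod_range_succ, ih (by omega)]
      field_simp
  have h1 : ∏ k ∈ Finset.range n, (p (k + 1) - z) / (p k - z) = 1 := by
    rw [hprod n le_rfl, hcl, div_self h0]
  have h2 : Complex.exp (((∑ k ∈ Finset.range n,
      Complex.arg ((p (k + 1) - z) / (p k - z)) : ℝ) : ℂ) * Complex.I) = 1 := by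
    rw [Complex.ofReal_sum, Finset.sum_mul, Complex.exp_sum]
    have h3 : ∏ k ∈ Finset.range n, (p (k + 1) - z) / (p k - z) =
        (∏ k ∈ Finset.range n, ((‖(p (k + 1) - z) / (p k - z)‖ : ℝ) : ℂ)) *
          ∏ k ∈ Finset.range n, Complex.exp
            ((Complex.arg ((p (k + 1) - z) / (p k - z)) : ℂ) * Complex.I) := by
      rw [← Finset.prod_mul_distrib]
      exact Finset.prod_congr rfl fun k _ => (Complex.norm_mul_exp_arg_mul_I _).symm
    have h4 : ∏ k ∈ Finset.range n, ((‖(p (k + 1) - z) / (p k - z)‖ : ℝ) : ℂ) = 1 := by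
      rw [← Complex.ofReal_prod, ← norm_prod, h1, norm_one, Complex.ofReal_one]
    rw [h1, h4, one_mul] at h3
    exact h3.symm
  obtain ⟨m, hm⟩ := Complex.exp_eq_one_iff.1 h2
  refine ⟨m, ?_⟩
  have h5 : ((∑ k ∈ Finset.range n, Complex.arg ((p (k + 1) - z) / (p k - z)) : ℝ) : ℂ) =
      ((m * (2 * Real.pi) : ℝ) : ℂ) := by
    apply mul_right_cancel₀ Complex.I_ne_zero
    rw [hm]
    push_cast
    ring
  have h6 : ∑ k ∈ Finset.range n, Complex.arg ((p (k + 1) - z) / (p k - z)) =
      m * (2 * Real.pi) := by exact_mod_cast h5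
  unfold W
  rw [h6, mul_div_assoc, div_self (by positivity), mul_one]

/-- Each summand is continuous at `z ∉ [p k, p (k+1)]`: the quotient is continuous since
`p k - z ≠ 0`, and `Complex.arg` is continuous on the slit plane (`Complex.continuousAt_arg`),
see `slit`. -/
theorem W_cont (p : ℕ → ℂ) (n : ℕ) : ContinuousOn (W p n) (crv p n)ᶜ := by
  unfold W
  refine ContinuousOn.div_const ?_ _
  refine continuousOn_finsetSum _ fun k hk => ?_
  intro z hz
  have hk' := Finset.mem_range.1 hk
  have h1 : z ∉ segment ℝ (p k) (p (k + 1)) := fun h => hz ⟨k, hk', h⟩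
  have h2 : ContinuousAt (fun w => (p (k + 1) - w) / (p k - w)) z :=
    ContinuousAt.div (by fun_prop) (by fun_prop) (sub_ne hz hk')
  exact (ContinuousAt.comp (f := fun w => (p (k + 1) - w) / (p k - w)) (g := Complex.arg)
    (Complex.continuousAt_arg (slit h1)) h2).continuousWithinAt

/-- `W p n '' S` is a preconnected set of real numbers (`W_cont`), all of whose elements are
integers (`W_int`), so it has at most one element: if it contained integers `a < b` then it would
contain `a + 1/2` (`IsPreconnected.intermediate_value` or `OrdConnected`). -/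
theorem W_const {p : ℕ → ℂ} {n : ℕ} (hcl : p n = p 0) {S : Set ℂ} (hS : IsPreconnected S)
    (hd : ∀ x ∈ S, x ∉ crv p n) {x y : ℂ} (hx : x ∈ S) (hy : y ∈ S) : W p n x = W p n y := by
  have key : ∀ x ∈ S, ∀ y ∈ S, ¬ W p n x < W p n y := by
    intro x hx y hy hlt
    have h1 : IsPreconnected (W p n '' S) := hS.image _ ((W_cont p n).mono hd)
    obtain ⟨a, ha⟩ := W_int hcl (hd x hx)
    obtain ⟨b, hb⟩ := W_int hcl (hd y hy)
    have h2 := h1.Icc_subset (mem_image_of_mem _ hx) (mem_image_of_mem _ hy)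
    rw [ha, hb] at hlt h2
    have hab : a + 1 ≤ b := by exact_mod_cast hlt
    have hab' : (a:ℝ) + 1 ≤ b := by exact_mod_cast hab
    obtain ⟨c, hc, hc'⟩ := h2 (show (a:ℝ) + 1 / 2 ∈ Icc (a:ℝ) b from ⟨by linarith, by linarith⟩)
    obtain ⟨d, hd'⟩ := W_int hcl (hd c hc)
    rw [hd'] at hc'
    have h3 : (2 * d : ℝ) = 2 * a + 1 := by linarith
    have h4 : 2 * d = 2 * a + 1 := by exact_mod_cast h3
    omega
  exact le_antisymm (not_lt.1 (key y hy x hx)) (not_lt.1 (key x hx y hy))

/-- The chain is bounded (`crv_compact`), so `z ∉ crv p n` for large `‖z‖`. For `‖z‖ → ∞` each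
quotient `(p (k+1) - z) / (p k - z) = 1 + (p (k+1) - p k) / (p k - z)` tends to `1`, so its argument
tends to `arg 1 = 0`; so `W p n z → 0` along `Bornology.cobounded ℂ`, and by `W_int` it is `0` when
`|W p n z| < 1`. -/
theorem W_far {p : ℕ → ℂ} {n : ℕ} (hcl : p n = p 0) :
    ∃ R : ℝ, ∀ z : ℂ, R < ‖z‖ → z ∉ crv p n ∧ W p n z = 0 := by
  have hcr : ∀ᶠ z in Bornology.cobounded ℂ, z ∉ crv p n :=
    Bornology.isBounded_def.1 (crv_compact p n).isBounded
  have hlim : Filter.Tendsto (W p n) (Bornology.cobounded ℂ) (nhds 0) := by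
    have h1 : ∀ k, Filter.Tendsto (fun z => Complex.arg ((p (k + 1) - z) / (p k - z)))
        (Bornology.cobounded ℂ) (nhds 0) := by
      intro k
      have h2 : Filter.Tendsto (fun z => (p k - z)⁻¹) (Bornology.cobounded ℂ) (nhds 0) :=
        Filter.tendsto_inv₀_cobounded.comp (tendsto_const_sub_cobounded (p k))
      have h3 : Filter.Tendsto (fun z => 1 + (p (k + 1) - p k) * (p k - z)⁻¹)
          (Bornology.cobounded ℂ) (nhds 1) := by
        have := (h2.const_mul (p (k + 1) - p k)).const_add 1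
        simpa using this
      have h4 : Filter.Tendsto (fun z => (p (k + 1) - z) / (p k - z))
          (Bornology.cobounded ℂ) (nhds 1) := by
        refine h3.congr' ?_
        have h5 : ∀ᶠ z in Bornology.cobounded ℂ, z ∉ ({p k} : Set ℂ) :=
          Bornology.isBounded_def.1 Bornology.isBounded_singleton
        filter_upwards [h5] with z hz
        have h6 : p k - z ≠ 0 := fun h => hz (sub_eq_zero.1 h).symm
        field_simp
        ring
      have h7 := (Complex.continuousAt_arg Complex.one_mem_slitPlane).tendsto.comp h4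
      rw [Complex.arg_one] at h7
      exact h7
    have h8 := (tendsto_finsetSum (Finset.range n) fun k _ => h1 k).div_const (2 * Real.pi)
    have h9 : W p n = fun z => (∑ k ∈ Finset.range n,
        Complex.arg ((p (k + 1) - z) / (p k - z))) / (2 * Real.pi) := rfl
    rw [h9]
    simpa using h8
  have h1 : ∀ᶠ z in Bornology.cobounded ℂ, |W p n z| < 1 := by
    have := hlim.abs.eventually (gt_mem_nhds (by norm_num : |(0:ℝ)| < 1))
    exact this
  have h2 : ∀ᶠ z in Bornology.cobounded ℂ, z ∉ crv p n ∧ W p n z = 0 := by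
    filter_upwards [hcr, h1] with z hz hz'
    refine ⟨hz, ?_⟩
    obtain ⟨m, hm⟩ := W_int hcl hz
    rw [hm] at hz' ⊢
    have h3 : |m| < 1 := by exact_mod_cast hz'
    rw [Int.abs_lt_one_iff.1 h3, Int.cast_zero]
  obtain ⟨R, -, hR⟩ := (Filter.hasBasis_cobounded_norm (E := ℂ)).eventually_iff.1 h2
  exact ⟨R, fun z hz => hR (show R ≤ ‖z‖ from hz.le)⟩

/-- From `W_const` for the connected component. -/
theorem W_cmp {p : ℕ → ℂ} {n : ℕ} (hcl : p n = p 0) {y z : ℂ} (hy : y ∈ cmp p n z) :
    W p n y = W p n z := by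
  exact W_const hcl isPreconnected_connectedComponentIn (fun x hx => cmp_subset hx) hy
    (mem_cmp (mem_of_cmp hy))

/-- An unbounded component contains a point with `R < ‖z‖`, `R` from `W_far`. -/
theorem W_unb {p : ℕ → ℂ} {n : ℕ} (hcl : p n = p 0) {z : ℂ}
    (hu : ¬ Bornology.IsBounded (cmp p n z)) : W p n z = 0 := by
  obtain ⟨R, hR⟩ := W_far (p := p) (n := n) hcl
  obtain ⟨y, hy, hy'⟩ : ∃ y ∈ cmp p n z, R < ‖y‖ := by
    by_contra h
    apply hu
    rw [isBounded_iff_forall_norm_le]
    exact ⟨R, fun y hy => not_lt.1 fun h1 => h ⟨y, hy, h1⟩⟩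
  rw [← W_cmp hcl hy]
  exact (hR y hy').2

end MP7e112f
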