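import Pool.Agent.Lib.MP_7e112f_co.WA

/-!
# MP_7e112f_co, EG module WJ: the winding number jumps by one across an edge
-/

open Set

namespace MP7e112f

private theorem WJ_edge_ne {p : ℕ → ℂ} {n k : ℕ} (h : SC p n) (hk : k < n) :
    p k ≠ p (k + 1) := by
  intro he
  rcases Nat.lt_or_ge (k + 1) n with h1 | h1
  · have := h.inj k (k + 1) hk h1 he
    omega
  · have h2 : k + 1 = n := by omega
    rw [h2, h.cl] at he
    have h3 := h.three
    have := h.inj k 0 hk (by omega) he
    omega

/-- A point of the open `k`-th edge lies on no other edge. From `SC.inter` (for `j < k` and for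
`k < j`) the point would be a vertex `p k`, `p j` with `j = k + 1`, or `p 0` (with `k + 1 = n` or
`k = 0`), i.e. `p k` or `p (k+1)`; but an open segment with distinct endpoints does not contain its
endpoints, and `p k ≠ p (k+1)` by `SC.inj` (if `k + 1 = n` then `p (k+1) = p 0`, `k ≠ 0`). -/
theorem open_not_mem {p : ℕ → ℂ} {n k j : ℕ} (h : SC p n) (hk : k < n) (hj : j < n) (hjk : j ≠ k)
    {m : ℂ} (hm : m ∈ openSegment ℝ (p k) (p (k + 1))) : m ∉ segment ℝ (p j) (p (j + 1)) := by
  intro hmj
  have hne := WJ_edge_ne h hk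
  have hl : m ≠ p k := by
    rintro rfl
    exact hne (left_mem_openSegment_iff.mp hm)
  have hr : m ≠ p (k + 1) := by
    rintro rfl
    exact hne (right_mem_openSegment_iff.mp hm)
  have hmk := openSegment_subset_segment ℝ _ _ hm
  rcases Nat.lt_or_gt_of_ne hjk with h1 | h1
  · rcases h.inter j k h1 hk m hmj hmk with ⟨-, h2⟩ | ⟨-, h3, h2⟩
    · exact hl h2
    · apply hr
      rw [h2, h3, h.cl]
  · rcases h.inter k j h1 hj m hmk hmj with ⟨h3, h2⟩ | ⟨h3, -, h2⟩
    · apply hr
      rw [h2, h3]
    · apply hl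
      rw [h2, h3]

/-- `p k ≠ p (k+1)` for `k < n`. -/
theorem edge_ne {p : ℕ → ℂ} {n k : ℕ} (h : SC p n) (hk : k < n) : p k ≠ p (k + 1) :=
  WJ_edge_ne h hk

/-- Let `a = p k`, `b = p (k+1)`, `d = b - a` (`d ≠ 0` since `cs d ν > 0`), `m = a + t d` with
`0 < t < 1`. For `j ≠ k` the `j`-th summand `z ↦ arg ((p (j+1) - z) / (p j - z))` is continuous at
`m` (see `WA`: `slit`, the proof of `W_cont`), so its values at `m + ε ν` and at `m - ε ν` have the
same limit as `ε → 0`. For the `k`-th summand put `w(z) = (b - z) / (a - z)`, which is continuous at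
`m` with `w(m) = -(1-t)/t < 0`, and `Im w(z) = cs (a - z) (b - z) / |a - z|² = cs d (z - a) / |a - z|²`
(direct computation), so `Im w(m + ε ν) = ε cs d ν / |..|² > 0` and `Im w(m - ε ν) < 0` for small
`ε > 0`. By `Complex.continuousWithinAt_arg_of_re_neg_of_im_zero` the argument tends to `π` along
`m + ε ν`, and by `Complex.tendsto_arg_nhdsWithin_im_neg_of_re_neg_of_im_zero` to `-π` along
`m - ε ν`. So `W p n (m + ε ν) - W p n (m - ε ν) → 1` as `ε → 0+`. Both points are off the chain
for small `ε`: the other edges are closed and do not contain `m`; and the points are not on the line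
of the `k`-th edge since `cs d (m ± ε ν - a) = ± ε cs d ν ≠ 0` (while `cs d (x - a) = 0` for `x` on
the edge). By `W_int` the difference is an integer, so it is `1` for small `ε`. -/
theorem W_jump {p : ℕ → ℂ} {n k : ℕ} (hcl : p n = p 0) (hk : k < n) {m ν : ℂ}
    (hm : m ∈ openSegment ℝ (p k) (p (k + 1)))
    (ho : ∀ j < n, j ≠ k → m ∉ segment ℝ (p j) (p (j + 1)))
    (hν : 0 < cs (p (k + 1) - p k) ν) :
    ∃ δ > 0, ∀ ε : ℝ, 0 < ε → ε < δ → m + ε • ν ∉ crv p n ∧ m - ε • ν ∉ crv p n ∧
      W p n (m + ε • ν) = W p n (m - ε • ν) + 1 := by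
  set a := p k with ha
  set b := p (k + 1) with hb
  set d := b - a with hd
  obtain ⟨s, t, hs, ht, hst, hmeq⟩ := hm
  have hd0 : d ≠ 0 := by
    intro h
    rw [h, zero_cs] at hν
    exact lt_irrefl _ hν
  have hma : m - a = t • d := by
    have hs' : s = 1 - t := by linarith
    rw [← hmeq, hs', hd]
    simp only [Complex.real_smul]
    push_cast
    ring
  have hmb : m - b = -(s • d) := by
    have hs' : t = 1 - s := by linarith
    rw [← hmeq, hs', hd]
    simp only [Complex.real_smul]
    push_cast
    ring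
  have hline : ∀ ε : ℝ, cs d (m + ε • ν - a) = ε * cs d ν := by
    intro ε
    have h1 : m + ε • ν - a = t • d + ε • ν := by rw [← hma]; ring
    rw [h1, cs_add, cs_smul, cs_smul, cs_self]
    ring
  have hseg0 : ∀ x ∈ segment ℝ a b, cs d (x - a) = 0 := by
    rintro x ⟨s', t', -, -, hst', rfl⟩
    have h1 : s' • a + t' • b - a = t' • d := by
      have hs' : s' = 1 - t' := by linarith
      rw [hs', hd]
      simp only [Complex.real_smul]
      push_cast
      ring
    rw [h1, cs_smul, cs_self, mul_zero]
  have hTp : Filter.Tendsto (fun ε : ℝ => m + ε • ν) (nhdsWithin 0 (Ioi 0)) (nhds m) := by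
    have h1 : Continuous (fun ε : ℝ => m + ε • ν) := by fun_prop
    have h2 := h1.tendsto 0
    rw [zero_smul, add_zero] at h2
    exact h2.mono_left nhdsWithin_le_nhds
  have hTm : Filter.Tendsto (fun ε : ℝ => m - ε • ν) (nhdsWithin 0 (Ioi 0)) (nhds m) := by
    have h1 : Continuous (fun ε : ℝ => m - ε • ν) := by fun_prop
    have h2 := h1.tendsto 0
    rw [zero_smul, sub_zero] at h2
    exact h2.mono_left nhdsWithin_le_nhds
  -- off the chain
  have hoff : ∀ᶠ ε : ℝ in nhdsWithin 0 (Ioi 0),
      m + ε • ν ∉ crv p n ∧ m - ε • ν ∉ crv p n := by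
    have h1 : ∀ j ∈ Finset.range n, ∀ᶠ ε : ℝ in nhdsWithin 0 (Ioi 0),
        m + ε • ν ∉ segment ℝ (p j) (p (j + 1)) ∧ m - ε • ν ∉ segment ℝ (p j) (p (j + 1)) := by
      intro j hj
      rw [Finset.mem_range] at hj
      by_cases hjk : j = k
      · subst hjk
        filter_upwards [self_mem_nhdsWithin] with ε hε
        have hε' : 0 < ε := hε
        constructor
        · intro h2
          have h3 := hseg0 _ h2
          rw [hline] at h3
          have : 0 < ε * cs d ν := mul_pos hε' hν
          linarith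
        · intro h2
          have h3 := hseg0 _ h2
          have h4 : m - ε • ν - a = m + (-ε) • ν - a := by rw [neg_smul]; ring
          rw [h4, hline] at h3
          have : 0 < ε * cs d ν := mul_pos hε' hν
          linarith
      · have h2 : (segment ℝ (p j) (p (j + 1)))ᶜ ∈ nhds m :=
          (seg_compact _ _).isClosed.isOpen_compl.mem_nhds (ho j hj hjk)
        filter_upwards [hTp.eventually h2, hTm.eventually h2] with ε h3 h4
        exact ⟨h3, h4⟩
    rw [← Filter.eventually_all_finset] at h1
    filter_upwards [h1] with ε h2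
    constructor
    · rintro ⟨j, hj, h3⟩
      exact (h2 j (Finset.mem_range.mpr hj)).1 h3
    · rintro ⟨j, hj, h3⟩
      exact (h2 j (Finset.mem_range.mpr hj)).2 h3
  -- the limit of the difference
  have hterm : ∀ j ∈ Finset.range n, Filter.Tendsto (fun ε : ℝ =>
      Complex.arg ((p (j + 1) - (m + ε • ν)) / (p j - (m + ε • ν))) -
        Complex.arg ((p (j + 1) - (m - ε • ν)) / (p j - (m - ε • ν))))
      (nhdsWithin 0 (Ioi 0)) (nhds (if j = k then 2 * Real.pi else 0)) := by
    intro j hj
    rw [Finset.mem_range] at hj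
    by_cases hjk : j = k
    · subst hjk
      rw [if_pos rfl]
      have ham : a - m ≠ 0 := by
        have h1 : a - m = -(t • d) := by rw [← hma]; ring
        rw [h1, neg_ne_zero]
        exact smul_ne_zero ht.ne' hd0
      have hcont : ContinuousAt (fun z : ℂ => (b - z) / (a - z)) m :=
        ContinuousAt.div (by fun_prop) (by fun_prop) ham
      have hwm : (b - m) / (a - m) = ((-(s / t) : ℝ) : ℂ) := by
        have h1 : a - m = -(t • d) := by rw [← hma]; ring
        have h2 : b - m = s • d := by
          have : b - m = -(m - b) := by ring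
          rw [this, hmb, neg_neg]
        have ht' : (t : ℂ) ≠ 0 := by exact_mod_cast ht.ne'
        rw [h1, h2]
        simp only [Complex.real_smul]
        push_cast
        field_simp
      have hre : ((b - m) / (a - m)).re < 0 := by
        rw [hwm, Complex.ofReal_re]
        have : 0 < s / t := div_pos hs ht
        linarith
      have him : ((b - m) / (a - m)).im = 0 := by
        rw [hwm, Complex.ofReal_im]
      have himz : ∀ z : ℂ, ((b - z) / (a - z)).im = cs d (z - a) / Complex.normSq (a - z) := by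
        intro z
        rw [Complex.div_im, hd]
        simp only [cs, Complex.sub_re, Complex.sub_im]
        ring
      have hcp : Filter.Tendsto (fun ε : ℝ => (b - (m + ε • ν)) / (a - (m + ε • ν)))
          (nhdsWithin 0 (Ioi 0)) (nhds ((b - m) / (a - m))) := hcont.tendsto.comp hTp
      have hcm : Filter.Tendsto (fun ε : ℝ => (b - (m - ε • ν)) / (a - (m - ε • ν)))
          (nhdsWithin 0 (Ioi 0)) (nhds ((b - m) / (a - m))) := hcont.tendsto.comp hTm
      have hp1 : Filter.Tendsto (fun ε : ℝ => Complex.arg ((b - (m + ε • ν)) / (a - (m + ε • ν))))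
          (nhdsWithin 0 (Ioi 0)) (nhds Real.pi) := by
        have h1 := Complex.continuousWithinAt_arg_of_re_neg_of_im_zero hre him
        have h2 : Complex.arg ((b - m) / (a - m)) = Real.pi :=
          Complex.arg_eq_pi_iff.mpr ⟨hre, him⟩
        have h3 : Filter.Tendsto Complex.arg
            (nhdsWithin ((b - m) / (a - m)) {z : ℂ | 0 ≤ z.im}) (nhds Real.pi) := by
          rw [← h2]
          exact h1
        refine h3.comp (tendsto_nhdsWithin_iff.mpr ⟨hcp, ?_⟩)
        filter_upwards [self_mem_nhdsWithin] with ε hε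
        have hε' : 0 < ε := hε
        show 0 ≤ ((b - (m + ε • ν)) / (a - (m + ε • ν))).im
        rw [himz, hline]
        exact div_nonneg (mul_pos hε' hν).le (Complex.normSq_nonneg _)
      have hm1 : Filter.Tendsto (fun ε : ℝ => Complex.arg ((b - (m - ε • ν)) / (a - (m - ε • ν))))
          (nhdsWithin 0 (Ioi 0)) (nhds (-Real.pi)) := by
        have h3 := Complex.tendsto_arg_nhdsWithin_im_neg_of_re_neg_of_im_zero hre him
        refine h3.comp (tendsto_nhdsWithin_iff.mpr ⟨hcm, ?_⟩)
        filter_upwards [self_mem_nhdsWithin] with ε hε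
        have hε' : 0 < ε := hε
        show ((b - (m - ε • ν)) / (a - (m - ε • ν))).im < 0
        have h4 : m - ε • ν - a = m + (-ε) • ν - a := by rw [neg_smul]; ring
        rw [himz, h4, hline]
        have h5 : a - (m - ε • ν) ≠ 0 := by
          intro h6
          have h7 : cs d (m + (-ε) • ν - a) = 0 := by
            have h8 : m + (-ε) • ν - a = -(a - (m - ε • ν)) := by rw [neg_smul]; ring
            rw [h8, h6, neg_zero, cs_zero]
          rw [hline] at h7
          have : 0 < ε * cs d ν := mul_pos hε' hν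
          linarith
        have h6 : 0 < Complex.normSq (a - (m - ε • ν)) := Complex.normSq_pos.mpr h5
        refine div_neg_of_neg_of_pos ?_ h6
        have : 0 < ε * cs d ν := mul_pos hε' hν
        linarith
      have h9 := hp1.sub hm1
      have h10 : Real.pi - -Real.pi = 2 * Real.pi := by ring
      rw [h10] at h9
      exact h9
    · rw [if_neg hjk]
      have hmj := ho j hj hjk
      have hne : p j - m ≠ 0 := by
        intro h
        apply hmj
        rw [← sub_eq_zero.mp h]
        exact left_mem_segment ℝ _ _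
      have hc1 : ContinuousAt (fun z : ℂ => (p (j + 1) - z) / (p j - z)) m :=
        ContinuousAt.div (by fun_prop) (by fun_prop) hne
      have hc2 : ContinuousAt (fun z : ℂ => Complex.arg ((p (j + 1) - z) / (p j - z))) m :=
        ContinuousAt.comp (f := fun z : ℂ => (p (j + 1) - z) / (p j - z)) (g := Complex.arg)
          (Complex.continuousAt_arg (slit hmj)) hc1
      have h1 := (hc2.tendsto.comp hTp).sub (hc2.tendsto.comp hTm)
      rw [sub_self] at h1
      exact h1
  have hlim : Filter.Tendsto (fun ε : ℝ => W p n (m + ε • ν) - W p n (m - ε • ν))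
      (nhdsWithin 0 (Ioi 0)) (nhds 1) := by
    have h1 := (tendsto_finset_sum _ hterm).div_const (2 * Real.pi)
    rw [Finset.sum_ite_eq' (Finset.range n) k (fun _ => 2 * Real.pi),
      if_pos (Finset.mem_range.mpr hk), div_self (by positivity)] at h1
    refine h1.congr (fun ε => ?_)
    unfold W
    rw [Finset.sum_sub_distrib, sub_div]
  have hnear : ∀ᶠ ε : ℝ in nhdsWithin 0 (Ioi 0),
      |W p n (m + ε • ν) - W p n (m - ε • ν) - 1| < 1 := by
    have h1 := (Metric.tendsto_nhds.mp hlim) 1 one_pos
    filter_upwards [h1] with ε h2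
    rwa [Real.dist_eq] at h2
  obtain ⟨δ, hδ, hsub⟩ := mem_nhdsGT_iff_exists_Ioo_subset.mp (hoff.and hnear)
  refine ⟨δ, hδ, fun ε hε hεδ => ?_⟩
  obtain ⟨⟨h1, h2⟩, h3⟩ := hsub ⟨hε, hεδ⟩
  refine ⟨h1, h2, ?_⟩
  obtain ⟨m1, hm1⟩ := W_int hcl h1
  obtain ⟨m2, hm2⟩ := W_int hcl h2
  rw [hm1, hm2] at h3 ⊢
  have h4 : |((m1 - m2 - 1 : ℤ) : ℝ)| < 1 := by
    push_cast
    exact h3
  have h5 : |m1 - m2 - 1| < 1 := by exact_mod_cast h4
  have h6 : m1 - m2 - 1 = 0 := Int.abs_lt_one_iff.mp h5
  have h7 : m1 = m2 + 1 := by omega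
  rw [h7]
  push_cast
  ring

end MP7e112f
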